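import Mathlib

/-!
Definitions for the recognition of solid bricks: multigraphs, tight and separating cuts, bricks;
hafnian and permanent over lists; the algorithm modulo powers of two.
-/

set_option autoImplicit false

namespace Pool.Agent.Work.MP_0f7328_co

/-- A loopless multigraph with vertex set `V` and edge set `E`. -/
structure MGraph (V E : Type) where
  ends : E → Sym2 V
  loopless : ∀ e, ¬ (ends e).IsDiag

namespace MGraph

variable {V E : Type} (G : MGraph V E)

/-- The underlying simple graph. -/
def simple : SimpleGraph V where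
  Adj u v := ∃ e, G.ends e = s(u, v)
  symm := ⟨fun u v ⟨e, he⟩ => ⟨e, by rw [he]; exact Sym2.eq_swap⟩⟩
  loopless := ⟨fun v ⟨e, he⟩ => G.loopless e (by rw [he]; exact Sym2.mk_isDiag_iff.2 rfl)⟩

/-- The cut with shore `X`: the edges with one end in `X` and one end outside. -/
def cut (X : Set V) : Set E :=
  {e | (∃ v ∈ G.ends e, v ∈ X) ∧ ∃ v ∈ G.ends e, v ∉ X}

/-- `M` is a perfect matching. -/
def IsPM (M : Set E) : Prop := ∀ v, ∃! e, e ∈ M ∧ v ∈ G.ends e

/-- Connected, at least two vertices, and every edge is in a perfect matching. -/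
def MatchingCovered : Prop :=
  G.simple.Connected ∧ Nontrivial V ∧ ∀ e, ∃ M, G.IsPM M ∧ e ∈ M

open Classical in
/-- The map that shrinks `X` to one new vertex `none`. -/
noncomputable def proj (X : Set V) (v : V) : Option {v : V // v ∉ X} :=
  if h : v ∈ X then none else some ⟨v, h⟩

theorem proj_mem {X : Set V} {v : V} (h : v ∈ X) : proj X v = none := by
  simp [proj, h]

theorem proj_not_mem {X : Set V} {v : V} (h : v ∉ X) : proj X v = some ⟨v, h⟩ := by
  simp [proj, h]

theorem proj_not_isDiag {X : Set V} (z : Sym2 V) (hl : ¬ z.IsDiag) (v : V) (hv : v ∈ z)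
    (hvX : v ∉ X) : ¬ (z.map (proj X)).IsDiag := by
  induction z using Sym2.ind with
  | _ a b =>
    have hab : a ≠ b := fun h => hl (Sym2.mk_isDiag_iff.2 h)
    intro hd
    rw [Sym2.map_mk, Sym2.mk_isDiag_iff] at hd
    by_cases ha : a ∈ X
    · by_cases hb : b ∈ X
      · rcases Sym2.mem_iff.1 hv with rfl | rfl
        · exact hvX ha
        · exact hvX hb
      · simp [proj_mem ha, proj_not_mem hb] at hd
    · by_cases hb : b ∈ X
      · simp [proj_not_mem ha, proj_mem hb] at hd
      · simp only [proj_not_mem ha, proj_not_mem hb, Option.some.injEq, Subtype.mk.injEq] at hd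
        exact hab hd

/-- The contraction `G/X`: `X` is shrunk to one vertex and the loops that arise are deleted. -/
noncomputable def contract (X : Set V) :
    MGraph (Option {v : V // v ∉ X}) {e : E // ∃ v ∈ G.ends e, v ∉ X} where
  ends e := (G.ends e.1).map (proj X)
  loopless := fun ⟨e, v, hv, hvX⟩ => proj_not_isDiag _ (G.loopless e) v hv hvX

/-- Every perfect matching has exactly one edge in the cut. -/
def Tight (X : Set V) : Prop := ∀ M, G.IsPM M → ∃! e, e ∈ M ∧ e ∈ G.cut X

/-- Both contractions are matching covered. -/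
def Separating (X : Set V) : Prop :=
  (G.contract X).MatchingCovered ∧ (G.contract Xᶜ).MatchingCovered

/-- One shore is a single vertex. -/
def IsTrivial (X : Set V) : Prop := X.ncard = 1 ∨ Xᶜ.ncard = 1

/-- Bricks: nonbipartite matching covered graphs without nontrivial tight cuts. -/
def IsBrick : Prop :=
  G.MatchingCovered ∧ ¬ G.simple.Colorable 2 ∧
    ∀ X : Set V, Odd X.ncard → G.Tight X → IsTrivial X

/-- Every separating cut is tight. -/
def Solid : Prop := ∀ X : Set V, Odd X.ncard → G.Separating X → G.Tight X

end MGraph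

section simple

variable {V : Type}

/-- Perfect matchings of a simple graph, as involutions. -/
def PMs (H : SimpleGraph V) : Set (Equiv.Perm V) :=
  {τ | (∀ v, τ (τ v) = v) ∧ ∀ v, H.Adj v (τ v)}

/-- The number of elements of `X` that are moved out of `X`. -/
def crosses [DecidableEq V] (τ : Equiv.Perm V) (X : Finset V) : ℕ :=
  (X.filter (fun v => τ v ∉ X)).card

/-- Two vertex-disjoint odd cycles `C`, `D` and a perfect matching of the remaining vertices, as
one permutation. -/
def TwoOdd (H : SimpleGraph V) : Prop :=
  ∃ (σ : Equiv.Perm V) (C D : Finset V), (∀ v, H.Adj v (σ v)) ∧ Disjoint C D ∧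
    Odd C.card ∧ Odd D.card ∧ σ.IsCycleOn C ∧ σ.IsCycleOn D ∧
    ∀ v, v ∉ C → v ∉ D → σ (σ v) = v

/-- The matrix of a permutation. -/
def pmMat [DecidableEq V] (τ : Equiv.Perm V) : V → V → ℝ := fun u v => if τ u = v then 1 else 0

/-- The perfect matching polytope of the complete graph. -/
def pmPoly (V : Type) [DecidableEq V] : Set (V → V → ℝ) :=
  convexHull ℝ {x | ∃ τ : Equiv.Perm V, (∀ v, τ (τ v) = v) ∧ (∀ v, τ v ≠ v) ∧ x = pmMat τ}

/-- The polytope given by Edmonds's inequalities. -/
structure InQ [Fintype V] [DecidableEq V] (x : V → V → ℝ) : Prop where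
  symm : ∀ u v, x u v = x v u
  nonneg : ∀ u v, 0 ≤ x u v
  diag : ∀ v, x v v = 0
  row : ∀ v, ∑ u, x v u = 1
  cut : ∀ X : Finset V, Odd X.card → 1 ≤ ∑ u ∈ X, ∑ v ∈ Xᶜ, x u v

end simple

section haf

variable {ι κ R : Type} [DecidableEq ι] [DecidableEq κ] [CommRing R]

/-- The hafnian of `A` on the indices in a list. -/
def haf (A : ι → ι → R) : List ι → R
  | [] => 1
  | i :: t => (t.map fun j => A i j * haf A (t.erase j)).sum
termination_by l => l.length
decreasing_by
  have := List.length_erase_le (a := j) (l := t)
  simp only [List.length_cons]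
  omega

omit [DecidableEq κ] in
theorem haf_nil (A : ι → ι → R) : haf A [] = 1 := by rw [haf]

omit [DecidableEq κ] in
theorem haf_cons (A : ι → ι → R) (i : ι) (t : List ι) :
    haf A (i :: t) = (t.map fun j => A i j * haf A (t.erase j)).sum := by rw [haf]

/-- The permanent of `A` with rows and columns given by lists. -/
def per (A : ι → κ → R) : List ι → List κ → R
  | [], [] => 1
  | [], _ :: _ => 0
  | i :: t, r => (r.map fun j => A i j * per A t (r.erase j)).sum

end haf

/-! ### the algorithm -/

/-- Operations on representatives of ring elements. -/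
structure Ops (α : Type) where
  zero : α
  one : α
  add : α → α → α
  mul : α → α → α
  neg : α → α
  unit : α → Bool
  inv : α → α

section algo

variable {α : Type} (o : Ops α)

/-- Entry of a matrix given as list of rows. -/
def mget (M : List (List α)) (p q : ℕ) : α := (M.getD p []).getD q o.zero

/-- Add `c` times row and column `j` to row and column `i`, leaving the entry `(i, i)`. -/
def upd (M : List (List α)) (i j : ℕ) (c : α) : List (List α) :=
  (List.range M.length).map fun p => (List.range M.length).map fun q =>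
    if p = i ∧ q ≠ i then o.add (mget o M p q) (o.mul c (mget o M j q))
    else if q = i ∧ p ≠ i then o.add (mget o M p q) (o.mul c (mget o M p j))
    else o.add (mget o M p q) o.zero

/-- Sum of a list. -/
def osum (l : List α) : α := l.foldl o.add o.zero

/-- The correction term: `2 c` times the sum over the pairs `p < q` of `L` of
`M j p * M j q * low (L without p, q)`. -/
def corr (low : List (List α) → List ℕ → α) (M : List (List α)) (j : ℕ) (c : α) (L : List ℕ) : α :=
  let s := osum o (L.flatMap fun p => (L.filter fun q => decide (p < q)).map fun q =>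
    o.mul (o.mul (mget o M j p) (mget o M j q)) (low M ((L.erase p).erase q)))
  o.mul c (o.add s s)

/-- One elimination step: make the entry `(i₀, i)` vanish with the help of the unit entry
`(i₀, j)`. State: matrix and accumulated value. -/
def elim1 (low : List (List α) → List ℕ → α) (i₀ j : ℕ) (S : List ℕ)
    (s : List (List α) × α) (i : ℕ) : List (List α) × α :=
  let c := o.neg (o.mul (mget o s.1 i₀ i) (o.inv (mget o s.1 i₀ j)))
  (upd o s.1 i j c, o.add s.2 (o.neg (corr o low s.1 j c ((S.erase i).erase j))))

/-- One step of the main loop. State: matrix, remaining indices, factor, accumulated value. -/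
def step (low : List (List α) → List ℕ → α) (s : List (List α) × List ℕ × α × α) :
    List (List α) × List ℕ × α × α :=
  match s.2.1 with
  | [] => s
  | i₀ :: t =>
    match t.find? (fun j => o.unit (mget o s.1 i₀ j)) with
    | none => (s.1, [], o.zero, o.add s.2.2.2 (o.mul s.2.2.1
        (osum o (t.map fun j => o.mul (mget o s.1 i₀ j) (low s.1 (t.erase j))))))
    | some j =>
      let r := (t.erase j).foldl (elim1 o low i₀ j s.2.1) (s.1, o.zero)
      (r.1, t.erase j, o.mul s.2.2.1 (mget o s.1 i₀ j), o.add s.2.2.2 (o.mul s.2.2.1 r.2))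

/-- The hafnian modulo `2 ^ k`. -/
def hk : ℕ → List (List α) → List ℕ → α
  | 0 => fun _ _ => o.zero
  | k + 1 => fun M S =>
    let s := S.foldl (fun s _ => step o (hk k) s) (M, S, o.one, o.zero)
    o.add s.2.2.2 s.2.2.1

end algo

/-! ### the ring `Z/8[x]/(x^(2N) + x^N + 1)` -/

open Polynomial in
/-- The polynomial `x^(2N) + x^N + 1`. -/
noncomputable def fpoly (R : Type) [CommRing R] (N : ℕ) : R[X] := X ^ (2 * N) + X ^ N + 1

/-- The Galois ring. -/
abbrev GR (N : ℕ) : Type := AdjoinRoot (fpoly (ZMod 8) N)

/-- The residue field. -/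
abbrev GF (N : ℕ) : Type := AdjoinRoot (fpoly (ZMod 2) N)

/-- Value of a list of coefficients. -/
noncomputable def val (N : ℕ) (l : List ℕ) : GR N :=
  ∑ i ∈ Finset.range (2 * N), ((l.getD i 0 : ℕ) : GR N) * AdjoinRoot.root (fpoly (ZMod 8) N) ^ i

/-- Value in the residue field. -/
noncomputable def valF (N : ℕ) (l : List ℕ) : GF N :=
  ∑ i ∈ Finset.range (2 * N), ((l.getD i 0 : ℕ) : GF N) * AdjoinRoot.root (fpoly (ZMod 2) N) ^ i

/-- sum -/
def gadd (N : ℕ) (a b : List ℕ) : List ℕ :=
  (List.range (2 * N)).map fun i => (a.getD i 0 + b.getD i 0) % 8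

/-- multiple -/
def gsmul (N : ℕ) (c : ℕ) (a : List ℕ) : List ℕ :=
  (List.range (2 * N)).map fun i => (c * a.getD i 0) % 8

/-- `x` times `a` -/
def gx (N : ℕ) (a : List ℕ) : List ℕ :=
  (List.range (2 * N)).map fun i =>
    ((if i = 0 then 0 else a.getD (i - 1) 0) +
      (if i = 0 ∨ i = N then 7 * a.getD (2 * N - 1) 0 else 0)) % 8

/-- product, by Horner's rule -/
def gmul (N : ℕ) (a b : List ℕ) : List ℕ :=
  (List.range (2 * N)).reverse.foldl
    (fun acc i => gadd N (gx N acc) (gsmul N (b.getD i 0) a)) []

/-- some coefficient is odd -/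
def gunit (N : ℕ) (a : List ℕ) : Bool := (List.range (2 * N)).any fun i => decide (a.getD i 0 % 2 = 1)

/-- the power with exponent `2 ^ (2 N + 2) - 5` -/
def ginv (N : ℕ) (a : List ℕ) : List ℕ :=
  ((List.range (2 * N + 2)).foldl
    (fun (s : List ℕ × List ℕ) j => (gmul N s.1 s.1, if j = 2 then s.2 else gmul N s.2 s.1))
    (a, [1])).2

/-- all coefficients vanish modulo 8 -/
def gzero (N : ℕ) (a : List ℕ) : Bool := (List.range (2 * N)).all fun i => decide (a.getD i 0 % 8 = 0)

/-- The operations of the Galois ring on lists of coefficients. -/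
def gops (N : ℕ) : Ops (List ℕ) where
  zero := []
  one := [1]
  add := gadd N
  mul := gmul N
  neg := gsmul N 7
  unit := gunit N
  inv := ginv N

/-! ### further definitions -/

section more

variable {V : Type} [Fintype V] [DecidableEq V]

/-- the matrix obtained by shrinking the complement of `X` to `none` -/
def shrink (X : Finset V) (x : V → V → ℝ) : Option {v // v ∈ X} → Option {v // v ∈ X} → ℝ
  | some a, some b => x a b
  | some a, none => ∑ v ∈ Xᶜ, x a v
  | none, some b => ∑ v ∈ Xᶜ, x v b
  | none, none => 0

end more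

section more2

variable {R : Type} [CommRing R]

/-- the bipartite double -/
def dbl (n : ℕ) (A : ℕ → ℕ → R) (p q : ℕ) : R :=
  if p < n ∧ n ≤ q then A p (q - n) else if q < n ∧ n ≤ p then A q (p - n) else 0

end more2

section more3

variable {n : ℕ}

/-- edges of a permutation, with multiplicities -/
noncomputable def mon (σ : Equiv.Perm (Fin n)) : Sym2 (Fin n) →₀ ℕ :=
  ∑ i, Finsupp.single s(i, σ i) 1

/-- edges of an involution without fixed points -/
noncomputable def monI (τ : Equiv.Perm (Fin n)) : Sym2 (Fin n) →₀ ℕ :=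
  ∑ i with i < τ i, Finsupp.single s(i, τ i) 1

/-- involution without fixed points -/
def Inv (τ : Equiv.Perm (Fin n)) : Prop := (∀ v, τ (τ v) = v) ∧ ∀ v, τ v ≠ v

/-- the shape of `TwoOdd` -/
def Shape (σ : Equiv.Perm (Fin n)) : Prop :=
  ∃ C D : Finset (Fin n), Disjoint C D ∧ Odd C.card ∧ Odd D.card ∧ σ.IsCycleOn C ∧ σ.IsCycleOn D ∧
    ∀ v, v ∉ C → v ∉ D → σ (σ v) = v

end more3

section more4

variable {α R : Type} [CommRing R]

/-- `v` respects the operations, unit entries are invertible, the others are divisible by 2. -/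
structure Good (o : Ops α) (v : α → R) : Prop where
  zero : v o.zero = 0
  one : v o.one = 1
  add : ∀ a b, v (o.add a b) = v a + v b
  mul : ∀ a b, v (o.mul a b) = v a * v b
  neg : ∀ a, v (o.neg a) = - v a
  unit : ∀ a, o.unit a = true → v a * v (o.inv a) = 1
  even : ∀ a, o.unit a = false → ∃ b, v a = 2 * b

/-- Square symmetric matrix with zero diagonal. -/
structure SymM (o : Ops α) (v : α → R) (M : List (List α)) : Prop where
  symm : ∀ p q, v (mget o M p q) = v (mget o M q p)
  diag : ∀ p, v (mget o M p p) = 0

end more4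

/-- the `k`-th block of `2 N` bits, as a list of coefficients -/
def blk (N : ℕ) (r : List Bool) (k : ℕ) : List ℕ :=
  ((r.drop (k * (2 * N))).take (2 * N)).map fun b => if b then 1 else 0

/-- number of the block of a pair -/
def pidx {n : ℕ} (z : Sym2 (Fin n)) : ℕ := z.inf.1 * n + z.sup.1

/-- A power of three that is at least `m`. -/
def pow3 (m : ℕ) : ℕ := (List.range m).foldl (fun s _ => if s < m then 3 * s else s) 1

/-- Entry of the random symmetric matrix of a graph given by the list `E` of its edges. -/
def entry (N n : ℕ) (E : List (ℕ × ℕ)) (r : List Bool) (p q : ℕ) : List ℕ :=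
  if (p, q) ∈ E ∨ (q, p) ∈ E then blk N r (min p q * n + max p q) else []

/-- The random symmetric matrix. -/
def amat (N n : ℕ) (E : List (ℕ × ℕ)) (r : List Bool) : List (List (List ℕ)) :=
  (List.range n).map fun p => (List.range n).map fun q => entry N n E r p q

/-- Its bipartite double. -/
def dmat (N n : ℕ) (E : List (ℕ × ℕ)) (r : List Bool) : List (List (List ℕ)) :=
  (List.range (2 * n)).map fun p => (List.range (2 * n)).map fun q =>
    if p < n ∧ n ≤ q then entry N n E r p (q - n)
    else if q < n ∧ n ≤ p then entry N n E r q (p - n) else []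

/-- The test: permanent minus square of the hafnian is zero. -/
def test (N n : ℕ) (E : List (ℕ × ℕ)) (r : List Bool) : Bool :=
  gzero N (gadd N (hk (gops N) 3 (dmat N n E r) (List.range (2 * n)))
    (gsmul N 7 (gmul N (hk (gops N) 3 (amat N n E r) (List.range n))
      (hk (gops N) 3 (amat N n E r) (List.range n)))))

end Pool.Agent.Work.MP_0f7328_co
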