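import Mathlib
import Pool.Agent.Work.MP_0f7328_co.Defs

/-!
Module CoefA for MP_0f7328_co: monomials of permutations and pairs of perfect matchings.
-/

set_option autoImplicit false

namespace Pool.Agent.Work.MP_0f7328_co

section coef
open scoped Classical
variable {n : ℕ}

theorem apply_inv (σ : Equiv.Perm (Fin n)) (v : Fin n) : σ (σ⁻¹ v) = v := σ.apply_symm_apply v

theorem inv_apply (σ : Equiv.Perm (Fin n)) (v : Fin n) : σ⁻¹ (σ v) = v := σ.symm_apply_apply v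

theorem mon_apply (σ : Equiv.Perm (Fin n)) {a b : Fin n} (hab : a ≠ b) :
    mon σ s(a, b) = (if σ a = b then 1 else 0) + (if σ⁻¹ a = b then 1 else 0) := by
  rw [mon, Finsupp.finset_sum_apply]
  have h1 : ∀ i : Fin n, (Finsupp.single s(i, σ i) 1 : Sym2 (Fin n) →₀ ℕ) s(a, b) =
      (if i = a then (if σ a = b then 1 else 0) else 0) +
      (if i = b then (if σ⁻¹ a = b then 1 else 0) else 0) := by
    intro i
    rw [Finsupp.single_apply]
    by_cases hia : i = a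
    · subst hia
      rw [if_pos rfl, if_neg hab, add_zero]
      congr 1
      rw [Sym2.eq_iff, eq_iff_iff]
      constructor
      · rintro (⟨_, h⟩ | ⟨h, _⟩)
        · exact h
        · exact absurd h hab
      · intro h
        exact Or.inl ⟨rfl, h⟩
    · rw [if_neg hia, zero_add]
      by_cases hib : i = b
      · subst hib
        rw [if_pos rfl]
        congr 1
        rw [Sym2.eq_iff, eq_iff_iff, Equiv.Perm.inv_eq_iff_eq]
        constructor
        · rintro (⟨h, _⟩ | ⟨_, h⟩)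
          · exact absurd h hia
          · exact h.symm
        · intro h
          exact Or.inr ⟨rfl, h.symm⟩
      · rw [if_neg hib, if_neg]
        rw [Sym2.eq_iff]
        rintro (⟨h, _⟩ | ⟨h, _⟩)
        · exact hia h
        · exact hib h
  rw [Finset.sum_congr rfl (fun i _ => h1 i), Finset.sum_add_distrib]
  simp

theorem mon_diag (σ : Equiv.Perm (Fin n)) (a : Fin n) :
    mon σ s(a, a) = if σ a = a then 1 else 0 := by
  rw [mon, Finsupp.finset_sum_apply]
  have h1 : ∀ i : Fin n, (Finsupp.single s(i, σ i) 1 : Sym2 (Fin n) →₀ ℕ) s(a, a) =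
      (if i = a then (if σ a = a then 1 else 0) else 0) := by
    intro i
    rw [Finsupp.single_apply]
    by_cases hia : i = a
    · subst hia
      rw [if_pos rfl]
      congr 1
      rw [Sym2.eq_iff, eq_iff_iff]
      constructor
      · rintro (⟨_, h⟩ | ⟨_, h⟩) <;> exact h
      · intro h
        exact Or.inl ⟨rfl, h⟩
    · rw [if_neg hia, if_neg]
      rw [Sym2.eq_iff]
      rintro (⟨h, _⟩ | ⟨h, _⟩) <;> exact hia h
  rw [Finset.sum_congr rfl (fun i _ => h1 i)]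
  simp

theorem monI_apply {τ : Equiv.Perm (Fin n)} (hτ : Inv τ) {a b : Fin n} (hab : a ≠ b) :
    monI τ s(a, b) = if τ a = b then 1 else 0 := by
  rw [monI, Finsupp.finset_sum_apply]
  -- the only possible index is `min a b`
  have h1 : ∀ i ∈ Finset.univ.filter (fun i : Fin n => i < τ i),
      (Finsupp.single s(i, τ i) 1 : Sym2 (Fin n) →₀ ℕ) s(a, b) =
      (if i = min a b then (if τ a = b then 1 else 0) else 0) := by
    intro i hi
    rw [Finset.mem_filter] at hi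
    rw [Finsupp.single_apply]
    by_cases h : s(i, τ i) = s(a, b)
    · rw [if_pos h]
      rw [Sym2.eq_iff] at h
      rcases h with ⟨h1, h2⟩ | ⟨h1, h2⟩
      · subst h1
        have h3 : i < b := by rw [← h2]; exact hi.2
        rw [if_pos (min_eq_left h3.le).symm, if_pos h2]
      · subst h1
        have h3 : i < a := by rw [← h2]; exact hi.2
        have h4 : τ a = i := by rw [← h2]; exact hτ.1 i
        rw [if_pos (min_eq_right h3.le).symm, if_pos h4]
    · rw [if_neg h]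
      by_cases h2 : i = min a b
      · rw [if_pos h2]
        symm
        apply if_neg
        intro h3
        apply h
        rcases min_choice a b with h4 | h4
        · rw [h2, h4, h3]
        · have h5 : τ b = a := by rw [← h3]; exact hτ.1 a
          rw [h2, h4, h5]
          exact Sym2.eq_swap
      · rw [if_neg h2]
  rw [Finset.sum_congr rfl h1, Finset.sum_ite_eq']
  by_cases h : τ a = b
  · rw [if_pos h, if_pos]
    rw [Finset.mem_filter]
    refine ⟨Finset.mem_univ _, ?_⟩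
    have h2 : τ b = a := by rw [← h]; exact hτ.1 a
    rcases lt_or_gt_of_ne hab with h3 | h3
    · rw [min_eq_left h3.le, h]; exact h3
    · rw [min_eq_right h3.le, h2]; exact h3
  · rw [if_neg h]; simp

theorem monI_diag {τ : Equiv.Perm (Fin n)} (a : Fin n) :
    monI τ s(a, a) = 0 := by
  rw [monI, Finsupp.finset_sum_apply]
  apply Finset.sum_eq_zero
  intro i hi
  rw [Finset.mem_filter] at hi
  rw [Finsupp.single_apply, if_neg]
  rw [Sym2.eq_iff]
  rintro (⟨h1, h2⟩ | ⟨h1, h2⟩) <;> (rw [h2, h1] at hi; exact lt_irrefl _ hi.2)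

/-- two monomials are equal iff they agree on pairs -/
theorem ext2 {m m' : Sym2 (Fin n) →₀ ℕ} (h : ∀ a b, m s(a, b) = m' s(a, b)) : m = m' := by
  ext z
  induction z using Sym2.ind with
  | _ a b => exact h a b

theorem mon_ne_zero (σ : Equiv.Perm (Fin n)) (a : Fin n) : mon σ s(a, σ a) ≠ 0 := by
  by_cases h : a = σ a
  · rw [← h, mon_diag, if_pos h.symm]; exact one_ne_zero
  · rw [mon_apply σ h, if_pos rfl]; omega

theorem monI_ne_zero {τ : Equiv.Perm (Fin n)} (hτ : Inv τ) (a : Fin n) :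
    monI τ s(a, τ a) ≠ 0 := by
  rw [monI_apply hτ (hτ.2 a).symm, if_pos rfl]
  exact one_ne_zero

/-- glue two involutions along a colouring -/
def glue (c : Fin n → Bool) (τ₁ τ₂ : Fin n → Fin n) (v : Fin n) : Fin n :=
  if c v = true then τ₁ v else τ₂ v

theorem glue_glue (c : Fin n → Bool) (τ₁ τ₂ : Fin n → Fin n) (h1 : ∀ v, τ₁ (τ₁ v) = v)
    (h2 : ∀ v, τ₂ (τ₂ v) = v) (c1 : ∀ v, c v ≠ c (τ₁ v)) (c2 : ∀ v, c v ≠ c (τ₂ v)) (v : Fin n) :
    glue c τ₂ τ₁ (glue c τ₁ τ₂ v) = v := by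
  unfold glue
  cases hv : c v with
  | true =>
    have h3 : c (τ₁ v) = false := by
      have := c1 v
      rw [hv] at this
      simpa using this.symm
    simp [h3, h1]
  | false =>
    have h3 : c (τ₂ v) = true := by
      have := c2 v
      rw [hv] at this
      simpa using this.symm
    simp [h3, h2]

/-- unglue a permutation along a colouring -/
theorem unglue_unglue (c : Fin n → Bool) (σ : Equiv.Perm (Fin n)) (hc : ∀ v, c v ≠ c (σ v))
    (v : Fin n) : glue c σ (σ⁻¹ : Equiv.Perm (Fin n)) (glue c σ (σ⁻¹ : Equiv.Perm (Fin n)) v) = v := by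
  unfold glue
  cases hv : c v with
  | true =>
    have h3 : c (σ v) = false := by
      have := hc v
      rw [hv] at this
      simpa using this.symm
    rw [if_pos rfl, h3, if_neg (by simp), inv_apply]
  | false =>
    have h3 : c (σ⁻¹ v) = true := by
      have := hc (σ⁻¹ v)
      rw [apply_inv, hv] at this
      simpa using this
    simp only [Bool.false_eq_true, if_false]
    rw [if_pos h3, apply_inv]

/-- (τ₁, τ₂) ↦ σ with σ v = τ₁ v if c v, τ₂ v otherwise; inverse: τ₁ v = σ v if c v, σ⁻¹ v otherwise,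
τ₂ v = σ⁻¹ v if c v, σ v otherwise. -/
theorem coefA1 (m : Sym2 (Fin n) →₀ ℕ) (c : Fin n → Bool)
    (hc : ∀ u v, m s(u, v) ≠ 0 → c u ≠ c v) :
    Nat.card {σ : Equiv.Perm (Fin n) // mon σ = m} =
      Nat.card {τ : Equiv.Perm (Fin n) × Equiv.Perm (Fin n) //
        Inv τ.1 ∧ Inv τ.2 ∧ monI τ.1 + monI τ.2 = m} := by
  -- the colouring is proper for the permutations involved
  have cσ : ∀ σ : Equiv.Perm (Fin n), mon σ = m → ∀ v, c v ≠ c (σ v) := by
    intro σ h v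
    apply hc
    rw [← h]
    exact mon_ne_zero σ v
  have cσ' : ∀ σ : Equiv.Perm (Fin n), mon σ = m → ∀ v, c v ≠ c (σ⁻¹ v) := by
    intro σ h v
    have := cσ σ h (σ⁻¹ v)
    rw [apply_inv] at this
    exact this.symm
  have cτ1 : ∀ τ₁ τ₂ : Equiv.Perm (Fin n), Inv τ₁ → monI τ₁ + monI τ₂ = m →
      ∀ v, c v ≠ c (τ₁ v) := by
    intro τ₁ τ₂ h1 h v
    apply hc
    rw [← h, Finsupp.add_apply]
    have := monI_ne_zero h1 v
    omega
  have cτ2 : ∀ τ₁ τ₂ : Equiv.Perm (Fin n), Inv τ₂ → monI τ₁ + monI τ₂ = m →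
      ∀ v, c v ≠ c (τ₂ v) := by
    intro τ₁ τ₂ h1 h v
    apply hc
    rw [← h, Finsupp.add_apply]
    have := monI_ne_zero h1 v
    omega
  -- `m` vanishes on pairs of the same colour
  have hm0 : ∀ u v, c u = c v → m s(u, v) = 0 := by
    intro u v h
    by_contra h2
    exact hc u v h2 h
  -- the two maps
  obtain ⟨T1, T1v⟩ : ∃ T1 : ∀ σ : Equiv.Perm (Fin n), mon σ = m → Equiv.Perm (Fin n),
      ∀ σ h v, T1 σ h v = if c v = true then σ v else σ⁻¹ v :=
    ⟨fun σ h => ⟨glue c σ (σ⁻¹ : Equiv.Perm (Fin n)), glue c σ (σ⁻¹ : Equiv.Perm (Fin n)),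
      unglue_unglue c σ (cσ σ h), unglue_unglue c σ (cσ σ h)⟩, fun _ _ _ => rfl⟩
  have hT2 : ∀ (σ : Equiv.Perm (Fin n)) (h : mon σ = m) (v : Fin n),
      glue c (σ⁻¹ : Equiv.Perm (Fin n)) σ (glue c (σ⁻¹ : Equiv.Perm (Fin n)) σ v) = v := by
    intro σ h v
    have := unglue_unglue c σ⁻¹ (cσ' σ h) v
    rwa [inv_inv] at this
  obtain ⟨T2, T2v⟩ : ∃ T2 : ∀ σ : Equiv.Perm (Fin n), mon σ = m → Equiv.Perm (Fin n),
      ∀ σ h v, T2 σ h v = if c v = true then σ⁻¹ v else σ v :=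
    ⟨fun σ h => ⟨glue c (σ⁻¹ : Equiv.Perm (Fin n)) σ, glue c (σ⁻¹ : Equiv.Perm (Fin n)) σ,
      hT2 σ h, hT2 σ h⟩, fun _ _ _ => rfl⟩
  have T1I : ∀ σ h, Inv (T1 σ h) := by
    intro σ h
    refine ⟨fun v => ?_, fun v hv => ?_⟩
    · rw [T1v, T1v]; exact unglue_unglue c σ (cσ σ h) v
    rw [T1v] at hv
    split_ifs at hv
    · exact cσ σ h v (by rw [hv])
    · exact cσ' σ h v (by rw [hv])
  have T2I : ∀ σ h, Inv (T2 σ h) := by
    intro σ h
    refine ⟨fun v => ?_, fun v hv => ?_⟩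
    · rw [T2v, T2v]; exact hT2 σ h v
    rw [T2v] at hv
    split_ifs at hv
    · exact cσ' σ h v (by rw [hv])
    · exact cσ σ h v (by rw [hv])
  have Tm : ∀ σ h, monI (T1 σ h) + monI (T2 σ h) = m := by
    intro σ h
    apply ext2
    intro a b
    rw [Finsupp.add_apply]
    by_cases hab : a = b
    · subst hab
      rw [monI_diag, monI_diag, hm0 a a rfl]
    · rw [monI_apply (T1I σ h) hab, monI_apply (T2I σ h) hab, T1v, T2v, ← h, mon_apply σ hab]
      split_ifs <;> rfl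
  obtain ⟨S, Sv, Sv'⟩ : ∃ S : ∀ τ₁ τ₂ : Equiv.Perm (Fin n), Inv τ₁ → Inv τ₂ →
      monI τ₁ + monI τ₂ = m → Equiv.Perm (Fin n),
      (∀ τ₁ τ₂ h1 h2 h v, S τ₁ τ₂ h1 h2 h v = if c v = true then τ₁ v else τ₂ v) ∧
      (∀ τ₁ τ₂ h1 h2 h v, (S τ₁ τ₂ h1 h2 h)⁻¹ v = if c v = true then τ₂ v else τ₁ v) := by
    refine ⟨fun τ₁ τ₂ h1 h2 h => ⟨glue c τ₁ τ₂, glue c τ₂ τ₁, ?_, ?_⟩,
      fun _ _ _ _ _ _ => rfl, fun _ _ _ _ _ _ => rfl⟩
    · exact glue_glue c τ₁ τ₂ h1.1 h2.1 (cτ1 τ₁ τ₂ h1 h) (cτ2 τ₁ τ₂ h2 h)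
    · exact glue_glue c τ₂ τ₁ h2.1 h1.1 (cτ2 τ₁ τ₂ h2 h) (cτ1 τ₁ τ₂ h1 h)
  have Sm : ∀ τ₁ τ₂ h1 h2 h, mon (S τ₁ τ₂ h1 h2 h) = m := by
    intro τ₁ τ₂ h1 h2 h
    apply ext2
    intro a b
    by_cases hab : a = b
    · subst hab
      rw [mon_diag, hm0 a a rfl, if_neg]
      rw [Sv]
      split_ifs
      · exact h1.2 a
      · exact h2.2 a
    · rw [mon_apply _ hab, Sv, Sv', ← h, Finsupp.add_apply, monI_apply h1 hab, monI_apply h2 hab]
      split_ifs <;> rfl
  apply Nat.card_congr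
  refine ⟨fun σ => ⟨(T1 σ.1 σ.2, T2 σ.1 σ.2), T1I _ _, T2I _ _, Tm _ _⟩,
    fun τ => ⟨S τ.1.1 τ.1.2 τ.2.1 τ.2.2.1 τ.2.2.2, Sm _ _ _ _ _⟩, ?_, ?_⟩
  · rintro ⟨σ, h⟩
    apply Subtype.ext
    apply Equiv.ext
    intro v
    simp only [Sv, T1v, T2v]
    split_ifs <;> rfl
  · rintro ⟨⟨τ₁, τ₂⟩, h1, h2, h⟩
    apply Subtype.ext
    apply Prod.ext
    · apply Equiv.ext
      intro v
      simp only [T1v, Sv, Sv']
      split_ifs <;> rfl
    · apply Equiv.ext
      intro v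
      simp only [T2v, Sv, Sv']
      split_ifs <;> rfl

/-- The union of two perfect matchings is bipartite. -/
theorem coefA2 (τ₁ τ₂ : Equiv.Perm (Fin n)) (h₁ : Inv τ₁) (h₂ : Inv τ₂) :
    ∃ c : Fin n → Bool, ∀ u v, (monI τ₁ + monI τ₂) s(u, v) ≠ 0 → c u ≠ c v := by
  set ρ : Equiv.Perm (Fin n) := τ₂ * τ₁ with hρ
  have i1 : τ₁⁻¹ = τ₁ := by
    rw [inv_eq_iff_mul_eq_one]
    ext v
    rw [Equiv.Perm.mul_apply, h₁.1]; rfl
  have i2 : τ₂⁻¹ = τ₂ := by
    rw [inv_eq_iff_mul_eq_one]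
    ext v
    rw [Equiv.Perm.mul_apply, h₂.1]; rfl
  -- `τ₁ ρ^j = ρ^(-j) τ₁`
  have hconj : τ₁ * ρ * τ₁⁻¹ = ρ⁻¹ := by
    rw [hρ, mul_inv_rev, i1, i2, mul_assoc, mul_assoc]
    have : τ₁ * τ₁ = 1 := by
      ext v
      rw [Equiv.Perm.mul_apply, h₁.1]; rfl
    rw [this, mul_one]
  have hcomm : ∀ (j : ℤ) (v : Fin n), τ₁ ((ρ ^ j) v) = (ρ ^ (-j)) (τ₁ v) := by
    intro j v
    have h1 : τ₁ * ρ ^ j * τ₁⁻¹ = ρ ^ (-j) := by
      rw [← conj_zpow, hconj, inv_zpow, zpow_neg]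
    rw [← h1]
    simp
  have hsc : ∀ v, ¬ ρ.SameCycle v (τ₁ v) := by
    rintro v ⟨k, hk⟩
    rcases Int.even_or_odd' k with ⟨j, rfl | rfl⟩
    · -- fixed point of `τ₁`
      apply h₁.2 ((ρ ^ j) v)
      rw [hcomm, ← hk, ← Equiv.Perm.mul_apply, ← zpow_add]
      congr 2
      ring
    · apply h₂.2 (τ₁ ((ρ ^ j) v))
      have h3 : τ₂ (τ₁ ((ρ ^ j) v)) = (ρ ^ (1 + j)) v := by
        rw [zpow_add, zpow_one, Equiv.Perm.mul_apply]; rfl
      rw [h3, hcomm, ← hk, ← Equiv.Perm.mul_apply, ← zpow_add]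
      congr 2
      ring
  -- representatives
  let rep : Fin n → Fin n := fun v => (Quotient.mk (Equiv.Perm.SameCycle.setoid ρ) v).out
  have hrep : ∀ u v, rep u = rep v ↔ ρ.SameCycle u v := by
    intro u v
    constructor
    · intro h
      exact Quotient.exact (Quotient.out_injective h)
    · intro h
      simp only [rep]
      congr 1
      exact Quotient.sound h
  have c1 : ∀ v, decide (rep v < rep (τ₁ v)) ≠ decide (rep (τ₁ v) < rep (τ₁ (τ₁ v))) := by
    intro v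
    rw [h₁.1]
    have hne : rep v ≠ rep (τ₁ v) := fun h => hsc v ((hrep _ _).1 h)
    rcases lt_or_gt_of_ne hne with h | h
    · rw [decide_eq_true h, decide_eq_false (lt_asymm h)]; decide
    · rw [decide_eq_true h, decide_eq_false (lt_asymm h)]; decide
  have c2 : ∀ v, decide (rep v < rep (τ₁ v)) ≠ decide (rep (τ₂ v) < rep (τ₁ (τ₂ v))) := by
    intro v
    have e1 : rep (τ₂ v) = rep (τ₁ v) := by
      rw [hrep]
      have h3 : ρ (τ₁ v) = τ₂ v := by rw [hρ, Equiv.Perm.mul_apply, h₁.1]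
      rw [← h3]
      exact (Equiv.Perm.sameCycle_apply_left).2 (Equiv.Perm.SameCycle.refl _ _)
    have e2 : rep (τ₁ (τ₂ v)) = rep v := by
      rw [hrep]
      have h3 : ρ (τ₁ (τ₂ v)) = v := by rw [hρ, Equiv.Perm.mul_apply, h₁.1, h₂.1]
      conv_rhs => rw [← h3]
      exact (Equiv.Perm.sameCycle_apply_right).2 (Equiv.Perm.SameCycle.refl _ _)
    rw [e1, e2]
    have := c1 v
    rwa [h₁.1] at this
  refine ⟨fun v => decide (rep v < rep (τ₁ v)), fun u v huv => ?_⟩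
  have hne : u ≠ v := by
    rintro rfl
    rw [Finsupp.add_apply, monI_diag, monI_diag] at huv
    exact huv rfl
  rw [Finsupp.add_apply, monI_apply h₁ hne, monI_apply h₂ hne] at huv
  by_cases h3 : τ₁ u = v
  · rw [← h3]; exact c1 u
  · by_cases h4 : τ₂ u = v
    · rw [← h4]; exact c2 u
    · rw [if_neg h3, if_neg h4] at huv
      exact absurd rfl huv

end coef

end Pool.Agent.Work.MP_0f7328_co
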