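import Mathlib
import Pool.Agent.Work.MP_0f7328_co.Defs
import Pool.Agent.Work.MP_0f7328_co.CoefA

/-!
Module CoefB for MP_0f7328_co: the number of permutations with a given monomial.
-/

set_option autoImplicit false

namespace Pool.Agent.Work.MP_0f7328_co

section coef
open scoped Classical
variable {n : ℕ}

/-- equal monomials: the pairs `{σ v, σ⁻¹ v}` agree -/
theorem pair_eq {σ σ₀ : Equiv.Perm (Fin n)} (h : ∀ v, σ₀ v ≠ v) (hm : mon σ = mon σ₀) :
    (∀ v, σ v ≠ v) ∧
    ∀ v, (σ v = σ₀ v ∧ σ⁻¹ v = σ₀⁻¹ v) ∨ (σ v = σ₀⁻¹ v ∧ σ⁻¹ v = σ₀ v) := by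
  have h1 : ∀ v, σ v ≠ v := by
    intro v hv
    have := mon_diag σ v
    rw [if_pos hv, hm, mon_diag, if_neg (h v)] at this
    exact absurd this (by norm_num)
  refine ⟨h1, fun v => ?_⟩
  have h1' : ∀ v, σ⁻¹ v ≠ v := by
    intro v hv
    exact h1 v (by conv_lhs => rw [← hv]; exact apply_inv σ v)
  have h0' : ∀ v, σ₀⁻¹ v ≠ v := by
    intro v hv
    exact h v (by conv_lhs => rw [← hv]; exact apply_inv σ₀ v)
  have e : ∀ b, b ≠ v → ((if σ v = b then 1 else 0) + (if σ⁻¹ v = b then 1 else 0) : ℕ) =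
      (if σ₀ v = b then 1 else 0) + (if σ₀⁻¹ v = b then 1 else 0) := by
    intro b hb
    rw [← mon_apply σ hb.symm, ← mon_apply σ₀ hb.symm, hm]
  have e1 := e (σ v) (h1 v)
  have e2 := e (σ⁻¹ v) (h1' v)
  rw [if_pos rfl] at e1
  rw [if_pos (rfl : σ⁻¹ v = σ⁻¹ v)] at e2
  by_cases h2 : σ₀ v = σ v
  · left
    refine ⟨h2.symm, ?_⟩
    by_contra h3
    rw [if_neg (Ne.symm h3)] at e2
    by_cases h4 : σ v = σ⁻¹ v
    · rw [if_pos h4, if_pos (h2.trans h4)] at e2
      omega
    · rw [if_neg h4, if_neg (fun h5 => h4 (h2.symm.trans h5))] at e2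
      omega
  · right
    rw [if_neg h2, zero_add] at e1
    by_cases h3 : σ₀⁻¹ v = σ v
    · refine ⟨h3.symm, ?_⟩
      by_contra h4
      rw [if_neg (Ne.symm h4), zero_add] at e2
      by_cases h5 : σ v = σ⁻¹ v
      · rw [if_pos h5] at e2
        split_ifs at e2
        omega
      · rw [if_neg h5, if_neg (fun h6 => h5 (h3.symm.trans h6))] at e2
        omega
    · rw [if_neg h3] at e1
      omega

/-- For v ≠ w the value of mon σ at s(v,w) is [σ v = w] + [σ⁻¹ v = w].  d ↦ σ_d, σ_d v := σ₀⁻¹ v if d v, σ₀ v otherwise.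
Injective as σ₀⁻¹ v ≠ σ₀ v where d v may be true.  Onto: if mon σ = mon σ₀ then for all v the multisets
{σ v, σ⁻¹ v} and {σ₀ v, σ₀⁻¹ v} agree; d v := (σ v ≠ σ₀ v). -/
theorem coefB1 (σ₀ : Equiv.Perm (Fin n)) (h : ∀ v, σ₀ v ≠ v) :
    Nat.card {σ : Equiv.Perm (Fin n) // mon σ = mon σ₀} =
      Nat.card {d : Fin n → Bool // (∀ v, d (σ₀ v) = d v) ∧ ∀ v, σ₀ (σ₀ v) = v → d v = false} := by
  -- from `σ` to `d`
  have hd : ∀ σ : Equiv.Perm (Fin n), mon σ = mon σ₀ →
      (∀ v, decide (σ (σ₀ v) ≠ σ₀ (σ₀ v)) = decide (σ v ≠ σ₀ v)) ∧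
      ∀ v, σ₀ (σ₀ v) = v → decide (σ v ≠ σ₀ v) = false := by
    intro σ hm
    obtain ⟨h1, h2⟩ := pair_eq h hm
    constructor
    · intro v
      rcases h2 v with ⟨h3, h4⟩ | ⟨h3, h4⟩
      · have h5 : σ (σ₀ v) = σ₀ (σ₀ v) := by
          rcases h2 (σ₀ v) with ⟨h6, _⟩ | ⟨h6, h7⟩
          · exact h6
          · rw [inv_apply] at h6
            have : σ⁻¹ (σ₀ v) = v := by rw [← h3, inv_apply]
            rw [h7] at this
            rw [h6, this]
        simp [h5, h3]
      · have h5 : σ (σ₀ v) = v := by rw [← h4, apply_inv]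
        rw [h5, h3]
        congr 1
        rw [eq_iff_iff, not_iff_not, Equiv.Perm.inv_eq_iff_eq]
    · intro v hv
      have : σ₀ v = σ₀⁻¹ v := by
        rw [Equiv.Perm.eq_inv_iff_eq, hv]
      rcases h2 v with ⟨h3, h4⟩ | ⟨h3, h4⟩
      · simp [h3]
      · rw [← this] at h3
        simp [h3]
  -- from `d` to `σ`
  have dinv : ∀ d : Fin n → Bool, (∀ v, d (σ₀ v) = d v) → ∀ v, d (σ₀⁻¹ v) = d v := by
    intro d hd v
    have := hd (σ₀⁻¹ v)
    rw [apply_inv] at this
    exact this.symm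
  obtain ⟨S, Sv, Sv'⟩ : ∃ S : ∀ d : Fin n → Bool, (∀ v, d (σ₀ v) = d v) → Equiv.Perm (Fin n),
      (∀ d hd v, S d hd v = if d v = true then σ₀⁻¹ v else σ₀ v) ∧
      (∀ d hd v, (S d hd)⁻¹ v = if d v = true then σ₀ v else σ₀⁻¹ v) := by
    refine ⟨fun d hd => ⟨fun v => if d v = true then σ₀⁻¹ v else σ₀ v,
      fun v => if d v = true then σ₀ v else σ₀⁻¹ v, ?_, ?_⟩, fun _ _ _ => rfl, fun _ _ _ => rfl⟩
    · intro v
      by_cases h1 : d v = true
      · simp only [if_pos h1, dinv d hd v, apply_inv]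
      · simp only [if_neg h1, hd v, inv_apply]
    · intro v
      by_cases h1 : d v = true
      · simp only [if_pos h1, hd v, inv_apply]
      · simp only [if_neg h1, dinv d hd v, apply_inv]
  have Sm : ∀ d hd, (∀ v, σ₀ (σ₀ v) = v → d v = false) → mon (S d hd) = mon σ₀ := by
    intro d hd hd'
    apply ext2
    intro a b
    by_cases hab : a = b
    · subst hab
      rw [mon_diag, mon_diag, if_neg (h a), if_neg]
      rw [Sv]
      split_ifs
      · intro h3
        exact h a (by conv_lhs => rw [← h3]; exact apply_inv σ₀ a)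
      · exact h a
    · rw [mon_apply _ hab, mon_apply _ hab, Sv, Sv']
      by_cases h1 : d a = true
      · simp only [if_pos h1]; rw [add_comm]
      · simp only [if_neg h1]
  apply Nat.card_congr
  refine ⟨fun σ => ⟨fun v => decide (σ.1 v ≠ σ₀ v), (hd σ.1 σ.2).1, (hd σ.1 σ.2).2⟩,
    fun d => ⟨S d.1 d.2.1, Sm _ _ d.2.2⟩, ?_, ?_⟩
  · rintro ⟨σ, hm⟩
    apply Subtype.ext
    apply Equiv.ext
    intro v
    simp only [Sv]
    by_cases h1 : σ v = σ₀ v
    · rw [if_neg (by simpa using h1), h1]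
    · rw [if_pos (by simpa using h1)]
      rcases (pair_eq h hm).2 v with h3 | h3
      · exact absurd h3.1 h1
      · exact h3.1.symm
  · rintro ⟨d, h1, h2⟩
    apply Subtype.ext
    funext v
    simp only [Sv]
    cases h3 : d v with
    | true =>
      rw [if_pos rfl]
      apply decide_eq_true
      intro h4
      rw [Equiv.Perm.inv_eq_iff_eq] at h4
      rw [h2 v h4.symm] at h3
      exact absurd h3 (by simp)
    | false => simp

/-- in an odd cycle of length at least three the second power has no fixed point -/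
theorem odd_cycle {σ : Equiv.Perm (Fin n)} (h : ∀ v, σ v ≠ v) {C : Finset (Fin n)}
    (hC : Odd C.card) (hcyc : σ.IsCycleOn C) {v : Fin n} (hv : v ∈ C) : σ (σ v) ≠ v := by
  intro h2
  have h3 : (σ ^ 2) v = v := by rw [pow_two, Equiv.Perm.mul_apply, h2]
  rw [hcyc.pow_apply_eq hv] at h3
  have h4 : C.card = 1 := by
    have h5 := (Nat.dvd_prime Nat.prime_two).1 h3
    rcases h5 with h5 | h5
    · exact h5
    · rw [h5] at hC; exact absurd hC (by decide)
  apply h v
  have h5 : (σ ^ 1) v = v := by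
    rw [hcyc.pow_apply_eq hv, h4]
  simpa using h5

/-- an invariant function is constant on cycles -/
theorem const_on {σ : Equiv.Perm (Fin n)} {d : Fin n → Bool} (hd : ∀ v, d (σ v) = d v)
    {v w : Fin n} (h : σ.SameCycle v w) : d v = d w := by
  obtain ⟨k, hk⟩ := h
  rw [← hk]
  have hinv : ∀ v, d (σ⁻¹ v) = d v := by
    intro v
    have := hd (σ⁻¹ v)
    rw [apply_inv] at this
    exact this.symm
  have key : ∀ (j : ℕ) (v : Fin n), d ((σ ^ j) v) = d v := by
    intro j
    induction j with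
    | zero => intro v; rfl
    | succ j ih => intro v; rw [pow_succ, Equiv.Perm.mul_apply, ih, hd]
  have key' : ∀ (j : ℕ) (v : Fin n), d ((σ⁻¹ ^ j) v) = d v := by
    intro j
    induction j with
    | zero => intro v; rfl
    | succ j ih => intro v; rw [pow_succ, Equiv.Perm.mul_apply, ih, hinv]
  rcases Int.eq_nat_or_neg k with ⟨j, rfl | rfl⟩
  · rw [zpow_natCast, key]
  · rw [zpow_neg, zpow_natCast, ← inv_pow, key']

/-- d is determined by its values at one point of C and one of D. -/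
theorem coefB2 (σ₀ : Equiv.Perm (Fin n)) (h : ∀ v, σ₀ v ≠ v) (hs : Shape σ₀) :
    Nat.card {d : Fin n → Bool // (∀ v, d (σ₀ v) = d v) ∧ ∀ v, σ₀ (σ₀ v) = v → d v = false} = 4 := by
  obtain ⟨C, D, hCD, hC, hD, cC, cD, hrest⟩ := hs
  obtain ⟨c, hc⟩ : C.Nonempty := Finset.card_pos.1 hC.pos
  obtain ⟨e, he⟩ : D.Nonempty := Finset.card_pos.1 hD.pos
  have heC : e ∉ C := fun h2 => Finset.disjoint_left.1 hCD h2 he
  have hcard : Nat.card (Bool × Bool) = 4 := by simp
  rw [← hcard]
  apply Nat.card_congr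
  refine ⟨fun d => (d.1 c, d.1 e), fun x => ⟨fun v => if v ∈ C then x.1 else
    if v ∈ D then x.2 else false, ?_, ?_⟩, ?_, ?_⟩
  · intro v
    have h1 : σ₀ v ∈ C ↔ v ∈ C := by
      have := cC.apply_mem_iff (x := v)
      simpa using this
    have h2 : σ₀ v ∈ D ↔ v ∈ D := by
      have := cD.apply_mem_iff (x := v)
      simpa using this
    simp only [h1, h2]
  · intro v hv
    have h1 : v ∉ C := fun h2 => odd_cycle h hC cC h2 hv
    have h2 : v ∉ D := fun h2 => odd_cycle h hD cD h2 hv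
    simp [h1, h2]
  · rintro ⟨d, h1, h2⟩
    apply Subtype.ext
    funext v
    simp only
    by_cases hvC : v ∈ C
    · rw [if_pos hvC]
      exact const_on h1 (cC.2 hc hvC)
    · rw [if_neg hvC]
      by_cases hvD : v ∈ D
      · rw [if_pos hvD]
        exact const_on h1 (cD.2 he hvD)
      · rw [if_neg hvD]
        exact (h2 v (hrest v hvC hvD)).symm
  · rintro ⟨x, y⟩
    simp [hc, he, heC]

/-- the orbit of a point -/
noncomputable def orbB (σ : Equiv.Perm (Fin n)) (v : Fin n) : Finset (Fin n) :=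
  Finset.univ.filter (fun w => σ.SameCycle v w)

theorem mem_orbB {σ : Equiv.Perm (Fin n)} {v w : Fin n} : w ∈ orbB σ v ↔ σ.SameCycle v w := by
  simp [orbB]

theorem orb_cycle (σ : Equiv.Perm (Fin n)) (v : Fin n) : σ.IsCycleOn (orbB σ v : Set (Fin n)) := by
  constructor
  · refine ⟨?_, σ.injective.injOn, ?_⟩
    · intro w hw
      rw [Finset.mem_coe, mem_orbB] at hw ⊢
      exact Equiv.Perm.sameCycle_apply_right.2 hw
    · intro w hw
      rw [Finset.mem_coe, mem_orbB] at hw
      refine ⟨σ⁻¹ w, ?_, apply_inv σ w⟩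
      rw [Finset.mem_coe, mem_orbB]
      apply Equiv.Perm.sameCycle_apply_right.1
      rw [apply_inv]
      exact hw
  · intro x hx y hy
    rw [Finset.mem_coe, mem_orbB] at hx hy
    exact hx.symm.trans hy

/-- An invariant set of odd cardinality contains an odd orbit. -/
theorem exists_odd_orbB (σ : Equiv.Perm (Fin n)) (S : Finset (Fin n)) (hS : Odd S.card)
    (hinv : ∀ v w, σ.SameCycle v w → v ∈ S → w ∈ S) : ∃ v ∈ S, Odd (orbB σ v).card := by
  by_contra hcon
  push Not at hcon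
  apply Nat.not_even_iff_odd.2 hS
  let rep : Fin n → Fin n := fun v => (Quotient.mk (Equiv.Perm.SameCycle.setoid σ) v).out
  have hrep : ∀ u v, rep u = rep v ↔ σ.SameCycle u v := by
    intro u v
    constructor
    · intro h
      exact Quotient.exact (Quotient.out_injective h)
    · intro h
      simp only [rep]
      congr 1
      exact Quotient.sound h
  rw [Finset.card_eq_sum_card_fiberwise (f := rep) (t := Finset.univ) (fun x _ => by simp)]
  apply Finset.even_sum
  intro r _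
  by_cases hr : ∃ v ∈ S, rep v = r
  · obtain ⟨v, hv, rfl⟩ := hr
    have : (S.filter (fun a => rep a = rep v)) = orbB σ v := by
      ext w
      rw [Finset.mem_filter, mem_orbB, hrep]
      constructor
      · intro h1; exact h1.2.symm
      · intro h1; exact ⟨hinv v w h1 hv, h1.symm⟩
    rw [this]
    exact Nat.not_odd_iff_even.1 (hcon v hv)
  · have : (S.filter (fun a => rep a = r)) = ∅ := by
      rw [Finset.filter_eq_empty_iff]
      intro v hv h1
      exact hr ⟨v, hv, h1⟩
    rw [this]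
    simp

/-- If all orbits are even, there is a 2-colouring. -/
theorem exists_colouring (σ : Equiv.Perm (Fin n)) (hev : ∀ v, Even (orbB σ v).card) :
    ∃ c : Fin n → Bool, ∀ v, c (σ v) ≠ c v := by
  let rep : Fin n → Fin n := fun v => (Quotient.mk (Equiv.Perm.SameCycle.setoid σ) v).out
  have hrep : ∀ u v, rep u = rep v ↔ σ.SameCycle u v := by
    intro u v
    constructor
    · intro h
      exact Quotient.exact (Quotient.out_injective h)
    · intro h
      simp only [rep]
      congr 1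
      exact Quotient.sound h
  have hrv : ∀ v, σ.SameCycle (rep v) v := by
    intro v
    exact Quotient.exact (Quotient.out_eq (Quotient.mk (Equiv.Perm.SameCycle.setoid σ) v))
  choose k hk using hrv
  refine ⟨fun v => decide (Even (k v)), fun v => ?_⟩
  have h1 : rep (σ v) = rep v := by
    rw [hrep]
    exact Equiv.Perm.sameCycle_apply_left.2 (Equiv.Perm.SameCycle.refl _ _)
  have h2 : (σ ^ (k (σ v))) (rep v) = (σ ^ (1 + k v)) (rep v) := by
    rw [zpow_add, zpow_one, Equiv.Perm.mul_apply, hk v]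
    have := hk (σ v)
    rw [h1] at this
    exact this
  have h3 : (σ ^ (k (σ v) - (1 + k v))) (rep v) = rep v := by
    rw [sub_eq_neg_add, zpow_add, Equiv.Perm.mul_apply, h2, ← Equiv.Perm.mul_apply, ← zpow_add]
    simp
  have hmem : rep v ∈ orbB σ (rep v) := mem_orbB.2 (Equiv.Perm.SameCycle.refl _ _)
  rw [(orb_cycle σ (rep v)).zpow_apply_eq hmem] at h3
  have h4 : (2 : ℤ) ∣ k (σ v) - (1 + k v) := by
    refine dvd_trans ?_ h3
    exact_mod_cast (hev (rep v)).two_dvd
  intro h5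
  have h6 : Even (k (σ v)) ↔ Even (k v) := by
    simpa using h5
  rw [Int.even_iff, Int.even_iff] at h6
  omega

/-- No 2-colouring: there is an odd orbit O₁; n even: a second one O₂; not of the shape: a third orbit O₃ on which
σ₀² ≠ id.  The set of the d's is a 2-group with at least eight elements. -/
theorem coefB3 (hn : Even n) (σ₀ : Equiv.Perm (Fin n)) (h : ∀ v, σ₀ v ≠ v)
    (hcol : ¬ ∃ c : Fin n → Bool, ∀ v, c (σ₀ v) ≠ c v) (hs : ¬ Shape σ₀) :
    8 ∣ Nat.card {d : Fin n → Bool // (∀ v, d (σ₀ v) = d v) ∧ ∀ v, σ₀ (σ₀ v) = v → d v = false} := by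
  -- three orbits
  obtain ⟨v1, hv1⟩ : ∃ v, Odd (orbB σ₀ v).card := by
    by_contra hcon
    push Not at hcon
    exact hcol (exists_colouring σ₀ (fun v => Nat.not_odd_iff_even.1 (hcon v)))
  obtain ⟨v2, hv2, hv2'⟩ : ∃ v ∈ (orbB σ₀ v1)ᶜ, Odd (orbB σ₀ v).card := by
    apply exists_odd_orbB
    · rw [Finset.card_compl, Fintype.card_fin]
      have : (orbB σ₀ v1).card ≤ n := by
        have := Finset.card_le_univ (orbB σ₀ v1)
        simpa using this
      exact Nat.Even.sub_odd this hn hv1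
    · intro v w hvw hv
      rw [Finset.mem_compl, mem_orbB] at hv ⊢
      exact fun hw => hv (hw.trans hvw.symm)
  rw [Finset.mem_compl, mem_orbB] at hv2
  obtain ⟨v3, h31, h32, h33⟩ : ∃ v, v ∉ orbB σ₀ v1 ∧ v ∉ orbB σ₀ v2 ∧ σ₀ (σ₀ v) ≠ v := by
    by_contra hcon
    push Not at hcon
    apply hs
    refine ⟨orbB σ₀ v1, orbB σ₀ v2, ?_, hv1, hv2', orb_cycle _ _, orb_cycle _ _, hcon⟩
    rw [Finset.disjoint_left]
    intro w h1 h2
    rw [mem_orbB] at h1 h2
    exact hv2 (h1.trans h2.symm)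
  rw [mem_orbB] at h31 h32
  -- the group
  let D : AddSubgroup (Fin n → ZMod 2) :=
    { carrier := {d | (∀ v, d (σ₀ v) = d v) ∧ ∀ v, σ₀ (σ₀ v) = v → d v = 0}
      add_mem' := by
        rintro a b ⟨ha, ha'⟩ ⟨hb, hb'⟩
        refine ⟨fun v => ?_, fun v hv => ?_⟩
        · rw [Pi.add_apply, Pi.add_apply, ha, hb]
        · rw [Pi.add_apply, ha' v hv, hb' v hv, add_zero]
      zero_mem' := ⟨fun v => rfl, fun v _ => rfl⟩
      neg_mem' := by
        rintro a ⟨ha, ha'⟩
        refine ⟨fun v => ?_, fun v hv => ?_⟩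
        · rw [Pi.neg_apply, Pi.neg_apply, ha]
        · rw [Pi.neg_apply, ha' v hv, neg_zero] }
  have hD : Nat.card {d : Fin n → Bool // (∀ v, d (σ₀ v) = d v) ∧
      ∀ v, σ₀ (σ₀ v) = v → d v = false} = Nat.card D := by
    have e0 : ∀ x : Bool, (if x = true then (1 : ZMod 2) else 0) = 0 ↔ x = false := by decide
    have e1 : ∀ x : ZMod 2, (if decide (x = 1) = true then (1 : ZMod 2) else 0) = x := by decide
    have e2 : ∀ x : Bool, decide ((if x = true then (1 : ZMod 2) else 0) = 1) = x := by decide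
    apply Nat.card_congr
    refine ⟨fun d => ⟨fun v => if d.1 v = true then 1 else 0, ?_, ?_⟩,
      fun d => ⟨fun v => decide (d.1 v = 1), ?_, ?_⟩, ?_, ?_⟩
    · intro v
      simp only [d.2.1 v]
    · intro v hv
      exact (e0 _).2 (d.2.2 v hv)
    · intro v
      simp only [d.2.1 v]
    · intro v hv
      have := d.2.2 v hv
      simp only [this]
      decide
    · rintro ⟨d, h1, h2⟩
      apply Subtype.ext
      funext v
      exact e2 _
    · rintro ⟨d, h1, h2⟩
      apply Subtype.ext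
      funext v
      exact e1 _
  rw [hD]
  -- power of two
  have hpow : Nat.card D ∣ 2 ^ n := by
    have h1 := AddSubgroup.card_addSubgroup_dvd_card D
    have h2 : Nat.card (Fin n → ZMod 2) = 2 ^ n := by
      rw [Nat.card_eq_fintype_card, Fintype.card_fun, ZMod.card, Fintype.card_fin]
    rwa [h2] at h1
  obtain ⟨k, -, hk⟩ := (Nat.dvd_prime_pow Nat.prime_two).1 hpow
  -- at least eight elements
  have h8 : 8 ≤ Nat.card D := by
    have ne12 : ¬ σ₀.SameCycle v1 v2 := hv2
    have ne13 : ¬ σ₀.SameCycle v1 v3 := h31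
    have ne23 : ¬ σ₀.SameCycle v2 v3 := h32
    have hmemD : ∀ x : ZMod 2 × ZMod 2 × ZMod 2, (fun v => (if σ₀.SameCycle v1 v then x.1 else 0) +
        ((if σ₀.SameCycle v2 v then x.2.1 else 0) + (if σ₀.SameCycle v3 v then x.2.2 else 0))) ∈ D := by
      intro x
      refine ⟨fun v => ?_, fun v hv => ?_⟩
      · simp only [Equiv.Perm.sameCycle_apply_right]
      · have n1 : ¬ σ₀.SameCycle v1 v := fun h1 =>
          odd_cycle h hv1 (orb_cycle σ₀ v1) (mem_orbB.2 h1) hv
        have n2 : ¬ σ₀.SameCycle v2 v := fun h1 =>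
          odd_cycle h hv2' (orb_cycle σ₀ v2) (mem_orbB.2 h1) hv
        have n3 : ¬ σ₀.SameCycle v3 v := by
          rintro ⟨j, hj⟩
          apply h33
          have h1 : v3 = (σ₀ ^ (-j)) v := by
            rw [← hj, ← Equiv.Perm.mul_apply, ← zpow_add]; simp
          have h2 : ∀ w, σ₀ (σ₀ w) = (σ₀ ^ (2 : ℤ)) w := fun w => rfl
          rw [h2, h1, ← Equiv.Perm.mul_apply, ← zpow_add, add_comm, zpow_add,
            Equiv.Perm.mul_apply, ← h2, hv]
        simp [n1, n2, n3]
    have hinj : Function.Injective (fun x : ZMod 2 × ZMod 2 × ZMod 2 => (⟨_, hmemD x⟩ : D)) := by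
      intro x y hxy
      have h1 := congrArg Subtype.val hxy
      have r1 := congrFun h1 v1
      have r2 := congrFun h1 v2
      have r3 := congrFun h1 v3
      have n21 : ¬ σ₀.SameCycle v2 v1 := fun h2 => ne12 h2.symm
      have n31 : ¬ σ₀.SameCycle v3 v1 := fun h2 => ne13 h2.symm
      have n32 : ¬ σ₀.SameCycle v3 v2 := fun h2 => ne23 h2.symm
      simp only [Equiv.Perm.SameCycle.refl, if_true, if_neg ne12, if_neg ne13, if_neg ne23,
        if_neg n21, if_neg n31, if_neg n32, add_zero, zero_add] at r1 r2 r3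
      exact Prod.ext r1 (Prod.ext r2 r3)
    have hcard : Nat.card (ZMod 2 × ZMod 2 × ZMod 2) = 8 := by
      rw [Nat.card_prod, Nat.card_prod, Nat.card_zmod]
    rw [← hcard]
    exact Nat.card_le_card_of_injective _ hinj
  rw [hk] at h8 ⊢
  have h3 : 3 ≤ k := by
    by_contra h4
    have : k ≤ 2 := by omega
    have : 2 ^ k ≤ 2 ^ 2 := Nat.pow_le_pow_right (by norm_num) this
    omega
  exact pow_dvd_pow 2 h3

end coef

end Pool.Agent.Work.MP_0f7328_co
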