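import Mathlib
import Pool.Agent.Work.MP_0f7328_co.Defs
import Pool.Agent.Work.MP_0f7328_co.CoefA
import Pool.Agent.Work.MP_0f7328_co.CoefB

/-!
Module CoefC for MP_0f7328_co: permanent minus square of the hafnian modulo 8.
-/

set_option autoImplicit false

namespace Pool.Agent.Work.MP_0f7328_co

section coef
open scoped Classical
variable {n : ℕ}

open MvPolynomial

/-- an odd cycle has no 2-colouring -/
theorem no_colouring {σ : Equiv.Perm (Fin n)} {C : Finset (Fin n)} (hC : Odd C.card)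
    (hcyc : σ.IsCycleOn C) (c : Fin n → Bool) (hc : ∀ v, c (σ v) ≠ c v) : False := by
  obtain ⟨a, ha⟩ : C.Nonempty := Finset.card_pos.1 hC.pos
  have key : ∀ k : ℕ, c ((σ ^ k) a) = if Even k then c a else !(c a) := by
    intro k
    induction k with
    | zero => simp
    | succ k ih =>
      rw [pow_succ', Equiv.Perm.mul_apply]
      have h1 : c (σ ((σ ^ k) a)) = !(c ((σ ^ k) a)) := by
        have := hc ((σ ^ k) a)
        cases h2 : c (σ ((σ ^ k) a)) <;> cases h3 : c ((σ ^ k) a) <;> simp [h2, h3] at this ⊢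
      rw [h1, ih]
      by_cases hk : Even k
      · rw [if_pos hk, if_neg (by rw [Nat.even_add_one]; simpa using hk)]
      · rw [if_neg hk, if_pos (by rw [Nat.even_add_one]; exact hk), Bool.not_not]
  have h1 := key C.card
  rw [hcyc.pow_card_apply ha, if_neg (Nat.not_even_iff_odd.2 hC)] at h1
  cases h2 : c a <;> simp [h2] at h1

theorem prod_X (H : SimpleGraph (Fin n)) (S : Finset (Fin n)) (f : Fin n → Fin n) :
    (∏ i ∈ S, (if H.Adj i (f i) then (X s(i, f i) : MvPolynomial (Sym2 (Fin n)) ℤ) else 0)) =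
      if (∀ i ∈ S, H.Adj i (f i)) then monomial (∑ i ∈ S, Finsupp.single s(i, f i) 1) 1 else 0 := by
  by_cases h : ∀ i ∈ S, H.Adj i (f i)
  · rw [if_pos h, monomial_sum_one]
    apply Finset.prod_congr rfl
    intro i hi
    rw [if_pos (h i hi)]
    rfl
  · rw [if_neg h]
    push Not at h
    obtain ⟨i, hi, h2⟩ := h
    exact Finset.prod_eq_zero hi (if_neg h2)

/-- all pairs in the support are edges -/
def Supp (H : SimpleGraph (Fin n)) (m : Sym2 (Fin n) →₀ ℕ) : Prop :=
  ∀ u v, m s(u, v) ≠ 0 → H.Adj u v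

theorem supp_mon (H : SimpleGraph (Fin n)) (σ : Equiv.Perm (Fin n)) :
    Supp H (mon σ) ↔ ∀ i, H.Adj i (σ i) := by
  constructor
  · intro h i
    exact h _ _ (mon_ne_zero σ i)
  · intro h u v huv
    by_cases he : u = v
    · subst he
      rw [mon_diag] at huv
      by_cases h2 : σ u = u
      · have := h u
        rwa [h2] at this
      · rw [if_neg h2] at huv
        exact absurd rfl huv
    · rw [mon_apply σ he] at huv
      by_cases h2 : σ u = v
      · rw [← h2]; exact h u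
      · by_cases h3 : σ⁻¹ u = v
        · have h4 : σ v = u := by rw [← h3, apply_inv]
          have := h v
          rw [h4] at this
          exact this.symm
        · rw [if_neg h2, if_neg h3] at huv
          exact absurd rfl huv

theorem supp_monI (H : SimpleGraph (Fin n)) {τ : Equiv.Perm (Fin n)} (hτ : Inv τ) :
    Supp H (monI τ) ↔ ∀ i ∈ Finset.univ.filter (fun i => i < τ i), H.Adj i (τ i) := by
  constructor
  · intro h i _
    exact h _ _ (monI_ne_zero hτ i)
  · intro h u v huv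
    by_cases he : u = v
    · subst he
      rw [monI_diag] at huv
      exact absurd rfl huv
    · rw [monI_apply hτ he] at huv
      by_cases h2 : τ u = v
      · rcases lt_or_gt_of_ne he with h3 | h3
        · have := h u (by rw [Finset.mem_filter, h2]; exact ⟨Finset.mem_univ _, h3⟩)
          rwa [h2] at this
        · have h4 : τ v = u := by rw [← h2]; exact hτ.1 u
          have := h v (by rw [Finset.mem_filter, h4]; exact ⟨Finset.mem_univ _, h3⟩)
          rw [h4] at this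
          exact this.symm
      · rw [if_neg h2] at huv
        exact absurd rfl huv

theorem supp_add (H : SimpleGraph (Fin n)) (m m' : Sym2 (Fin n) →₀ ℕ) :
    Supp H (m + m') ↔ Supp H m ∧ Supp H m' := by
  unfold Supp
  simp only [Finsupp.add_apply]
  constructor
  · intro h
    exact ⟨fun u v h1 => h u v (by omega), fun u v h1 => h u v (by omega)⟩
  · rintro ⟨h1, h2⟩ u v h3
    by_cases h4 : m s(u, v) = 0
    · exact h2 u v (by omega)
    · exact h1 u v h4

/-- the generic permanent -/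
noncomputable def P1 (H : SimpleGraph (Fin n)) : MvPolynomial (Sym2 (Fin n)) ℤ :=
  ∑ σ : Equiv.Perm (Fin n), ∏ i, (if H.Adj i (σ i) then X s(i, σ i) else 0)

/-- the generic hafnian -/
noncomputable def P2 (H : SimpleGraph (Fin n)) : MvPolynomial (Sym2 (Fin n)) ℤ :=
  ∑ τ : Equiv.Perm (Fin n) with (∀ v, τ (τ v) = v) ∧ ∀ v, τ v ≠ v,
    ∏ i with i < τ i, (if H.Adj i (τ i) then X s(i, τ i) else 0)

theorem coeff_P1 (H : SimpleGraph (Fin n)) (m : Sym2 (Fin n) →₀ ℕ) :
    (P1 H).coeff m = if Supp H m then (Nat.card {σ : Equiv.Perm (Fin n) // mon σ = m} : ℤ) else 0 := by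
  rw [P1, coeff_sum]
  have h1 : ∀ σ : Equiv.Perm (Fin n), coeff m (∏ i, (if H.Adj i (σ i) then
      (X s(i, σ i) : MvPolynomial (Sym2 (Fin n)) ℤ) else 0)) =
      if Supp H m ∧ mon σ = m then 1 else 0 := by
    intro σ
    rw [prod_X]
    have h2 : (∀ i ∈ (Finset.univ : Finset (Fin n)), H.Adj i (σ i)) ↔ Supp H (mon σ) := by
      rw [supp_mon]; simp
    have hmon : (∑ i, Finsupp.single s(i, σ i) 1 : Sym2 (Fin n) →₀ ℕ) = mon σ := rfl
    rw [hmon]
    by_cases h3 : mon σ = m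
    · subst h3
      by_cases h4 : Supp H (mon σ)
      · rw [if_pos (h2.2 h4), if_pos ⟨h4, rfl⟩, coeff_monomial, if_pos rfl]
      · rw [if_neg (fun h5 => h4 (h2.1 h5)), if_neg (fun h5 => h4 h5.1), coeff_zero]
    · rw [if_neg (fun h5 : Supp H m ∧ mon σ = m => h3 h5.2)]
      split_ifs
      · rw [coeff_monomial, if_neg h3]
      · rw [coeff_zero]
  rw [Finset.sum_congr rfl (fun σ _ => h1 σ)]
  by_cases h2 : Supp H m
  · rw [if_pos h2]
    simp only [h2, true_and]
    rw [Finset.sum_boole, Nat.card_eq_fintype_card, Fintype.card_subtype]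
  · rw [if_neg h2]
    simp [h2]

theorem coeff_P2 (H : SimpleGraph (Fin n)) (m : Sym2 (Fin n) →₀ ℕ) :
    (P2 H ^ 2).coeff m = if Supp H m then
      (Nat.card {τ : Equiv.Perm (Fin n) × Equiv.Perm (Fin n) //
        Inv τ.1 ∧ Inv τ.2 ∧ monI τ.1 + monI τ.2 = m} : ℤ) else 0 := by
  have h0 : P2 H = ∑ τ : Equiv.Perm (Fin n), if Inv τ ∧ Supp H (monI τ) then
      monomial (monI τ) (1 : ℤ) else 0 := by
    rw [P2, Finset.sum_filter]
    apply Finset.sum_congr rfl
    intro τ _
    by_cases hτ : Inv τ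
    · rw [if_pos (show (∀ v, τ (τ v) = v) ∧ ∀ v, τ v ≠ v from hτ), prod_X]
      by_cases h2 : Supp H (monI τ)
      · rw [if_pos ((supp_monI H hτ).1 h2), if_pos ⟨hτ, h2⟩]
        rfl
      · rw [if_neg (fun h3 => h2 ((supp_monI H hτ).2 h3)), if_neg (fun h3 => h2 h3.2)]
    · rw [if_neg (show ¬ ((∀ v, τ (τ v) = v) ∧ ∀ v, τ v ≠ v) from hτ), if_neg (fun h3 => hτ h3.1)]
  rw [pow_two, h0, Finset.sum_mul_sum, ← Finset.sum_product', coeff_sum]
  have h1 : ∀ τ : Equiv.Perm (Fin n) × Equiv.Perm (Fin n),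
      coeff m ((if Inv τ.1 ∧ Supp H (monI τ.1) then monomial (monI τ.1) (1 : ℤ) else 0) *
        (if Inv τ.2 ∧ Supp H (monI τ.2) then monomial (monI τ.2) (1 : ℤ) else 0)) =
      if Supp H m ∧ Inv τ.1 ∧ Inv τ.2 ∧ monI τ.1 + monI τ.2 = m then 1 else 0 := by
    rintro ⟨τ₁, τ₂⟩
    simp only
    by_cases h2 : Inv τ₁
    swap
    · simp [h2]
    by_cases h3 : Inv τ₂
    swap
    · simp [h3]
    by_cases h4 : monI τ₁ + monI τ₂ = m
    · subst h4
      by_cases h5 : Supp H (monI τ₁)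
      · by_cases h6 : Supp H (monI τ₂)
        · rw [if_pos ⟨h2, h5⟩, if_pos ⟨h3, h6⟩, if_pos ⟨(supp_add _ _ _).2 ⟨h5, h6⟩, h2, h3, rfl⟩,
            monomial_mul, coeff_monomial, if_pos rfl, one_mul]
        · rw [if_neg (fun h7 : Inv τ₂ ∧ _ => h6 h7.2),
            if_neg (fun h7 : Supp H (monI τ₁ + monI τ₂) ∧ _ => h6 ((supp_add _ _ _).1 h7.1).2),
            mul_zero, coeff_zero]
      · rw [if_neg (fun h7 : Inv τ₁ ∧ _ => h5 h7.2),
          if_neg (fun h7 : Supp H (monI τ₁ + monI τ₂) ∧ _ => h5 ((supp_add _ _ _).1 h7.1).1),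
          zero_mul, coeff_zero]
    · rw [if_neg (fun h7 : Supp H m ∧ _ => h4 h7.2.2.2)]
      split_ifs
      · rw [monomial_mul, coeff_monomial, if_neg h4]
      · simp
      · simp
      · simp
  rw [Finset.univ_product_univ, Finset.sum_congr rfl (fun τ _ => h1 τ)]
  by_cases h2 : Supp H m
  · rw [if_pos h2]
    simp only [h2, true_and]
    rw [Finset.sum_boole, Nat.card_eq_fintype_card, Fintype.card_subtype]
  · rw [if_neg h2]
    simp [h2]

/-- the monomials of the structures -/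
noncomputable def SS (H : SimpleGraph (Fin n)) : Finset (Sym2 (Fin n) →₀ ℕ) :=
  (Finset.univ.filter (fun σ : Equiv.Perm (Fin n) => (∀ v, H.Adj v (σ v)) ∧ Shape σ)).image mon

theorem mem_SS {H : SimpleGraph (Fin n)} {m : Sym2 (Fin n) →₀ ℕ} :
    m ∈ SS H ↔ ∃ σ : Equiv.Perm (Fin n), ((∀ v, H.Adj v (σ v)) ∧ Shape σ) ∧ mon σ = m := by
  simp [SS]

/-- the polynomial `Q` -/
noncomputable def QQ (H : SimpleGraph (Fin n)) : MvPolynomial (Sym2 (Fin n)) ℤ :=
  ∑ m ∈ SS H, monomial m 1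

theorem twoOdd_iff (H : SimpleGraph (Fin n)) :
    TwoOdd H ↔ ∃ σ : Equiv.Perm (Fin n), (∀ v, H.Adj v (σ v)) ∧ Shape σ := by
  constructor
  · rintro ⟨σ, C, D, h1, h2, h3, h4, h5, h6, h7⟩
    exact ⟨σ, h1, C, D, h2, h3, h4, h5, h6, h7⟩
  · rintro ⟨σ, h1, C, D, h2, h3, h4, h5, h6, h7⟩
    exact ⟨σ, C, D, h1, h2, h3, h4, h5, h6, h7⟩

theorem coeff_QQ (H : SimpleGraph (Fin n)) (m : Sym2 (Fin n) →₀ ℕ) :
    (QQ H).coeff m = if m ∈ SS H then 1 else 0 := by
  rw [QQ, coeff_sum]
  simp only [coeff_monomial]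
  rw [Finset.sum_ite_eq']

theorem degree_mon (σ : Equiv.Perm (Fin n)) : (mon σ).degree = n := by
  rw [mon, map_sum]
  simp

theorem key (H : SimpleGraph (Fin n)) (hn : Even n) (m : Sym2 (Fin n) →₀ ℕ) :
    (8 : ℤ) ∣ (P1 H - P2 H ^ 2 - 4 * QQ H).coeff m := by
  have h4 : (4 * QQ H : MvPolynomial (Sym2 (Fin n)) ℤ) = C 4 * QQ H := by
    rw [show (C 4 : MvPolynomial (Sym2 (Fin n)) ℤ) = 4 from map_ofNat C 4]
  rw [coeff_sub, coeff_sub, h4, coeff_C_mul, coeff_P1, coeff_P2, coeff_QQ]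
  by_cases hE : Supp H m
  swap
  · have : m ∉ SS H := by
      intro h
      obtain ⟨σ, ⟨h1, _⟩, rfl⟩ := mem_SS.1 h
      exact hE ((supp_mon H σ).2 h1)
    rw [if_neg hE, if_neg hE, if_neg this]
    norm_num
  rw [if_pos hE, if_pos hE]
  by_cases hS : m ∈ SS H
  · rw [if_pos hS]
    obtain ⟨σ, ⟨h1, h2⟩, rfl⟩ := mem_SS.1 hS
    have hfix : ∀ v, σ v ≠ v := fun v h => (h1 v).ne h.symm
    rw [coefB1 σ hfix, coefB2 σ hfix h2]
    have hN : Nat.card {τ : Equiv.Perm (Fin n) × Equiv.Perm (Fin n) //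
        Inv τ.1 ∧ Inv τ.2 ∧ monI τ.1 + monI τ.2 = mon σ} = 0 := by
      have : IsEmpty {τ : Equiv.Perm (Fin n) × Equiv.Perm (Fin n) //
        Inv τ.1 ∧ Inv τ.2 ∧ monI τ.1 + monI τ.2 = mon σ} := by
        constructor
        rintro ⟨⟨τ₁, τ₂⟩, i1, i2, h3⟩
        obtain ⟨c, hc⟩ := coefA2 τ₁ τ₂ i1 i2
        simp only at h3
        rw [h3] at hc
        obtain ⟨C, D, -, hC, -, hcyc, -, -⟩ := h2
        exact no_colouring hC hcyc c (fun v => (hc _ _ (mon_ne_zero σ v)).symm)
      exact Nat.card_of_isEmpty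
    rw [hN]
    norm_num
  · rw [if_neg hS, mul_zero, sub_zero]
    by_cases hc : ∃ c : Fin n → Bool, ∀ u v, m s(u, v) ≠ 0 → c u ≠ c v
    · obtain ⟨c, hc⟩ := hc
      rw [coefA1 m c hc, sub_self]
      exact dvd_zero _
    · have hN : Nat.card {τ : Equiv.Perm (Fin n) × Equiv.Perm (Fin n) //
          Inv τ.1 ∧ Inv τ.2 ∧ monI τ.1 + monI τ.2 = m} = 0 := by
        have : IsEmpty {τ : Equiv.Perm (Fin n) × Equiv.Perm (Fin n) //
          Inv τ.1 ∧ Inv τ.2 ∧ monI τ.1 + monI τ.2 = m} := by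
          constructor
          rintro ⟨⟨τ₁, τ₂⟩, i1, i2, h3⟩
          obtain ⟨c, hc'⟩ := coefA2 τ₁ τ₂ i1 i2
          simp only at h3
          rw [h3] at hc'
          exact hc ⟨c, hc'⟩
        exact Nat.card_of_isEmpty
      rw [hN, Nat.cast_zero, sub_zero]
      by_cases hσ : ∃ σ : Equiv.Perm (Fin n), mon σ = m
      · obtain ⟨σ, rfl⟩ := hσ
        have h1 := (supp_mon H σ).1 hE
        have hfix : ∀ v, σ v ≠ v := fun v h => (h1 v).ne h.symm
        rw [coefB1 σ hfix]
        have h8 : 8 ∣ Nat.card {d : Fin n → Bool // (∀ v, d (σ v) = d v) ∧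
            ∀ v, σ (σ v) = v → d v = false} := by
          apply coefB3 hn σ hfix
          · rintro ⟨c, h3⟩
            apply hc
            refine ⟨c, fun u v huv => ?_⟩
            by_cases he : u = v
            · subst he
              rw [mon_diag, if_neg (hfix u)] at huv
              exact absurd rfl huv
            · rw [mon_apply σ he] at huv
              by_cases h4 : σ u = v
              · rw [← h4]; exact (h3 u).symm
              · by_cases h5 : σ⁻¹ u = v
                · have h6 : σ v = u := by rw [← h5, apply_inv]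
                  rw [← h6]; exact h3 v
                · rw [if_neg h4, if_neg h5] at huv
                  exact absurd rfl huv
          · intro h3
            exact hS (mem_SS.2 ⟨σ, ⟨h1, h3⟩, rfl⟩)
        exact_mod_cast h8
      · have : IsEmpty {σ : Equiv.Perm (Fin n) // mon σ = m} :=
          ⟨fun σ => hσ ⟨σ.1, σ.2⟩⟩
        rw [Nat.card_of_isEmpty]
        norm_num

theorem coef (H : SimpleGraph (Fin n)) (hn : Even n) : ∃ Q : MvPolynomial (Sym2 (Fin n)) ℤ,
    Q.totalDegree ≤ n ∧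
    (MvPolynomial.map (Int.castRingHom (ZMod 2)) Q ≠ 0 ↔ TwoOdd H) ∧
    (¬ TwoOdd H → Q = 0) ∧
    ∀ (R : Type) [CommRing R], (8 : R) = 0 → ∀ y : Sym2 (Fin n) → R,
      (∑ σ : Equiv.Perm (Fin n), ∏ i, (if H.Adj i (σ i) then y s(i, σ i) else 0)) -
        (∑ τ : Equiv.Perm (Fin n) with (∀ v, τ (τ v) = v) ∧ ∀ v, τ v ≠ v,
          ∏ i with i < τ i, (if H.Adj i (τ i) then y s(i, τ i) else 0)) ^ 2 =
      4 * MvPolynomial.aeval y Q := by
  have hzero : ¬ TwoOdd H → QQ H = 0 := by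
    intro h
    have : SS H = ∅ := by
      rw [Finset.eq_empty_iff_forall_notMem]
      intro m hm
      obtain ⟨σ, h1, _⟩ := mem_SS.1 hm
      exact h ((twoOdd_iff H).2 ⟨σ, h1⟩)
    rw [QQ, this, Finset.sum_empty]
  refine ⟨QQ H, ?_, ⟨?_, ?_⟩, hzero, ?_⟩
  · rw [QQ]
    apply (totalDegree_finsetSum _ _).trans
    apply Finset.sup_le
    intro m hm
    obtain ⟨σ, _, rfl⟩ := mem_SS.1 hm
    rw [totalDegree_monomial _ one_ne_zero]
    have := degree_mon σ
    rw [Finsupp.degree_eq_sum] at this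
    rw [Finsupp.sum_fintype _ _ (fun _ => rfl)]
    exact this.le
  · intro h
    by_contra h2
    rw [hzero h2, map_zero] at h
    exact h rfl
  · intro h h2
    obtain ⟨σ, h1, h3⟩ := (twoOdd_iff H).1 h
    have h4 : mon σ ∈ SS H := mem_SS.2 ⟨σ, ⟨h1, h3⟩, rfl⟩
    have h5 := congrArg (coeff (mon σ)) h2
    rw [coeff_map, coeff_QQ, if_pos h4, coeff_zero] at h5
    simp at h5
  · intro R _ h8 y
    have h1 : (C 8 : MvPolynomial (Sym2 (Fin n)) ℤ) ∣ P1 H - P2 H ^ 2 - 4 * QQ H := by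
      rw [C_dvd_iff_dvd_coeff]
      exact key H hn
    obtain ⟨P', hP'⟩ := h1
    have h2 := congrArg (aeval (R := ℤ) y) hP'
    have h3 : aeval (R := ℤ) y (C 8 * P') = 0 := by
      rw [map_mul]
      have : aeval (R := ℤ) y (C 8 : MvPolynomial (Sym2 (Fin n)) ℤ) = (8 : R) := by
        rw [aeval_C]
        simp
      rw [this, h8, zero_mul]
    rw [h3, map_sub, map_sub, map_pow, sub_eq_zero, map_mul, map_ofNat] at h2
    rw [← h2, P1, P2, map_sum, map_sum]
    congr 1
    · apply Finset.sum_congr rfl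
      intro σ _
      rw [map_prod]
      apply Finset.prod_congr rfl
      intro i _
      split_ifs
      · rw [aeval_X]
      · rw [map_zero]
    · congr 1
      apply Finset.sum_congr rfl
      intro τ _
      rw [map_prod]
      apply Finset.prod_congr rfl
      intro i _
      split_ifs
      · rw [aeval_X]
      · rw [map_zero]

end coef

end Pool.Agent.Work.MP_0f7328_co
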