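import Pool.Agent.Work.MP_0f7328_co.HafBasic

/-!
Correctness of the elimination algorithm for hafnians modulo powers of two.
-/

set_option autoImplicit false

namespace Pool.Agent.Work.MP_0f7328_co

section elim
variable {α R : Type} [CommRing R]

/-- The elementary operation on functions. -/
def elem (A : ℕ → ℕ → R) (i j : ℕ) (c : R) (p q : ℕ) : R :=
  if p = i ∧ q ≠ i then A p q + c * A j q
  else if q = i ∧ p ≠ i then A p q + c * A p j
  else A p q

/-- The matrix of values. -/
def vmat (o : Ops α) (v : α → R) (M : List (List α)) (p q : ℕ) : R := v (mget o M p q)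

theorem mget_of_le (o : Ops α) (M : List (List α)) (p q : ℕ) (h : M.length ≤ p) :
    mget o M p q = o.zero := by
  unfold mget
  rw [List.getD_eq_default _ _ h]
  rfl

theorem vmat_out (o : Ops α) (v : α → R) (hg : Good o v) (M : List (List α))
    (hM : SymM o v M) (p q : ℕ) (h : M.length ≤ p ∨ M.length ≤ q) : vmat o v M p q = 0 := by
  rcases h with h | h
  · rw [vmat, mget_of_le o M p q h, hg.zero]
  · rw [vmat, hM.symm, mget_of_le o M q p h, hg.zero]

theorem upd_length (o : Ops α) (M : List (List α)) (i j : ℕ) (c : α) :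
    (upd o M i j c).length = M.length := by
  simp [upd]

theorem vmat_upd (o : Ops α) (v : α → R) (hg : Good o v) (M : List (List α))
    (hM : SymM o v M) (i j : ℕ) (hi : i < M.length) (c : α) (p q : ℕ) :
    vmat o v (upd o M i j c) p q = elem (vmat o v M) i j (v c) p q := by
  by_cases hp : p < M.length
  · by_cases hq : q < M.length
    · have h1 : mget o (upd o M i j c) p q =
          if p = i ∧ q ≠ i then o.add (mget o M p q) (o.mul c (mget o M j q))
          else if q = i ∧ p ≠ i then o.add (mget o M p q) (o.mul c (mget o M p j))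
          else o.add (mget o M p q) o.zero := by
        simp only [mget, upd]
        simp [List.getD_eq_getElem?_getD, hp, hq]
      rw [vmat, h1, elem]
      split_ifs <;> simp [hg.add, hg.mul, hg.zero, vmat]
    · have h1 : vmat o v (upd o M i j c) p q = 0 := by
        have : mget o (upd o M i j c) p q = o.zero := by
          simp only [mget, upd]
          simp [List.getD_eq_getElem?_getD, hp, hq]
        rw [vmat, this, hg.zero]
      have hq' : M.length ≤ q := by omega
      have hqi : q ≠ i := by omega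
      rw [h1, elem]
      split_ifs
      · rw [vmat_out o v hg M hM p q (Or.inr hq'), vmat_out o v hg M hM j q (Or.inr hq')]
        simp
      · rename_i _ h
        exact absurd h.1 hqi
      · rw [vmat_out o v hg M hM p q (Or.inr hq')]
  · have hp' : M.length ≤ p := by omega
    have h1 : vmat o v (upd o M i j c) p q = 0 := by
      rw [vmat, mget_of_le _ _ _ _ (by rw [upd_length]; exact hp'), hg.zero]
    have hpi : p ≠ i := by omega
    rw [h1, elem]
    split_ifs
    · rename_i h
      exact absurd h.1 hpi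
    · rw [vmat_out o v hg M hM p q (Or.inl hp'), vmat_out o v hg M hM p j (Or.inl hp')]
      simp
    · rw [vmat_out o v hg M hM p q (Or.inl hp')]

theorem symM_upd (o : Ops α) (v : α → R) (hg : Good o v) (M : List (List α))
    (hM : SymM o v M) (i j : ℕ) (hi : i < M.length) (c : α) :
    SymM o v (upd o M i j c) := by
  have hs : ∀ p q, vmat o v M p q = vmat o v M q p := hM.symm
  have hd : ∀ p, vmat o v M p p = 0 := hM.diag
  constructor
  · intro p q
    change vmat o v (upd o M i j c) p q = vmat o v (upd o M i j c) q p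
    rw [vmat_upd o v hg M hM i j hi c, vmat_upd o v hg M hM i j hi c]
    unfold elem
    by_cases hp : p = i <;> by_cases hq : q = i
    · subst hp; subst hq; simp
    · subst hp
      rw [if_pos ⟨rfl, hq⟩, if_neg (fun h => hq h.1), if_pos ⟨rfl, hq⟩, hs p q, hs j q]
    · subst hq
      rw [if_neg (fun h => hp h.1), if_pos ⟨rfl, hp⟩, if_pos ⟨rfl, hp⟩, hs p q, hs p j]
    · rw [if_neg (fun h => hp h.1), if_neg (fun h => hq h.1), if_neg (fun h => hq h.1),
        if_neg (fun h => hp h.1), hs p q]
  · intro p
    change vmat o v (upd o M i j c) p p = 0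
    rw [vmat_upd o v hg M hM i j hi c]
    unfold elem
    rw [if_neg (fun h => h.2 h.1), if_neg (fun h => h.2 h.1), hd]

/-- One elimination. -/
theorem haf_elem (A : ℕ → ℕ → R) (hs : ∀ p q, A p q = A q p) (hd : ∀ p, A p p = 0)
    (S : List ℕ) (hS : S.Nodup) (i j : ℕ) (hi : i ∈ S) (hj : j ∈ S) (hij : i ≠ j) (c : R) :
    haf (elem A i j c) S = haf A S + c * (((S.erase i).erase j).map fun q =>
      ((((S.erase i).erase j).erase q).map fun p => A j q * A j p *
        haf A ((((S.erase i).erase j).erase q).erase p)).sum).sum := by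
  have hs' : ∀ p q, elem A i j c p q = elem A i j c q p := by
    intro p q
    unfold elem
    by_cases hp : p = i <;> by_cases hq : q = i
    · subst hp; subst hq; simp
    · subst hp
      rw [if_pos ⟨rfl, hq⟩, if_neg (fun h => hq h.1), if_pos ⟨rfl, hq⟩, hs p q, hs j q]
    · subst hq
      rw [if_neg (fun h => hp h.1), if_pos ⟨rfl, hp⟩, if_pos ⟨rfl, hp⟩, hs p q, hs p j]
    · rw [if_neg (fun h => hp h.1), if_neg (fun h => hq h.1), if_neg (fun h => hq h.1),
        if_neg (fun h => hp h.1), hs p q]
  have hSi : (S.erase i).Nodup := hS.erase i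
  have hiS : i ∉ S.erase i := hS.not_mem_erase
  rw [haf_expand _ hs' S hS i hi, haf_expand A hs S hS i hi]
  have e1 : ∀ q ∈ S.erase i, elem A i j c i q * haf (elem A i j c) ((S.erase i).erase q) =
      A i q * haf A ((S.erase i).erase q) + c * (A j q * haf A ((S.erase i).erase q)) := by
    intro q hq
    have hqi : q ≠ i := fun e => hiS (e ▸ hq)
    have h1 : haf (elem A i j c) ((S.erase i).erase q) = haf A ((S.erase i).erase q) := by
      apply haf_congr _ _ _ (hSi.erase q)
      intro p hp r hr _
      have hpi : p ≠ i := by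
        rintro rfl
        exact hiS (List.mem_of_mem_erase hp)
      have hri : r ≠ i := by
        rintro rfl
        exact hiS (List.mem_of_mem_erase hr)
      unfold elem
      rw [if_neg (fun h => hpi h.1), if_neg (fun h => hri h.1)]
    rw [h1]
    unfold elem
    rw [if_pos ⟨rfl, hqi⟩]
    ring
  rw [List.map_congr_left e1, List.sum_map_add, List.sum_map_mul_left]
  congr 2
  have hjS : j ∈ S.erase i := (List.mem_erase_of_ne (Ne.symm hij)).2 hj
  rw [sum_erase_nodup hSi hjS, hd j, zero_mul, zero_add]
  congr 1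
  apply List.map_congr_left
  intro q hq
  have hqS : q ∈ S.erase i := List.mem_of_mem_erase hq
  have hqj : q ≠ j := by
    rintro rfl
    exact hSi.not_mem_erase hq
  have hjm : j ∈ (S.erase i).erase q := (List.mem_erase_of_ne (Ne.symm hqj)).2 hjS
  rw [haf_expand A hs _ (hSi.erase q) j hjm, ← List.sum_map_mul_left, List.erase_comm q j]
  congr 1
  apply List.map_congr_left
  intro p _
  ring

theorem pair_sum (L : List ℕ) (hL : L.Nodup) (F : ℕ → ℕ → R) (hF : ∀ p q, F p q = F q p) :
    (L.map fun q => ((L.erase q).map fun p => F q p).sum).sum =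
      2 * (L.map fun p => ((L.filter fun q => decide (p < q)).map fun q => F p q).sum).sum := by
  rw [← List.sum_toFinset _ hL, ← List.sum_toFinset _ hL]
  have e1 : ∀ q, ((L.erase q).map fun p => F q p).sum = ∑ p ∈ L.toFinset.erase q, F q p := by
    intro q
    rw [← List.sum_toFinset _ (hL.erase q)]
    congr 1
    ext x
    simp only [List.mem_toFinset, Finset.mem_erase]
    rw [hL.mem_erase_iff]
  have e2 : ∀ p, ((L.filter fun q => decide (p < q)).map fun q => F p q).sum =
      ∑ q ∈ L.toFinset with p < q, F p q := by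
    intro p
    rw [← List.sum_toFinset _ (hL.filter _)]
    congr 1
    ext x
    simp
  simp only [e1, e2]
  have e3 : ∀ q, ∑ p ∈ L.toFinset.erase q, F q p =
      (∑ p ∈ L.toFinset with q < p, F q p) + ∑ p ∈ L.toFinset with p < q, F q p := by
    intro q
    rw [← Finset.sum_union]
    · apply Finset.sum_congr _ (fun _ _ => rfl)
      ext x
      simp only [Finset.mem_erase, Finset.mem_union, Finset.mem_filter]
      constructor
      · rintro ⟨h1, h2⟩
        rcases lt_or_gt_of_ne h1 with h | h
        · exact Or.inr ⟨h2, h⟩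
        · exact Or.inl ⟨h2, h⟩
      · rintro (⟨h1, h2⟩ | ⟨h1, h2⟩)
        · exact ⟨by omega, h1⟩
        · exact ⟨by omega, h1⟩
    · rw [Finset.disjoint_left]
      intro x hx hy
      simp only [Finset.mem_filter] at hx hy
      omega
  simp only [e3]
  rw [Finset.sum_add_distrib, two_mul]
  congr 1
  have : ∑ q ∈ L.toFinset, ∑ p ∈ L.toFinset with p < q, F q p =
      ∑ p ∈ L.toFinset, ∑ q ∈ L.toFinset with p < q, F q p := by
    apply Finset.sum_comm'
    intro x y
    simp only [Finset.mem_filter]
    tauto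
  rw [this]
  apply Finset.sum_congr rfl
  intro p _
  apply Finset.sum_congr rfl
  intro q _
  exact hF q p

theorem v_foldl_add (o : Ops α) (v : α → R) (hg : Good o v) (l : List α) (a : α) :
    v (l.foldl o.add a) = v a + (l.map v).sum := by
  induction l generalizing a with
  | nil => simp
  | cons b l ih => rw [List.foldl_cons, ih, hg.add, List.map_cons, List.sum_cons]; ring

theorem v_osum (o : Ops α) (v : α → R) (hg : Good o v) (l : List α) :
    v (osum o l) = (l.map v).sum := by
  rw [osum, v_foldl_add o v hg, hg.zero, zero_add]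

theorem sum_map_flatMap {β : Type} (v : α → R) (L : List β) (f : β → List α) :
    ((L.flatMap f).map v).sum = (L.map fun p => ((f p).map v).sum).sum := by
  induction L with
  | nil => simp
  | cons a L ih => simp [ih]

/-- `low` is correct modulo `2 ^ k`. -/
def LowOK (o : Ops α) (v : α → R) (k : ℕ) (low : List (List α) → List ℕ → α) : Prop :=
  ∀ M, SymM o v M → ∀ S : List ℕ, S.Nodup → (∀ i ∈ S, i < M.length) →
    ∃ d : R, haf (vmat o v M) S = v (low M S) + 2 ^ k * d

/-- Sums of terms that are correct modulo `m`. -/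
theorem sum_mod {β : Type} (m : R) (L : List β) (f g : β → R)
    (h : ∀ x ∈ L, ∃ d, f x = g x + m * d) : ∃ d, (L.map f).sum = (L.map g).sum + m * d := by
  induction L with
  | nil => exact ⟨0, by simp⟩
  | cons a L ih =>
    obtain ⟨d1, h1⟩ := h a List.mem_cons_self
    obtain ⟨d2, h2⟩ := ih (fun x hx => h x (List.mem_cons_of_mem _ hx))
    refine ⟨d1 + d2, ?_⟩
    rw [List.map_cons, List.sum_cons, List.map_cons, List.sum_cons, h1, h2]
    ring

theorem corr_ok (o : Ops α) (v : α → R) (hg : Good o v) (k : ℕ)
    (low : List (List α) → List ℕ → α) (hlow : LowOK o v k low) (M : List (List α))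
    (hM : SymM o v M) (j : ℕ) (c : α) (L : List ℕ) (hL : L.Nodup)
    (hlt : ∀ i ∈ L, i < M.length) :
    ∃ d : R, v c * (L.map fun q => ((L.erase q).map fun p => vmat o v M j q * vmat o v M j p *
        haf (vmat o v M) ((L.erase q).erase p)).sum).sum =
      v (corr o low M j c L) + 2 ^ (k + 1) * d := by
  rw [pair_sum L hL (fun q p => vmat o v M j q * vmat o v M j p *
        haf (vmat o v M) ((L.erase q).erase p))
    (fun p q => by rw [List.erase_comm p q]; ring)]
  have h1 : v (corr o low M j c L) = v c * (2 * (L.map fun p =>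
      ((L.filter fun q => decide (p < q)).map fun q => vmat o v M j p * vmat o v M j q *
        v (low M ((L.erase p).erase q))).sum).sum) := by
    unfold corr
    simp only [hg.mul, hg.add, v_osum o v hg]
    rw [sum_map_flatMap]
    simp only [List.map_map, Function.comp_def, hg.mul, vmat]
    ring
  obtain ⟨d, hd⟩ := sum_mod ((2 : R) ^ k) L
    (fun p => ((L.filter fun q => decide (p < q)).map fun q => vmat o v M j p * vmat o v M j q *
        haf (vmat o v M) ((L.erase p).erase q)).sum)
    (fun p => ((L.filter fun q => decide (p < q)).map fun q => vmat o v M j p * vmat o v M j q *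
        v (low M ((L.erase p).erase q))).sum)
    (by
      intro p _
      apply sum_mod
      intro q _
      obtain ⟨d, hd⟩ := hlow M hM ((L.erase p).erase q) ((hL.erase p).erase q)
        (fun i hi => hlt i (List.mem_of_mem_erase (List.mem_of_mem_erase hi)))
      refine ⟨vmat o v M j p * vmat o v M j q * d, ?_⟩
      rw [hd]
      ring)
  refine ⟨v c * d, ?_⟩
  rw [h1, hd]
  ring

/-- One step `elim1`. -/
theorem elim1_ok (o : Ops α) (v : α → R) (hg : Good o v) (k : ℕ)
    (low : List (List α) → List ℕ → α) (hlow : LowOK o v k low) (h2 : ¬ IsUnit (2 : R))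
    (i₀ j : ℕ) (S : List ℕ) (hS : S.Nodup) (hj : j ∈ S)
    (M : List (List α)) (acc : α) (hM : SymM o v M) (hlt : ∀ i ∈ S, i < M.length)
    (hu : IsUnit (vmat o v M i₀ j)) (i : ℕ) (hi : i ∈ S) (hii : i ≠ i₀) (hij : i ≠ j) :
    SymM o v (elim1 o low i₀ j S (M, acc) i).1 ∧
    (elim1 o low i₀ j S (M, acc) i).1.length = M.length ∧
    (∃ d, haf (vmat o v M) S + v acc = haf (vmat o v (elim1 o low i₀ j S (M, acc) i).1) S +
      v (elim1 o low i₀ j S (M, acc) i).2 + 2 ^ (k + 1) * d) ∧
    vmat o v (elim1 o low i₀ j S (M, acc) i).1 i₀ i = 0 ∧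
    ∀ q, q ≠ i → vmat o v (elim1 o low i₀ j S (M, acc) i).1 i₀ q = vmat o v M i₀ q := by
  have hiM : i < M.length := hlt i hi
  set c := o.neg (o.mul (mget o M i₀ i) (o.inv (mget o M i₀ j))) with hc
  have hE : elim1 o low i₀ j S (M, acc) i =
      (upd o M i j c, o.add acc (o.neg (corr o low M j c ((S.erase i).erase j)))) := rfl
  rw [hE]
  have hunit : o.unit (mget o M i₀ j) = true := by
    by_contra hcon
    obtain ⟨b, hb⟩ := hg.even _ (by simpa using hcon)
    apply h2
    have : IsUnit (2 * b) := by
      rw [← hb]; exact hu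
    exact isUnit_of_mul_isUnit_left this
  have hinv : v (mget o M i₀ j) * v (o.inv (mget o M i₀ j)) = 1 := hg.unit _ hunit
  have hvc : v c = - (vmat o v M i₀ i * v (o.inv (mget o M i₀ j))) := by
    rw [hc, hg.neg, hg.mul]; rfl
  refine ⟨symM_upd o v hg M hM i j hiM c, upd_length o M i j c, ?_, ?_, ?_⟩
  · have hfun : vmat o v (upd o M i j c) = elem (vmat o v M) i j (v c) := by
      funext p q
      exact vmat_upd o v hg M hM i j hiM c p q
    obtain ⟨d, hd⟩ := corr_ok o v hg k low hlow M hM j c ((S.erase i).erase j)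
      ((hS.erase i).erase j)
      (fun x hx => hlt x (List.mem_of_mem_erase (List.mem_of_mem_erase hx)))
    refine ⟨- d, ?_⟩
    simp only [hfun]
    rw [haf_elem (vmat o v M) hM.symm hM.diag S hS i j hi hj hij (v c), hd, hg.add, hg.neg]
    ring
  · simp only
    rw [vmat_upd o v hg M hM i j hiM c]
    unfold elem
    rw [if_neg (fun h => hii h.1.symm), if_pos ⟨rfl, Ne.symm hii⟩, hvc]
    have : vmat o v M i₀ j = v (mget o M i₀ j) := rfl
    rw [this]
    linear_combination (- vmat o v M i₀ i) * hinv
  · intro q hq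
    simp only
    rw [vmat_upd o v hg M hM i j hiM c]
    unfold elem
    rw [if_neg (fun h => hii h.1.symm), if_neg (fun h => hq h.1)]

/-- The fold. -/
theorem fold_ok (o : Ops α) (v : α → R) (hg : Good o v) (k : ℕ)
    (low : List (List α) → List ℕ → α) (hlow : LowOK o v k low) (h2 : ¬ IsUnit (2 : R))
    (i₀ j : ℕ) (S : List ℕ) (hS : S.Nodup) (hj : j ∈ S) (T : List ℕ) :
    ∀ (M : List (List α)) (acc : α), SymM o v M → (∀ i ∈ S, i < M.length) →
      IsUnit (vmat o v M i₀ j) → T.Nodup → (∀ i ∈ T, i ∈ S) → i₀ ∉ T → j ∉ T →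
      SymM o v (T.foldl (elim1 o low i₀ j S) (M, acc)).1 ∧
      (T.foldl (elim1 o low i₀ j S) (M, acc)).1.length = M.length ∧
      (∃ d, haf (vmat o v M) S + v acc =
        haf (vmat o v (T.foldl (elim1 o low i₀ j S) (M, acc)).1) S +
        v (T.foldl (elim1 o low i₀ j S) (M, acc)).2 + 2 ^ (k + 1) * d) ∧
      (∀ i ∈ T, vmat o v (T.foldl (elim1 o low i₀ j S) (M, acc)).1 i₀ i = 0) ∧
      ∀ q, q ∉ T → vmat o v (T.foldl (elim1 o low i₀ j S) (M, acc)).1 i₀ q =
        vmat o v M i₀ q := by
  induction T with
  | nil =>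
    intro M acc hM _ _ _ _ _ _
    refine ⟨hM, rfl, ⟨0, by simp⟩, fun i hi => absurd hi List.not_mem_nil, fun q _ => rfl⟩
  | cons i T ih =>
    intro M acc hM hlt hu hT hTS h0 hjT
    have hi0 : i ≠ i₀ := fun e => h0 (e ▸ List.mem_cons_self)
    have hij : i ≠ j := fun e => hjT (e ▸ List.mem_cons_self)
    obtain ⟨a1, a2, ⟨d1, a3⟩, a4, a5⟩ := elim1_ok o v hg k low hlow h2 i₀ j S hS hj M acc hM
      hlt hu i (hTS i List.mem_cons_self) hi0 hij
    rw [List.foldl_cons]
    set s := elim1 o low i₀ j S (M, acc) i with hs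
    have hsp : s = (s.1, s.2) := rfl
    rw [hsp]
    have hiT : i ∉ T := (List.nodup_cons.1 hT).1
    obtain ⟨b1, b2, ⟨d2, b3⟩, b4, b5⟩ := ih s.1 s.2 a1 (by rw [a2]; exact hlt)
      (by rw [a5 j (Ne.symm hij)]; exact hu) (List.nodup_cons.1 hT).2
      (fun x hx => hTS x (List.mem_cons_of_mem _ hx))
      (fun h => h0 (List.mem_cons_of_mem _ h)) (fun h => hjT (List.mem_cons_of_mem _ h))
    refine ⟨b1, b2.trans a2, ⟨d1 + d2, ?_⟩, ?_, ?_⟩
    · rw [a3, b3]; ring
    · intro x hx
      rcases List.mem_cons.1 hx with rfl | hx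
      · rw [b5 x hiT, a4]
      · exact b4 x hx
    · intro q hq
      rw [b5 q (fun h => hq (List.mem_cons_of_mem _ h)),
        a5 q (fun e => hq (e ▸ List.mem_cons_self))]

/-- Invariant of the main loop. -/
def Inva (o : Ops α) (v : α → R) (k : ℕ) (H : R) (n : ℕ)
    (s : List (List α) × List ℕ × α × α) : Prop :=
  SymM o v s.1 ∧ s.2.1.Nodup ∧ (∀ i ∈ s.2.1, i < s.1.length) ∧ s.2.1.length ≤ n ∧
    ∃ d : R, H = v s.2.2.2 + v s.2.2.1 * haf (vmat o v s.1) s.2.1 + 2 ^ (k + 1) * d

theorem step_ok (o : Ops α) (v : α → R) (hg : Good o v) (k : ℕ)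
    (low : List (List α) → List ℕ → α) (hlow : LowOK o v k low) (h2 : ¬ IsUnit (2 : R))
    (H : R) (n : ℕ) (s : List (List α) × List ℕ × α × α) (hs : Inva o v k H (n + 1) s) :
    Inva o v k H n (step o low s) := by
  obtain ⟨M, S, m, a⟩ := s
  obtain ⟨hM, hS, hlt, hlen, d, hd⟩ := hs
  simp only at hM hS hlt hlen hd
  cases S with
  | nil => exact ⟨hM, hS, hlt, by simp [step], d, hd⟩
  | cons i₀ t =>
    have hi0t : i₀ ∉ t := (List.nodup_cons.1 hS).1
    have ht : t.Nodup := (List.nodup_cons.1 hS).2
    cases hf : t.find? (fun j => o.unit (mget o M i₀ j)) with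
    | none =>
      have hstep : step o low (M, i₀ :: t, m, a) = (M, [], o.zero, o.add a (o.mul m
        (osum o (t.map fun j => o.mul (mget o M i₀ j) (low M (t.erase j)))))) := by
        simp only [step, hf]
      rw [hstep]
      refine ⟨hM, List.nodup_nil, fun i hi => absurd hi List.not_mem_nil, Nat.zero_le _, ?_⟩
      simp only
      obtain ⟨e, he⟩ := sum_mod ((2 : R) ^ (k + 1)) t
        (fun j => vmat o v M i₀ j * haf (vmat o v M) (t.erase j))
        (fun j => v (o.mul (mget o M i₀ j) (low M (t.erase j))))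
        (by
          intro j hj
          obtain ⟨b, hb⟩ := hg.even _ (by simpa using List.find?_eq_none.1 hf j hj)
          obtain ⟨d, hd⟩ := hlow M hM (t.erase j) (ht.erase j)
            (fun i hi => hlt i (List.mem_cons_of_mem _ (List.mem_of_mem_erase hi)))
          refine ⟨b * d, ?_⟩
          rw [hd, hg.mul]
          have : vmat o v M i₀ j = v (mget o M i₀ j) := rfl
          rw [this, hb]
          ring)
      refine ⟨v m * e + d, ?_⟩
      rw [hd, haf_cons, he, hg.zero, hg.add, hg.mul, v_osum o v hg, List.map_map]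
      simp only [Function.comp_def]
      ring
    | some j =>
      have hjt : j ∈ t := List.mem_of_find?_eq_some hf
      have hju : o.unit (mget o M i₀ j) = true :=
        List.find?_some (p := fun j => o.unit (mget o M i₀ j)) hf
      have hu : IsUnit (vmat o v M i₀ j) :=
        IsUnit.of_mul_eq_one _ (hg.unit _ hju)
      have hstep : step o low (M, i₀ :: t, m, a) =
        (((t.erase j).foldl (elim1 o low i₀ j (i₀ :: t)) (M, o.zero)).1, t.erase j,
          o.mul m (mget o M i₀ j), o.add a (o.mul m
            ((t.erase j).foldl (elim1 o low i₀ j (i₀ :: t)) (M, o.zero)).2)) := by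
        simp only [step, hf]
      rw [hstep]
      obtain ⟨b1, b2, ⟨d2, b3⟩, b4, b5⟩ := fold_ok o v hg k low hlow h2 i₀ j (i₀ :: t) hS
        (List.mem_cons_of_mem _ hjt) (t.erase j) M o.zero hM hlt hu (ht.erase j)
        (fun x hx => List.mem_cons_of_mem _ (List.mem_of_mem_erase hx))
        (fun h => hi0t (List.mem_of_mem_erase h)) ht.not_mem_erase
      set r := (t.erase j).foldl (elim1 o low i₀ j (i₀ :: t)) (M, o.zero) with hr
      refine ⟨b1, ht.erase j, ?_, ?_, ?_⟩
      · intro i hi
        simp only at hi ⊢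
        rw [b2]
        exact hlt i (List.mem_cons_of_mem _ (List.mem_of_mem_erase hi))
      · simp only
        rw [List.length_erase_of_mem hjt]
        simp only [List.length_cons] at hlen
        omega
      · simp only
        have h3 : haf (vmat o v r.1) (i₀ :: t) =
            vmat o v M i₀ j * haf (vmat o v r.1) (t.erase j) := by
          rw [haf_cons, sum_erase_nodup ht hjt, b5 j ht.not_mem_erase]
          have : ((t.erase j).map fun q => vmat o v r.1 i₀ q *
              haf (vmat o v r.1) (t.erase q)).sum = 0 := by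
            apply List.sum_eq_zero
            intro x hx
            obtain ⟨q, hq, rfl⟩ := List.mem_map.1 hx
            rw [b4 q hq, zero_mul]
          rw [this, add_zero]
        refine ⟨v m * d2 + d, ?_⟩
        rw [hg.zero, add_zero, h3] at b3
        have h4 : vmat o v M i₀ j = v (mget o M i₀ j) := rfl
        rw [hd, b3, hg.add, hg.mul, hg.mul, h4]
        ring

theorem loop_ok (o : Ops α) (v : α → R) (hg : Good o v) (k : ℕ)
    (low : List (List α) → List ℕ → α) (hlow : LowOK o v k low) (h2 : ¬ IsUnit (2 : R))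
    (H : R) (T : List ℕ) : ∀ (s : List (List α) × List ℕ × α × α),
      Inva o v k H T.length s → Inva o v k H 0 (T.foldl (fun s _ => step o low s) s) := by
  induction T with
  | nil => intro s hs; exact hs
  | cons i T ih =>
    intro s hs
    rw [List.foldl_cons]
    exact ih _ (step_ok o v hg k low hlow h2 H T.length s hs)

theorem hk_lowOK (o : Ops α) (v : α → R) (hg : Good o v) (h2 : ¬ IsUnit (2 : R)) (k : ℕ) :
    LowOK o v k (hk o k) := by
  induction k with
  | zero =>
    intro M _ S _ _
    exact ⟨haf (vmat o v M) S, by rw [hk, hg.zero]; ring⟩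
  | succ k ih =>
    intro M hM S hS hlt
    have h0 : Inva o v k (haf (vmat o v M) S) S.length (M, S, o.one, o.zero) := by
      refine ⟨hM, hS, hlt, le_rfl, 0, ?_⟩
      simp only
      rw [hg.zero, hg.one]
      ring
    obtain ⟨_, _, _, h4, d, h5⟩ := loop_ok o v hg k (hk o k) ih h2 _ S _ h0
    refine ⟨d, ?_⟩
    have h6 : (S.foldl (fun s _ => step o (hk o k) s) (M, S, o.one, o.zero)).2.1 = [] :=
      List.length_eq_zero_iff.1 (Nat.le_zero.1 h4)
    rw [h5, h6, haf_nil]
    simp only [hk]
    rw [hg.add]
    ring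

theorem hk_correct (o : Ops α) (v : α → R) (hg : Good o v) (k : ℕ) (M : List (List α))
    (hM : SymM o v M) (S : List ℕ) (hS : S.Nodup) (hlt : ∀ i ∈ S, i < M.length) :
    ∃ d : R, haf (fun p q => v (mget o M p q)) S = v (hk o k M S) + 2 ^ k * d := by
  by_cases h2 : IsUnit (2 : R)
  · obtain ⟨u, hu⟩ := (h2.pow k).exists_right_inv
    refine ⟨u * (haf (fun p q => v (mget o M p q)) S - v (hk o k M S)), ?_⟩
    linear_combination (-(haf (fun p q => v (mget o M p q)) S - v (hk o k M S))) * hu
  · exact hk_lowOK o v hg h2 k M hM S hS hlt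

end elim

end Pool.Agent.Work.MP_0f7328_co
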