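import Pool.Agent.Work.MP_0f7328_co.Defs

/-!
Basic facts on hafnians over lists: congruence, expansion at any index, invariance under
permutations, reindexing, and the hafnian of the bipartite double.
-/

set_option autoImplicit false

namespace Pool.Agent.Work.MP_0f7328_co

section hafbasic
variable {ι R : Type} [DecidableEq ι] [CommRing R]

theorem haf_congr (A B : ι → ι → R) (l : List ι) (hl : l.Nodup)
    (h : ∀ p ∈ l, ∀ q ∈ l, p ≠ q → A p q = B p q) : haf A l = haf B l := by
  induction hn : l.length using Nat.strong_induction_on generalizing l with
  | _ n ih =>
    cases l with
    | nil => rw [haf_nil, haf_nil]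
    | cons i t =>
      rw [haf_cons, haf_cons]
      have hit : i ∉ t := (List.nodup_cons.1 hl).1
      have ht : t.Nodup := (List.nodup_cons.1 hl).2
      congr 1
      apply List.map_congr_left
      intro j hj
      have hij : i ≠ j := fun e => hit (e ▸ hj)
      rw [h i List.mem_cons_self j (List.mem_cons_of_mem _ hj) hij]
      congr 1
      refine ih (t.erase j).length ?_ (t.erase j) (ht.erase j) ?_ rfl
      · rw [← hn, List.length_cons, List.length_erase_of_mem hj]; omega
      · intro p hp q hq hpq
        exact h p (List.mem_cons_of_mem _ (List.mem_of_mem_erase hp)) q
          (List.mem_cons_of_mem _ (List.mem_of_mem_erase hq)) hpq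

/-- Sum over a nodup list without one element. -/
theorem sum_erase_nodup {t : List ι} (_ht : t.Nodup) {i : ι} (hi : i ∈ t) (f : ι → R) :
    (t.map f).sum = f i + ((t.erase i).map f).sum := by
  have := (List.perm_cons_erase hi).map f
  rw [this.sum_eq]
  simp

theorem haf_expand (A : ι → ι → R) (hs : ∀ p q, A p q = A q p) (l : List ι) (hl : l.Nodup)
    (i : ι) (hi : i ∈ l) :
    haf A l = ((l.erase i).map fun j => A i j * haf A ((l.erase i).erase j)).sum := by
  induction hn : l.length using Nat.strong_induction_on generalizing l i with
  | _ n ih =>
    cases l with
    | nil => exact absurd hi (List.not_mem_nil)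
    | cons a t =>
      by_cases hai : a = i
      · subst hai
        rw [haf_cons, List.erase_cons_head]
      · have hat : a ∉ t := (List.nodup_cons.1 hl).1
        have ht : t.Nodup := (List.nodup_cons.1 hl).2
        have hit : i ∈ t := by
          rcases List.mem_cons.1 hi with h | h
          · exact absurd h.symm hai
          · exact h
        have h1 : (a :: t).erase i = a :: t.erase i := by
          rw [List.erase_cons_tail]
          simpa using hai
        rw [haf_cons, sum_erase_nodup ht hit, h1, List.map_cons, List.sum_cons,
          List.erase_cons_head, hs i a]
        congr 1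
        -- the double sums
        have hL : ∀ j ∈ t.erase i, A a j * haf A (t.erase j) =
            (((t.erase i).erase j).map fun k => A a j * (A i k *
              haf A (((t.erase i).erase j).erase k))).sum := by
          intro j hj
          have hjt : j ∈ t := List.mem_of_mem_erase hj
          have hji : j ≠ i := by
            rintro rfl
            exact (List.Nodup.not_mem_erase ht) hj
          have hij : i ∈ t.erase j := (List.mem_erase_of_ne (Ne.symm hji)).2 hit
          rw [ih (t.erase j).length (by
            rw [← hn, List.length_cons, List.length_erase_of_mem hjt]; omega)
            (t.erase j) (ht.erase j) i hij rfl, List.erase_comm j i, List.sum_map_mul_left]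
        have hR : ∀ k ∈ t.erase i, A i k * haf A ((a :: t.erase i).erase k) =
            (((t.erase i).erase k).map fun j => A a j * (A i k *
              haf A (((t.erase i).erase j).erase k))).sum := by
          intro k hk
          have hkt : k ∈ t := List.mem_of_mem_erase hk
          have hak : a ≠ k := fun e => hat (e ▸ hkt)
          rw [List.erase_cons_tail (by simpa using hak), haf_cons, ← List.sum_map_mul_left]
          congr 1
          apply List.map_congr_left
          intro j _
          rw [List.erase_comm k j]
          ring
        rw [List.map_congr_left hL, List.map_congr_left hR]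
        have hte : (t.erase i).Nodup := ht.erase i
        rw [← List.sum_toFinset _ hte, ← List.sum_toFinset _ hte]
        have e1 : ∀ j, (((t.erase i).erase j).map fun k => A a j * (A i k *
              haf A (((t.erase i).erase j).erase k))).sum =
            ∑ k ∈ ((t.erase i).toFinset).erase j, A a j * (A i k *
              haf A (((t.erase i).erase j).erase k)) := by
          intro j
          rw [← List.sum_toFinset _ (hte.erase j)]
          congr 1
          ext x
          simp only [List.mem_toFinset, Finset.mem_erase]
          rw [hte.mem_erase_iff]
        have e2 : ∀ k, (((t.erase i).erase k).map fun j => A a j * (A i k *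
              haf A (((t.erase i).erase j).erase k))).sum =
            ∑ j ∈ ((t.erase i).toFinset).erase k, A a j * (A i k *
              haf A (((t.erase i).erase j).erase k)) := by
          intro k
          rw [← List.sum_toFinset _ (hte.erase k)]
          congr 1
          ext x
          simp only [List.mem_toFinset, Finset.mem_erase]
          rw [hte.mem_erase_iff]
        simp only [e1, e2]
        apply Finset.sum_comm'
        intro x y
        simp only [Finset.mem_erase]
        tauto

theorem haf_perm (A : ι → ι → R) (hs : ∀ p q, A p q = A q p) (l l' : List ι) (hl : l.Nodup)
    (h : l.Perm l') : haf A l = haf A l' := by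
  induction hn : l.length using Nat.strong_induction_on generalizing l l' with
  | _ n ih =>
    cases l with
    | nil => rw [List.nil_perm.1 h]
    | cons i t =>
      have hit : i ∈ l' := h.subset List.mem_cons_self
      have hl' : l'.Nodup := h.nodup_iff.1 hl
      have ht : t.Nodup := (List.nodup_cons.1 hl).2
      have hp : t.Perm (l'.erase i) := by
        have := h.erase i
        rwa [List.erase_cons_head] at this
      rw [haf_cons, haf_expand A hs l' hl' i hit, ← (hp.map _).sum_eq]
      congr 1
      apply List.map_congr_left
      intro j hj
      congr 1
      refine ih (t.erase j).length ?_ _ _ (ht.erase j) (hp.erase j) rfl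
      rw [← hn, List.length_cons, List.length_erase_of_mem hj]; omega

theorem haf_map {κ : Type} [DecidableEq κ] (f : κ → ι) (hf : Function.Injective f)
    (A : ι → ι → R) (l : List κ) : haf A (l.map f) = haf (fun p q => A (f p) (f q)) l := by
  induction hn : l.length using Nat.strong_induction_on generalizing l with
  | _ n ih =>
    cases l with
    | nil => rw [List.map_nil, haf_nil, haf_nil]
    | cons i t =>
      rw [List.map_cons, haf_cons, haf_cons, List.map_map]
      congr 1
      apply List.map_congr_left
      intro j hj
      simp only [Function.comp]
      rw [← List.map_erase hf, ih (t.erase j).length ?_ (t.erase j) rfl]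
      rw [← hn, List.length_cons, List.length_erase_of_mem hj]; omega

theorem haf_dbl_aux (n : ℕ) (A : ℕ → ℕ → R) (l r : List ℕ) (hl : ∀ p ∈ l, p < n) :
    haf (dbl n A) (l ++ r.map (n + ·)) = per A l r := by
  induction l generalizing r with
  | nil =>
    cases r with
    | nil => rw [List.map_nil, List.append_nil, haf_nil, per]
    | cons q r =>
      rw [List.nil_append, List.map_cons, haf_cons, List.map_map, per]
      apply List.sum_eq_zero
      intro x hx
      obtain ⟨j, _, rfl⟩ := List.mem_map.1 hx
      simp [Function.comp, dbl]
  | cons i t ih =>
    have hi : i < n := hl i List.mem_cons_self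
    have ht : ∀ p ∈ t, p < n := fun p hp => hl p (List.mem_cons_of_mem _ hp)
    rw [List.cons_append, haf_cons, List.map_append, List.sum_append, per]
    have h0 : (t.map fun j => dbl n A i j * haf (dbl n A)
        ((t ++ r.map (n + ·)).erase j)).sum = 0 := by
      apply List.sum_eq_zero
      intro x hx
      obtain ⟨j, hj, rfl⟩ := List.mem_map.1 hx
      have hjn := ht j hj
      have : dbl n A i j = 0 := by
        unfold dbl
        rw [if_neg (by omega), if_neg (by omega)]
      simp [this]
    rw [h0, zero_add, List.map_map]
    congr 1
    apply List.map_congr_left
    intro q _
    simp only [Function.comp]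
    have h1 : dbl n A i (n + q) = A i q := by
      unfold dbl
      rw [if_pos ⟨hi, by omega⟩]
      congr 1
      omega
    have h2 : (t ++ r.map (n + ·)).erase (n + q) = t ++ (r.erase q).map (n + ·) := by
      rw [List.erase_append_right _ (fun hm => by have := ht _ hm; omega),
        ← List.map_erase (add_right_injective n)]
    rw [h1, h2, ih _ ht]

theorem haf_dbl (n : ℕ) (A : ℕ → ℕ → R) :
    haf (dbl n A) (List.range (2 * n)) = per A (List.range n) (List.range n) := by
  rw [two_mul, List.range_add]
  exact haf_dbl_aux n A _ _ (fun p hp => List.mem_range.1 hp)

end hafbasic

end Pool.Agent.Work.MP_0f7328_co
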