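import Pool.Agent.Work.MP_0f7328_co.Defs
import Pool.Agent.Work.MP_0f7328_co.HafBasic

/-!
Permanent and hafnian of lists as sums over permutations (helper58, for MP_0f7328_co).
-/

set_option autoImplicit false

namespace Pool.Agent.Work.MP_0f7328_co

section hafsum
variable {R : Type} [CommRing R]

/-! ### the permanent -/

theorem per_map {ι κ κ' : Type} [DecidableEq κ] [DecidableEq κ'] (A : ι → κ → R)
    (g : κ' → κ) (hg : Function.Injective g) (l : List ι) (r : List κ') :
    per A l (r.map g) = per (fun i j => A i (g j)) l r := by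
  induction l generalizing r with
  | nil => cases r <;> simp [per]
  | cons i t ih =>
    rw [per, per, List.map_map]
    congr 1
    apply List.map_congr_left
    intro j _
    simp only [Function.comp_apply]
    rw [← List.map_erase hg, ih]

/-- sum over the injective functions into a finite set -/
theorem per_ofFn {ι κ : Type} [DecidableEq κ] [Fintype κ] (A : ι → κ → R) (m : ℕ) (a : Fin m → ι)
    (r : List κ) (hr : r.Nodup) (hl : r.length = m) :
    per A (List.ofFn a) r =
      ∑ f : Fin m → κ, if Function.Injective f ∧ ∀ i, f i ∈ r then ∏ i, A (a i) (f i) else 0 := by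
  induction m generalizing r with
  | zero =>
    have : r = [] := List.length_eq_zero_iff.1 hl
    subst this
    rw [List.ofFn_zero, per]
    rw [Fintype.sum_eq_single (fun i => i.elim0)]
    · rw [if_pos]
      · simp
      · exact ⟨fun i => i.elim0, fun i => i.elim0⟩
    · intro f hf
      exact absurd (Subsingleton.elim _ _) hf
  | succ m ih =>
    rw [List.ofFn_succ, per]
    have h1 : (r.map fun j => A (a 0) j * per A (List.ofFn fun i => a i.succ) (r.erase j)) =
        r.map fun j => A (a 0) j * ∑ f : Fin m → κ,
          if Function.Injective f ∧ ∀ i, f i ∈ r.erase j then ∏ i, A (a i.succ) (f i) else 0 := by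
      apply List.map_congr_left
      intro j hj
      rw [ih (fun i => a i.succ) (r.erase j) (hr.erase j)
        (by rw [List.length_erase_of_mem hj, hl]; rfl)]
    rw [h1, ← List.sum_toFinset _ hr]
    rw [← (Fin.consEquiv (fun _ : Fin (m + 1) => κ)).sum_comp, Fintype.sum_prod_type]
    have h2 : ∀ j : κ, (∑ f : Fin m → κ,
        if Function.Injective ((Fin.consEquiv (fun _ : Fin (m + 1) => κ)) (j, f)) ∧
          ∀ i, (Fin.consEquiv (fun _ : Fin (m + 1) => κ)) (j, f) i ∈ r then
          ∏ i, A (a i) ((Fin.consEquiv (fun _ : Fin (m + 1) => κ)) (j, f) i) else 0) =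
        if j ∈ r.toFinset then A (a 0) j * ∑ f : Fin m → κ,
          (if Function.Injective f ∧ ∀ i, f i ∈ r.erase j then ∏ i, A (a i.succ) (f i) else 0)
        else 0 := by
      intro j
      have h3 : ∀ f : Fin m → κ, (Fin.consEquiv (fun _ : Fin (m + 1) => κ)) (j, f) =
          Fin.cons j f := fun f => rfl
      by_cases hj : j ∈ r
      · rw [if_pos (List.mem_toFinset.2 hj), Finset.mul_sum]
        apply Finset.sum_congr rfl
        intro f _
        rw [h3, mul_ite, mul_zero]
        have h4 : (Function.Injective (Fin.cons j f : Fin (m + 1) → κ) ∧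
            ∀ i, (Fin.cons j f : Fin (m + 1) → κ) i ∈ r) ↔
            (Function.Injective f ∧ ∀ i, f i ∈ r.erase j) := by
          rw [Fin.cons_injective_iff, Fin.forall_fin_succ]
          simp only [Fin.cons_zero, Fin.cons_succ, hr.mem_erase_iff, Set.mem_range, not_exists]
          constructor
          · rintro ⟨⟨g1, g2⟩, _, g3⟩
            exact ⟨g2, fun i => ⟨g1 i, g3 i⟩⟩
          · rintro ⟨g1, g2⟩
            exact ⟨⟨fun i => (g2 i).1, g1⟩, hj, fun i => (g2 i).2⟩
        rw [if_congr h4 rfl rfl]
        congr 1
        rw [Fin.prod_univ_succ]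
        simp only [Fin.cons_zero, Fin.cons_succ]
      · rw [if_neg (fun h => hj (List.mem_toFinset.1 h))]
        apply Finset.sum_eq_zero
        intro f _
        rw [h3, if_neg]
        rintro ⟨_, g⟩
        exact hj (by simpa using g 0)
    rw [Finset.sum_congr rfl (fun j _ => h2 j)]
    rw [← Finset.sum_filter]
    congr 1
    ext j
    simp

theorem per_eq (n : ℕ) (A : ℕ → ℕ → R) :
    per A (List.range n) (List.range n) = ∑ σ : Equiv.Perm (Fin n), ∏ i : Fin n, A i (σ i) := by
  have h1 : List.range n = List.ofFn (fun i : Fin n => (i : ℕ)) := by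
    apply List.ext_getElem <;> simp
  have h2 : List.range n = (List.finRange n).map (fun i : Fin n => (i : ℕ)) := by
    apply List.ext_getElem <;> simp
  conv_lhs => rw [h2]
  rw [per_map A _ Fin.val_injective, ← h2, h1,
    per_ofFn _ n _ _ (List.nodup_finRange n) (List.length_finRange)]
  symm
  rw [← Finset.sum_filter]
  refine Finset.sum_bij (fun (σ : Equiv.Perm (Fin n)) _ => (σ : Fin n → Fin n)) ?_ ?_ ?_ ?_
  · intro σ _
    simp [σ.injective]
  · intro σ _ σ' _ h
    exact Equiv.coe_fn_injective h
  · intro f hf
    rw [Finset.mem_filter] at hf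
    exact ⟨Equiv.ofBijective f (Finite.injective_iff_bijective.1 hf.2.1), Finset.mem_univ _, rfl⟩
  · intro σ _
    rfl

/-! ### the hafnian -/

/-- sum over the involutions which move exactly the points of `S` -/
noncomputable def FS {n : ℕ} (A : Fin n → Fin n → R) (S : Finset (Fin n)) : R :=
  ∑ τ : Equiv.Perm (Fin n) with (∀ v, τ (τ v) = v) ∧ ∀ v, τ v ≠ v ↔ v ∈ S,
    ∏ i : Fin n with i < τ i, A i (τ i)

theorem FS_empty {n : ℕ} (A : Fin n → Fin n → R) : FS A ∅ = 1 := by
  unfold FS
  rw [Finset.sum_eq_single (1 : Equiv.Perm (Fin n))]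
  · simp
  · intro τ hτ h1
    exfalso
    apply h1
    rw [Finset.mem_filter] at hτ
    ext v
    have := (hτ.2.2 v).not
    simp only [Finset.notMem_empty, not_false_eq_true, iff_true, not_not] at this
    rw [this]
    rfl
  · intro h
    exfalso
    apply h
    simp

theorem FS_min {n : ℕ} (A : Fin n → Fin n → R) (S : Finset (Fin n)) (i : Fin n) (hi : i ∈ S)
    (hmin : ∀ j ∈ S, i ≤ j) :
    FS A S = ∑ j ∈ S.erase i, A i j * FS A ((S.erase i).erase j) := by
  classical
  conv_lhs => unfold FS
  rw [← Finset.sum_fiberwise_of_maps_to (t := S.erase i)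
    (g := fun τ : Equiv.Perm (Fin n) => τ i)]
  · apply Finset.sum_congr rfl
    intro j hj
    obtain ⟨hji, hjS⟩ := Finset.mem_erase.1 hj
    have hij : i < j := lt_of_le_of_ne (hmin j hjS) (Ne.symm hji)
    unfold FS
    rw [Finset.mul_sum]
    refine Finset.sum_bij' (fun τ _ => Equiv.swap i j * τ) (fun τ _ => Equiv.swap i j * τ)
      ?_ ?_ ?_ ?_ ?_
    · intro τ hτ
      simp only [Finset.mem_filter, Finset.mem_univ, true_and] at hτ ⊢
      obtain ⟨⟨h1, h2⟩, h3⟩ := hτ
      have h4 : τ j = i := by rw [← h3, h1]
      have h5 : ∀ v, v ≠ i → v ≠ j → (Equiv.swap i j * τ) v = τ v := by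
        intro v hvi hvj
        rw [Equiv.Perm.mul_apply, Equiv.swap_apply_of_ne_of_ne]
        · intro h; exact hvj (τ.injective (h.trans h4.symm))
        · intro h; exact hvi (τ.injective (h.trans h3.symm))
      have h6 : (Equiv.swap i j * τ) i = i := by
        rw [Equiv.Perm.mul_apply, h3, Equiv.swap_apply_right]
      have h7 : (Equiv.swap i j * τ) j = j := by
        rw [Equiv.Perm.mul_apply, h4, Equiv.swap_apply_left]
      constructor
      · intro v
        by_cases hvi : v = i
        · rw [hvi, h6, h6]
        · by_cases hvj : v = j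
          · rw [hvj, h7, h7]
          · rw [h5 v hvi hvj, h5, h1]
            · intro h; exact hvj (τ.injective (by rw [h, h4]))
            · intro h; exact hvi (τ.injective (by rw [h, h3]))
      · intro v
        by_cases hvi : v = i
        · rw [hvi, h6]; simp
        · by_cases hvj : v = j
          · rw [hvj, h7]; simp
          · rw [h5 v hvi hvj, h2]
            simp [hvi, hvj]
    · intro τ hτ
      simp only [Finset.mem_filter, Finset.mem_univ, true_and] at hτ ⊢
      obtain ⟨h1, h2⟩ := hτ
      have h6 : τ i = i := by
        by_contra h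
        have := (h2 i).1 h
        simp at this
      have h7 : τ j = j := by
        by_contra h
        have := (h2 j).1 h
        simp at this
      have h5 : ∀ v, v ≠ i → v ≠ j → (Equiv.swap i j * τ) v = τ v := by
        intro v hvi hvj
        rw [Equiv.Perm.mul_apply, Equiv.swap_apply_of_ne_of_ne]
        · intro h; exact hvi (τ.injective (h.trans h6.symm))
        · intro h; exact hvj (τ.injective (h.trans h7.symm))
      have h3 : (Equiv.swap i j * τ) i = j := by
        rw [Equiv.Perm.mul_apply, h6, Equiv.swap_apply_left]
      have h4 : (Equiv.swap i j * τ) j = i := by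
        rw [Equiv.Perm.mul_apply, h7, Equiv.swap_apply_right]
      refine ⟨⟨?_, ?_⟩, h3⟩
      · intro v
        by_cases hvi : v = i
        · rw [hvi, h3, h4]
        · by_cases hvj : v = j
          · rw [hvj, h4, h3]
          · rw [h5 v hvi hvj, h5, h1]
            · intro h; exact hvi (τ.injective (by rw [h, h6]))
            · intro h; exact hvj (τ.injective (by rw [h, h7]))
      · intro v
        by_cases hvi : v = i
        · rw [hvi, h3]
          exact ⟨fun _ => hi, fun _ => hji⟩
        · by_cases hvj : v = j
          · rw [hvj, h4]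
            exact ⟨fun _ => hjS, fun _ => Ne.symm hji⟩
          · rw [h5 v hvi hvj, h2]
            simp [hvi, hvj]
    · intro τ _
      rw [← mul_assoc, Equiv.swap_mul_self, one_mul]
    · intro τ _
      rw [← mul_assoc, Equiv.swap_mul_self, one_mul]
    · intro τ hτ
      simp only [Finset.mem_filter, Finset.mem_univ, true_and] at hτ
      obtain ⟨⟨h1, h2⟩, h3⟩ := hτ
      have h4 : τ j = i := by rw [← h3, h1]
      have h5 : ∀ v, v ≠ i → v ≠ j → (Equiv.swap i j * τ) v = τ v := by
        intro v hvi hvj
        rw [Equiv.Perm.mul_apply, Equiv.swap_apply_of_ne_of_ne]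
        · intro h; exact hvj (τ.injective (h.trans h4.symm))
        · intro h; exact hvi (τ.injective (h.trans h3.symm))
      have h6 : (Equiv.swap i j * τ) i = i := by
        rw [Equiv.Perm.mul_apply, h3, Equiv.swap_apply_right]
      have h7 : (Equiv.swap i j * τ) j = j := by
        rw [Equiv.Perm.mul_apply, h4, Equiv.swap_apply_left]
      have h8 : (Finset.univ.filter fun k => k < τ k) =
          insert i (Finset.univ.filter fun k => k < (Equiv.swap i j * τ) k) := by
        ext k
        simp only [Finset.mem_filter, Finset.mem_univ, true_and, Finset.mem_insert]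
        by_cases hki : k = i
        · simp [hki, h3, hij]
        · by_cases hkj : k = j
          · rw [hkj, h4, h7]
            simp only [lt_self_iff_false, or_false]
            exact ⟨fun h => absurd hij (not_lt.2 h.le), fun h => absurd h hji⟩
          · rw [h5 k hki hkj]
            simp [hki]
      rw [h8, Finset.prod_insert (by simp [h6, -Equiv.Perm.coe_mul]), h3]
      congr 1
      apply Finset.prod_congr rfl
      intro k hk
      simp only [Finset.mem_filter, Finset.mem_univ, true_and] at hk
      rw [h5 k]
      · rintro rfl; rw [h6] at hk; exact lt_irrefl _ hk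
      · rintro rfl; rw [h7] at hk; exact lt_irrefl _ hk
  · intro τ hτ
    simp only [Finset.mem_filter, Finset.mem_univ, true_and] at hτ
    obtain ⟨h1, h2⟩ := hτ
    rw [Finset.mem_erase]
    refine ⟨(h2 i).2 hi, (h2 _).1 ?_⟩
    rw [h1]
    exact fun h => (h2 i).2 hi h.symm

theorem haf_sorted {n : ℕ} (A : Fin n → Fin n → R) (m : ℕ) (l : List (Fin n))
    (hl : l.Pairwise (· < ·)) (hm : l.length ≤ m) : haf A l = FS A l.toFinset := by
  induction m generalizing l with
  | zero =>
    have : l = [] := List.length_eq_zero_iff.1 (by omega)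
    subst this
    rw [haf_nil, List.toFinset_nil, FS_empty]
  | succ m ih =>
    cases l with
    | nil => rw [haf_nil, List.toFinset_nil, FS_empty]
    | cons i t =>
      rw [haf_cons]
      rw [List.pairwise_cons] at hl
      have hnd : t.Nodup := hl.2.imp (fun h => ne_of_lt h)
      have hit : i ∉ t := fun h => lt_irrefl _ (hl.1 i h)
      have h1 : (t.map fun j => A i j * haf A (t.erase j)) =
          t.map fun j => A i j * FS A (t.erase j).toFinset := by
        apply List.map_congr_left
        intro j hj
        rw [ih (t.erase j) (hl.2.sublist List.erase_sublist) (by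
          have := List.length_erase_le (a := j) (l := t)
          simp only [List.length_cons] at hm
          omega)]
      have h2 : (i :: t).toFinset.erase i = t.toFinset := by
        rw [List.toFinset_cons, Finset.erase_insert]
        simpa using hit
      rw [h1, ← List.sum_toFinset _ hnd, FS_min A (i :: t).toFinset i (by simp), h2]
      · apply Finset.sum_congr rfl
        intro j _
        congr 2
        ext k
        rw [List.mem_toFinset, hnd.mem_erase_iff, Finset.mem_erase, List.mem_toFinset]
      · intro j hj
        rw [List.mem_toFinset, List.mem_cons] at hj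
        rcases hj with rfl | hj
        · exact le_rfl
        · exact (hl.1 j hj).le

theorem haf_eq (n : ℕ) (A : ℕ → ℕ → R) (hs : ∀ p q, A p q = A q p) :
    haf A (List.range n) =
      ∑ τ : Equiv.Perm (Fin n) with (∀ v, τ (τ v) = v) ∧ ∀ v, τ v ≠ v,
        ∏ i : Fin n with i < τ i, A i (τ i) := by
  have h2 : List.range n = (List.finRange n).map (fun i : Fin n => (i : ℕ)) := by
    apply List.ext_getElem <;> simp
  rw [h2, haf_map _ Fin.val_injective, haf_sorted _ _ _ (List.pairwise_lt_finRange n) le_rfl]
  unfold FS
  have h3 : (List.finRange n).toFinset = Finset.univ := by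
    ext x; simp
  rw [h3]
  simp only [Finset.mem_univ, iff_true]

end hafsum

end Pool.Agent.Work.MP_0f7328_co
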