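import Pool.Agent.Work.MP_0f7328_co.Ring

/-!
Arithmetic of lists of coefficients.
-/

set_option autoImplicit false

namespace Pool.Agent.Work.MP_0f7328_co

open Polynomial

theorem getD_map_range (n : ℕ) (f : ℕ → ℕ) (i : ℕ) (hi : i < n) :
    ((List.range n).map f).getD i 0 = f i := by
  rw [List.getD_eq_getElem _ _ (by simpa using hi)]
  simp

theorem cast_mod8 (N m : ℕ) : ((m % 8 : ℕ) : GR N) = (m : GR N) := by
  conv_rhs => rw [← Nat.div_add_mod m 8]
  rw [Nat.cast_add, Nat.cast_mul, Nat.cast_ofNat, eight_GR, zero_mul, zero_add]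

theorem val_mk (N : ℕ) (f : ℕ → ℕ) :
    val N ((List.range (2 * N)).map fun i => f i % 8) =
      ∑ i ∈ Finset.range (2 * N), (f i : GR N) * AdjoinRoot.root (fpoly (ZMod 8) N) ^ i := by
  unfold val
  refine Finset.sum_congr rfl fun i hi => ?_
  rw [getD_map_range _ _ _ (Finset.mem_range.1 hi), cast_mod8]

theorem val_nil (N : ℕ) : val N [] = 0 := by
  unfold val
  refine Finset.sum_eq_zero fun i _ => ?_
  simp

theorem val_add (N : ℕ) (a b : List ℕ) : val N (gadd N a b) = val N a + val N b := by
  unfold gadd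
  rw [val_mk]
  unfold val
  rw [← Finset.sum_add_distrib]
  refine Finset.sum_congr rfl fun i _ => ?_
  push_cast
  ring

theorem val_smul (N c : ℕ) (a : List ℕ) : val N (gsmul N c a) = c * val N a := by
  unfold gsmul
  rw [val_mk]
  unfold val
  rw [Finset.mul_sum]
  refine Finset.sum_congr rfl fun i _ => ?_
  push_cast
  ring

theorem root_eq (N : ℕ) : AdjoinRoot.root (fpoly (ZMod 8) N) ^ (2 * N) =
    7 * AdjoinRoot.root (fpoly (ZMod 8) N) ^ N + 7 := by
  have h := AdjoinRoot.eval₂_root (fpoly (ZMod 8) N)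
  rw [eval₂_fpoly] at h
  have h8 := eight_GR N
  linear_combination h - (AdjoinRoot.root (fpoly (ZMod 8) N) ^ N + 1) * h8

theorem val_x (N : ℕ) (hN : 0 < N) (a : List ℕ) :
    val N (gx N a) = AdjoinRoot.root (fpoly (ZMod 8) N) * val N a := by
  unfold gx
  rw [val_mk]
  unfold val
  obtain ⟨m, hm⟩ : ∃ m, 2 * N = m + 1 := ⟨2 * N - 1, by omega⟩
  set x := AdjoinRoot.root (fpoly (ZMod 8) N) with hx
  have hroot : x ^ (m + 1) = 7 * x ^ N + 7 := by
    have := root_eq N
    rw [hm] at this
    exact this
  have e1 : ∀ i : ℕ, (((if i = 0 then 0 else a.getD (i - 1) 0) +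
      (if i = 0 ∨ i = N then 7 * a.getD (2 * N - 1) 0 else 0) : ℕ) : GR N) * x ^ i =
      ((if i = 0 then 0 else a.getD (i - 1) 0 : ℕ) : GR N) * x ^ i +
      ((if i = 0 ∨ i = N then 7 * a.getD (2 * N - 1) 0 else 0 : ℕ) : GR N) * x ^ i := by
    intro i; push_cast; ring
  simp only [e1]
  rw [Finset.sum_add_distrib]
  have e2 : ∑ i ∈ Finset.range (2 * N), ((if i = 0 then 0 else a.getD (i - 1) 0 : ℕ) : GR N) * x ^ i
      = ∑ i ∈ Finset.range m, (a.getD i 0 : GR N) * x ^ (i + 1) := by
    rw [hm, Finset.sum_range_succ']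
    simp
  have e3 : ∑ i ∈ Finset.range (2 * N),
      ((if i = 0 ∨ i = N then 7 * a.getD (2 * N - 1) 0 else 0 : ℕ) : GR N) * x ^ i =
      (a.getD m 0 : GR N) * x ^ (m + 1) := by
    have h0N : (0 : ℕ) ≠ N := by omega
    rw [← Finset.sum_subset (s₁ := {0, N})]
    · rw [Finset.sum_pair h0N, hroot]
      have : 2 * N - 1 = m := by omega
      rw [this]
      simp
      ring
    · intro i hi
      simp only [Finset.mem_insert, Finset.mem_singleton] at hi
      simp only [Finset.mem_range]
      omega
    · intro i _ hi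
      simp only [Finset.mem_insert, Finset.mem_singleton] at hi
      rw [if_neg hi]
      simp
  rw [e2, e3, Finset.mul_sum, hm, Finset.sum_range_succ]
  congr 1
  · refine Finset.sum_congr rfl fun i _ => ?_
    ring
  · ring

theorem foldl_mul (N : ℕ) (hN : 0 < N) (a b : List ℕ) (acc : List ℕ) (n : ℕ) :
    val N ((List.range n).reverse.foldl
      (fun acc i => gadd N (gx N acc) (gsmul N (b.getD i 0) a)) acc) =
      AdjoinRoot.root (fpoly (ZMod 8) N) ^ n * val N acc +
      (∑ i ∈ Finset.range n, (b.getD i 0 : GR N) * AdjoinRoot.root (fpoly (ZMod 8) N) ^ i) *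
        val N a := by
  induction n generalizing acc with
  | zero => simp
  | succ n ih =>
    rw [List.range_succ, List.reverse_append, List.reverse_singleton, List.singleton_append,
      List.foldl_cons, ih, val_add, val_x N hN, val_smul, Finset.sum_range_succ]
    ring

theorem val_mul (N : ℕ) (hN : 0 < N) (a b : List ℕ) : val N (gmul N a b) = val N a * val N b := by
  unfold gmul
  rw [foldl_mul N hN, val_nil, mul_zero, zero_add, mul_comm]
  rfl

theorem val_one (N : ℕ) (hN : 0 < N) : val N [1] = 1 := by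
  unfold val
  rw [Finset.sum_eq_single 0]
  · simp
  · intro i _ hi
    have : ([1] : List ℕ).getD i 0 = 0 := by
      rw [List.getD_eq_default]
      simp
      omega
    rw [this]; simp
  · intro h
    exact absurd (Finset.mem_range.2 (by omega)) h

theorem inv_fold (N : ℕ) (hN : 0 < N) (a : List ℕ) (n : ℕ) :
    val N ((List.range n).foldl
      (fun (s : List ℕ × List ℕ) j => (gmul N s.1 s.1, if j = 2 then s.2 else gmul N s.2 s.1))
      (a, [1])).1 = val N a ^ 2 ^ n ∧
    val N ((List.range n).foldl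
      (fun (s : List ℕ × List ℕ) j => (gmul N s.1 s.1, if j = 2 then s.2 else gmul N s.2 s.1))
      (a, [1])).2 = val N a ^ (if n ≤ 2 then 2 ^ n - 1 else 2 ^ n - 5) := by
  induction n with
  | zero => simp [val_one N hN]
  | succ n ih =>
    rw [List.range_succ, List.foldl_append]
    simp only [List.foldl_cons, List.foldl_nil]
    obtain ⟨ih1, ih2⟩ := ih
    constructor
    · rw [val_mul N hN, ih1, ← pow_add, pow_succ, mul_two]
    · by_cases h2 : n = 2
      · subst h2
        rw [if_pos rfl, ih2]
        norm_num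
      · rw [if_neg h2, val_mul N hN, ih1, ih2, ← pow_add]
        congr 1
        by_cases h : n ≤ 1
        · interval_cases n <;> norm_num
        · have h3 : 3 ≤ n := by omega
          rw [if_neg (by omega), if_neg (by omega), pow_succ]
          have : 2 ^ 3 ≤ 2 ^ n := Nat.pow_le_pow_right (by norm_num) h3
          omega

theorem val_inv (N : ℕ) (hN : 0 < N) (a : List ℕ) :
    val N (ginv N a) = val N a ^ (2 ^ (2 * N + 2) - 5) := by
  unfold ginv
  rw [(inv_fold N hN a (2 * N + 2)).2, if_neg (by omega)]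

theorem good_gops (l : ℕ) : Good (gops (3 ^ l)) (val (3 ^ l)) := by
  have hN : 0 < 3 ^ l := by positivity
  obtain ⟨π, h1, h2, h3, h4⟩ := exists_red l
  refine ⟨val_nil _, val_one _ hN, fun a b => val_add _ a b, fun a b => val_mul _ hN a b, ?_, ?_, ?_⟩
  · intro a
    change val (3 ^ l) (gsmul (3 ^ l) 7 a) = _
    rw [val_smul]
    have h8 := eight_GR (3 ^ l)
    push_cast
    linear_combination (val (3 ^ l) a) * h8
  · intro a ha
    change val (3 ^ l) a * val (3 ^ l) (ginv (3 ^ l) a) = 1
    rw [val_inv _ hN]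
    apply h3
    intro h
    rw [h4] at h
    have := (valF_eq_zero l a).2 h
    have ha' : gunit (3 ^ l) a = true := ha
    rw [this] at ha'
    exact Bool.noConfusion ha'
  · intro a ha
    apply h2
    rw [h4]
    exact (valF_eq_zero l a).1 ha

end Pool.Agent.Work.MP_0f7328_co
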