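import Pool.Agent.Work.MP_0f7328_co.Irr

/-!
Facts on the Galois ring `Z/8[x]/(x^(2N) + x^N + 1)` and its residue field, `N = 3 ^ l`.
-/

set_option autoImplicit false

namespace Pool.Agent.Work.MP_0f7328_co

open Polynomial

section gen

variable {R : Type} [CommRing R] [Nontrivial R]

theorem fpoly_monic_deg {N : ℕ} (hN : 0 < N) :
    (fpoly R N).Monic ∧ (fpoly R N).natDegree = 2 * N := by
  have h1 : (X ^ N + 1 : R[X]).degree < ((2 * N : ℕ) : WithBot ℕ) := by
    refine lt_of_le_of_lt (degree_add_le _ _) ?_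
    rw [max_lt_iff]
    constructor
    · rw [degree_X_pow]; exact_mod_cast (by omega : N < 2 * N)
    · rw [degree_one]; exact_mod_cast (by omega : 0 < 2 * N)
  have e : fpoly R N = X ^ (2 * N) + (X ^ N + 1) := by unfold fpoly; ring
  constructor
  · rw [e]
    exact monic_X_pow_add h1
  · rw [e]
    apply natDegree_eq_of_degree_eq_some
    rw [degree_add_eq_left_of_degree_lt]
    · exact degree_X_pow _
    · rw [degree_X_pow]; exact h1

omit [Nontrivial R] in
theorem sum_of_root (g : R[X]) (n : ℕ) (c : ℕ → R) :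
    ∑ i ∈ Finset.range n, AdjoinRoot.of g (c i) * AdjoinRoot.root g ^ i =
      AdjoinRoot.mk g (∑ i ∈ Finset.range n, C (c i) * X ^ i) := by
  rw [map_sum]
  refine Finset.sum_congr rfl fun i _ => ?_
  rw [map_mul, map_pow, AdjoinRoot.mk_X, AdjoinRoot.mk_C]

theorem sum_eq_zero_iff {g : R[X]} (hg : g.Monic) {n : ℕ} (hn : g.natDegree = n) (c : ℕ → R) :
    ∑ i ∈ Finset.range n, AdjoinRoot.of g (c i) * AdjoinRoot.root g ^ i = 0 ↔
      ∀ i < n, c i = 0 := by
  constructor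
  · intro h i hi
    rw [sum_of_root, AdjoinRoot.mk_eq_zero] at h
    set p : R[X] := ∑ i ∈ Finset.range n, C (c i) * X ^ i with hp
    have hdeg : p.degree < g.degree := by
      rw [degree_eq_natDegree hg.ne_zero, hn]
      rw [degree_lt_iff_coeff_zero]
      intro m hm
      rw [hp, finsetSum_coeff]
      refine Finset.sum_eq_zero fun i hi => ?_
      rw [coeff_C_mul_X_pow, if_neg]
      have := Finset.mem_range.1 hi
      omega
    have h0 : p = 0 := by
      by_contra hne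
      exact hg.not_dvd_of_degree_lt hne hdeg h
    have h2 : p.coeff i = c i := by
      rw [hp, finsetSum_coeff, Finset.sum_eq_single i]
      · rw [coeff_C_mul_X_pow, if_pos rfl]
      · intro j _ hj
        rw [coeff_C_mul_X_pow, if_neg (Ne.symm hj)]
      · intro hi'
        exact absurd (Finset.mem_range.2 hi) hi'
    rw [← h2, h0, coeff_zero]
  · intro h
    refine Finset.sum_eq_zero fun i hi => ?_
    rw [h i (Finset.mem_range.1 hi), map_zero, zero_mul]

theorem exists_sum {g : R[X]} (hg : g.Monic) {n : ℕ} (hn : g.natDegree = n)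
    (a : AdjoinRoot g) :
    ∃ c : ℕ → R, a = ∑ i ∈ Finset.range n, AdjoinRoot.of g (c i) * AdjoinRoot.root g ^ i := by
  obtain ⟨p, rfl⟩ := AdjoinRoot.mk_surjective a
  refine ⟨(p %ₘ g).coeff, ?_⟩
  rw [sum_of_root]
  have h1 : AdjoinRoot.mk g p = AdjoinRoot.mk g (p %ₘ g) := by
    rw [AdjoinRoot.mk_eq_mk]
    refine ⟨p /ₘ g, ?_⟩
    have := modByMonic_add_div p g
    linear_combination -this
  rw [h1]
  congr 1
  by_cases hn0 : n = 0
  · subst hn0
    have hg1 : g = 1 := hg.natDegree_eq_zero.1 hn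
    simp [hg1]
  · apply as_sum_range_C_mul_X_pow'
    refine lt_of_lt_of_le (natDegree_modByMonic_lt p hg ?_) hn.le
    intro h
    rw [h, natDegree_one] at hn
    exact hn0 hn.symm

end gen

theorem eight_GR (N : ℕ) : (8 : GR N) = 0 := by
  have h : (8 : ZMod 8) = 0 := by decide
  have := congrArg (AdjoinRoot.of (fpoly (ZMod 8) N)) h
  rw [map_zero, map_ofNat] at this
  exact this

theorem val_eq (N : ℕ) (a : List ℕ) : val N a = ∑ i ∈ Finset.range (2 * N),
    AdjoinRoot.of (fpoly (ZMod 8) N) ((a.getD i 0 : ℕ) : ZMod 8) *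
      AdjoinRoot.root (fpoly (ZMod 8) N) ^ i := by
  unfold val
  refine Finset.sum_congr rfl fun i _ => ?_
  rw [map_natCast]

theorem valF_eq (N : ℕ) (a : List ℕ) : valF N a = ∑ i ∈ Finset.range (2 * N),
    AdjoinRoot.of (fpoly (ZMod 2) N) ((a.getD i 0 : ℕ) : ZMod 2) *
      AdjoinRoot.root (fpoly (ZMod 2) N) ^ i := by
  unfold valF
  refine Finset.sum_congr rfl fun i _ => ?_
  rw [map_natCast]

instance : Fact (1 < 8) := ⟨by norm_num⟩

theorem val_eq_zero (l : ℕ) (a : List ℕ) : gzero (3 ^ l) a = true ↔ val (3 ^ l) a = 0 := by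
  obtain ⟨hm, hd⟩ := fpoly_monic_deg (R := ZMod 8) (N := 3 ^ l) (by positivity)
  rw [val_eq, sum_eq_zero_iff hm hd]
  simp only [gzero, List.all_eq_true, List.mem_range, decide_eq_true_eq]
  refine forall₂_congr fun i _ => ?_
  rw [ZMod.natCast_eq_zero_iff]
  omega

theorem valF_eq_zero (l : ℕ) (a : List ℕ) : gunit (3 ^ l) a = false ↔ valF (3 ^ l) a = 0 := by
  obtain ⟨hm, hd⟩ := fpoly_monic_deg (R := ZMod 2) (N := 3 ^ l) (by positivity)
  rw [valF_eq, sum_eq_zero_iff hm hd]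
  simp only [gunit, List.any_eq_false, List.mem_range, decide_eq_true_eq]
  refine forall₂_congr fun i _ => ?_
  rw [ZMod.natCast_eq_zero_iff]
  omega

/-- bit vectors and elements of the residue field -/
theorem valF_bij (l : ℕ) : Function.Bijective (fun b : Fin (2 * 3 ^ l) → Bool =>
    valF (3 ^ l) ((List.ofFn b).map fun b => if b then 1 else 0)) := by
  obtain ⟨hm, hd⟩ := fpoly_monic_deg (R := ZMod 2) (N := 3 ^ l) (by positivity)
  have hget : ∀ (b : Fin (2 * 3 ^ l) → Bool) (i : ℕ) (hi : i < 2 * 3 ^ l),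
      ((List.ofFn b).map fun b => if b then 1 else 0).getD i 0 = if b ⟨i, hi⟩ then 1 else 0 := by
    intro b i hi
    rw [List.getD_eq_getElem _ _ (by simpa using hi)]
    simp
  constructor
  · intro b b' h
    simp only at h
    rw [valF_eq, valF_eq, ← sub_eq_zero, ← Finset.sum_sub_distrib] at h
    have h2 : ∑ i ∈ Finset.range (2 * 3 ^ l), AdjoinRoot.of (fpoly (ZMod 2) (3 ^ l))
        ((((((List.ofFn b).map fun b => if b then 1 else 0).getD i 0 : ℕ) : ZMod 2)) -
          (((((List.ofFn b').map fun b => if b then 1 else 0).getD i 0 : ℕ) : ZMod 2))) *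
        AdjoinRoot.root (fpoly (ZMod 2) (3 ^ l)) ^ i = 0 := by
      rw [← h]
      refine Finset.sum_congr rfl fun i _ => ?_
      rw [map_sub]; ring
    rw [sum_eq_zero_iff hm hd] at h2
    funext ⟨i, hi⟩
    have h3 := h2 i hi
    rw [hget b i hi, hget b' i hi] at h3
    revert h3
    cases b ⟨i, hi⟩ <;> cases b' ⟨i, hi⟩ <;> simp
  · intro a
    obtain ⟨c, hc⟩ := exists_sum hm hd a
    refine ⟨fun i => decide (c i = 1), ?_⟩
    simp only
    rw [valF_eq, hc]
    refine Finset.sum_congr rfl fun i hi => ?_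
    congr 2
    rw [hget _ i (Finset.mem_range.1 hi)]
    generalize c i = z
    revert z
    decide

theorem card_GF (l : ℕ) : Nat.card (GF (3 ^ l)) = 4 ^ (3 ^ l) := by
  rw [← Nat.card_congr (Equiv.ofBijective _ (valF_bij l))]
  rw [Nat.card_eq_fintype_card, Fintype.card_fun, Fintype.card_bool, Fintype.card_fin, pow_mul]
  norm_num

theorem isField_GF (l : ℕ) : IsField (GF (3 ^ l)) := by
  have : Fact (Irreducible (fpoly (ZMod 2) (3 ^ l))) := ⟨fpoly_irreducible l⟩
  exact Field.toIsField (AdjoinRoot (fpoly (ZMod 2) (3 ^ l)))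

theorem eval₂_fpoly {R S : Type} [CommRing R] [CommRing S] (f : R →+* S) (x : S) (N : ℕ) :
    eval₂ f x (fpoly R N) = x ^ (2 * N) + x ^ N + 1 := by
  simp [fpoly]

/-- reduction of coefficients -/
noncomputable def red (N : ℕ) : GR N →+* GF N :=
  AdjoinRoot.lift ((AdjoinRoot.of (fpoly (ZMod 2) N)).comp (ZMod.castHom (by norm_num) (ZMod 2)))
    (AdjoinRoot.root (fpoly (ZMod 2) N)) (by
      have h := AdjoinRoot.eval₂_root (fpoly (ZMod 2) N)
      rw [eval₂_fpoly] at h ⊢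
      exact h)

theorem red_sum (N n : ℕ) (c : ℕ → ZMod 8) :
    red N (∑ i ∈ Finset.range n, AdjoinRoot.of (fpoly (ZMod 8) N) (c i) *
      AdjoinRoot.root (fpoly (ZMod 8) N) ^ i) =
    ∑ i ∈ Finset.range n, AdjoinRoot.of (fpoly (ZMod 2) N)
      (ZMod.castHom (by norm_num : 2 ∣ 8) (ZMod 2) (c i)) *
      AdjoinRoot.root (fpoly (ZMod 2) N) ^ i := by
  rw [map_sum]
  refine Finset.sum_congr rfl fun i _ => ?_
  rw [map_mul, map_pow, red, AdjoinRoot.lift_root, AdjoinRoot.lift_of]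
  rfl

theorem exists_red (l : ℕ) : ∃ π : GR (3 ^ l) →+* GF (3 ^ l),
    (∀ a, 4 * a = 0 ↔ π a = 0) ∧ (∀ a, π a = 0 → ∃ b, a = 2 * b) ∧
    (∀ a, π a ≠ 0 → a * a ^ (2 ^ (2 * 3 ^ l + 2) - 5) = 1) ∧
    ∀ c, π (val (3 ^ l) c) = valF (3 ^ l) c := by
  obtain ⟨hm8, hd8⟩ := fpoly_monic_deg (R := ZMod 8) (N := 3 ^ l) (by positivity)
  obtain ⟨hm2, hd2⟩ := fpoly_monic_deg (R := ZMod 2) (N := 3 ^ l) (by positivity)
  have hB : ∀ a : GR (3 ^ l), red (3 ^ l) a = 0 → ∃ b, a = 2 * b := by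
    intro a ha
    obtain ⟨c, hc⟩ := exists_sum hm8 hd8 a
    rw [hc, red_sum, sum_eq_zero_iff hm2 hd2] at ha
    have key : ∀ z : ZMod 8, ZMod.castHom (by norm_num : 2 ∣ 8) (ZMod 2) z = 0 →
        ∃ w : ZMod 8, z = 2 * w := by decide
    choose! w hw using key
    refine ⟨∑ i ∈ Finset.range (2 * 3 ^ l), AdjoinRoot.of (fpoly (ZMod 8) (3 ^ l)) (w (c i)) *
      AdjoinRoot.root (fpoly (ZMod 8) (3 ^ l)) ^ i, ?_⟩
    rw [Finset.mul_sum, hc]
    refine Finset.sum_congr rfl fun i hi => ?_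
    have h1 := hw (c i) (ha i (Finset.mem_range.1 hi))
    conv_lhs => rw [h1]
    rw [map_mul, map_ofNat]
    ring
  refine ⟨red (3 ^ l), ?_, hB, ?_, ?_⟩
  · intro a
    obtain ⟨c, hc⟩ := exists_sum hm8 hd8 a
    have h4 : 4 * a = ∑ i ∈ Finset.range (2 * 3 ^ l),
        AdjoinRoot.of (fpoly (ZMod 8) (3 ^ l)) (4 * c i) *
          AdjoinRoot.root (fpoly (ZMod 8) (3 ^ l)) ^ i := by
      rw [hc, Finset.mul_sum]
      refine Finset.sum_congr rfl fun i _ => ?_
      rw [map_mul, map_ofNat]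
      ring
    rw [h4, sum_eq_zero_iff hm8 hd8, hc, red_sum, sum_eq_zero_iff hm2 hd2]
    refine forall₂_congr fun i _ => ?_
    generalize c i = z
    revert z
    decide
  · intro a ha
    have : Fact (Irreducible (fpoly (ZMod 2) (3 ^ l))) := ⟨fpoly_irreducible l⟩
    have : Finite (AdjoinRoot (fpoly (ZMod 2) (3 ^ l))) :=
      Finite.of_surjective _ (valF_bij l).2
    have : Fintype (AdjoinRoot (fpoly (ZMod 2) (3 ^ l))) := Fintype.ofFinite _
    have hcard : Fintype.card (AdjoinRoot (fpoly (ZMod 2) (3 ^ l))) = 2 ^ (2 * 3 ^ l) := by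
      rw [← Nat.card_eq_fintype_card, show (2 : ℕ) ^ (2 * 3 ^ l) = 4 ^ (3 ^ l) by
        rw [pow_mul]; norm_num]
      exact card_GF l
    have hpow : red (3 ^ l) a ^ (2 ^ (2 * 3 ^ l) - 1) = 1 := by
      have := FiniteField.pow_card_sub_one_eq_one (K := AdjoinRoot (fpoly (ZMod 2) (3 ^ l)))
        (red (3 ^ l) a) ha
      rw [hcard] at this
      exact this
    obtain ⟨b, hb⟩ := hB (a ^ (2 ^ (2 * 3 ^ l) - 1) - 1) (by
      rw [map_sub, map_pow, map_one, hpow, sub_self])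
    have h1 : a ^ (2 ^ (2 * 3 ^ l) - 1) = 1 + 2 * b := by linear_combination hb
    have h8 := eight_GR (3 ^ l)
    have h2 : (a ^ (2 ^ (2 * 3 ^ l) - 1)) ^ 4 = 1 := by
      rw [h1]
      linear_combination (b + 3 * b ^ 2 + 4 * b ^ 3 + 2 * b ^ 4) * h8
    rw [← pow_succ', ← h2, ← pow_mul]
    congr 1
    have h3 : 2 ^ (2 * 3 ^ l + 2) = 2 ^ (2 * 3 ^ l) * 4 := by rw [pow_add]; norm_num
    have h5 : 4 ≤ 2 ^ (2 * 3 ^ l) := by
      have : 1 ≤ 3 ^ l := Nat.one_le_pow _ _ (by norm_num)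
      calc 4 = 2 ^ 2 := by norm_num
        _ ≤ 2 ^ (2 * 3 ^ l) := Nat.pow_le_pow_right (by norm_num) (by omega)
    rw [h3]
    omega
  · intro c
    rw [val_eq, red_sum, valF_eq]
    refine Finset.sum_congr rfl fun i _ => ?_
    rw [map_natCast]

end Pool.Agent.Work.MP_0f7328_co
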