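import Pool.Agent.Work.MP_0f7328_co.Ring

/-!
Schwartz-Zippel for random bits.
-/

set_option autoImplicit false

namespace Pool.Agent.Work.MP_0f7328_co

open Finset

theorem sz_count {ι F : Type} [Fintype ι] [Field F] [Fintype F]
    (Q : MvPolynomial ι F) (hQ : Q ≠ 0) :
    Nat.card {y : ι → F // MvPolynomial.eval y Q = 0} * Fintype.card F ≤
      Q.totalDegree * Fintype.card F ^ Fintype.card ι := by
  classical
  let e := Fintype.equivFin ι
  let Q' : MvPolynomial (Fin (Fintype.card ι)) F := MvPolynomial.rename e Q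
  have hQ' : Q' ≠ 0 := by
    intro h
    apply hQ
    apply MvPolynomial.rename_injective e e.injective
    rw [map_zero]
    exact h
  have hdeg : Q'.totalDegree ≤ Q.totalDegree := MvPolynomial.totalDegree_rename_le e Q
  have h := MvPolynomial.schwartz_zippel_totalDegree hQ' (Finset.univ : Finset F)
  have hcardF : 0 < Fintype.card F := Fintype.card_pos
  have hset : Nat.card {y : ι → F // MvPolynomial.eval y Q = 0} =
      #{f ∈ Fintype.piFinset fun _ : Fin (Fintype.card ι) ↦ (Finset.univ : Finset F) |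
        MvPolynomial.eval f Q' = 0} := by
    rw [Nat.card_eq_fintype_card, Fintype.card_subtype]
    refine Finset.card_bij' (fun y _ => y ∘ e.symm) (fun y _ => y ∘ e) ?_ ?_ ?_ ?_
    · intro y hy
      simp only [Finset.mem_filter, Finset.mem_univ, true_and] at hy
      simp only [Finset.mem_filter, Fintype.mem_piFinset, Finset.mem_univ, implies_true, true_and]
      rw [MvPolynomial.eval_rename]
      have : (y ∘ e.symm) ∘ e = y := by funext i; simp
      rw [this]; exact hy
    · intro y hy
      simp only [Finset.mem_filter, Fintype.mem_piFinset, Finset.mem_univ, implies_true,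
        true_and] at hy
      simp only [Finset.mem_filter, Finset.mem_univ, true_and]
      rw [MvPolynomial.eval_rename] at hy
      exact hy
    · intro y _; funext i; simp
    · intro y _; funext i; simp
  rw [hset]
  rw [Finset.card_univ, div_le_div_iff₀ (by positivity) (by positivity)] at h
  have h' : (#{f ∈ Fintype.piFinset fun _ : Fin (Fintype.card ι) ↦ (Finset.univ : Finset F) |
        MvPolynomial.eval f Q' = 0}) * Fintype.card F ≤
      Q'.totalDegree * Fintype.card F ^ Fintype.card ι := by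
    exact_mod_cast h
  exact h'.trans (Nat.mul_le_mul_right _ hdeg)

theorem count_restrict {A B : Type} [Fintype A] [Fintype B] (e : A → B)
    (he : Function.Injective e) (P : (A → Bool) → Prop) :
    Nat.card {f : B → Bool // P (fun a => f (e a))} * 2 ^ Fintype.card A =
      Nat.card {g : A → Bool // P g} * 2 ^ Fintype.card B := by
  classical
  let E : {f : B → Bool // P (fun a => f (e a))} ≃
      {g : A → Bool // P g} × ({b : B // b ∉ Set.range e} → Bool) :=
    { toFun := fun f => (⟨fun a => f.1 (e a), f.2⟩, fun b => f.1 b.1)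
      invFun := fun q => ⟨fun b => if hb : b ∈ Set.range e then q.1.1 hb.choose else q.2 ⟨b, hb⟩, by
        have : (fun a => if hb : e a ∈ Set.range e then q.1.1 hb.choose else q.2 ⟨e a, hb⟩) =
            q.1.1 := by
          funext a
          have hb : e a ∈ Set.range e := ⟨a, rfl⟩
          rw [dif_pos hb]
          exact congrArg _ (he hb.choose_spec)
        rw [this]
        exact q.1.2⟩
      left_inv := by
        intro f
        apply Subtype.ext
        funext b
        by_cases hb : b ∈ Set.range e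
        · simp only [dif_pos hb]
          rw [hb.choose_spec]
        · simp only [dif_neg hb]
      right_inv := by
        intro q
        apply Prod.ext
        · apply Subtype.ext
          funext a
          have hb : e a ∈ Set.range e := ⟨a, rfl⟩
          simp only [dif_pos hb]
          exact congrArg _ (he hb.choose_spec)
        · funext b
          simp only [dif_neg b.2] }
  rw [Nat.card_congr E, Nat.card_prod, Nat.card_eq_fintype_card (α := _ → Bool), Fintype.card_fun,
    Fintype.card_bool, mul_assoc, ← pow_add]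
  congr 2
  have h1 : Fintype.card {b : B // b ∈ Set.range e} = Fintype.card A :=
    Fintype.card_congr (Equiv.ofInjective e he).symm
  have h2 := Fintype.card_subtype_compl (fun b : B => b ∈ Set.range e)
  have h3 := Fintype.card_subtype_le (fun b : B => b ∈ Set.range e)
  rw [h2, h1]
  omega

theorem pidx_lt {n : ℕ} (z : Sym2 (Fin n)) : pidx z < n * n := by
  unfold pidx
  have h1 := z.inf.2
  have h2 := z.sup.2
  calc z.inf.1 * n + z.sup.1 < z.inf.1 * n + n := by omega
    _ = (z.inf.1 + 1) * n := by ring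
    _ ≤ n * n := Nat.mul_le_mul_right _ h1

theorem pidx_inj {n : ℕ} : Function.Injective (pidx : Sym2 (Fin n) → ℕ) := by
  intro z w h
  unfold pidx at h
  have h1 := z.inf.2
  have h2 := z.sup.2
  have h3 := w.inf.2
  have h4 := w.sup.2
  have hn : 0 < n := by omega
  have e1 : z.sup.1 = w.sup.1 := by
    have := congrArg (· % n) h
    simpa [Nat.add_mod, Nat.mod_eq_of_lt h2, Nat.mod_eq_of_lt h4] using this
  have e2 : z.inf.1 = w.inf.1 := by
    rw [e1] at h
    exact Nat.eq_of_mul_eq_mul_right hn (Nat.add_right_cancel h)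
  have e3 : z.inf = w.inf := Fin.ext e2
  have e4 : z.sup = w.sup := Fin.ext e1
  rw [← Sym2.sortEquiv.apply_eq_iff_eq]
  apply Subtype.ext
  exact Prod.ext e3 e4

theorem sz_aux {ι F : Type} [Fintype ι] [Field F] [Fintype F] [Algebra (ZMod 2) F] (m L : ℕ)
    (ve : (Fin m → Bool) → F) (hve : Function.Bijective ve) (k : ι → ℕ)
    (hk : Function.Injective k) (hL : ∀ z, ∀ j : Fin m, k z * m + j.1 < L)
    (Q : MvPolynomial ι (ZMod 2)) (hQ : Q ≠ 0) :
    Nat.card {f : Fin L → Bool //
        MvPolynomial.aeval (fun z => ve (fun j => f ⟨k z * m + j.1, hL z j⟩)) Q = 0} *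
      Fintype.card F ≤ Q.totalDegree * 2 ^ L := by
  classical
  have hF : Fintype.card F = 2 ^ m := by
    rw [← Fintype.card_congr (Equiv.ofBijective ve hve), Fintype.card_fun, Fintype.card_bool,
      Fintype.card_fin]
  have hinj : Function.Injective (fun a : ι × Fin m => (⟨k a.1 * m + a.2.1, hL a.1 a.2⟩ : Fin L)) := by
    rintro ⟨z, j⟩ ⟨w, i⟩ h
    have h' : k z * m + j.1 = k w * m + i.1 := congrArg Fin.val h
    have h1 := j.2
    have h2 := i.2
    have hm : 0 < m := by omega
    have e1 : j.1 = i.1 := by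
      have := congrArg (· % m) h'
      simpa [Nat.add_mod, Nat.mod_eq_of_lt h2, Nat.mod_eq_of_lt h1] using this
    have e2 : k z = k w := by
      rw [e1] at h'
      exact Nat.eq_of_mul_eq_mul_right hm (Nat.add_right_cancel h')
    exact Prod.ext (hk e2) (Fin.ext e1)
  have h1 := count_restrict (fun a : ι × Fin m => (⟨k a.1 * m + a.2.1, hL a.1 a.2⟩ : Fin L)) hinj
    (fun g => MvPolynomial.aeval (fun z => ve (fun j => g (z, j))) Q = 0)
  have h2 : Nat.card {g : ι × Fin m → Bool //
      MvPolynomial.aeval (fun z => ve (fun j => g (z, j))) Q = 0} =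
      Nat.card {y : ι → F // MvPolynomial.eval y (MvPolynomial.map (algebraMap (ZMod 2) F) Q) = 0} := by
    refine Nat.card_congr (Equiv.subtypeEquiv ((Equiv.curry ι (Fin m) Bool).trans
      (Equiv.piCongrRight fun _ => Equiv.ofBijective ve hve)) ?_)
    intro g
    rw [MvPolynomial.eval_map, ← MvPolynomial.aeval_def]
    rfl
  have hQ' : MvPolynomial.map (algebraMap (ZMod 2) F) Q ≠ 0 := by
    intro h
    apply hQ
    apply MvPolynomial.map_injective _ (algebraMap (ZMod 2) F).injective
    rw [map_zero]; exact h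
  have h3 := sz_count _ hQ'
  have h4 : (MvPolynomial.map (algebraMap (ZMod 2) F) Q).totalDegree ≤ Q.totalDegree :=
    Finset.sup_mono (MvPolynomial.support_map_subset _ _)
  have h5 : Fintype.card (ι × Fin m) = m * Fintype.card ι := by
    rw [Fintype.card_prod, Fintype.card_fin, mul_comm]
  rw [h2, Fintype.card_fin, h5, pow_mul, ← hF] at h1
  have hpos : 0 < Fintype.card F ^ Fintype.card ι := by
    have : 0 < Fintype.card F := Fintype.card_pos
    positivity
  refine Nat.le_of_mul_le_mul_right ?_ hpos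
  calc _ = (Nat.card {f : Fin L → Bool //
        MvPolynomial.aeval (fun z => ve (fun j => f ⟨k z * m + j.1, hL z j⟩)) Q = 0} *
        Fintype.card F ^ Fintype.card ι) * Fintype.card F := by ring
    _ = _ := by rw [h1]
    _ = (Nat.card {y : ι → F // MvPolynomial.eval y (MvPolynomial.map (algebraMap (ZMod 2) F) Q) = 0} *
        Fintype.card F) * 2 ^ L := by ring
    _ ≤ ((MvPolynomial.map (algebraMap (ZMod 2) F) Q).totalDegree *
        Fintype.card F ^ Fintype.card ι) * 2 ^ L := Nat.mul_le_mul_right _ h3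
    _ ≤ (Q.totalDegree * Fintype.card F ^ Fintype.card ι) * 2 ^ L :=
      Nat.mul_le_mul_right _ (Nat.mul_le_mul_right _ h4)
    _ = _ := by ring

theorem blk_ofFn (N L : ℕ) (f : Fin L → Bool) (k : ℕ) (h : ∀ j : Fin (2 * N), k * (2 * N) + j.1 < L) :
    blk N (List.ofFn f) k =
      (List.ofFn (fun j : Fin (2 * N) => f ⟨k * (2 * N) + j.1, h j⟩)).map
        fun b => if b then 1 else 0 := by
  unfold blk
  congr 1
  apply List.ext_getElem
  · simp only [List.length_take, List.length_drop, List.length_ofFn]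
    rcases Nat.eq_zero_or_pos (2 * N) with h0 | h0
    · omega
    · have := h ⟨2 * N - 1, by omega⟩
      simp only at this
      omega
  · intro i h1 h2
    simp

theorem sz_GF (n l L : ℕ) (Q : MvPolynomial (Sym2 (Fin n)) (ZMod 2)) (hQ : Q ≠ 0)
    (hd : Q.totalDegree ≤ n)
    (hL' : ∀ z : Sym2 (Fin n), ∀ j : Fin (2 * 3 ^ l), pidx z * (2 * 3 ^ l) + j.1 < L) :
    Nat.card {f : Fin L → Bool // MvPolynomial.aeval (fun z => valF (3 ^ l)
      ((List.ofFn (fun j : Fin (2 * 3 ^ l) => f ⟨pidx z * (2 * 3 ^ l) + j.1, hL' z j⟩)).map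
        fun b => if b then 1 else 0)) Q = 0} * 4 ^ (3 ^ l) ≤ n * 2 ^ L := by
  have hirr : Fact (Irreducible (fpoly (ZMod 2) (3 ^ l))) := ⟨fpoly_irreducible l⟩
  have hfin : Finite (AdjoinRoot (fpoly (ZMod 2) (3 ^ l))) :=
    Finite.of_surjective _ (valF_bij l).2
  have : Fintype (AdjoinRoot (fpoly (ZMod 2) (3 ^ l))) := Fintype.ofFinite _
  have h := sz_aux (F := AdjoinRoot (fpoly (ZMod 2) (3 ^ l))) (2 * 3 ^ l) L _ (valF_bij l) pidx
    pidx_inj hL' Q hQ
  have hcard : Fintype.card (AdjoinRoot (fpoly (ZMod 2) (3 ^ l))) = 4 ^ (3 ^ l) := by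
    rw [← Nat.card_eq_fintype_card]
    exact card_GF l
  rw [hcard] at h
  exact h.trans (Nat.mul_le_mul_right _ hd)

theorem sz_bits (n l L : ℕ) (Q : MvPolynomial (Sym2 (Fin n)) (ZMod 2)) (hQ : Q ≠ 0)
    (hd : Q.totalDegree ≤ n) (hL : n * n * (2 * 3 ^ l) ≤ L) :
    {r : List Bool | r.length = L ∧
        MvPolynomial.aeval (fun z => valF (3 ^ l) (blk (3 ^ l) r (pidx z))) Q = 0}.ncard *
      4 ^ (3 ^ l) ≤ n * 2 ^ L := by
  have hL' : ∀ z : Sym2 (Fin n), ∀ j : Fin (2 * 3 ^ l), pidx z * (2 * 3 ^ l) + j.1 < L := by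
    intro z j
    have h1 := j.2
    have h2 := pidx_lt z
    calc pidx z * (2 * 3 ^ l) + j.1 < pidx z * (2 * 3 ^ l) + 2 * 3 ^ l := by omega
      _ = (pidx z + 1) * (2 * 3 ^ l) := by ring
      _ ≤ n * n * (2 * 3 ^ l) := Nat.mul_le_mul_right _ h2
      _ ≤ L := hL
  refine le_trans (Nat.mul_le_mul_right _ ?_) (sz_GF n l L Q hQ hd hL')
  rw [← Nat.card_coe_set_eq]
  apply le_of_eq
  refine Nat.card_congr ⟨fun r => ⟨fun i => r.1.get (i.cast r.2.1.symm), ?_⟩,
    fun f => ⟨List.ofFn f.1, List.length_ofFn, ?_⟩, ?_, ?_⟩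
  · obtain ⟨r, hr1, hr2⟩ := r
    subst hr1
    have e : r = List.ofFn (fun i : Fin r.length => r.get i) := by simp
    rw [e] at hr2
    simp only
    convert hr2 using 4 with z
    rw [blk_ofFn _ _ _ _ (hL' z)]
    rfl
  · have h2 := f.2
    convert h2 using 4 with z
    rw [blk_ofFn _ _ _ _ (hL' z)]
  · rintro ⟨r, hr1, hr2⟩
    subst hr1
    apply Subtype.ext
    simp
  · rintro ⟨f, hf⟩
    apply Subtype.ext
    funext i
    simp

end Pool.Agent.Work.MP_0f7328_co
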