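import Pool.Agent.Work.MP_0f7328_co.HafBasic
import Pool.Agent.Work.MP_0f7328_co.HafSum
import Pool.Agent.Work.MP_0f7328_co.CoefC
import Pool.Agent.Work.MP_0f7328_co.Elim
import Pool.Agent.Work.MP_0f7328_co.Rep
import Pool.Agent.Work.MP_0f7328_co.Ring
import Pool.Agent.Work.MP_0f7328_co.SZ

/-!
Correctness of the test.
-/

set_option autoImplicit false

namespace Pool.Agent.Work.MP_0f7328_co

/-- The edges join different vertices below `n`. -/
def WF (n : ℕ) (E : List (ℕ × ℕ)) : Prop := ∀ e ∈ E, e.1 < n ∧ e.2 < n ∧ e.1 ≠ e.2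

/-- The simple graph of a list of edges. -/
def sgraph (n : ℕ) (E : List (ℕ × ℕ)) (h : WF n E) : SimpleGraph (Fin n) where
  Adj u v := (u.1, v.1) ∈ E ∨ (v.1, u.1) ∈ E
  symm := ⟨fun _ _ h => h.symm⟩
  loopless := ⟨fun v hv => by
    rcases hv with hv | hv <;> exact (h _ hv).2.2 rfl⟩

section

variable {N n : ℕ} {E : List (ℕ × ℕ)} {r : List Bool}

theorem entry_symm (p q : ℕ) : entry N n E r p q = entry N n E r q p := by
  unfold entry
  rw [min_comm, max_comm]
  simp only [or_comm]

theorem entry_diag (hW : WF n E) (p : ℕ) : entry N n E r p p = [] := by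
  unfold entry
  rw [if_neg]
  intro h
  rcases h with h | h <;> exact (hW _ h).2.2 rfl

theorem mget_map {m : ℕ} (f : ℕ → ℕ → List ℕ) (p q : ℕ) :
    mget (gops N) ((List.range m).map fun p => (List.range m).map fun q => f p q) p q =
      if p < m ∧ q < m then f p q else [] := by
  unfold mget
  simp only [List.getD_eq_getElem?_getD, List.getElem?_map]
  by_cases hp : p < m
  · rw [List.getElem?_range hp]
    simp only [Option.map_some, Option.getD_some, List.getElem?_map]
    by_cases hq : q < m
    · rw [List.getElem?_range hq, if_pos ⟨hp, hq⟩]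
      rfl
    · rw [List.getElem?_eq_none (by simpa using hq), if_neg (fun h => hq h.2)]
      rfl
  · have hp' : (List.range m)[p]? = none := List.getElem?_eq_none (by simpa using hp)
    rw [hp', if_neg (fun h => hp h.1)]
    rfl

theorem mget_amat (p q : ℕ) : mget (gops N) (amat N n E r) p q =
    if p < n ∧ q < n then entry N n E r p q else [] := mget_map _ p q

theorem mget_dmat (p q : ℕ) : mget (gops N) (dmat N n E r) p q =
    if p < 2 * n ∧ q < 2 * n then
      (if p < n ∧ n ≤ q then entry N n E r p (q - n)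
      else if q < n ∧ n ≤ p then entry N n E r q (p - n) else []) else [] := mget_map _ p q

/-- the values of the random matrix -/
noncomputable def aval (N n : ℕ) (E : List (ℕ × ℕ)) (r : List Bool) (p q : ℕ) : GR N :=
  val N (mget (gops N) (amat N n E r) p q)

theorem aval_symm (p q : ℕ) : aval N n E r p q = aval N n E r q p := by
  unfold aval
  rw [mget_amat, mget_amat]
  by_cases h : p < n ∧ q < n
  · rw [if_pos h, if_pos h.symm, entry_symm]
  · rw [if_neg h, if_neg (fun h' => h h'.symm)]

theorem aval_eq (hW : WF n E) [DecidableRel (sgraph n E hW).Adj] (p q : Fin n) :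
    aval N n E r p q = if (sgraph n E hW).Adj p q then val N (blk N r (pidx s(p, q))) else 0 := by
  unfold aval
  rw [mget_amat, if_pos ⟨p.2, q.2⟩]
  unfold entry
  by_cases h : (p.1, q.1) ∈ E ∨ (q.1, p.1) ∈ E
  · rw [if_pos h, if_pos (show (sgraph n E hW).Adj p q from h)]
    congr 2
  · rw [if_neg h, if_neg (show ¬ (sgraph n E hW).Adj p q from h), val_nil]

theorem symM_amat (hW : WF n E) : SymM (gops N) (val N) (amat N n E r) := by
  refine ⟨aval_symm, fun p => ?_⟩
  rw [mget_amat]
  split_ifs
  · rw [entry_diag hW, val_nil]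
  · exact val_nil N

theorem symM_dmat (hW : WF n E) : SymM (gops N) (val N) (dmat N n E r) := by
  constructor
  · intro p q
    rw [mget_dmat, mget_dmat]
    by_cases h1 : p < n ∧ n ≤ q
    · have h2 : ¬ (q < n ∧ n ≤ p) := by omega
      simp only [h1, h2, and_self, if_true, if_false, and_comm]
    · by_cases h2 : q < n ∧ n ≤ p
      · simp only [h1, h2, and_self, if_true, if_false, and_comm]
      · simp only [h1, h2, if_false, and_comm]
  · intro p
    rw [mget_dmat, if_neg (show ¬ (p < n ∧ n ≤ p) by omega),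
      if_neg (show ¬ (p < n ∧ n ≤ p) by omega)]
    split_ifs <;> exact val_nil N

end

theorem test_spec (n l N : ℕ) (hN : N = 3 ^ l) (E : List (ℕ × ℕ)) (hW : WF n E) (hn : Even n) :
    ∃ Q : MvPolynomial (Sym2 (Fin n)) (ZMod 2), Q.totalDegree ≤ n ∧
      (Q ≠ 0 ↔ TwoOdd (sgraph n E hW)) ∧
      ∀ r : List Bool, test N n E r = true ↔
        MvPolynomial.aeval (fun z => valF N (blk N r (pidx z))) Q = 0 := by
  classical
  have hred := exists_red l
  have hg := good_gops l
  have hzero := val_eq_zero l
  rw [← hN] at hred hg hzero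
  obtain ⟨Q, hd, hT, h0, hQ'⟩ := coef (sgraph n E hW) hn
  have hQ : ∀ (R : Type) [CommRing R], (8 : R) = 0 → ∀ y : Sym2 (Fin n) → R,
      (∑ σ : Equiv.Perm (Fin n), ∏ i, (if (sgraph n E hW).Adj i (σ i) then y s(i, σ i) else 0)) -
        (∑ τ : Equiv.Perm (Fin n) with (∀ v, τ (τ v) = v) ∧ ∀ v, τ v ≠ v,
          ∏ i with i < τ i, (if (sgraph n E hW).Adj i (τ i) then y s(i, τ i) else 0)) ^ 2 =
      4 * MvPolynomial.eval₂ (Int.castRingHom R) y Q := by
    intro R _ h8 y
    rw [hQ' R h8 y, MvPolynomial.aeval_def]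
    rfl
  refine ⟨MvPolynomial.map (Int.castRingHom (ZMod 2)) Q,
    (Finset.sup_mono (MvPolynomial.support_map_subset _ _)).trans hd, hT, fun r => ?_⟩
  obtain ⟨π, hπ1, -, -, hπ4⟩ := hred
  have hNpos : 0 < N := by rw [hN]; positivity
  have h8 : (8 : GR N) = 0 := eight_GR N
  set y : Sym2 (Fin n) → GR N := fun z => val N (blk N r (pidx z)) with hy
  -- hafnian
  have e1 : val N (hk (gops N) 3 (amat N n E r) (List.range n)) =
      haf (aval N n E r) (List.range n) := by
    obtain ⟨d, hd⟩ := hk_correct (gops N) (val N) hg 3 (amat N n E r) (symM_amat hW)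
      (List.range n) List.nodup_range (by intro i hi; simpa [amat] using hi)
    have : (2 : GR N) ^ 3 * d = 0 := by
      rw [show (2 : GR N) ^ 3 = 8 by norm_num, h8, zero_mul]
    rw [this, add_zero] at hd
    exact hd.symm
  have e2 : val N (hk (gops N) 3 (dmat N n E r) (List.range (2 * n))) =
      per (aval N n E r) (List.range n) (List.range n) := by
    obtain ⟨d, hd⟩ := hk_correct (gops N) (val N) hg 3 (dmat N n E r) (symM_dmat hW)
      (List.range (2 * n)) List.nodup_range (by intro i hi; simpa [dmat] using hi)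
    have : (2 : GR N) ^ 3 * d = 0 := by
      rw [show (2 : GR N) ^ 3 = 8 by norm_num, h8, zero_mul]
    rw [this, add_zero] at hd
    rw [← haf_dbl, ← hd]
    refine haf_congr _ _ _ List.nodup_range ?_
    intro p hp q hq hpq
    rw [List.mem_range] at hp hq
    simp only [mget_dmat, hp, hq, and_self, if_true, dbl]
    by_cases h1 : p < n ∧ n ≤ q
    · rw [if_pos h1, if_pos h1]
      unfold aval
      rw [mget_amat, if_pos ⟨h1.1, by omega⟩]
    · rw [if_neg h1, if_neg h1]
      by_cases h2 : q < n ∧ n ≤ p
      · rw [if_pos h2, if_pos h2]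
        unfold aval
        rw [mget_amat, if_pos ⟨h2.1, by omega⟩]
      · rw [if_neg h2, if_neg h2, val_nil]
  have e3 : per (aval N n E r) (List.range n) (List.range n) -
      haf (aval N n E r) (List.range n) ^ 2 = 4 * MvPolynomial.eval₂ (Int.castRingHom (GR N)) y Q := by
    rw [← hQ (GR N) h8 y, per_eq, haf_eq n _ aval_symm]
    congr 1
    · refine Finset.sum_congr rfl fun σ _ => Finset.prod_congr rfl fun i _ => ?_
      rw [aval_eq hW]
    · congr 1
      refine Finset.sum_congr ?_ fun τ _ => Finset.prod_congr rfl fun i _ => ?_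
      · ext τ; simp
      · rw [aval_eq hW]
  -- the test
  have e4 : test N n E r = true ↔ 4 * MvPolynomial.eval₂ (Int.castRingHom (GR N)) y Q = 0 := by
    unfold test
    rw [hzero, val_add, val_smul, val_mul N hNpos, e1, e2, ← e3]
    have h7 : ((7 : ℕ) : GR N) = -1 := by
      have : ((7 : ℕ) : GR N) + 1 = 8 := by norm_num
      rw [h8] at this
      exact eq_neg_of_add_eq_zero_left this
    rw [h7]
    constructor
    · intro h; rw [← h]; ring
    · intro h; rw [← h]; ring
  rw [e4, hπ1]
  have e5 : π (MvPolynomial.eval₂ (Int.castRingHom (GR N)) y Q) = MvPolynomial.aeval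
      (fun z => valF N (blk N r (pidx z))) (MvPolynomial.map (Int.castRingHom (ZMod 2)) Q) := by
    have h1 : (fun z => valF N (blk N r (pidx z))) = fun z => π (y z) := by
      funext z; rw [hy]; exact (hπ4 _).symm
    rw [h1, MvPolynomial.aeval_def, MvPolynomial.eval₂_map, MvPolynomial.eval₂_comp_left]
    congr 1
    exact RingHom.ext_int _ _
  rw [e5]

end Pool.Agent.Work.MP_0f7328_co
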