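import Pool.Agent.Work.MP_0f7328_co.TimeB

/-!
The test runs in polynomial time.
-/

set_option autoImplicit false

namespace Pool.Agent.Work.MP_0f7328_co

open Pool.Agent.Work.PolyTime

section

variable {α β : Type} [Code α] [Code β]

theorem ptime_pow3 {m : α → ℕ} (hm : PTime m) : PTime (fun x => pow3 (m x)) := by
  unfold pow3
  refine PTime.foldl (f := fun y : α × ℕ × ℕ => if y.2.1 < m y.1 then 3 * y.2.1 else y.2.1)
    (PTime.range hm) (PTime.const 1) ?_ (B := fun x => 6 * m x + 3) ?_ ?_
  · have h1 : PTime (fun y : α × ℕ × ℕ => y.2.1) := PTime.fst.comp PTime.snd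
    exact PTime.ite (PTime.natLt h1 (hm.comp PTime.fst)) (PTime.natMul (PTime.const 3) h1) h1
  · exact PB.add (PB.mul (PB.const _) (pb_nat hm)) (PB.const _)
  · intro x l' _
    have key : ∀ (l' : List ℕ) (s : ℕ), s ≤ 3 * m x + 1 →
        l'.foldl (fun s _ => if s < m x then 3 * s else s) s ≤ 3 * m x + 1 := by
      intro l'
      induction l' with
      | nil => intro s h; exact h
      | cons a l' ih =>
        intro s h
        refine ih _ ?_
        change (if s < m x then 3 * s else s) ≤ 3 * m x + 1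
        split_ifs <;> omega
    have := key l' 1 (by omega)
    simp only [sz_nat]
    omega

theorem ptime_blk {N k : α → ℕ} {r : α → List Bool} (hN : PTime N) (hk : PTime k) (hr : PTime r) :
    PTime (fun x => blk (N x) (r x) (k x)) := by
  unfold blk
  refine PTime.map (PTime.take (PTime.drop hr (PTime.natMul hk (PTime.natMul (PTime.const 2) hN)))
    (PTime.natMul (PTime.const 2) hN)) ?_
  have h : PTime (fun y : α × Bool => bif y.2 then 1 else 0) :=
    PTime.cond PTime.snd (PTime.const 1) (PTime.const 0)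
  exact h.code_congr (fun y => by cases y.2 <;> rfl)

theorem ptime_min {a b : α → ℕ} (ha : PTime a) (hb : PTime b) :
    PTime (fun x => min (a x) (b x)) := PTime.natMin ha hb

theorem ptime_entry {N n p q : α → ℕ} {E : α → List (ℕ × ℕ)} {r : α → List Bool} (hN : PTime N)
    (hn : PTime n) (hE : PTime E) (hr : PTime r) (hp : PTime p) (hq : PTime q) :
    PTime (fun x => entry (N x) (n x) (E x) (r x) (p x) (q x)) := by
  unfold entry
  refine PTime.ite ?_ (ptime_blk hN (PTime.natAdd (PTime.natMul (PTime.natMin hp hq) hn)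
    (PTime.natMax hp hq)) hr) (PTime.const _)
  have h1 : PTime (fun x => decide ((p x, q x) ∈ E x)) :=
    (PTime.mem (PTime.prodMk hp hq) hE).code_congr (fun x => decide_eq_decide.2 Iff.rfl)
  have h2 : PTime (fun x => decide ((q x, p x) ∈ E x)) :=
    (PTime.mem (PTime.prodMk hq hp) hE).code_congr (fun x => decide_eq_decide.2 Iff.rfl)
  have h : PTime (fun x => decide ((p x, q x) ∈ E x) || decide ((q x, p x) ∈ E x)) :=
    PTime.or h1 h2
  exact h.code_congr (fun x => by simp)

theorem ptime_amat {N n : α → ℕ} {E : α → List (ℕ × ℕ)} {r : α → List Bool} (hN : PTime N)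
    (hn : PTime n) (hE : PTime E) (hr : PTime r) :
    PTime (fun x => amat (N x) (n x) (E x) (r x)) := by
  unfold amat
  have hl := PTime.range hn
  refine PTime.map hl (PTime.map (hl.comp PTime.fst) ?_)
  set γ := (α × ℕ) × ℕ
  have x1 : PTime (fun y : γ => y.1.1) := PTime.fst.comp PTime.fst
  exact ptime_entry (hN.comp x1) (hn.comp x1) (hE.comp x1) (hr.comp x1) (PTime.snd.comp PTime.fst)
    PTime.snd

theorem ptime_dmat {N n : α → ℕ} {E : α → List (ℕ × ℕ)} {r : α → List Bool} (hN : PTime N)
    (hn : PTime n) (hE : PTime E) (hr : PTime r) :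
    PTime (fun x => dmat (N x) (n x) (E x) (r x)) := by
  unfold dmat
  have hl := PTime.range (PTime.natMul (PTime.const 2) hn)
  refine PTime.map hl (PTime.map (hl.comp PTime.fst) ?_)
  set γ := (α × ℕ) × ℕ
  have x1 : PTime (fun y : γ => y.1.1) := PTime.fst.comp PTime.fst
  have p1 : PTime (fun y : γ => y.1.2) := PTime.snd.comp PTime.fst
  have q1 : PTime (fun y : γ => y.2) := PTime.snd
  have n1 := hn.comp x1
  have c1 : PTime (fun y : γ => decide (y.1.2 < n y.1.1 ∧ n y.1.1 ≤ y.2)) :=
    (PTime.and (PTime.natLt p1 n1) (PTime.natLe n1 q1)).code_congr (fun y => by simp)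
  have c2 : PTime (fun y : γ => decide (y.2 < n y.1.1 ∧ n y.1.1 ≤ y.1.2)) :=
    (PTime.and (PTime.natLt q1 n1) (PTime.natLe n1 p1)).code_congr (fun y => by simp)
  exact PTime.ite c1 (ptime_entry (hN.comp x1) n1 (hE.comp x1) (hr.comp x1) p1
    (PTime.natSub q1 n1)) (PTime.ite c2 (ptime_entry (hN.comp x1) n1 (hE.comp x1) (hr.comp x1) q1
    (PTime.natSub p1 n1)) (PTime.const _))

theorem ptime_test {N n : α → ℕ} {E : α → List (ℕ × ℕ)} {r : α → List Bool} (hN : PTime N)
    (hn : PTime n) (hE : PTime E) (hr : PTime r) :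
    PTime (fun x => test (N x) (n x) (E x) (r x)) := by
  have h := ptime_hk 3
  unfold test
  generalize hg : (fun y : ℕ × Mat × List ℕ => hk (gops y.1) 3 y.2.1 y.2.2) = g at h
  have hg' : ∀ (N : ℕ) (M : Mat) (S : List ℕ), hk (gops N) 3 M S = g (N, M, S) := by
    intro N M S; rw [← hg]
  simp only [hg']
  have h1 : PTime (fun x => g (N x, amat (N x) (n x) (E x) (r x), List.range (n x))) :=
    h.comp (PTime.prodMk hN (PTime.prodMk (ptime_amat hN hn hE hr) (PTime.range hn)))
  have h2 : PTime (fun x => g (N x, dmat (N x) (n x) (E x) (r x), List.range (2 * n x))) :=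
    h.comp (PTime.prodMk hN (PTime.prodMk (ptime_dmat hN hn hE hr)
      (PTime.range (PTime.natMul (PTime.const 2) hn))))
  exact ptime_gzero hN (ptime_gadd hN h2 (ptime_gsmul hN (PTime.const 7) (ptime_gmul hN h1 h1)))

end

end Pool.Agent.Work.MP_0f7328_co
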