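import Mathlib
import Pool.Agent.Work.MP_0f7328_co.Defs

/-!
Perfect matchings of a multigraph and of its underlying simple graph.
-/

set_option autoImplicit false

namespace Pool.Agent.Work.MP_0f7328_co

section Bridge
variable {V E : Type} [Fintype V] [DecidableEq V] (G : MGraph V E)

omit [Fintype V] [DecidableEq V] in
theorem MGraph.pm_to (M : Set E) (hM : G.IsPM M) :
    ∃ τ ∈ PMs G.simple, ∀ v, ∀ e ∈ M, v ∈ G.ends e → G.ends e = s(v, τ v) := by
  choose e he hu using hM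
  have hw : ∀ v, ∃ w, G.ends (e v) = s(v, w) := fun v => by
    obtain ⟨w, hw⟩ := (he v).2
    exact ⟨w, hw⟩
  choose w hw using hw
  have hinv : ∀ v, w (w v) = v := by
    intro v
    have h1 : e v = e (w v) := hu (w v) (e v) ⟨(he v).1, by rw [hw v]; exact Sym2.mem_mk_right _ _⟩
    have h2 := hw (w v)
    rw [← h1, hw v, Sym2.eq_iff] at h2
    rcases h2 with ⟨h3, h4⟩ | ⟨h3, h4⟩
    · rw [← h4, ← h3]
    · exact h3.symm
  refine ⟨Function.Involutive.toPerm w hinv, ⟨hinv, fun v => ⟨e v, hw v⟩⟩, ?_⟩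
  intro v e' he' hv
  rw [hu v e' ⟨he', hv⟩]
  exact hw v

omit [Fintype V] [DecidableEq V] in
theorem MGraph.pm_of (τ : Equiv.Perm V) (hτ : τ ∈ PMs G.simple) (e : E) (v₀ : V)
    (he : G.ends e = s(v₀, τ v₀)) :
    ∃ M, G.IsPM M ∧ e ∈ M ∧ ∀ v, ∀ e' ∈ M, v ∈ G.ends e' → G.ends e' = s(v, τ v) := by
  classical
  let g : Sym2 V → E := fun z => if z = s(v₀, τ v₀) then e else
    if h : ∃ e, G.ends e = z then Classical.choose h else e
  have hg : ∀ v, G.ends (g s(v, τ v)) = s(v, τ v) := by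
    intro v
    by_cases h1 : s(v, τ v) = s(v₀, τ v₀)
    · simp only [g, if_pos h1]
      rw [he, h1]
    · have h2 : ∃ e, G.ends e = s(v, τ v) := hτ.2 v
      simp only [g, if_neg h1, dif_pos h2]
      exact Classical.choose_spec h2
  have hs : ∀ v w, v ∈ G.ends (g s(w, τ w)) → s(w, τ w) = s(v, τ v) := by
    intro v w h
    rw [hg w, Sym2.mem_iff] at h
    rcases h with rfl | rfl
    · rfl
    · rw [hτ.1 w]
      exact Sym2.eq_swap
  refine ⟨{e' | ∃ v, e' = g s(v, τ v)}, ?_, ⟨v₀, by simp [g]⟩, ?_⟩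
  · intro v
    refine ⟨g s(v, τ v), ⟨⟨v, rfl⟩, by rw [hg v]; exact Sym2.mem_mk_left _ _⟩, ?_⟩
    rintro e' ⟨⟨w, rfl⟩, hv⟩
    rw [hs v w hv]
  · rintro v e' ⟨w, rfl⟩ hv
    rw [hg w, hs v w hv]

omit [Fintype V] [DecidableEq V] in
theorem MGraph.mem_cut_iff_of_ends {X : Set V} {e : E} {a b : V} (h : G.ends e = s(a, b))
    (ha : a ∈ X) : e ∈ G.cut X ↔ b ∉ X := by
  constructor
  · rintro ⟨-, w, hw, hwX⟩
    rw [h, Sym2.mem_iff] at hw
    rcases hw with rfl | rfl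
    · exact absurd ha hwX
    · exact hwX
  · intro hb
    exact ⟨⟨a, by rw [h]; exact Sym2.mem_mk_left _ _, ha⟩,
      ⟨b, by rw [h]; exact Sym2.mem_mk_right _ _, hb⟩⟩

omit [Fintype V] in
theorem MGraph.crosses_iff (X : Finset V) (M : Set E) (hM : G.IsPM M) (τ : Equiv.Perm V)
    (hτ : ∀ v, ∀ e ∈ M, v ∈ G.ends e → G.ends e = s(v, τ v)) :
    (∃! e, e ∈ M ∧ e ∈ G.cut (X : Set V)) ↔ crosses τ X = 1 := by
  unfold crosses
  rw [Finset.card_eq_one]
  constructor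
  · rintro ⟨e, ⟨heM, heX⟩, hu⟩
    obtain ⟨v, hv, hvX⟩ := heX.1
    have hev := hτ v e heM hv
    have hτv : τ v ∉ X := by
      have := (G.mem_cut_iff_of_ends hev hvX).mp heX
      simpa using this
    refine ⟨v, ?_⟩
    ext v'
    rw [Finset.mem_filter, Finset.mem_singleton]
    constructor
    · rintro ⟨hv'X, hτv'⟩
      obtain ⟨e', ⟨he'M, hv'⟩, -⟩ := hM v'
      have hev' := hτ v' e' he'M hv'
      have h1 : e' ∈ G.cut (X : Set V) :=
        (G.mem_cut_iff_of_ends hev' (by simpa using hv'X)).mpr (by simpa using hτv')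
      have h2 := hu e' ⟨he'M, h1⟩
      rw [h2, hev, Sym2.eq_iff] at hev'
      rcases hev' with ⟨h3, -⟩ | ⟨-, h4⟩
      · exact h3.symm
      · exact absurd (h4 ▸ hv'X) hτv
    · rintro rfl
      exact ⟨by simpa using hvX, hτv⟩
  · rintro ⟨v, hv⟩
    have hv1 : v ∈ X ∧ τ v ∉ X := by
      have : v ∈ X.filter (fun v => τ v ∉ X) := by rw [hv]; exact Finset.mem_singleton_self v
      exact Finset.mem_filter.mp this
    obtain ⟨e, ⟨heM, hve⟩, hu⟩ := hM v
    have hev := hτ v e heM hve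
    refine ⟨e, ⟨heM, (G.mem_cut_iff_of_ends hev (by simpa using hv1.1)).mpr
      (by simpa using hv1.2)⟩, ?_⟩
    rintro e' ⟨he'M, he'X⟩
    obtain ⟨v', hv', hv'X⟩ := he'X.1
    have hev' := hτ v' e' he'M hv'
    have h1 := (G.mem_cut_iff_of_ends hev' hv'X).mp he'X
    have h2 : v' ∈ X.filter (fun v => τ v ∉ X) :=
      Finset.mem_filter.mpr ⟨by simpa using hv'X, by simpa using h1⟩
    rw [hv, Finset.mem_singleton] at h2
    subst h2
    exact hu e' ⟨he'M, hv'⟩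

omit [Fintype V] in
theorem MGraph.tight_iff (hV : Nonempty V) (X : Finset V) :
    G.Tight (X : Set V) ↔ ∀ τ ∈ PMs G.simple, crosses τ X = 1 := by
  constructor
  · intro h τ hτ
    obtain ⟨v₀⟩ := hV
    obtain ⟨e, he⟩ := hτ.2 v₀
    obtain ⟨M, hM, -, hMτ⟩ := G.pm_of τ hτ e v₀ he
    exact (G.crosses_iff X M hM τ hMτ).mp (h M hM)
  · intro h M hM
    obtain ⟨τ, hτ, hMτ⟩ := G.pm_to M hM
    exact (G.crosses_iff X M hM τ hMτ).mpr (h τ hτ)

end Bridge

end Pool.Agent.Work.MP_0f7328_co
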