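import Mathlib
import Pool.Agent.Work.MP_0f7328_co.Defs
import Pool.Agent.Work.MP_0f7328_co.Bridge1

/-!
Separating cuts in terms of perfect matchings.
-/

set_option autoImplicit false

namespace Pool.Agent.Work.MP_0f7328_co

section Bridge
variable {V E : Type} (G : MGraph V E)

theorem MGraph.some_mem_contract {X : Set V} (e : {e : E // ∃ v ∈ G.ends e, v ∉ X}) {v : V}
    (hv : v ∉ X) : some ⟨v, hv⟩ ∈ (G.contract X).ends e ↔ v ∈ G.ends e.1 := by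
  show some ⟨v, hv⟩ ∈ (G.ends e.1).map (MGraph.proj X) ↔ _
  rw [Sym2.mem_map]
  constructor
  · rintro ⟨a, ha, hav⟩
    by_cases haX : a ∈ X
    · rw [MGraph.proj_mem haX] at hav
      exact absurd hav (by simp)
    · rw [MGraph.proj_not_mem haX, Option.some.injEq, Subtype.mk.injEq] at hav
      exact hav ▸ ha
  · intro h
    exact ⟨v, h, MGraph.proj_not_mem hv⟩

theorem MGraph.none_mem_contract {X : Set V} (e : {e : E // ∃ v ∈ G.ends e, v ∉ X}) :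
    none ∈ (G.contract X).ends e ↔ e.1 ∈ G.cut X := by
  show none ∈ (G.ends e.1).map (MGraph.proj X) ↔ _
  rw [Sym2.mem_map]
  constructor
  · rintro ⟨a, ha, hav⟩
    by_cases haX : a ∈ X
    · exact ⟨⟨a, ha, haX⟩, e.2⟩
    · rw [MGraph.proj_not_mem haX] at hav
      exact absurd hav (by simp)
  · rintro ⟨⟨a, ha, haX⟩, -⟩
    exact ⟨a, ha, MGraph.proj_mem haX⟩

/-- perfect matching of the contraction, as a set of edges of the graph -/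
def MGraph.PX (X : Set V) (N : Set E) : Prop :=
  (∀ e ∈ N, ∃ v ∈ G.ends e, v ∉ X) ∧ (∀ v ∉ X, ∃! e, e ∈ N ∧ v ∈ G.ends e) ∧
    ∃! e, e ∈ N ∧ e ∈ G.cut X

theorem MGraph.pX_of_isPM {X : Set V} {M : Set {e : E // ∃ v ∈ G.ends e, v ∉ X}}
    (hM : (G.contract X).IsPM M) : G.PX X (Subtype.val '' M) := by
  refine ⟨?_, ?_, ?_⟩
  · rintro e ⟨e', -, rfl⟩
    exact e'.2
  · intro v hv
    obtain ⟨e, ⟨heM, hve⟩, hu⟩ := hM (some ⟨v, hv⟩)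
    refine ⟨e.1, ⟨⟨e, heM, rfl⟩, (G.some_mem_contract e hv).mp hve⟩, ?_⟩
    rintro e' ⟨⟨e'', he'', rfl⟩, hv'⟩
    rw [hu e'' ⟨he'', (G.some_mem_contract e'' hv).mpr hv'⟩]
  · obtain ⟨e, ⟨heM, hve⟩, hu⟩ := hM none
    refine ⟨e.1, ⟨⟨e, heM, rfl⟩, (G.none_mem_contract e).mp hve⟩, ?_⟩
    rintro e' ⟨⟨e'', he'', rfl⟩, hv'⟩
    rw [hu e'' ⟨he'', (G.none_mem_contract e'').mpr hv'⟩]

theorem MGraph.isPM_of_pX {X : Set V} {N : Set E} (hN : G.PX X N) :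
    (G.contract X).IsPM (Subtype.val ⁻¹' N) := by
  rintro (_ | ⟨v, hv⟩)
  · obtain ⟨e, ⟨heN, heX⟩, hu⟩ := hN.2.2
    refine ⟨⟨e, hN.1 e heN⟩, ⟨heN, (G.none_mem_contract _).mpr heX⟩, ?_⟩
    rintro e' ⟨he'N, he'⟩
    exact Subtype.ext (hu e'.1 ⟨he'N, (G.none_mem_contract _).mp he'⟩)
  · obtain ⟨e, ⟨heN, hve⟩, hu⟩ := hN.2.1 v hv
    refine ⟨⟨e, hN.1 e heN⟩, ⟨heN, (G.some_mem_contract _ hv).mpr hve⟩, ?_⟩
    rintro e' ⟨he'N, he'⟩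
    exact Subtype.ext (hu e'.1 ⟨he'N, (G.some_mem_contract _ hv).mp he'⟩)

theorem MGraph.cut_compl (X : Set V) : G.cut Xᶜ = G.cut X := by
  ext e
  constructor
  · rintro ⟨⟨a, ha, haX⟩, ⟨b, hb, hbX⟩⟩
    exact ⟨⟨b, hb, not_not.mp hbX⟩, ⟨a, ha, haX⟩⟩
  · rintro ⟨⟨a, ha, haX⟩, ⟨b, hb, hbX⟩⟩
    exact ⟨⟨b, hb, hbX⟩, ⟨a, ha, not_not.mpr haX⟩⟩

/-- combination of two perfect matchings of the contractions -/
theorem MGraph.combine {X : Set V} {N₁ N₂ : Set E} (h₁ : G.PX X N₁) (h₂ : G.PX Xᶜ N₂) {f : E}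
    (hf₁ : f ∈ N₁) (hf₂ : f ∈ N₂) (hf : f ∈ G.cut X) :
    G.IsPM (N₁ ∪ N₂) ∧ ∃! e, e ∈ N₁ ∪ N₂ ∧ e ∈ G.cut X := by
  have hu₁ : ∀ e ∈ N₁, e ∈ G.cut X → e = f := fun e he heX =>
    h₁.2.2.unique ⟨he, heX⟩ ⟨hf₁, hf⟩
  have hu₂ : ∀ e ∈ N₂, e ∈ G.cut X → e = f := fun e he heX =>
    h₂.2.2.unique ⟨he, by rw [G.cut_compl]; exact heX⟩ ⟨hf₂, by rw [G.cut_compl]; exact hf⟩
  refine ⟨?_, f, ⟨Or.inl hf₁, hf⟩, ?_⟩
  · intro v
    by_cases hv : v ∈ X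
    · obtain ⟨e, ⟨heN, hve⟩, hu⟩ := h₂.2.1 v (fun h => h hv)
      refine ⟨e, ⟨Or.inr heN, hve⟩, ?_⟩
      rintro e' ⟨he' | he', hve'⟩
      · have h3 : e' = f := hu₁ e' he' ⟨⟨v, hve', hv⟩, h₁.1 e' he'⟩
        exact hu e' ⟨h3 ▸ hf₂, hve'⟩
      · exact hu e' ⟨he', hve'⟩
    · obtain ⟨e, ⟨heN, hve⟩, hu⟩ := h₁.2.1 v hv
      refine ⟨e, ⟨Or.inl heN, hve⟩, ?_⟩
      rintro e' ⟨he' | he', hve'⟩
      · exact hu e' ⟨he', hve'⟩
      · obtain ⟨w, hw, hwX⟩ := h₂.1 e' he'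
        have h3 : e' = f := hu₂ e' he' ⟨⟨w, hw, not_not.mp hwX⟩, ⟨v, hve', hv⟩⟩
        exact hu e' ⟨h3 ▸ hf₁, hve'⟩
  · rintro e ⟨he | he, heX⟩
    · exact hu₁ e he heX
    · exact hu₂ e he heX

/-- every edge is in a perfect matching with exactly one edge in the cut -/
def MGraph.Cov (X : Set V) : Prop :=
  ∀ e, ∃ M, G.IsPM M ∧ e ∈ M ∧ ∃! f, f ∈ M ∧ f ∈ G.cut X

theorem MGraph.cov_of_separating {X : Set V} (h : G.Separating X) : G.Cov X := by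
  have h₁ : ∀ e, (∃ v ∈ G.ends e, v ∉ X) → ∃ N, G.PX X N ∧ e ∈ N := by
    intro e he
    obtain ⟨M, hM, heM⟩ := h.1.2.2 ⟨e, he⟩
    exact ⟨_, G.pX_of_isPM hM, ⟨e, he⟩, heM, rfl⟩
  have h₂ : ∀ e, (∃ v ∈ G.ends e, v ∈ X) → ∃ N, G.PX Xᶜ N ∧ e ∈ N := by
    rintro e ⟨v, hv, hvX⟩
    obtain ⟨M, hM, heM⟩ := h.2.2.2 ⟨e, v, hv, fun h => h hvX⟩
    exact ⟨_, G.pX_of_isPM hM, ⟨e, v, hv, fun h => h hvX⟩, heM, rfl⟩
  intro e
  by_cases ha : ∃ v ∈ G.ends e, v ∉ X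
  · obtain ⟨N₁, hN₁, he₁⟩ := h₁ e ha
    obtain ⟨f, ⟨hf, hfX⟩, -⟩ := hN₁.2.2
    obtain ⟨N₂, hN₂, hf₂⟩ := h₂ f hfX.1
    obtain ⟨h3, h4⟩ := G.combine hN₁ hN₂ hf hf₂ hfX
    exact ⟨_, h3, Or.inl he₁, h4⟩
  · have hb : ∃ v ∈ G.ends e, v ∈ X := by
      push Not at ha
      obtain ⟨a, b, hab⟩ : ∃ a b, G.ends e = s(a, b) := by
        induction h : G.ends e using Sym2.ind with
        | _ a b => exact ⟨a, b, rfl⟩
      have ha' : a ∈ G.ends e := by rw [hab]; exact Sym2.mem_mk_left _ _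
      exact ⟨a, ha', ha a ha'⟩
    obtain ⟨N₂, hN₂, he₂⟩ := h₂ e hb
    obtain ⟨f, ⟨hf, hfX⟩, -⟩ := hN₂.2.2
    rw [G.cut_compl] at hfX
    obtain ⟨N₁, hN₁, hf₁⟩ := h₁ f hfX.2
    obtain ⟨h3, h4⟩ := G.combine hN₁ hN₂ hf₁ hf hfX
    exact ⟨_, h3, Or.inr he₂, h4⟩

theorem MGraph.matchingCovered_of_cov {X : Set V} (hG : G.simple.Connected) (hX : X.Nonempty)
    (hX' : Xᶜ.Nonempty) (h : G.Cov X) : (G.contract X).MatchingCovered := by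
  obtain ⟨x, hx⟩ := hX
  obtain ⟨y, hy⟩ := hX'
  have hsurj : Function.Surjective (MGraph.proj X) := by
    rintro (_ | ⟨v, hv⟩)
    · exact ⟨x, MGraph.proj_mem hx⟩
    · exact ⟨v, MGraph.proj_not_mem hv⟩
  have hadj : ∀ u v, G.simple.Adj u v →
      (G.contract X).simple.Reachable (MGraph.proj X u) (MGraph.proj X v) := by
    rintro u v ⟨e, he⟩
    by_cases hb : ∃ w ∈ G.ends e, w ∉ X
    · apply SimpleGraph.Adj.reachable
      refine ⟨⟨e, hb⟩, ?_⟩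
      show (G.ends e).map (MGraph.proj X) = _
      rw [he, Sym2.map_mk]
    · push Not at hb
      have hu : u ∈ X := hb u (by rw [he]; exact Sym2.mem_mk_left _ _)
      have hv : v ∈ X := hb v (by rw [he]; exact Sym2.mem_mk_right _ _)
      rw [MGraph.proj_mem hu, MGraph.proj_mem hv]
  have hreach : ∀ u v, G.simple.Reachable u v →
      (G.contract X).simple.Reachable (MGraph.proj X u) (MGraph.proj X v) := by
    rintro u v ⟨p⟩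
    induction p with
    | nil => exact SimpleGraph.Reachable.refl _
    | cons hadj' _ ih => exact (hadj _ _ hadj').trans ih
  refine ⟨?_, ?_, ?_⟩
  · have : Nonempty (Option {v : V // v ∉ X}) := ⟨none⟩
    refine SimpleGraph.Connected.mk ?_
    intro a b
    obtain ⟨u, rfl⟩ := hsurj a
    obtain ⟨v, rfl⟩ := hsurj b
    exact hreach u v (hG.preconnected u v)
  · exact ⟨⟨none, some ⟨y, hy⟩, by simp⟩⟩
  · rintro ⟨e, he⟩
    obtain ⟨M, hM, heM, f, ⟨hfM, hfX⟩, hfu⟩ := h e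
    have hP : G.PX X {e | e ∈ M ∧ ∃ v ∈ G.ends e, v ∉ X} := by
      refine ⟨fun e he => he.2, ?_, ?_⟩
      · intro v hv
        obtain ⟨e', ⟨he'M, hve'⟩, hu⟩ := hM v
        refine ⟨e', ⟨⟨he'M, v, hve', hv⟩, hve'⟩, ?_⟩
        rintro e'' ⟨⟨he'', -⟩, hve''⟩
        exact hu e'' ⟨he'', hve''⟩
      · refine ⟨f, ⟨⟨hfM, hfX.2⟩, hfX⟩, ?_⟩
        rintro e' ⟨⟨he'M, -⟩, he'X⟩
        exact hfu e' ⟨he'M, he'X⟩
    exact ⟨_, G.isPM_of_pX hP, heM, he⟩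

theorem MGraph.cov_compl {X : Set V} (h : G.Cov X) : G.Cov Xᶜ := by
  intro e
  rw [G.cut_compl]
  exact h e

theorem MGraph.separating_iff_cov {X : Set V} (hG : G.simple.Connected) (hX : X.Nonempty)
    (hX' : Xᶜ.Nonempty) : G.Separating X ↔ G.Cov X := by
  constructor
  · exact G.cov_of_separating
  · intro h
    refine ⟨G.matchingCovered_of_cov hG hX hX' h, ?_⟩
    exact G.matchingCovered_of_cov hG hX' (by rwa [compl_compl]) (G.cov_compl h)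

theorem MGraph.separating_iff [Fintype V] [DecidableEq V] (hG : G.simple.Connected)
    (X : Finset V) (hX : X.Nonempty) (hX' : Xᶜ.Nonempty) :
    G.Separating (X : Set V) ↔
      ∀ u v, G.simple.Adj u v → ∃ τ ∈ PMs G.simple, τ u = v ∧ crosses τ X = 1 := by
  rw [G.separating_iff_cov hG (by simpa using hX) (by
    obtain ⟨y, hy⟩ := hX'
    exact ⟨y, by simpa using hy⟩)]
  constructor
  · rintro h u v ⟨e, he⟩
    obtain ⟨M, hM, heM, hf⟩ := h e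
    obtain ⟨τ, hτ, hMτ⟩ := G.pm_to M hM
    refine ⟨τ, hτ, ?_, (G.crosses_iff X M hM τ hMτ).mp hf⟩
    have h1 := hMτ u e heM (by rw [he]; exact Sym2.mem_mk_left _ _)
    rw [he, Sym2.congr_right] at h1
    exact h1.symm
  · intro h e
    obtain ⟨u, v, he⟩ : ∃ u v, G.ends e = s(u, v) := by
      induction h : G.ends e using Sym2.ind with
      | _ a b => exact ⟨a, b, rfl⟩
    obtain ⟨τ, hτ, rfl, hc⟩ := h u v ⟨e, he⟩
    obtain ⟨M, hM, heM, hMτ⟩ := G.pm_of τ hτ e u he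
    exact ⟨M, hM, heM, (G.crosses_iff X M hM τ hMτ).mpr hc⟩

end Bridge

end Pool.Agent.Work.MP_0f7328_co
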