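import Pool.Agent.Work.MP_0f7328_co.EdmC

set_option autoImplicit false

namespace Pool.Agent.Work.MP_0f7328_co

section bwd

variable {V : Type} [Fintype V] [DecidableEq V] (H : SimpleGraph V)

theorem bwd_crosses (τ : Equiv.Perm V) (X : Finset V) :
    ∑ u ∈ X, ∑ v ∈ Xᶜ, pmMat τ u v = (crosses τ X : ℝ) := by
  have h : ∀ u, ∑ v ∈ Xᶜ, pmMat τ u v = if τ u ∉ X then 1 else 0 := by
    intro u
    unfold pmMat
    rw [Finset.sum_ite_eq]
    simp [Finset.mem_compl]
  simp only [h]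
  rw [Finset.sum_ite, Finset.sum_const_zero, add_zero, Finset.sum_const, crosses]
  simp

omit [Fintype V] in
theorem bwd_odd (τ : Equiv.Perm V) (h1 : ∀ v, τ (τ v) = v) (h2 : ∀ v, τ v ≠ v) (X : Finset V)
    (hX : Odd X.card) : Odd (crosses τ X) := by
  have h3 : Even (X.filter (fun v => ¬ τ v ∉ X)).card := by
    have : ((X.filter (fun v => ¬ τ v ∉ X)).card : ZMod 2) = 0 := by
      have h := Finset.sum_involution (s := X.filter (fun v => ¬ τ v ∉ X))
        (f := fun _ => (1 : ZMod 2)) (fun a _ => τ a) (fun a _ => by decide)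
        (fun a _ _ => h2 a) (fun a ha => by
          simp only [not_not, Finset.mem_filter] at ha ⊢
          refine ⟨ha.2, ?_⟩
          rw [h1]
          exact ha.1) (fun a _ => h1 a)
      simpa using h
    exact (ZMod.natCast_eq_zero_iff_even).mp this
  have h4 := Finset.card_filter_add_card_filter_not (s := X) (fun v => τ v ∉ X)
  rw [← h4] at hX
  unfold crosses
  rw [← Nat.not_even_iff_odd] at hX ⊢
  intro h5
  exact hX (h5.add h3)

theorem bwd_row (σ : Equiv.Perm V) (v : V) : ∑ u, (pmMat σ v u + pmMat σ u v) / 2 = 1 := by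
  rw [← Finset.sum_div, Finset.sum_add_distrib, edm_pmMat_row, edm_pmMat_col]
  norm_num

theorem bwd_sum (X : Finset V) (a b : ℝ) (x y : V → V → ℝ) :
    ∑ u ∈ X, ∑ v ∈ Xᶜ, (a * x u v + b * y u v) =
      a * (∑ u ∈ X, ∑ v ∈ Xᶜ, x u v) + b * (∑ u ∈ X, ∑ v ∈ Xᶜ, y u v) := by
  simp only [Finset.mul_sum, Finset.sum_add_distrib]

omit [Fintype V] in
theorem bwd_symm {τ : Equiv.Perm V} (hτ : ∀ v, τ (τ v) = v) (u v : V) :
    pmMat τ u v = pmMat τ v u := by
  unfold pmMat
  have : τ u = v ↔ τ v = u := by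
    constructor
    · rintro rfl
      exact hτ u
    · rintro rfl
      exact hτ v
  simp [this]

omit [Fintype V] [DecidableEq V] in
theorem bwd_three {σ : Equiv.Perm V} (hσ : ∀ v, H.Adj v (σ v)) {C : Finset V} (hC : Odd C.card)
    (hc : σ.IsCycleOn (C : Set V)) : 3 ≤ C.card := by
  rcases edm_card_cases hC with h | h
  · obtain ⟨a, rfl⟩ := Finset.card_eq_one.mp h
    have h1 := (hc.apply_mem_iff (x := a)).mpr (by simp)
    have h2 : σ a = a := by simpa using h1
    have := hσ a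
    rw [h2] at this
    exact absurd this (SimpleGraph.irrefl H)
  · exact h

theorem exists_separating (hcov : ∀ u v, H.Adj u v → ∃ τ ∈ PMs H, τ u = v)
    (hnt : ∀ X : Finset V, Odd X.card → 3 ≤ X.card → 3 ≤ Xᶜ.card → ∃ τ ∈ PMs H, crosses τ X ≠ 1)
    (h : TwoOdd H) :
    ∃ X : Finset V, Odd X.card ∧ 3 ≤ X.card ∧ 3 ≤ Xᶜ.card ∧
      ∀ u v, H.Adj u v → ∃ τ ∈ PMs H, τ u = v ∧ crosses τ X = 1 := by
  classical
  obtain ⟨σ, C, D, hσ, hCD, hC, hD, hcC, hcD, -⟩ := h
  -- basic facts on perfect matchings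
  have hne : ∀ τ ∈ PMs H, ∀ v, τ v ≠ v := fun τ hτ v h => by
    have := hτ.2 v
    rw [h] at this
    exact SimpleGraph.irrefl H this
  set S : Finset (Equiv.Perm V) := Finset.univ.filter fun τ => τ ∈ PMs H with hS
  have hSm : ∀ τ, τ ∈ S ↔ τ ∈ PMs H := fun τ => by simp [hS]
  have hSne : S.Nonempty := by
    have : C.Nonempty := Finset.card_pos.mp hC.pos
    obtain ⟨v, _⟩ := this
    obtain ⟨τ, hτ, _⟩ := hcov v (σ v) (hσ v)
    exact ⟨τ, (hSm τ).mpr hτ⟩
  have hN : (0 : ℝ) < S.card := by exact_mod_cast Finset.card_pos.mpr hSne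
  have hVeven : ∀ X : Finset V, Odd X.card → Odd Xᶜ.card := by
    intro X hX
    obtain ⟨τ, hτ⟩ := hSne
    rw [hSm] at hτ
    have h1 : ¬ Odd (Finset.univ : Finset V).card := by
      intro h
      have := bwd_odd τ hτ.1 (hne τ hτ) _ h
      simp [crosses] at this
    rw [Finset.card_univ, ← Finset.card_add_card_compl X] at h1
    rw [← Nat.not_even_iff_odd] at hX ⊢
    rw [Nat.not_odd_iff_even] at h1
    intro h3
    exact hX ((Nat.even_add.mp h1).mpr h3)
  -- the average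
  obtain ⟨w, hw⟩ : ∃ w : V → V → ℝ, w = fun u v => (∑ τ ∈ S, pmMat τ u v) / S.card := ⟨_, rfl⟩
  obtain ⟨x, hx⟩ : ∃ x : V → V → ℝ, x = fun u v => (pmMat σ u v + pmMat σ v u) / 2 := ⟨_, rfl⟩
  have pm0 : ∀ (τ : Equiv.Perm V) (u v : V), 0 ≤ pmMat τ u v := fun τ u v => by
    unfold pmMat
    split_ifs <;> norm_num
  have ws : ∀ u v, w u v = w v u := fun u v => by
    rw [hw]
    simp only
    congr 1
    exact Finset.sum_congr rfl fun τ hτ => bwd_symm ((hSm τ).mp hτ).1 u v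
  have w0 : ∀ u v, 0 ≤ w u v := fun u v => by
    rw [hw]
    exact div_nonneg (Finset.sum_nonneg fun τ _ => pm0 τ u v) hN.le
  have wadj : ∀ u v, w u v ≠ 0 → H.Adj u v := by
    intro u v h
    by_contra hna
    apply h
    rw [hw]
    simp only
    rw [Finset.sum_eq_zero, zero_div]
    intro τ hτ
    unfold pmMat
    rw [if_neg]
    rintro rfl
    exact hna (((hSm τ).mp hτ).2 u)
  have wpos : ∀ u v, H.Adj u v → 0 < w u v := by
    intro u v huv
    obtain ⟨τ, hτ, rfl⟩ := hcov u v huv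
    rw [hw]
    apply div_pos _ hN
    have h1 : pmMat τ u (τ u) ≤ ∑ τ' ∈ S, pmMat τ' u (τ u) :=
      Finset.single_le_sum (f := fun τ' => pmMat τ' u (τ u)) (fun τ' _ => pm0 τ' u (τ u))
        ((hSm τ).mpr hτ)
    have h2 : pmMat τ u (τ u) = 1 := by simp [pmMat]
    linarith
  have wr : ∀ v, ∑ u, w v u = 1 := by
    intro v
    rw [hw]
    simp only
    rw [← Finset.sum_div, Finset.sum_comm]
    simp only [edm_pmMat_row, Finset.sum_const, nsmul_eq_mul, mul_one]
    exact div_self hN.ne'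
  have wc : ∀ X : Finset V, ∑ u ∈ X, ∑ v ∈ Xᶜ, w u v =
      (∑ τ ∈ S, (crosses τ X : ℝ)) / S.card := by
    intro X
    rw [hw]
    simp only
    simp only [← Finset.sum_div]
    congr 1
    simp only [← bwd_crosses]
    rw [Finset.sum_comm' (s := S) (t := fun _ => X) (s' := fun _ => S) (t' := X) (by tauto)]
    refine Finset.sum_congr rfl fun u _ => ?_
    rw [Finset.sum_comm]
  have wcut : ∀ X : Finset V, Odd X.card → 3 ≤ X.card → 3 ≤ Xᶜ.card →
      1 < ∑ u ∈ X, ∑ v ∈ Xᶜ, w u v := by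
    intro X hX h3 h3'
    rw [wc, lt_div_iff₀ hN, one_mul]
    obtain ⟨τ, hτ, hτc⟩ := hnt X hX h3 h3'
    have h1 : (S.card : ℝ) = ∑ τ ∈ S, (1 : ℝ) := by simp
    rw [h1]
    apply Finset.sum_lt_sum
    · intro τ' hτ'
      have := (bwd_odd τ' ((hSm τ').mp hτ').1 (hne τ' ((hSm τ').mp hτ')) X hX).pos
      exact_mod_cast this
    · refine ⟨τ, (hSm τ).mpr hτ, ?_⟩
      have := (bwd_odd τ hτ.1 (hne τ hτ) X hX).pos
      have h2 : 1 < crosses τ X := by omega
      exact_mod_cast h2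
  have xs : ∀ u v, x u v = x v u := fun u v => by rw [hx]; ring
  have x0 : ∀ u v, 0 ≤ x u v := fun u v => by
    rw [hx]
    have := pm0 σ u v
    have := pm0 σ v u
    simp only
    positivity
  have xadj : ∀ u v, x u v ≠ 0 → H.Adj u v := by
    intro u v h
    by_contra hna
    apply h
    rw [hx]
    simp only [pmMat]
    rw [if_neg, if_neg]
    · norm_num
    · rintro rfl
      exact hna (hσ v).symm
    · rintro rfl
      exact hna (hσ u)
  have xr : ∀ v, ∑ u, x v u = 1 := fun v => by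
    rw [hx]
    exact bwd_row σ v
  have xC : ∑ u ∈ C, ∑ v ∈ Cᶜ, x u v = 0 := by
    refine Finset.sum_eq_zero fun u hu => Finset.sum_eq_zero fun v hv => ?_
    rw [Finset.mem_compl] at hv
    rw [hx]
    simp only [pmMat]
    rw [if_neg, if_neg]
    · norm_num
    · rintro rfl
      exact hv (by simpa using (hcC.apply_mem_iff (x := v)).mp (by simpa using hu))
    · rintro rfl
      exact hv (by simpa using (hcC.apply_mem_iff (x := u)).mpr (by simpa using hu))
  have hC3 := bwd_three H hσ hC hcC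
  have hD3 := bwd_three H hσ hD hcD
  have hCc : 3 ≤ Cᶜ.card := by
    refine hD3.trans (Finset.card_le_card ?_)
    intro v hv
    rw [Finset.mem_compl]
    exact fun h => Finset.disjoint_left.mp hCD h hv
  -- the set of violated cuts
  set T : Finset (Finset V) := Finset.univ.filter fun X => Odd X.card ∧ 3 ≤ X.card ∧ 3 ≤ Xᶜ.card ∧
    ∑ u ∈ X, ∑ v ∈ Xᶜ, x u v < 1 with hT
  have hTm : ∀ X, X ∈ T ↔ (Odd X.card ∧ 3 ≤ X.card ∧ 3 ≤ Xᶜ.card ∧
    ∑ u ∈ X, ∑ v ∈ Xᶜ, x u v < 1) := fun X => by simp [hT]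
  have hTne : T.Nonempty := ⟨C, (hTm C).mpr ⟨hC, hC3, hCc, by rw [xC]; norm_num⟩⟩
  obtain ⟨X, hXT, hmin⟩ := Finset.exists_min_image T (fun X =>
    ((∑ u ∈ X, ∑ v ∈ Xᶜ, w u v) - 1) /
      ((∑ u ∈ X, ∑ v ∈ Xᶜ, w u v) - (∑ u ∈ X, ∑ v ∈ Xᶜ, x u v))) hTne
  obtain ⟨hX, hX3, hXc, hXlt⟩ := (hTm X).mp hXT
  have hwX := wcut X hX hX3 hXc
  obtain ⟨t, ht⟩ : ∃ t, t = ((∑ u ∈ X, ∑ v ∈ Xᶜ, w u v) - 1) /
      ((∑ u ∈ X, ∑ v ∈ Xᶜ, w u v) - (∑ u ∈ X, ∑ v ∈ Xᶜ, x u v)) := ⟨_, rfl⟩
  have ht0 : 0 < t := by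
    rw [ht]
    exact div_pos (by linarith) (by linarith)
  have ht1 : t < 1 := by
    rw [ht, div_lt_one (by linarith)]
    linarith
  have htX : t * ((∑ u ∈ X, ∑ v ∈ Xᶜ, w u v) - (∑ u ∈ X, ∑ v ∈ Xᶜ, x u v)) =
      (∑ u ∈ X, ∑ v ∈ Xᶜ, w u v) - 1 := by
    rw [ht]
    exact div_mul_cancel₀ _ (by linarith)
  obtain ⟨y, hy⟩ : ∃ y : V → V → ℝ, y = fun u v => (1 - t) * w u v + t * x u v := ⟨_, rfl⟩
  have yc : ∀ Y : Finset V, ∑ u ∈ Y, ∑ v ∈ Yᶜ, y u v =
      (1 - t) * (∑ u ∈ Y, ∑ v ∈ Yᶜ, w u v) + t * (∑ u ∈ Y, ∑ v ∈ Yᶜ, x u v) := fun Y => by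
    rw [hy]
    exact bwd_sum Y _ _ _ _
  have yd : ∀ v, y v v = 0 := by
    intro v
    have h1 : w v v = 0 := by
      by_contra h
      exact SimpleGraph.irrefl H (wadj v v h)
    have h2 : x v v = 0 := by
      by_contra h
      exact SimpleGraph.irrefl H (xadj v v h)
    rw [hy]
    simp [h1, h2]
  have ysy : ∀ u v, y u v = y v u := fun u v => by
    rw [hy]
    simp only
    rw [ws u v, xs u v]
  have yr : ∀ v, ∑ u, y v u = 1 := fun v => by
    rw [hy]
    simp only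
    rw [Finset.sum_add_distrib, ← Finset.mul_sum, ← Finset.mul_sum, wr, xr]
    ring
  have y0 : ∀ u v, 0 ≤ y u v := fun u v => by
    rw [hy]
    have h1 := mul_nonneg (sub_nonneg.mpr ht1.le) (w0 u v)
    have h2 := mul_nonneg ht0.le (x0 u v)
    simp only
    linarith
  have hyQ : InQ y := by
    refine ⟨ysy, y0, yd, yr, ?_⟩
    intro Y hY
    rcases edm_card_cases hY with h | h
    · exact (edm_cut_one yd yr h).ge
    · rcases edm_card_cases (hVeven Y hY) with h' | h'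
      · rw [edm_cut_compl ysy]
        exact (edm_cut_one yd yr h').ge
      · rw [yc]
        have hwY := wcut Y hY h h'
        by_cases hYx : ∑ u ∈ Y, ∑ v ∈ Yᶜ, x u v < 1
        · have h2 := hmin Y ((hTm Y).mpr ⟨hY, h, h', hYx⟩)
          rw [← ht, le_div_iff₀ (by linarith)] at h2
          nlinarith
        · push Not at hYx
          nlinarith
  have hyX : ∑ u ∈ X, ∑ v ∈ Xᶜ, y u v = 1 := by
    rw [yc]
    linarith
  have yadj : ∀ u v, 0 < y u v → H.Adj u v := by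
    intro u v h
    by_contra hna
    have h1 : w u v = 0 := by
      by_contra h
      exact hna (wadj u v h)
    have h2 : x u v = 0 := by
      by_contra h
      exact hna (xadj u v h)
    rw [hy] at h
    simp [h1, h2] at h
  have hyP := edmonds y hyQ
  rw [pmPoly, mem_convexHull_iff_exists_fintype] at hyP
  obtain ⟨ι, _, p, z, hp0, hp1, hz, hs⟩ := hyP
  choose τ hτ1 hτ2 hτ3 using hz
  have hent : ∀ u v, y u v = ∑ i, p i * pmMat (τ i) u v := by
    intro u v
    have h1 := congrFun (congrFun hs u) v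
    rw [← h1, Finset.sum_apply, Finset.sum_apply]
    refine Finset.sum_congr rfl fun i _ => ?_
    rw [Pi.smul_apply, Pi.smul_apply, hτ3 i, smul_eq_mul]
  have hPM : ∀ i, 0 < p i → τ i ∈ PMs H := by
    intro i hi
    refine ⟨hτ1 i, fun v => ?_⟩
    apply yadj
    rw [hent]
    have h1 : p i * pmMat (τ i) v (τ i v) ≤ ∑ j, p j * pmMat (τ j) v (τ i v) :=
      Finset.single_le_sum (f := fun j => p j * pmMat (τ j) v (τ i v))
        (fun j _ => mul_nonneg (hp0 j) (pm0 _ _ _)) (Finset.mem_univ i)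
    have h2 : pmMat (τ i) v (τ i v) = 1 := by simp [pmMat]
    rw [h2, mul_one] at h1
    linarith
  have hcr : ∀ i, 0 < p i → crosses (τ i) X = 1 := by
    have h1 : ∑ i, p i * ((crosses (τ i) X : ℝ) - 1) = 0 := by
      have h2 : ∑ i, p i * (crosses (τ i) X : ℝ) = 1 := by
        rw [← hyX]
        simp only [hent, ← bwd_crosses, Finset.mul_sum]
        rw [Finset.sum_comm]
        refine Finset.sum_congr rfl fun u _ => ?_
        rw [Finset.sum_comm]
      simp only [mul_sub, mul_one, Finset.sum_sub_distrib]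
      rw [h2, hp1]
      ring
    have h3 : ∀ i ∈ Finset.univ, 0 ≤ p i * ((crosses (τ i) X : ℝ) - 1) := by
      intro i _
      have h4 : (1 : ℝ) ≤ crosses (τ i) X := by
        exact_mod_cast (bwd_odd (τ i) (hτ1 i) (hτ2 i) X hX).pos
      exact mul_nonneg (hp0 i) (by linarith)
    rw [Finset.sum_eq_zero_iff_of_nonneg h3] at h1
    intro i hi
    rcases mul_eq_zero.mp (h1 i (Finset.mem_univ i)) with h | h
    · linarith
    · have : (crosses (τ i) X : ℝ) = 1 := by linarith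
      exact_mod_cast this
  refine ⟨X, hX, hX3, hXc, fun u v huv => ?_⟩
  have hpos : 0 < ∑ i, p i * pmMat (τ i) u v := by
    rw [← hent, hy]
    have h1 := mul_pos (sub_pos.mpr ht1) (wpos u v huv)
    have h2 := mul_nonneg ht0.le (x0 u v)
    simp only
    linarith
  obtain ⟨i, _, hi⟩ := Finset.exists_lt_of_sum_lt (s := Finset.univ) (f := fun _ : ι => (0 : ℝ))
    (g := fun i => p i * pmMat (τ i) u v) (by simpa using hpos)
  have hpi : 0 < p i := by
    rcases (hp0 i).eq_or_lt with h | h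
    · rw [← h, zero_mul] at hi
      exact absurd hi (lt_irrefl _)
    · exact h
  refine ⟨τ i, hPM i hpi, ?_, hcr i hpi⟩
  by_contra hne'
  have : pmMat (τ i) u v = 0 := by simp [pmMat, hne']
  rw [this, mul_zero] at hi
  exact lt_irrefl _ hi

end bwd

end Pool.Agent.Work.MP_0f7328_co
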