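import Pool.Agent.Work.MP_0f7328_co.Defs

set_option autoImplicit false

namespace Pool.Agent.Work.MP_0f7328_co

section edma

variable {V : Type} [Fintype V] [DecidableEq V]

theorem InQ.not_odd_univ {x : V → V → ℝ} (hx : InQ x) : ¬ Odd (Fintype.card V) := by
  intro h
  have := hx.cut Finset.univ (by simpa using h)
  simp at this
  linarith

theorem InQ.odd_compl {x : V → V → ℝ} (hx : InQ x) {X : Finset V} (h : Odd X.card) :
    Odd Xᶜ.card := by
  have h1 := hx.not_odd_univ
  have h2 := Finset.card_add_card_compl X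
  rw [Nat.not_odd_iff_even, ← h2] at h1
  rw [← Nat.not_even_iff_odd] at h ⊢
  intro h3
  exact h ((Nat.even_add.mp h1).mpr h3)

/-- trivial cuts -/
theorem edm_cut_one {x : V → V → ℝ} (hd : ∀ v, x v v = 0) (hr : ∀ v, ∑ u, x v u = 1)
    {X : Finset V} (h : X.card = 1) : ∑ u ∈ X, ∑ v ∈ Xᶜ, x u v = 1 := by
  obtain ⟨a, rfl⟩ := Finset.card_eq_one.mp h
  rw [Finset.sum_singleton]
  have := Finset.sum_add_sum_compl {a} (fun v => x a v)
  rw [Finset.sum_singleton, hd, zero_add, hr] at this
  exact this

theorem edm_cut_compl {x : V → V → ℝ} (hs : ∀ u v, x u v = x v u) (X : Finset V) :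
    ∑ u ∈ X, ∑ v ∈ Xᶜ, x u v = ∑ u ∈ Xᶜ, ∑ v ∈ Xᶜᶜ, x u v := by
  rw [Finset.sum_comm, compl_compl]
  exact Finset.sum_congr rfl fun u _ => Finset.sum_congr rfl fun v _ => hs v u

theorem edm_card_cases {m : ℕ} (h : Odd m) : m = 1 ∨ 3 ≤ m := by
  obtain ⟨k, rfl⟩ := h
  omega

theorem edmA_zero (x : V → V → ℝ) (hx : x ∈ Set.extremePoints ℝ {x | InQ x})
    (hno : ∀ X : Finset V, Odd X.card → 3 ≤ X.card → 3 ≤ Xᶜ.card →
      1 < ∑ u ∈ X, ∑ v ∈ Xᶜ, x u v)
    (z : V → V → ℝ) (hzs : ∀ u v, z u v = z v u) (hz0 : ∀ u v, x u v = 0 → z u v = 0)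
    (hzr : ∀ v, ∑ u, z v u = 0) : z = 0 := by
  obtain ⟨hQ, hext⟩ := hx
  replace hQ : InQ x := hQ
  have key : ∀ᶠ t in nhds (0 : ℝ), InQ (fun u v => x u v + t * z u v) := by
    have h1 : ∀ᶠ t in nhds (0 : ℝ), ∀ u v, 0 ≤ x u v + t * z u v := by
      rw [Filter.eventually_all]
      intro u
      rw [Filter.eventually_all]
      intro v
      rcases (hQ.nonneg u v).eq_or_lt with h | h
      · refine Filter.Eventually.of_forall fun t => ?_
        rw [← h, hz0 u v h.symm]
        simp
      · have hc : Filter.Tendsto (fun t : ℝ => x u v + t * z u v) (nhds 0) (nhds (x u v + 0 * z u v)) := by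
          apply Continuous.tendsto
          fun_prop
        rw [zero_mul, add_zero] at hc
        exact (hc.eventually_const_lt h).mono fun t ht => ht.le
    have h2 : ∀ᶠ t in nhds (0 : ℝ), ∀ X : Finset V, Odd X.card → 3 ≤ X.card → 3 ≤ Xᶜ.card →
        1 ≤ ∑ u ∈ X, ∑ v ∈ Xᶜ, (x u v + t * z u v) := by
      rw [Filter.eventually_all]
      intro X
      by_cases hX : Odd X.card ∧ 3 ≤ X.card ∧ 3 ≤ Xᶜ.card
      · obtain ⟨ha, hb, hc⟩ := hX
        have hlt := hno X ha hb hc
        have hc : Filter.Tendsto (fun t : ℝ => ∑ u ∈ X, ∑ v ∈ Xᶜ, (x u v + t * z u v)) (nhds 0)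
            (nhds (∑ u ∈ X, ∑ v ∈ Xᶜ, (x u v + 0 * z u v))) := by
          apply Continuous.tendsto
            (f := fun t : ℝ => ∑ u ∈ X, ∑ v ∈ Xᶜ, (x u v + t * z u v))
          fun_prop
        simp only [zero_mul, add_zero] at hc
        exact (hc.eventually_const_lt hlt).mono fun t ht _ _ _ => ht.le
      · refine Filter.Eventually.of_forall fun t ha hb hc => ?_
        exact absurd ⟨ha, hb, hc⟩ hX
    filter_upwards [h1, h2] with t ht1 ht2
    have hsy : ∀ u v, x u v + t * z u v = x v u + t * z v u := fun u v => by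
      rw [hQ.symm u v, hzs u v]
    have hdi : ∀ v, x v v + t * z v v = 0 := fun v => by
      rw [hQ.diag v, hz0 v v (hQ.diag v)]
      simp
    have hro : ∀ v, ∑ u, (x v u + t * z v u) = 1 := fun v => by
      rw [Finset.sum_add_distrib, ← Finset.mul_sum, hzr, hQ.row]
      simp
    refine ⟨hsy, ht1, hdi, hro, ?_⟩
    intro X hX
    rcases edm_card_cases hX with h | h
    · exact (edm_cut_one (x := fun u v => x u v + t * z u v) hdi hro h).ge
    · rcases edm_card_cases (hQ.odd_compl hX) with h' | h'
      · rw [edm_cut_compl (x := fun u v => x u v + t * z u v) hsy]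
        exact (edm_cut_one (x := fun u v => x u v + t * z u v) hdi hro h').ge
      · exact ht2 X hX h h'
  rw [Metric.eventually_nhds_iff] at key
  obtain ⟨ε, hε, hk⟩ := key
  have hp := hk (y := ε / 2) (by rw [Real.dist_eq, sub_zero, abs_of_pos (by linarith)]; linarith)
  have hm := hk (y := -(ε / 2)) (by rw [Real.dist_eq, sub_zero, abs_neg, abs_of_pos (by linarith)]; linarith)
  have hmid : x ∈ openSegment ℝ (fun u v => x u v + ε / 2 * z u v)
      (fun u v => x u v + -(ε / 2) * z u v) := by
    refine ⟨1 / 2, 1 / 2, by norm_num, by norm_num, by norm_num, ?_⟩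
    funext u v
    simp only [Pi.add_apply, Pi.smul_apply, smul_eq_mul]
    ring
  have h := hext hp hm hmid
  funext u v
  have h3 : x u v + ε / 2 * z u v = x u v := congrFun (congrFun h u) v
  have : ε / 2 * z u v = 0 := by linarith
  rcases mul_eq_zero.mp this with h | h
  · linarith
  · exact h

omit [Fintype V] in
theorem edm_pmMat_row [Fintype V] (σ : Equiv.Perm V) (v : V) : ∑ u, pmMat σ v u = 1 := by
  simp [pmMat]

theorem edm_pmMat_col (σ : Equiv.Perm V) (v : V) : ∑ u, pmMat σ u v = 1 := by
  unfold pmMat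
  have : ∀ u, (σ u = v) ↔ (u = σ⁻¹ v) := fun u => by
    rw [Equiv.Perm.eq_inv_iff_eq]
  simp [this]

theorem edm_birkhoff (x : V → V → ℝ) (hx : InQ x) : ∃ σ : Equiv.Perm V, ∀ u, 0 < x u (σ u) := by
  have hM : (Matrix.of x) ∈ doublyStochastic ℝ V := by
    rw [mem_doublyStochastic_iff_sum]
    refine ⟨hx.nonneg, hx.row, fun j => ?_⟩
    rw [← hx.row j]
    exact Finset.sum_congr rfl fun i _ => hx.symm i j
  obtain ⟨w, hw0, hw1, hw⟩ := exists_eq_sum_perm_of_mem_doublyStochastic hM
  have : ∃ σ, 0 < w σ := by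
    by_contra h
    push Not at h
    have : ∑ σ, w σ ≤ 0 := Finset.sum_nonpos fun σ _ => h σ
    linarith
  obtain ⟨σ, hσ⟩ := this
  refine ⟨σ, fun u => ?_⟩
  have h1 : x u (σ u) = ∑ τ, w τ * (if τ u = σ u then 1 else 0) := by
    have := congrFun (congrFun hw u) (σ u)
    rw [Matrix.sum_apply] at this
    rw [Matrix.of_apply] at this
    rw [← this]
    refine Finset.sum_congr rfl fun τ _ => ?_
    simp [Equiv.Perm.permMatrix, PEquiv.toMatrix_apply, Equiv.toPEquiv_apply]
  rw [h1]
  have h2 : w σ * (if σ u = σ u then 1 else 0) ≤ ∑ τ, w τ * (if τ u = σ u then 1 else 0) :=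
    Finset.single_le_sum (f := fun τ => w τ * (if τ u = σ u then 1 else 0))
      (fun τ _ => mul_nonneg (hw0 τ) (by split_ifs <;> norm_num)) (Finset.mem_univ σ)
  rw [if_pos rfl, mul_one] at h2
  linarith

/-- a colouring of a permutation with even orbits -/
theorem edm_col (σ : Equiv.Perm V) (h : ∀ X : Finset V, (∀ v, σ v ∈ X ↔ v ∈ X) → ¬ Odd X.card) :
    ∃ c : V → Bool, ∀ v, c (σ v) = !c v := by
  classical
  -- v and σ v are in different orbits of σ ^ 2
  have key : ∀ v, ¬ (σ ^ 2).SameCycle v (σ v) := by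
    rintro v ⟨k, hk⟩
    set K : Finset V := Finset.univ.filter fun w => σ.SameCycle v w with hK
    have hcyc : σ.IsCycleOn (K : Set V) := by
      refine ⟨⟨?_, σ.injective.injOn, ?_⟩, ?_⟩
      · intro w hw
        simp only [hK, Finset.coe_filter, Finset.mem_univ, true_and, Set.mem_ofPred_eq] at hw ⊢
        exact hw.apply_right
      · intro w hw
        simp only [hK, Finset.coe_filter, Finset.mem_univ, true_and, Set.mem_ofPred_eq] at hw
        refine ⟨σ.symm w, ?_, by simp⟩
        simp only [hK, Finset.coe_filter, Finset.mem_univ, true_and, Set.mem_ofPred_eq]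
        rw [← Equiv.Perm.sameCycle_apply_right]
        rwa [Equiv.apply_symm_apply]
      · intro a ha b hb
        simp only [hK, Finset.coe_filter, Finset.mem_univ, true_and, Set.mem_ofPred_eq] at ha hb
        exact ha.symm.trans hb
    have hvK : v ∈ K := by
      rw [hK, Finset.mem_filter]
      exact ⟨Finset.mem_univ v, Equiv.Perm.SameCycle.refl σ v⟩
    have hK2 : ¬ Odd K.card := by
      apply h
      intro w
      simp [hK]
    have h1 : (σ ^ (2 * k - 1)) v = v := by
      have : (σ ^ (2 * k)) v = σ v := by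
        rw [zpow_mul]
        exact_mod_cast hk
      rw [sub_eq_neg_add, zpow_add, Equiv.Perm.mul_apply, this]
      simp
    have h2 := (hcyc.zpow_apply_eq hvK).mp h1
    rw [Nat.not_odd_iff_even] at hK2
    obtain ⟨m, hm⟩ := hK2
    obtain ⟨j, hj⟩ := h2
    rw [hm] at hj
    push_cast at hj
    have : 2 * (k - m * j) = 1 := by linarith
    omega
  -- representatives
  let S := Equiv.Perm.SameCycle.setoid σ
  let r : V → V := fun v => (Quotient.mk S v).out
  have hr : ∀ v, σ.SameCycle (r v) v := fun v => Quotient.exact (s := S) (Quotient.out_eq _)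
  have hr2 : ∀ v, r (σ v) = r v := fun v => by
    have : (Quotient.mk S (σ v)) = Quotient.mk S v := by
      apply Quotient.sound
      show σ.SameCycle (σ v) v
      exact (Equiv.Perm.SameCycle.refl σ v).apply_left
    simp only [r, this]
  have hor : ∀ v, (σ ^ 2).SameCycle (r v) v ∨ (σ ^ 2).SameCycle (r v) (σ v) := by
    intro v
    obtain ⟨k, hk⟩ := hr v
    rcases Int.even_or_odd' k with ⟨j, rfl | rfl⟩
    · left
      refine ⟨j, ?_⟩
      rw [zpow_mul] at hk
      exact_mod_cast hk
    · right
      refine ⟨j + 1, ?_⟩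
      have : (σ ^ 2) ^ (j + 1) = σ * σ ^ (2 * j + 1) := by
        rw [← zpow_natCast, ← zpow_mul, ← zpow_one_add]
        congr 1
        push_cast
        ring
      rw [this, Equiv.Perm.mul_apply, hk]
  refine ⟨fun v => decide ((σ ^ 2).SameCycle (r v) v), fun v => ?_⟩
  by_cases h1 : (σ ^ 2).SameCycle (r v) v
  · have h2 : ¬ (σ ^ 2).SameCycle (r (σ v)) (σ v) := by
      rw [hr2]
      intro h2
      exact key v (h1.symm.trans h2)
    simp [h1, h2]
  · have h2 : (σ ^ 2).SameCycle (r (σ v)) (σ v) := by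
      rw [hr2]
      exact (hor v).resolve_left h1
    simp [h1, h2]

theorem edmA (x : V → V → ℝ) (hx : x ∈ Set.extremePoints ℝ {x | InQ x})
    (hno : ∀ X : Finset V, Odd X.card → 3 ≤ X.card → 3 ≤ Xᶜ.card →
      1 < ∑ u ∈ X, ∑ v ∈ Xᶜ, x u v) :
    ∃ τ : Equiv.Perm V, (∀ v, τ (τ v) = v) ∧ (∀ v, τ v ≠ v) ∧ x = pmMat τ := by
  have hQ : InQ x := hx.1
  obtain ⟨σ, hσ⟩ := edm_birkhoff x hQ
  have hσf : ∀ v, σ v ≠ v := fun v h => by
    have := hσ v
    rw [h, hQ.diag] at this
    exact lt_irrefl _ this
  -- x is the average of σ and its inverse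
  have hy : x = fun u v => (pmMat σ u v + pmMat σ v u) / 2 := by
    have h0 := edmA_zero x hx hno (fun u v => x u v - (pmMat σ u v + pmMat σ v u) / 2)
      (fun u v => by rw [hQ.symm u v]; ring) (fun u v h => by
        have h1 : pmMat σ u v = 0 := by
          unfold pmMat
          rw [if_neg]
          rintro rfl
          exact (hσ u).ne' h
        have h2 : pmMat σ v u = 0 := by
          unfold pmMat
          rw [if_neg]
          rintro rfl
          rw [hQ.symm] at h
          exact (hσ v).ne' h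
        simp [h, h1, h2])
      (fun v => by
        rw [Finset.sum_sub_distrib, hQ.row, ← Finset.sum_div, Finset.sum_add_distrib,
          edm_pmMat_row, edm_pmMat_col]
        norm_num)
    funext u v
    have := congrFun (congrFun h0 u) v
    simp only [Pi.zero_apply] at this
    linarith
  -- invariant sets are even
  have hev : ∀ X : Finset V, (∀ v, σ v ∈ X ↔ v ∈ X) → ¬ Odd X.card := by
    intro X hX ho
    have h1 := hQ.cut X ho
    have h2 : ∑ u ∈ X, ∑ v ∈ Xᶜ, x u v = 0 := by
      refine Finset.sum_eq_zero fun u hu => Finset.sum_eq_zero fun v hv => ?_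
      rw [Finset.mem_compl] at hv
      rw [hy]
      simp only [pmMat]
      rw [if_neg, if_neg]
      · norm_num
      · rintro rfl
        exact hv ((hX v).mp hu)
      · rintro rfl
        exact hv ((hX u).mpr hu)
    linarith
  obtain ⟨c, hc⟩ := edm_col σ hev
  have hc' : ∀ v, c (σ.symm v) = !c v := fun v => by
    have := hc (σ.symm v)
    rw [Equiv.apply_symm_apply] at this
    rw [this, Bool.not_not]
  let f : V → V := fun v => if c v then σ v else σ.symm v
  have hf : ∀ v, f (f v) = v := by
    intro v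
    by_cases h : c v
    · have h1 : f v = σ v := by simp [f, h]
      have h2 : c (σ v) = false := by rw [hc, h]; rfl
      rw [h1]
      simp [f, h2]
    · have h1 : f v = σ.symm v := by simp [f, h]
      have h2 : c (σ.symm v) = true := by rw [hc']; simp [h]
      rw [h1]
      simp [f, h2]
  have hfx : ∀ v, 0 < x v (f v) := by
    intro v
    by_cases h : c v
    · have h1 : f v = σ v := by simp [f, h]
      rw [h1]
      exact hσ v
    · have h1 : f v = σ.symm v := by simp [f, h]
      rw [h1, hQ.symm]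
      have := hσ (σ.symm v)
      rw [Equiv.apply_symm_apply] at this
      exact this
  let τ : Equiv.Perm V := ⟨f, f, hf, hf⟩
  have hτ : ∀ v, τ (τ v) = v := hf
  have hτs : ∀ u v, pmMat τ u v = pmMat τ v u := by
    intro u v
    unfold pmMat
    have : τ u = v ↔ τ v = u := by
      constructor
      · rintro rfl
        exact hτ u
      · rintro rfl
        exact hτ v
    simp [this]
  refine ⟨τ, hτ, fun v h => ?_, ?_⟩
  · have := hfx v
    have h' : f v = v := h
    rw [h', hQ.diag] at this
    exact lt_irrefl _ this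
  · have h0 := edmA_zero x hx hno (fun u v => x u v - pmMat τ u v)
      (fun u v => by rw [hQ.symm u v, hτs u v]) (fun u v h => by
        have h1 : pmMat τ u v = 0 := by
          unfold pmMat
          rw [if_neg]
          intro h2
          have h3 : f u = v := h2
          rw [← h3] at h
          exact (hfx u).ne' h
        simp [h, h1])
      (fun v => by
        rw [Finset.sum_sub_distrib, hQ.row, edm_pmMat_row]
        norm_num)
    funext u v
    have := congrFun (congrFun h0 u) v
    simp only [Pi.zero_apply] at this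
    linarith

end edma

end Pool.Agent.Work.MP_0f7328_co
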