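import Pool.Agent.Work.MP_0f7328_co.Defs

/-!
Gluing of perfect matchings along a tight cut.
-/

set_option autoImplicit false

namespace Pool.Agent.Work.MP_0f7328_co

section edmB

variable {V : Type} [Fintype V] [DecidableEq V]

theorem edmB_half (X : Finset V) (x : V → V → ℝ)
    (h : shrink X x ∈ pmPoly (Option {v // v ∈ X})) :
    ∃ (ι : Type) (_ : Fintype ι) (p : ι → ℝ) (a : ι → V) (f : ι → V → V),
      (∀ i, 0 ≤ p i) ∧ ∑ i, p i = 1 ∧ (∀ i, a i ∈ X) ∧
      (∀ i, ∀ v ∈ X, v ≠ a i → f i v ∈ X ∧ f i v ≠ v ∧ f i v ≠ a i ∧ f i (f i v) = v) ∧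
      (∀ u ∈ X, ∑ i, p i * (if a i = u then 1 else 0) = ∑ v ∈ Xᶜ, x u v) ∧
      (∀ u ∈ X, ∀ v ∈ X, ∑ i, p i * (if a i ≠ u ∧ f i u = v then 1 else 0) = x u v) := by
  classical
  rw [pmPoly, mem_convexHull_iff_exists_fintype] at h
  obtain ⟨ι, hι, w, z, hw0, hw1, hz, hs⟩ := h
  choose τ hτ1 hτ2 hτ3 using hz
  have ha : ∀ i, ∃ a : {v // v ∈ X}, τ i none = some a := by
    intro i
    cases hn : τ i none with
    | none => exact absurd hn (hτ2 i none)
    | some a => exact ⟨a, rfl⟩
  choose a ha using ha
  have hentry : ∀ r s, ∑ i, w i * (if τ i r = s then 1 else 0) = shrink X x r s := by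
    intro r s
    have h1 := congrFun (congrFun hs r) s
    rw [← h1, Finset.sum_apply, Finset.sum_apply]
    apply Finset.sum_congr rfl
    intro i _
    rw [Pi.smul_apply, Pi.smul_apply, hτ3 i, smul_eq_mul]
    rfl
  -- values of τ at some
  have hsome : ∀ i, ∀ v : {v // v ∈ X}, v ≠ a i → ∃ w : {v // v ∈ X}, τ i (some v) = some w ∧
      w ≠ v ∧ w ≠ a i ∧ τ i (some w) = some v := by
    intro i v hv
    cases hn : τ i (some v) with
    | none =>
      exfalso
      have h1 := hτ1 i (some v)
      rw [hn, ha i] at h1
      exact hv (Option.some_injective _ h1).symm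
    | some w =>
      refine ⟨w, rfl, ?_, ?_, ?_⟩
      · intro hwv
        rw [hwv] at hn
        exact hτ2 i (some v) hn
      · intro hwa
        rw [hwa, ← ha i] at hn
        have h1 := (τ i).injective hn
        exact absurd h1 (by simp)
      · rw [← hn]
        exact hτ1 i (some v)
  let F : ι → V → V :=
    fun i v => if hv : v ∈ X then (τ i (some ⟨v, hv⟩)).elim v (fun w => w.1) else v
  have hF : ∀ i (v w' : {v // v ∈ X}), τ i (some v) = some w' → F i v.1 = w'.1 := by
    intro i v w' h
    simp only [F]
    rw [dif_pos v.2]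
    have h0 : (⟨v.1, v.2⟩ : {v // v ∈ X}) = v := rfl
    rw [h0, h]
    rfl
  refine ⟨ι, hι, w, fun i => (a i).1, F, hw0, hw1, fun i => (a i).2, ?_, ?_, ?_⟩
  · intro i v hv hva
    have hva' : (⟨v, hv⟩ : {v // v ∈ X}) ≠ a i := fun h => hva (congrArg Subtype.val h)
    obtain ⟨w', h1, h2, h3, h4⟩ := hsome i ⟨v, hv⟩ hva'
    have h5 : F i v = w'.1 := hF i ⟨v, hv⟩ w' h1
    rw [h5]
    exact ⟨w'.2, fun h => h2 (Subtype.ext h), fun h => h3 (Subtype.ext h), hF i w' ⟨v, hv⟩ h4⟩
  · intro u hu
    have h1 := hentry (some ⟨u, hu⟩) none
    simp only [shrink] at h1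
    rw [← h1]
    apply Finset.sum_congr rfl
    intro i _
    congr 1
    apply if_congr _ rfl rfl
    constructor
    · intro h
      have h2 : a i = ⟨u, hu⟩ := Subtype.ext h
      rw [← h2, ← ha i]
      exact hτ1 i none
    · intro h
      have h2 := hτ1 i (some ⟨u, hu⟩)
      rw [h, ha i] at h2
      exact congrArg Subtype.val (Option.some_injective _ h2)
  · intro u hu v hv
    have h1 := hentry (some ⟨u, hu⟩) (some ⟨v, hv⟩)
    simp only [shrink] at h1
    rw [← h1]
    apply Finset.sum_congr rfl
    intro i _
    congr 1
    apply if_congr _ rfl rfl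
    by_cases hua : (⟨u, hu⟩ : {v // v ∈ X}) = a i
    · constructor
      · intro h
        exact absurd (congrArg Subtype.val hua).symm h.1
      · intro h
        exfalso
        rw [hua, ← ha i, hτ1 i none] at h
        exact absurd h (by simp)
    · obtain ⟨w', h2, h3, h4, h5⟩ := hsome i ⟨u, hu⟩ hua
      have h6 : F i u = w'.1 := hF i ⟨u, hu⟩ w' h2
      rw [h6, h2]
      constructor
      · intro h
        exact congrArg some (Subtype.ext h.2)
      · intro h
        exact ⟨fun h7 => hua (Subtype.ext h7.symm),
          congrArg Subtype.val (Option.some_injective _ h)⟩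

theorem edmB (x : V → V → ℝ) (hx : InQ x) (X : Finset V)
    (h1 : ∑ u ∈ X, ∑ v ∈ Xᶜ, x u v = 1)
    (hA : shrink X x ∈ pmPoly (Option {v // v ∈ X}))
    (hB : shrink Xᶜ x ∈ pmPoly (Option {v // v ∈ Xᶜ})) : x ∈ pmPoly V := by
  classical
  have _ := h1
  obtain ⟨ι, _, p, a, f, p0, p1, ha, hf, hpa, hpf⟩ := edmB_half X x hA
  obtain ⟨κ, _, q, b, g, q0, q1, hb, hg, hqb, hqg⟩ := edmB_half Xᶜ x hB
  rw [compl_compl] at hqb
  have hbX : ∀ j, b j ∉ X := fun j => Finset.mem_compl.1 (hb j)
  set α : V → ℝ := fun u => ∑ v ∈ Xᶜ, x u v with hα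
  set β : V → ℝ := fun v => ∑ u ∈ X, x v u with hβ
  set K : V → V → ℝ := fun u v => x u v / (α u * β v) with hKdef
  have hK : ∀ u ∈ X, ∀ v ∈ Xᶜ, α u * (β v * K u v) = x u v := by
    intro u hu v hv
    by_cases h2 : α u = 0
    · have h3 : x u v ≤ α u := Finset.single_le_sum (f := fun v => x u v)
        (fun w _ => hx.nonneg u w) hv
      have h4 := hx.nonneg u v
      rw [h2] at h3 ⊢
      rw [zero_mul]
      linarith
    · by_cases h5 : β v = 0
      · have h3 : x v u ≤ β v := Finset.single_le_sum (f := fun u => x v u)
          (fun w _ => hx.nonneg v w) hu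
        have h4 := hx.nonneg v u
        rw [hx.symm u v, h5, zero_mul, mul_zero]
        rw [h5] at h3
        linarith
      · simp only [hKdef]
        field_simp
  have hsa : ∀ G : V → ℝ, ∑ i, p i * G (a i) = ∑ u ∈ X, α u * G u := by
    intro G
    have e1 : ∀ i, p i * G (a i) = ∑ u ∈ X, p i * (if a i = u then 1 else 0) * G u := by
      intro i
      rw [Finset.sum_eq_single (a i)]
      · simp
      · intro u _ hu
        rw [if_neg (Ne.symm hu)]
        ring
      · intro h
        exact absurd (ha i) h
    rw [Finset.sum_congr rfl (fun i _ => e1 i), Finset.sum_comm]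
    apply Finset.sum_congr rfl
    intro u hu
    rw [← Finset.sum_mul, hpa u hu]
  have hsb : ∀ G : V → ℝ, ∑ j, q j * G (b j) = ∑ v ∈ Xᶜ, β v * G v := by
    intro G
    have e1 : ∀ j, q j * G (b j) = ∑ u ∈ Xᶜ, q j * (if b j = u then 1 else 0) * G u := by
      intro j
      rw [Finset.sum_eq_single (b j)]
      · simp
      · intro u _ hu
        rw [if_neg (Ne.symm hu)]
        ring
      · intro h
        exact absurd (hb j) h
    rw [Finset.sum_congr rfl (fun i _ => e1 i), Finset.sum_comm]
    apply Finset.sum_congr rfl
    intro u hu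
    rw [← Finset.sum_mul, hqb u hu]
  -- rows of the weights
  have hrow : ∀ i, p i * ∑ j, q j * K (a i) (b j) = p i := by
    intro i
    by_cases hp : p i = 0
    · rw [hp, zero_mul]
    · have h2 : α (a i) ≠ 0 := by
        have h3 := hpa (a i) (ha i)
        have h4 : p i * (if a i = a i then 1 else 0) ≤
            ∑ i', p i' * (if a i' = a i then (1 : ℝ) else 0) :=
          Finset.single_le_sum (f := fun i' => p i' * (if a i' = a i then (1 : ℝ) else 0))
            (fun i' _ => mul_nonneg (p0 i') (by split_ifs <;> norm_num)) (Finset.mem_univ i)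
        rw [h3, if_pos rfl, mul_one] at h4
        have h5 : 0 < p i := lt_of_le_of_ne (p0 i) (Ne.symm hp)
        have h6 : p i ≤ α (a i) := h4
        linarith
      have h7 : α (a i) * ∑ j, q j * K (a i) (b j) = α (a i) := by
        rw [hsb (fun v => K (a i) v), Finset.mul_sum]
        exact Finset.sum_congr rfl (fun v hv => hK (a i) (ha i) v hv)
      have h8 : ∑ j, q j * K (a i) (b j) = 1 := mul_left_cancel₀ h2 (by rw [h7, mul_one])
      rw [h8, mul_one]
  have hcol : ∀ j, q j * ∑ i, p i * K (a i) (b j) = q j := by
    intro j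
    by_cases hq : q j = 0
    · rw [hq, zero_mul]
    · have h2 : β (b j) ≠ 0 := by
        have h3 := hqb (b j) (hb j)
        have h4 : q j * (if b j = b j then 1 else 0) ≤
            ∑ i', q i' * (if b i' = b j then (1 : ℝ) else 0) :=
          Finset.single_le_sum (f := fun i' => q i' * (if b i' = b j then (1 : ℝ) else 0))
            (fun i' _ => mul_nonneg (q0 i') (by split_ifs <;> norm_num)) (Finset.mem_univ j)
        rw [h3, if_pos rfl, mul_one] at h4
        have h5 : 0 < q j := lt_of_le_of_ne (q0 j) (Ne.symm hq)
        have h6 : q j ≤ β (b j) := h4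
        linarith
      have h7 : β (b j) * ∑ i, p i * K (a i) (b j) = β (b j) := by
        rw [hsa (fun u => K u (b j)), Finset.mul_sum]
        apply Finset.sum_congr rfl
        intro u hu
        rw [← mul_assoc, mul_comm (β (b j)) (α u), mul_assoc, hK u hu (b j) (hb j),
          hx.symm u (b j)]
      have h8 : ∑ i, p i * K (a i) (b j) = 1 := mul_left_cancel₀ h2 (by rw [h7, mul_one])
      rw [h8, mul_one]
  -- the glued matchings
  let s : ι → κ → V → V := fun i j v =>
    if v ∈ X then (if v = a i then b j else f i v) else (if v = b j then a i else g j v)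
  have hs1 : ∀ i j v, v ∈ X → v = a i → s i j v = b j := by
    intro i j v hv hva
    simp only [s]
    rw [if_pos hv, if_pos hva]
  have hs2 : ∀ i j v, v ∈ X → v ≠ a i → s i j v = f i v := by
    intro i j v hv hva
    simp only [s]
    rw [if_pos hv, if_neg hva]
  have hs3 : ∀ i j v, v ∉ X → v = b j → s i j v = a i := by
    intro i j v hv hva
    simp only [s]
    rw [if_neg hv, if_pos hva]
  have hs4 : ∀ i j v, v ∉ X → v ≠ b j → s i j v = g j v := by
    intro i j v hv hva
    simp only [s]
    rw [if_neg hv, if_neg hva]
  have hsinv : ∀ i j v, s i j (s i j v) = v := by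
    intro i j v
    by_cases hv : v ∈ X
    · by_cases hva : v = a i
      · rw [hs1 i j v hv hva, hs3 i j (b j) (hbX j) rfl, hva]
      · obtain ⟨e1, e2, e3, e4⟩ := hf i v hv hva
        rw [hs2 i j v hv hva, hs2 i j _ e1 e3, e4]
    · by_cases hva : v = b j
      · rw [hs3 i j v hv hva, hs1 i j (a i) (ha i) rfl, hva]
      · obtain ⟨e1, e2, e3, e4⟩ := hg j v (Finset.mem_compl.2 hv) hva
        rw [hs4 i j v hv hva, hs4 i j _ (Finset.mem_compl.1 e1) e3, e4]
  have hsne : ∀ i j v, s i j v ≠ v := by
    intro i j v
    by_cases hv : v ∈ X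
    · by_cases hva : v = a i
      · rw [hs1 i j v hv hva]
        intro h
        rw [← h] at hv
        exact hbX j hv
      · obtain ⟨e1, e2, e3, e4⟩ := hf i v hv hva
        rw [hs2 i j v hv hva]
        exact e2
    · by_cases hva : v = b j
      · rw [hs3 i j v hv hva]
        intro h
        rw [← h] at hv
        exact hv (ha i)
      · obtain ⟨e1, e2, e3, e4⟩ := hg j v (Finset.mem_compl.2 hv) hva
        rw [hs4 i j v hv hva]
        exact e2
  let σ : ι × κ → Equiv.Perm V := fun r =>
    Function.Involutive.toPerm (s r.1 r.2) (hsinv r.1 r.2)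
  have hσ : ∀ i j v, σ (i, j) v = s i j v := fun i j v => rfl
  rw [pmPoly]
  have hsum : ∀ (G : ι → κ → ℝ), ∑ r : ι × κ, p r.1 * q r.2 * K (a r.1) (b r.2) * G r.1 r.2 =
      ∑ i, ∑ j, p i * q j * K (a i) (b j) * G i j := by
    intro G
    rw [Fintype.sum_prod_type]
  apply mem_convexHull_of_exists_fintype (fun r : ι × κ => p r.1 * q r.2 * K (a r.1) (b r.2))
    (fun r => pmMat (σ r))
  · intro r
    apply mul_nonneg (mul_nonneg (p0 _) (q0 _))
    apply div_nonneg (hx.nonneg _ _)
    apply mul_nonneg
    · exact Finset.sum_nonneg fun v _ => hx.nonneg _ _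
    · exact Finset.sum_nonneg fun v _ => hx.nonneg _ _
  · have e1 := hsum (fun _ _ => 1)
    simp only [mul_one] at e1
    rw [e1]
    have e2 : ∀ i, ∑ j, p i * q j * K (a i) (b j) = p i := by
      intro i
      have e3 : ∑ j, p i * q j * K (a i) (b j) = p i * ∑ j, q j * K (a i) (b j) := by
        rw [Finset.mul_sum]
        apply Finset.sum_congr rfl
        intro j _
        ring
      rw [e3, hrow i]
    rw [Finset.sum_congr rfl (fun i _ => e2 i), p1]
  · intro r
    exact ⟨σ r, hsinv r.1 r.2, hsne r.1 r.2, rfl⟩
  · ext u v
    rw [Finset.sum_apply, Finset.sum_apply]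
    have e0 : ∑ c : ι × κ, ((fun r : ι × κ => p r.1 * q r.2 * K (a r.1) (b r.2)) c •
        pmMat (σ c)) u v = ∑ c : ι × κ, p c.1 * q c.2 * K (a c.1) (b c.2) *
          (if s c.1 c.2 u = v then (1 : ℝ) else 0) := by
      apply Finset.sum_congr rfl
      intro c _
      rw [Pi.smul_apply, Pi.smul_apply, smul_eq_mul]
      rfl
    rw [e0, hsum (fun i j => if s i j u = v then (1 : ℝ) else 0)]
    by_cases hu : u ∈ X
    · by_cases hv : v ∈ X
      · have e1 : ∀ i j, (if s i j u = v then (1 : ℝ) else 0) =
            if a i ≠ u ∧ f i u = v then 1 else 0 := by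
          intro i j
          apply if_congr _ rfl rfl
          by_cases hua : u = a i
          · rw [hs1 i j u hu hua]
            constructor
            · intro h
              rw [← h] at hv
              exact absurd hv (hbX j)
            · intro h
              exact absurd hua.symm h.1
          · rw [hs2 i j u hu hua]
            exact ⟨fun h => ⟨Ne.symm hua, h⟩, fun h => h.2⟩
        rw [← hpf u hu v hv]
        apply Finset.sum_congr rfl
        intro i _
        have e3 : p i * (if a i ≠ u ∧ f i u = v then (1 : ℝ) else 0) =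
            (p i * ∑ j, q j * K (a i) (b j)) * (if a i ≠ u ∧ f i u = v then (1 : ℝ) else 0) := by
          rw [hrow i]
        rw [e3, Finset.mul_sum, Finset.sum_mul]
        apply Finset.sum_congr rfl
        intro j _
        rw [e1 i j]
        ring
      · have e1 : ∀ i j, (if s i j u = v then (1 : ℝ) else 0) =
            (if a i = u then 1 else 0) * (if b j = v then 1 else 0) := by
          intro i j
          by_cases hua : u = a i
          · rw [hs1 i j u hu hua, if_pos hua.symm, one_mul]
          · rw [hs2 i j u hu hua, if_neg (Ne.symm hua), zero_mul, if_neg]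
            intro h
            rw [← h] at hv
            exact hv (hf i u hu hua).1
        have e2 : ∀ i j, p i * q j * K (a i) (b j) * (if s i j u = v then (1 : ℝ) else 0) =
            (p i * (if a i = u then 1 else 0)) * (q j * (if b j = v then 1 else 0)) *
              K u v := by
          intro i j
          rw [e1 i j]
          by_cases h2 : a i = u
          · by_cases h3 : b j = v
            · rw [if_pos h2, if_pos h3, h2, h3]
              ring
            · rw [if_neg h3]
              ring
          · rw [if_neg h2]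
            ring
        calc ∑ i, ∑ j, p i * q j * K (a i) (b j) * (if s i j u = v then (1 : ℝ) else 0)
            = ∑ i, ∑ j, (p i * (if a i = u then 1 else 0)) *
                (q j * (if b j = v then 1 else 0)) * K u v :=
              Finset.sum_congr rfl fun i _ => Finset.sum_congr rfl fun j _ => e2 i j
          _ = (∑ i, p i * (if a i = u then 1 else 0)) *
                (∑ j, q j * (if b j = v then 1 else 0)) * K u v := by
              rw [Finset.sum_mul_sum, Finset.sum_mul]
              apply Finset.sum_congr rfl
              intro i _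
              rw [Finset.sum_mul]
          _ = x u v := by
              rw [hpa u hu, hqb v (Finset.mem_compl.2 hv), mul_assoc]
              exact hK u hu v (Finset.mem_compl.2 hv)
    · by_cases hv : v ∈ X
      · have e1 : ∀ i j, (if s i j u = v then (1 : ℝ) else 0) =
            (if a i = v then 1 else 0) * (if b j = u then 1 else 0) := by
          intro i j
          by_cases hua : u = b j
          · rw [hs3 i j u hu hua, if_pos hua.symm, mul_one]
          · rw [hs4 i j u hu hua, if_neg (Ne.symm hua), mul_zero, if_neg]
            intro h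
            rw [← h] at hv
            exact Finset.mem_compl.1 (hg j u (Finset.mem_compl.2 hu) hua).1 hv
        have e2 : ∀ i j, p i * q j * K (a i) (b j) * (if s i j u = v then (1 : ℝ) else 0) =
            (p i * (if a i = v then 1 else 0)) * (q j * (if b j = u then 1 else 0)) *
              K v u := by
          intro i j
          rw [e1 i j]
          by_cases h2 : a i = v
          · by_cases h3 : b j = u
            · rw [if_pos h2, if_pos h3, h2, h3]
              ring
            · rw [if_neg h3]
              ring
          · rw [if_neg h2]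
            ring
        calc ∑ i, ∑ j, p i * q j * K (a i) (b j) * (if s i j u = v then (1 : ℝ) else 0)
            = ∑ i, ∑ j, (p i * (if a i = v then 1 else 0)) *
                (q j * (if b j = u then 1 else 0)) * K v u :=
              Finset.sum_congr rfl fun i _ => Finset.sum_congr rfl fun j _ => e2 i j
          _ = (∑ i, p i * (if a i = v then 1 else 0)) *
                (∑ j, q j * (if b j = u then 1 else 0)) * K v u := by
              rw [Finset.sum_mul_sum, Finset.sum_mul]
              apply Finset.sum_congr rfl
              intro i _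
              rw [Finset.sum_mul]
          _ = x u v := by
              rw [hpa v hv, hqb u (Finset.mem_compl.2 hu), mul_assoc, hx.symm u v]
              exact hK v hv u (Finset.mem_compl.2 hu)
      · have e1 : ∀ i j, (if s i j u = v then (1 : ℝ) else 0) =
            if b j ≠ u ∧ g j u = v then 1 else 0 := by
          intro i j
          apply if_congr _ rfl rfl
          by_cases hua : u = b j
          · rw [hs3 i j u hu hua]
            constructor
            · intro h
              rw [← h] at hv
              exact absurd (ha i) hv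
            · intro h
              exact absurd hua.symm h.1
          · rw [hs4 i j u hu hua]
            exact ⟨fun h => ⟨Ne.symm hua, h⟩, fun h => h.2⟩
        rw [← hqg u (Finset.mem_compl.2 hu) v (Finset.mem_compl.2 hv), Finset.sum_comm]
        apply Finset.sum_congr rfl
        intro j _
        have e3 : q j * (if b j ≠ u ∧ g j u = v then (1 : ℝ) else 0) =
            (q j * ∑ i, p i * K (a i) (b j)) * (if b j ≠ u ∧ g j u = v then (1 : ℝ) else 0) := by
          rw [hcol j]
        rw [e3, Finset.mul_sum, Finset.sum_mul]
        apply Finset.sum_congr rfl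
        intro i _
        rw [e1 i j]
        ring

end edmB

end Pool.Agent.Work.MP_0f7328_co
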