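import Pool.Agent.Work.MP_0f7328_co.EdmA
import Pool.Agent.Work.MP_0f7328_co.EdmB

set_option autoImplicit false

namespace Pool.Agent.Work.MP_0f7328_co

section edmc

variable {V : Type} [Fintype V] [DecidableEq V]

theorem edm_convex : Convex ℝ {x : V → V → ℝ | InQ x} := by
  intro x hx y hy a b ha hb hab
  replace hx : InQ x := hx
  replace hy : InQ y := hy
  show InQ (a • x + b • y)
  refine ⟨?_, ?_, ?_, ?_, ?_⟩
  · intro u v
    simp only [Pi.add_apply, Pi.smul_apply, smul_eq_mul]
    rw [hx.symm u v, hy.symm u v]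
  · intro u v
    simp only [Pi.add_apply, Pi.smul_apply, smul_eq_mul]
    have := mul_nonneg ha (hx.nonneg u v)
    have := mul_nonneg hb (hy.nonneg u v)
    linarith
  · intro v
    simp only [Pi.add_apply, Pi.smul_apply, smul_eq_mul]
    rw [hx.diag v, hy.diag v]
    simp
  · intro v
    simp only [Pi.add_apply, Pi.smul_apply, smul_eq_mul]
    rw [Finset.sum_add_distrib, ← Finset.mul_sum, ← Finset.mul_sum, hx.row v, hy.row v]
    linarith
  · intro X hX
    simp only [Pi.add_apply, Pi.smul_apply, smul_eq_mul]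
    have h1 := mul_le_mul_of_nonneg_left (hx.cut X hX) ha
    have h2 := mul_le_mul_of_nonneg_left (hy.cut X hX) hb
    have h3 : ∑ u ∈ X, ∑ v ∈ Xᶜ, (a * x u v + b * y u v) =
        a * (∑ u ∈ X, ∑ v ∈ Xᶜ, x u v) + b * (∑ u ∈ X, ∑ v ∈ Xᶜ, y u v) := by
      simp only [Finset.mul_sum, Finset.sum_add_distrib]
    rw [h3]
    linarith

theorem edm_closed : IsClosed {x : V → V → ℝ | InQ x} := by
  have : {x : V → V → ℝ | InQ x} = (⋂ u, ⋂ v, {x | x u v = x v u}) ∩ (⋂ u, ⋂ v, {x | 0 ≤ x u v}) ∩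
      (⋂ v, {x | x v v = 0}) ∩ (⋂ v, {x | ∑ u, x v u = 1}) ∩
      (⋂ X : Finset V, ⋂ _ : Odd X.card, {x | 1 ≤ ∑ u ∈ X, ∑ v ∈ Xᶜ, x u v}) := by
    ext x
    simp only [Set.mem_inter_iff, Set.mem_iInter, Set.mem_ofPred_eq]
    constructor
    · intro h
      exact ⟨⟨⟨⟨h.symm, h.nonneg⟩, h.diag⟩, h.row⟩, h.cut⟩
    · rintro ⟨⟨⟨⟨h1, h2⟩, h3⟩, h4⟩, h5⟩
      exact ⟨h1, h2, h3, h4, h5⟩
  rw [this]
  refine (((IsClosed.inter (isClosed_iInter fun u => isClosed_iInter fun v => ?_)
    (isClosed_iInter fun u => isClosed_iInter fun v => ?_)).inter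
    (isClosed_iInter fun v => ?_)).inter (isClosed_iInter fun v => ?_)).inter
    (isClosed_iInter fun X => isClosed_iInter fun _ => ?_)
  · exact isClosed_eq (by fun_prop) (by fun_prop)
  · exact isClosed_le (by fun_prop) (by fun_prop)
  · exact isClosed_eq (by fun_prop) (by fun_prop)
  · exact isClosed_eq (by fun_prop) (by fun_prop)
  · exact isClosed_le (by fun_prop) (by fun_prop)

theorem edm_compact : IsCompact {x : V → V → ℝ | InQ x} := by
  have h : IsCompact (Set.pi Set.univ fun _ : V => Set.pi Set.univ fun _ : V => Set.Icc (0 : ℝ) 1) :=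
    isCompact_univ_pi fun _ => isCompact_univ_pi fun _ => isCompact_Icc
  refine h.of_isClosed_subset edm_closed ?_
  intro x hx
  replace hx : InQ x := hx
  intro u _ v _
  refine ⟨hx.nonneg u v, ?_⟩
  rw [← hx.row u]
  exact Finset.single_le_sum (f := fun v => x u v) (fun v _ => hx.nonneg u v) (Finset.mem_univ v)

theorem edm_poly_closed : IsClosed (pmPoly V) := by
  apply Set.Finite.isClosed_convexHull ℝ
  refine (Set.finite_range (fun τ : Equiv.Perm V => (pmMat τ : V → V → ℝ))).subset ?_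
  rintro x ⟨τ, _, _, rfl⟩
  exact ⟨τ, rfl⟩

theorem edm_shrink {x : V → V → ℝ} (hx : InQ x) {X : Finset V} (hX : Odd X.card)
    (h1 : ∑ u ∈ X, ∑ v ∈ Xᶜ, x u v = 1) : InQ (shrink X x) := by
  have hsymm : ∀ p q, shrink X x p q = shrink X x q p := by
    intro p q
    rcases p with _ | a <;> rcases q with _ | b
    · rfl
    · show ∑ v ∈ Xᶜ, x v b = ∑ v ∈ Xᶜ, x b v
      exact Finset.sum_congr rfl fun v _ => hx.symm _ _
    · show ∑ v ∈ Xᶜ, x a v = ∑ v ∈ Xᶜ, x v a
      exact Finset.sum_congr rfl fun v _ => hx.symm _ _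
    · exact hx.symm _ _
  have hdiag : ∀ p, shrink X x p p = 0 := by
    intro p
    rcases p with _ | a
    · rfl
    · exact hx.diag _
  have hrow : ∀ p, ∑ q, shrink X x p q = 1 := by
    intro p
    rw [Fintype.sum_option]
    rcases p with _ | a
    · show 0 + ∑ b : {v // v ∈ X}, ∑ v ∈ Xᶜ, x v b = 1
      rw [zero_add, ← h1, Finset.sum_coe_sort X (fun b => ∑ v ∈ Xᶜ, x v b)]
      exact Finset.sum_congr rfl fun u _ => Finset.sum_congr rfl fun v _ => hx.symm _ _
    · show ∑ v ∈ Xᶜ, x a v + ∑ b : {v // v ∈ X}, x a b = 1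
      rw [Finset.sum_coe_sort X (fun b => x a b), add_comm, Finset.sum_add_sum_compl, hx.row]
  have hcutY : ∀ Y : Finset (Option {v // v ∈ X}), Odd Y.card → none ∉ Y →
      1 ≤ ∑ u ∈ Y, ∑ v ∈ Yᶜ, shrink X x u v := by
    intro Y hY hn
    obtain ⟨Z, rfl⟩ : ∃ Z : Finset {v // v ∈ X}, Y = Z.map Function.Embedding.some := by
      refine ⟨Finset.eraseNone Y, ?_⟩
      rw [Finset.map_some_eraseNone, Finset.erase_eq_of_notMem hn]
    have h2 : ∀ p, ∑ v ∈ (Z.map Function.Embedding.some)ᶜ, shrink X x p v =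
        1 - ∑ v ∈ Z.map Function.Embedding.some, shrink X x p v := by
      intro p
      rw [← hrow p, ← Finset.sum_add_sum_compl (Z.map Function.Embedding.some)]
      ring
    have h3 := hx.cut (Z.map (Function.Embedding.subtype _)) (by
      rw [Finset.card_map] at hY ⊢
      exact hY)
    have h4 : ∀ u, ∑ v ∈ (Z.map (Function.Embedding.subtype _))ᶜ, x u v =
        1 - ∑ v ∈ Z.map (Function.Embedding.subtype _), x u v := by
      intro u
      rw [← hx.row u, ← Finset.sum_add_sum_compl (Z.map (Function.Embedding.subtype _))]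
      ring
    simp only [h2]
    simp only [h4] at h3
    rw [Finset.sum_map] at h3 ⊢
    convert h3 using 2 with a _
    rw [Finset.sum_map, Finset.sum_map]
    rfl
  refine ⟨hsymm, ?_, hdiag, hrow, ?_⟩
  · intro p q
    rcases p with _ | a <;> rcases q with _ | b
    · exact le_refl _
    · exact Finset.sum_nonneg fun v _ => hx.nonneg _ _
    · exact Finset.sum_nonneg fun v _ => hx.nonneg _ _
    · exact hx.nonneg _ _
  · intro Y hY
    by_cases hn : none ∈ Y
    · rw [edm_cut_compl hsymm]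
      apply hcutY
      · have h2 := Finset.card_add_card_compl Y
        rw [Fintype.card_option, Fintype.card_coe] at h2
        rw [← Nat.not_even_iff_odd] at hX hY ⊢
        intro h3
        have h4 : Even (X.card + 1) := by
          rw [Nat.even_add_one]
          exact hX
        rw [← h2, Nat.even_add] at h4
        exact hY (h4.mpr h3)
      · simpa using hn
    · exact hcutY Y hY hn

theorem edmonds_aux (n : ℕ) : ∀ (V : Type) [Fintype V] [DecidableEq V], Fintype.card V = n →
    ∀ x : V → V → ℝ, InQ x → x ∈ pmPoly V := by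
  induction n using Nat.strong_induction_on with
  | _ n ih =>
  intro V _ _ hn x hx
  have hsub : {x : V → V → ℝ | InQ x} ⊆ pmPoly V := by
    rw [← closure_convexHull_extremePoints edm_compact edm_convex]
    apply closure_minimal _ edm_poly_closed
    apply convexHull_min _ (convex_convexHull ℝ _)
    intro y hy
    have hyQ : InQ y := hy.1
    by_cases hno : ∀ X : Finset V, Odd X.card → 3 ≤ X.card → 3 ≤ Xᶜ.card →
      1 < ∑ u ∈ X, ∑ v ∈ Xᶜ, y u v
    · obtain ⟨τ, h1, h2, h3⟩ := edmA y hy hno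
      exact subset_convexHull ℝ _ ⟨τ, h1, h2, h3⟩
    · push Not at hno
      obtain ⟨X, hX, hX3, hXc, hle⟩ := hno
      have h1 : ∑ u ∈ X, ∑ v ∈ Xᶜ, y u v = 1 := le_antisymm hle (hyQ.cut X hX)
      have h1' : ∑ u ∈ Xᶜ, ∑ v ∈ Xᶜᶜ, y u v = 1 := by
        rw [← edm_cut_compl hyQ.symm]
        exact h1
      have hc := Finset.card_add_card_compl X
      refine edmB y hyQ X h1 ?_ ?_
      · refine ih (X.card + 1) (by omega) _ ?_ _ (edm_shrink hyQ hX h1)
        rw [Fintype.card_option, Fintype.card_coe]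
      · refine ih (Xᶜ.card + 1) (by omega) _ ?_ _ (edm_shrink hyQ (hyQ.odd_compl hX) h1')
        rw [Fintype.card_option, Fintype.card_coe]
  exact hsub hx

theorem edmonds (x : V → V → ℝ) (hx : InQ x) : x ∈ pmPoly V :=
  edmonds_aux _ V rfl x hx

end edmc

end Pool.Agent.Work.MP_0f7328_co
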