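import Pool.Agent.Work.MP_0f7328_co.Defs

/-!
From a separating cut that is not tight to a permutation along edges that preserves an odd set.
-/

set_option autoImplicit false

namespace Pool.Agent.Work.MP_0f7328_co

section struct
variable {V : Type} [Fintype V] [DecidableEq V] (H : SimpleGraph V)

omit [Fintype V] in
theorem crosses_ne_zero (X : Finset V) (hX : Odd X.card) (τ : Equiv.Perm V)
    (h₀ : τ ∈ PMs H) : crosses τ X ≠ 0 := by
  intro h
  have h1 : ∀ v ∈ X, τ v ∈ X := by
    intro v hv
    by_contra hv'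
    have := Finset.card_eq_zero.1 h
    have h2 : v ∈ X.filter (fun v => τ v ∉ X) := Finset.mem_filter.2 ⟨hv, hv'⟩
    rw [this] at h2
    exact Finset.notMem_empty _ h2
  have h2 : ∑ _x ∈ X, (1 : ZMod 2) = 0 := by
    refine Finset.sum_involution (fun a _ => τ a) ?_ ?_ ?_ ?_
    · intro a _; decide
    · intro a _ _
      exact (h₀.2 a).ne'
    · intro a ha; exact h1 a ha
    · intro a _; exact h₀.1 a
  rw [Finset.sum_const, nsmul_one, ZMod.natCast_eq_zero_iff] at h2
  rw [← Nat.not_even_iff_odd] at hX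
  exact hX (even_iff_two_dvd.2 h2)

omit [Fintype V] in
theorem sum_crosses [Fintype V] (σ : Equiv.Perm V) (X : Finset V) :
    ∑ a ∈ X, ∑ b ∈ Xᶜ, (if σ a = b then (1 : ℝ) else 0) = crosses σ X := by
  unfold crosses
  rw [Finset.card_filter, Nat.cast_sum]
  refine Finset.sum_congr rfl fun a _ => ?_
  rw [Finset.sum_ite_eq]
  simp only [Finset.mem_compl]
  split_ifs <;> simp

theorem exists_perm_of_separating (X : Finset V) (hX : Odd X.card)
    (hsep : ∀ u v, H.Adj u v → ∃ τ ∈ PMs H, τ u = v ∧ crosses τ X = 1)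
    (τ₀ : Equiv.Perm V) (h₀ : τ₀ ∈ PMs H) (hc : crosses τ₀ X ≠ 1) :
    ∃ σ : Equiv.Perm V, (∀ v, H.Adj v (σ v)) ∧ ∀ v, σ v ∈ X ↔ v ∈ X := by
  choose t ht using fun u => hsep u (τ₀ u) (h₀.2 u)
  have hcz := crosses_ne_zero H X hX τ₀ h₀
  have hc2 : 2 ≤ crosses τ₀ X := by omega
  obtain ⟨v₀, hv₀⟩ : X.Nonempty := by
    rw [Finset.nonempty_iff_ne_empty]
    rintro rfl
    simp at hX
  have hn2 : 2 ≤ Fintype.card V := by
    have h1 := Finset.card_pair (h₀.2 v₀).ne
    rw [← h1]
    exact Finset.card_le_univ _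
  set n : ℝ := (Fintype.card V : ℝ) with hn
  have hn2' : (2 : ℝ) ≤ n := by rw [hn]; exact_mod_cast hn2
  let W : V → V → ℝ := fun a b => (∑ u, if t u a = b then (1 : ℝ) else 0) -
    (if τ₀ a = b then 1 else 0)
  have hW0 : ∀ a b, 0 ≤ W a b := by
    intro a b
    simp only [W, sub_nonneg]
    by_cases h : τ₀ a = b
    · rw [if_pos h]
      refine le_trans (le_of_eq ?_) (Finset.single_le_sum (f := fun u => if t u a = b then (1 : ℝ) else 0)
        (fun u _ => by positivity) (Finset.mem_univ a))
      rw [if_pos]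
      rw [(ht a).2.1, h]
    · rw [if_neg h]
      exact Finset.sum_nonneg fun u _ => by positivity
  have hrow : ∀ a, ∑ b, W a b = n - 1 := by
    intro a
    simp only [W]
    rw [Finset.sum_sub_distrib, Finset.sum_comm]
    simp [hn]
  have hcol : ∀ b, ∑ a, W a b = n - 1 := by
    intro b
    simp only [W]
    rw [Finset.sum_sub_distrib, Finset.sum_comm]
    have e : ∀ σ : Equiv.Perm V, ∑ a, (if σ a = b then (1 : ℝ) else 0) = 1 := by
      intro σ
      rw [Finset.sum_eq_single (σ.symm b)]
      · simp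
      · intro c _ hc
        rw [if_neg]
        intro h
        apply hc
        rw [← h]; simp
      · intro h; exact absurd (Finset.mem_univ _) h
    rw [e τ₀, Finset.sum_congr rfl fun u _ => e (t u)]
    simp [hn]
  have hmass : ∑ a ∈ X, ∑ b ∈ Xᶜ, W a b = n - crosses τ₀ X := by
    simp only [W]
    have e : ∀ a ∈ X, ∑ b ∈ Xᶜ, ((∑ u, if t u a = b then (1 : ℝ) else 0) -
        (if τ₀ a = b then 1 else 0)) = (∑ u, ∑ b ∈ Xᶜ, if t u a = b then (1 : ℝ) else 0) -
        ∑ b ∈ Xᶜ, (if τ₀ a = b then 1 else 0) := by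
      intro a _
      rw [Finset.sum_sub_distrib, Finset.sum_comm]
    rw [Finset.sum_congr rfl e, Finset.sum_sub_distrib, Finset.sum_comm, sum_crosses]
    congr 1
    rw [Finset.sum_congr rfl fun u _ => sum_crosses (t u) X]
    rw [Finset.sum_congr rfl fun u _ => by rw [(ht u).2.2]]
    simp [hn]
  have hM : (Matrix.of fun a b => W a b / (n - 1)) ∈ doublyStochastic ℝ V := by
    rw [mem_doublyStochastic_iff_sum]
    refine ⟨?_, ?_, ?_⟩
    · intro a b
      exact div_nonneg (hW0 a b) (by linarith)
    · intro a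
      simp only [Matrix.of_apply]
      rw [← Finset.sum_div, hrow, div_self (by linarith)]
    · intro b
      simp only [Matrix.of_apply]
      rw [← Finset.sum_div, hcol, div_self (by linarith)]
  obtain ⟨w, hw0, hw1, hw⟩ := exists_eq_sum_perm_of_mem_doublyStochastic hM
  have hent : ∀ a b, ∑ σ, w σ * (if σ a = b then 1 else 0) = W a b / (n - 1) := by
    intro a b
    have h := congrFun (congrFun hw a) b
    rw [Matrix.sum_apply] at h
    simp only [Matrix.smul_apply, Matrix.of_apply, smul_eq_mul, Equiv.Perm.permMatrix,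
      PEquiv.toMatrix_apply, Equiv.toPEquiv_apply, Option.mem_def, Option.some.injEq] at h
    exact h
  have hcross : ∑ σ, w σ * crosses σ X = (n - crosses τ₀ X) / (n - 1) := by
    rw [← hmass, Finset.sum_div]
    rw [Finset.sum_congr rfl fun a _ => (Finset.sum_div _ _ _)]
    rw [Finset.sum_congr rfl fun a _ => Finset.sum_congr rfl fun b _ => (hent a b).symm]
    rw [Finset.sum_congr rfl fun a _ => Finset.sum_comm, Finset.sum_comm]
    refine Finset.sum_congr rfl fun σ _ => ?_
    rw [← sum_crosses, Finset.mul_sum]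
    refine Finset.sum_congr rfl fun a _ => ?_
    rw [Finset.mul_sum]
  obtain ⟨σ, hσw, hσ⟩ : ∃ σ, 0 < w σ ∧ crosses σ X = 0 := by
    by_contra hcon
    push Not at hcon
    have h1 : ∑ σ, w σ ≤ ∑ σ, w σ * crosses σ X := by
      refine Finset.sum_le_sum fun σ _ => ?_
      rcases (hw0 σ).eq_or_lt with h | h
      · rw [← h]; simp
      · have h2 : (1 : ℝ) ≤ crosses σ X := by
          exact_mod_cast Nat.one_le_iff_ne_zero.2 (hcon σ h)
        nlinarith
    rw [hw1, hcross, le_div_iff₀ (by linarith)] at h1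
    have : (2 : ℝ) ≤ crosses τ₀ X := by exact_mod_cast hc2
    linarith
  refine ⟨σ, ?_, ?_⟩
  · intro v
    have h1 : 0 < W v (σ v) := by
      have h2 := hent v (σ v)
      have h3 : w σ ≤ ∑ σ', w σ' * (if σ' v = σ v then 1 else 0) := by
        refine le_trans (le_of_eq ?_) (Finset.single_le_sum
          (f := fun σ' => w σ' * (if σ' v = σ v then 1 else 0))
          (fun σ' _ => mul_nonneg (hw0 σ') (by positivity)) (Finset.mem_univ σ))
        simp
      rw [h2] at h3
      have h4 : 0 < W v (σ v) / (n - 1) := lt_of_lt_of_le hσw h3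
      exact (div_pos_iff_of_pos_right (by linarith)).1 h4
    by_contra hadj
    have h2 : ∑ u, (if t u v = σ v then (1 : ℝ) else 0) = 0 := by
      refine Finset.sum_eq_zero fun u _ => ?_
      rw [if_neg]
      intro h
      apply hadj
      rw [← h]
      exact (ht u).1.2 v
    simp only [W] at h1
    rw [h2] at h1
    have h3 : (0 : ℝ) ≤ (if τ₀ v = σ v then 1 else 0) := by positivity
    linarith
  · have h1 : ∀ v ∈ X, σ v ∈ X := by
      intro v hv
      by_contra hv'
      have h2 : v ∈ X.filter (fun v => σ v ∉ X) := Finset.mem_filter.2 ⟨hv, hv'⟩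
      rw [Finset.card_eq_zero.1 hσ] at h2
      exact Finset.notMem_empty _ h2
    have h2 : X.map σ.toEmbedding = X := by
      apply Finset.eq_of_subset_of_card_le
      · intro v hv
        obtain ⟨u, hu, rfl⟩ := Finset.mem_map.1 hv
        exact h1 u hu
      · rw [Finset.card_map]
    intro v
    constructor
    · intro h
      rw [← h2] at h
      obtain ⟨u, hu, huv⟩ := Finset.mem_map.1 h
      have : u = v := σ.injective huv
      rw [← this]; exact hu
    · exact h1 v

end struct

end Pool.Agent.Work.MP_0f7328_co
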