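import Pool.Agent.Work.MP_0f7328_co.Defs

set_option autoImplicit false

namespace Pool.Agent.Work.MP_0f7328_co

open Polynomial

theorem irr_four_pow (m : ℕ) : ∃ u, 4 ^ (3 ^ m) = 1 + 3 ^ (m + 1) * u ∧ ¬ 3 ∣ u := by
  induction m with
  | zero => exact ⟨1, by norm_num, by norm_num⟩
  | succ m ih =>
    obtain ⟨u, hu, hu3⟩ := ih
    refine ⟨u + 3 * (3 ^ m * u ^ 2 + 3 ^ (2 * m) * u ^ 3), ?_, ?_⟩
    · rw [pow_succ 3 m, pow_mul, hu]
      ring
    · intro h
      exact hu3 ((Nat.dvd_add_left (Dvd.intro _ rfl)).mp h)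

theorem irr_two_pow_mod_three (k : ℕ) : 2 ^ (3 ^ k) % 3 = 2 := by
  have hodd : Odd (3 ^ k) := Odd.pow (by decide)
  obtain ⟨j, hj⟩ := hodd
  rw [hj]
  clear hj
  induction j with
  | zero => norm_num
  | succ j ih =>
    have : 2 ^ (2 * (j + 1) + 1) = 4 * 2 ^ (2 * j + 1) := by ring
    rw [this, Nat.mul_mod, ih]

theorem irr_pow_ne (n k : ℕ) (hc : Nat.Coprime 2 n) (h : (ZMod.unitOfCoprime 2 hc) ^ k = 1) :
    n ∣ 2 ^ k - 1 := by
  have h1 : ((2 : ℕ) : ZMod n) ^ k = 1 := by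
    have := congrArg Units.val h
    rw [Units.val_pow_eq_pow_val, ZMod.coe_unitOfCoprime, Units.val_one] at this
    exact this
  have h2 : ((2 ^ k : ℕ) : ZMod n) = ((1 : ℕ) : ZMod n) := by
    push_cast
    push_cast at h1
    exact h1
  rw [ZMod.natCast_eq_natCast_iff] at h2
  exact (Nat.modEq_iff_dvd' (Nat.one_le_two_pow)).mp h2.symm

theorem irr_order (l : ℕ) (hc : Nat.Coprime 2 (3 ^ (l + 1))) :
    orderOf (ZMod.unitOfCoprime 2 hc) = 2 * 3 ^ l := by
  have htot : Nat.totient (3 ^ (l + 1)) = 2 * 3 ^ l := by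
    rw [Nat.totient_prime_pow Nat.prime_three (by omega)]
    simp [mul_comm]
  apply orderOf_eq_of_pow_and_pow_div_prime (by positivity)
  · rw [← htot]
    exact ZMod.pow_totient _
  · intro p hp hpd hx
    have h3 := irr_pow_ne _ _ hc hx
    rcases (Nat.Prime.dvd_mul hp).mp hpd with h | h
    · have hp2 : p = 2 := (Nat.prime_dvd_prime_iff_eq hp Nat.prime_two).mp h
      subst hp2
      rw [Nat.mul_div_cancel_left _ (by norm_num)] at h3
      have h4 : 3 ∣ 2 ^ 3 ^ l - 1 := (dvd_pow_self 3 (by omega)).trans h3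
      have h5 := irr_two_pow_mod_three l
      clear h3 hx hpd h htot
      generalize 2 ^ 3 ^ l = x at h4 h5
      omega
    · have hp3 : p = 3 := (Nat.prime_dvd_prime_iff_eq hp Nat.prime_three).mp (hp.dvd_of_dvd_pow h)
      subst hp3
      have hl : l ≠ 0 := by
        rintro rfl
        norm_num at h
      obtain ⟨m, rfl⟩ := Nat.exists_eq_succ_of_ne_zero hl
      have e : 2 * 3 ^ (m + 1) / 3 = 2 * 3 ^ m := by
        rw [pow_succ, ← mul_assoc, Nat.mul_div_cancel _ (by norm_num)]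
      rw [Nat.succ_eq_add_one, e, pow_mul] at h3
      obtain ⟨u, hu, hu3⟩ := irr_four_pow m
      have e2 : (2 ^ 2) ^ 3 ^ m - 1 = 3 ^ (m + 1) * u := by
        have : (2 ^ 2) ^ 3 ^ m = 4 ^ 3 ^ m := by norm_num
        rw [this, hu]
        omega
      rw [e2, pow_succ 3 (m + 1)] at h3
      exact hu3 (Nat.dvd_of_mul_dvd_mul_left (by positivity) h3)

theorem fpoly_irreducible (l : ℕ) : Irreducible (fpoly (ZMod 2) (3 ^ l)) := by
  have e : fpoly (ZMod 2) (3 ^ l) = cyclotomic (3 ^ (l + 1)) (ZMod 2) := by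
    rw [cyclotomic_prime_pow_eq_geom_sum Nat.prime_three]
    unfold fpoly
    rw [Finset.sum_range_succ, Finset.sum_range_succ, Finset.sum_range_one]
    ring
  rw [e]
  have : Fact (Nat.Prime 2) := ⟨Nat.prime_two⟩
  have h23 : ¬ 2 ∣ 3 ^ (l + 1) := by
    intro h
    have := Nat.prime_two.dvd_of_dvd_pow h
    omega
  apply ZMod.irreducible_of_dvd_cyclotomic_of_natDegree h23 dvd_rfl
  rw [natDegree_cyclotomic, irr_order]
  rw [Nat.totient_prime_pow Nat.prime_three (by omega)]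
  simp [mul_comm]

end Pool.Agent.Work.MP_0f7328_co
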