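import Pool.Agent.Work.MP_0f7328_co.Defs

/-!
From a permutation along edges with an odd invariant set to two odd cycles and a matching of the
rest (alternating path argument).
-/

set_option autoImplicit false

namespace Pool.Agent.Work.MP_0f7328_co

section reduce

variable {V : Type} [Fintype V] [DecidableEq V]

open Classical in
/-- The cycle of `v`, as a finite set. -/
noncomputable def orb (f : Equiv.Perm V) (v : V) : Finset V :=
  Finset.univ.filter (fun w => f.SameCycle v w)

theorem mem_orb {f : Equiv.Perm V} {v w : V} : w ∈ orb f v ↔ f.SameCycle v w := by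
  classical
  simp [orb]

theorem self_mem_orb (f : Equiv.Perm V) (v : V) : v ∈ orb f v :=
  mem_orb.2 (Equiv.Perm.SameCycle.refl f v)

theorem apply_mem_orb {f : Equiv.Perm V} {v w : V} : f w ∈ orb f v ↔ w ∈ orb f v := by
  rw [mem_orb, mem_orb, Equiv.Perm.sameCycle_apply_right]

theorem inv_apply_mem_orb {f : Equiv.Perm V} {v w : V} : f⁻¹ w ∈ orb f v ↔ w ∈ orb f v := by
  have h := apply_mem_orb (f := f) (v := v) (w := f⁻¹ w)
  have h0 : f (f⁻¹ w) = w := by simp
  rw [h0] at h
  exact h.symm

theorem isCycleOn_orb (f : Equiv.Perm V) (v : V) : f.IsCycleOn (orb f v) := by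
  refine ⟨⟨?_, f.injective.injOn, ?_⟩, ?_⟩
  · intro w hw
    exact Finset.mem_coe.2 (apply_mem_orb.2 (Finset.mem_coe.1 hw))
  · intro w hw
    refine ⟨f⁻¹ w, Finset.mem_coe.2 (inv_apply_mem_orb.2 (Finset.mem_coe.1 hw)), ?_⟩
    simp
  · intro x hx y hy
    exact (mem_orb.1 (Finset.mem_coe.1 hx)).symm.trans (mem_orb.1 (Finset.mem_coe.1 hy))

/-- cycles are equal or disjoint -/
theorem orb_disjoint {f : Equiv.Perm V} {v w : V} (h : w ∉ orb f v) :
    Disjoint (orb f v) (orb f w) := by
  rw [Finset.disjoint_left]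
  intro x hx hx'
  exact h (mem_orb.2 ((mem_orb.1 hx).trans (mem_orb.1 hx').symm))

/-- an invariant set contains the cycles of its elements -/
theorem orb_subset {f : Equiv.Perm V} {X : Finset V} (hX : ∀ v, f v ∈ X ↔ v ∈ X) {v : V}
    (hv : v ∈ X) : orb f v ⊆ X := by
  intro w hw
  obtain ⟨n, hn1, hn2⟩ := (isCycleOn_orb f v).exists_pow_eq (self_mem_orb f v) hw
  rw [← hn2]
  clear hn1 hn2
  induction n with
  | zero => simpa using hv
  | succ n ih =>
    rw [pow_succ', Equiv.Perm.mul_apply]
    exact (hX _).2 ih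

/-- an odd invariant set contains an odd cycle -/
theorem exists_odd_orb {f : Equiv.Perm V} (n : ℕ) : ∀ X : Finset V, X.card = n → Odd X.card →
    (∀ v, f v ∈ X ↔ v ∈ X) → ∃ v ∈ X, Odd (orb f v).card := by
  induction n using Nat.strong_induction_on with
  | _ n ih =>
    intro X hn hX hinv
    have hne : X.Nonempty := by
      rw [← Finset.card_pos]
      exact hX.pos
    obtain ⟨v, hv⟩ := hne
    by_cases ho : Odd (orb f v).card
    · exact ⟨v, hv, ho⟩
    · rw [Nat.not_odd_iff_even] at ho
      have hsub := orb_subset hinv hv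
      have hcard : (X \ orb f v).card = X.card - (orb f v).card := Finset.card_sdiff_of_subset hsub
      have hle := Finset.card_le_card hsub
      have hpos : 0 < (orb f v).card := Finset.card_pos.2 ⟨v, self_mem_orb f v⟩
      obtain ⟨w, hw, hw2⟩ := ih (X \ orb f v).card (by omega) (X \ orb f v) rfl
        (by rw [hcard]; exact Nat.Odd.sub_even hle hX ho)
        (fun w => by
          rw [Finset.mem_sdiff, Finset.mem_sdiff, hinv w, apply_mem_orb])
      exact ⟨w, (Finset.mem_sdiff.1 hw).1, hw2⟩

/-- index along a cycle -/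
theorem exists_index (f : Equiv.Perm V) (u : V) : ∃ k : V → ℕ, k u = 0 ∧
    (∀ w ∈ orb f u, f w ≠ u → k (f w) = k w + 1) ∧
    (∀ w ∈ orb f u, f w = u → k w + 1 = (orb f u).card) := by
  classical
  have hc := isCycleOn_orb f u
  have h1 : ∀ w, ∃ n, w ∈ orb f u → n < (orb f u).card ∧ (f ^ n) u = w := by
    intro w
    by_cases hw : w ∈ orb f u
    · obtain ⟨n, hn1, hn2⟩ := hc.exists_pow_eq (self_mem_orb f u) hw
      exact ⟨n, fun _ => ⟨hn1, hn2⟩⟩
    · exact ⟨0, fun h => absurd h hw⟩
  choose k hk using h1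
  have hpos : 0 < (orb f u).card := Finset.card_pos.2 ⟨u, self_mem_orb f u⟩
  have huniq : ∀ a b, a < (orb f u).card → b < (orb f u).card → (f ^ a) u = (f ^ b) u →
      a = b := by
    intro a b ha hb hab
    rw [hc.pow_apply_eq_pow_apply (self_mem_orb f u)] at hab
    exact Nat.ModEq.eq_of_lt_of_lt hab ha hb
  refine ⟨k, ?_, ?_, ?_⟩
  · obtain ⟨h2, h3⟩ := hk u (self_mem_orb f u)
    exact huniq _ _ h2 hpos (by simpa using h3)
  · intro w hw hwu
    obtain ⟨h2, h3⟩ := hk w hw
    obtain ⟨h4, h5⟩ := hk (f w) (apply_mem_orb.2 hw)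
    have h6 : (f ^ (k w + 1)) u = f w := by
      rw [pow_succ', Equiv.Perm.mul_apply, h3]
    by_cases h7 : k w + 1 < (orb f u).card
    · exact huniq _ _ h4 h7 (by rw [h5, h6])
    · exfalso
      have h8 : k w + 1 = (orb f u).card := by omega
      rw [h8, hc.pow_card_apply (self_mem_orb f u)] at h6
      exact hwu h6.symm
  · intro w hw hwu
    obtain ⟨h2, h3⟩ := hk w hw
    have h6 : (f ^ (k w + 1)) u = u := by
      rw [pow_succ', Equiv.Perm.mul_apply, h3, hwu]
    by_contra h7
    have h8 : k w + 1 < (orb f u).card := by omega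
    have := huniq _ _ h8 hpos (by rw [h6]; simp)
    omega

variable {H : SimpleGraph V}

theorem match_even {f : Equiv.Perm V} (hf : ∀ v, H.Adj v (f v)) (u : V)
    (he : Even (orb f u).card) :
    ∃ μ : V → V, ∀ w ∈ orb f u, μ w ∈ orb f u ∧ μ (μ w) = w ∧ H.Adj w (μ w) := by
  classical
  obtain ⟨k, k0, k1, k2⟩ := exists_index f u
  refine ⟨fun w => if Even (k w) then f w else f⁻¹ w, ?_⟩
  intro w hw
  by_cases hk : Even (k w)
  · have h1 : f w ≠ u := by
      intro h
      have h2 := k2 w hw h
      rw [← h2] at he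
      exact absurd he (by simpa [Nat.even_add_one] using hk)
    have h3 := k1 w hw h1
    have h4 : ¬ Even (k (f w)) := by
      rw [h3, Nat.even_add_one]
      exact not_not.2 hk
    simp only [if_pos hk, if_neg h4]
    exact ⟨apply_mem_orb.2 hw, by simp, hf w⟩
  · have h0 : f (f⁻¹ w) = w := by simp
    have h1 : w ≠ u := by
      intro h
      rw [h, k0] at hk
      exact hk (by simp)
    have h2 := k1 (f⁻¹ w) (inv_apply_mem_orb.2 hw) (by rw [h0]; exact h1)
    rw [h0] at h2
    have h3 : Even (k (f⁻¹ w)) := by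
      by_contra h4
      apply hk
      rw [h2, Nat.even_add_one]
      exact h4
    simp only [if_neg hk, if_pos h3]
    refine ⟨inv_apply_mem_orb.2 hw, h0, ?_⟩
    have h5 := hf (f⁻¹ w)
    rw [h0] at h5
    exact h5.symm

theorem match_odd {f : Equiv.Perm V} (hf : ∀ v, H.Adj v (f v)) (u : V)
    (ho : Odd (orb f u).card) :
    ∃ μ : V → V, ∀ w ∈ orb f u, w ≠ u →
      μ w ∈ orb f u ∧ μ w ≠ u ∧ μ (μ w) = w ∧ H.Adj w (μ w) := by
  classical
  obtain ⟨k, k0, k1, k2⟩ := exists_index f u
  refine ⟨fun w => if Even (k w) then f⁻¹ w else f w, ?_⟩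
  intro w hw hwu
  by_cases hk : Even (k w)
  · have h0 : f (f⁻¹ w) = w := by simp
    have h2 := k1 (f⁻¹ w) (inv_apply_mem_orb.2 hw) (by rw [h0]; exact hwu)
    rw [h0] at h2
    have h3 : ¬ Even (k (f⁻¹ w)) := by
      intro h4
      rw [h2, Nat.even_add_one] at hk
      exact hk h4
    have h6 : f⁻¹ w ≠ u := by
      intro h
      rw [h, k0] at h3
      exact h3 (by simp)
    simp only [if_pos hk, if_neg h3]
    refine ⟨inv_apply_mem_orb.2 hw, h6, h0, ?_⟩
    have h5 := hf (f⁻¹ w)
    rw [h0] at h5
    exact h5.symm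
  · have h1 : f w ≠ u := by
      intro h
      have h2 := k2 w hw h
      rw [← h2, ← Nat.not_even_iff_odd, Nat.even_add_one] at ho
      exact ho hk
    have h3 := k1 w hw h1
    have h4 : Even (k (f w)) := by
      rw [h3, Nat.even_add_one]
      exact hk
    simp only [if_neg hk, if_pos h4]
    exact ⟨apply_mem_orb.2 hw, h1, by simp, hf w⟩

/-- replace a permutation on an invariant set -/
theorem surgery (f : Equiv.Perm V) (S : Finset V) (hS : ∀ v ∈ S, f v ∈ S) (μ : V → V)
    (hμ : ∀ v ∈ S, μ v ∈ S ∧ μ (μ v) = v) :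
    ∃ g : Equiv.Perm V, (∀ v ∈ S, g v = μ v) ∧ (∀ v, v ∉ S → g v = f v) ∧
      (∀ v, f v ∈ S ↔ v ∈ S) := by
  classical
  have himg : S.image f = S := by
    apply Finset.eq_of_subset_of_card_le
    · intro w hw
      obtain ⟨v, hv, rfl⟩ := Finset.mem_image.1 hw
      exact hS v hv
    · rw [Finset.card_image_of_injective _ f.injective]
  have hiff : ∀ v, f v ∈ S ↔ v ∈ S := by
    intro v
    constructor
    · intro h
      rw [← himg] at h
      obtain ⟨w, hw, hw2⟩ := Finset.mem_image.1 h
      rwa [← f.injective hw2]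
    · exact hS v
  let g : V → V := fun v => if v ∈ S then μ v else f v
  have hg : Function.Injective g := by
    intro v w hvw
    simp only [g] at hvw
    by_cases hv : v ∈ S
    · by_cases hw : w ∈ S
      · rw [if_pos hv, if_pos hw] at hvw
        rw [← (hμ v hv).2, hvw, (hμ w hw).2]
      · rw [if_pos hv, if_neg hw] at hvw
        exact absurd ((hiff w).1 (hvw ▸ (hμ v hv).1)) hw
    · by_cases hw : w ∈ S
      · rw [if_neg hv, if_pos hw] at hvw
        exact absurd ((hiff v).1 (hvw ▸ (hμ w hw).1)) hv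
      · rw [if_neg hv, if_neg hw] at hvw
        exact f.injective hvw
  refine ⟨Equiv.ofBijective g (Finite.injective_iff_bijective.1 hg), ?_, ?_, hiff⟩
  · intro v hv
    simp [g, hv]
  · intro v hv
    simp [g, hv]

omit [Fintype V] [DecidableEq V] in
theorem even_of_invol {X : Finset V} (g : V → V) (h : ∀ v ∈ X, g v ∈ X ∧ g v ≠ v ∧ g (g v) = v) :
    Even X.card := by
  classical
  have h1 : ∑ x ∈ X, (1 : ZMod 2) = 0 := by
    apply Finset.sum_involution (fun a _ => g a)
    · intro a _
      decide
    · intro a ha _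
      exact (h a ha).2.1
    · intro a ha
      exact (h a ha).1
    · intro a ha
      exact (h a ha).2.2
  rw [Finset.sum_const, nsmul_eq_mul, mul_one] at h1
  exact (ZMod.natCast_eq_zero_iff_even).1 h1

/-- The alternating path: if `τ` is an involution without fixed points and `ρ` an involution, the
cycle of `ρ τ` through a fixed point `v` of `ρ` is invariant under both and contains exactly one
further fixed point of `ρ`. -/
theorem alt_path (τ ρ : Equiv.Perm V) (hτ : ∀ v, τ (τ v) = v) (hτ' : ∀ v, τ v ≠ v)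
    (hρ : ∀ v, ρ (ρ v) = v) (v : V) (hv : ρ v = v) :
    (∀ w ∈ orb (ρ * τ) v, τ w ∈ orb (ρ * τ) v) ∧ (∀ w ∈ orb (ρ * τ) v, ρ w ∈ orb (ρ * τ) v) ∧
      ∃ w ∈ orb (ρ * τ) v, w ≠ v ∧ ρ w = w ∧ ∀ w' ∈ orb (ρ * τ) v, ρ w' = w' → w' = v ∨ w' = w := by
  classical
  set f : Equiv.Perm V := ρ * τ with hf
  have hτi : τ⁻¹ = τ := by
    ext x
    rw [Equiv.Perm.inv_eq_iff_eq, hτ x]
  have hρi : ρ⁻¹ = ρ := by
    ext x
    rw [Equiv.Perm.inv_eq_iff_eq, hρ x]
  have hττ : τ * τ = 1 := by
    ext x
    exact hτ x
  have hρρ : ρ * ρ = 1 := by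
    ext x
    exact hρ x
  have hfi : f⁻¹ = τ * ρ := by
    rw [hf, mul_inv_rev, hτi, hρi]
  have hc1 : ρ * f * ρ⁻¹ = f⁻¹ := by
    rw [hfi, hρi, hf, ← mul_assoc, hρρ, one_mul]
  have hc2 : τ * f * τ⁻¹ = f⁻¹ := by
    rw [hfi, hτi, hf, mul_assoc, mul_assoc, hττ, mul_one]
  have hρz : ∀ j : ℤ, ρ ((f ^ j) v) = (f ^ (-j)) v := by
    intro j
    have h1 : ρ * f ^ j * ρ⁻¹ = f ^ (-j) := by
      rw [← conj_zpow, hc1, inv_zpow']
    have h2 : ρ * f ^ j = f ^ (-j) * ρ := by
      rw [← h1, inv_mul_cancel_right]
    have h3 : (ρ * f ^ j) v = (f ^ (-j) * ρ) v := by rw [h2]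
    rw [Equiv.Perm.mul_apply, Equiv.Perm.mul_apply, hv] at h3
    exact h3
  have hτv : τ v = (f ^ (-1 : ℤ)) v := by
    rw [zpow_neg_one, hfi, Equiv.Perm.mul_apply, hv]
  have hτz : ∀ j : ℤ, τ ((f ^ j) v) = (f ^ (-j - 1)) v := by
    intro j
    have h1 : τ * f ^ j * τ⁻¹ = f ^ (-j) := by
      rw [← conj_zpow, hc2, inv_zpow']
    have h2 : τ * f ^ j = f ^ (-j) * τ := by
      rw [← h1, inv_mul_cancel_right]
    have h3 : (τ * f ^ j) v = (f ^ (-j) * τ) v := by rw [h2]
    rw [Equiv.Perm.mul_apply, Equiv.Perm.mul_apply, hτv] at h3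
    have h4 : (f ^ (-j)) ((f ^ (-1 : ℤ)) v) = (f ^ (-j - 1)) v := by
      rw [← Equiv.Perm.mul_apply, ← zpow_add, sub_eq_add_neg]
    rw [h3, h4]
  have hmem : ∀ j : ℤ, (f ^ j) v ∈ orb f v := fun j => mem_orb.2 ⟨j, rfl⟩
  have hex : ∀ w ∈ orb f v, ∃ j : ℤ, w = (f ^ j) v := by
    intro w hw
    obtain ⟨j, hj⟩ := mem_orb.1 hw
    exact ⟨j, hj.symm⟩
  have hper : ∀ j : ℤ, (f ^ j) v = v ↔ ((orb f v).card : ℤ) ∣ j := fun j =>
    (isCycleOn_orb f v).zpow_apply_eq (self_mem_orb f v)
  have heqz : ∀ i j : ℤ, (f ^ i) v = (f ^ j) v ↔ ((orb f v).card : ℤ) ∣ i - j := by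
    intro i j
    rw [← hper]
    constructor
    · intro h
      rw [sub_eq_neg_add, zpow_add, Equiv.Perm.mul_apply, h, ← Equiv.Perm.mul_apply, ← zpow_add,
        neg_add_cancel, zpow_zero]
      rfl
    · intro h
      have h2 : i = j + (i - j) := by ring
      rw [h2, zpow_add, Equiv.Perm.mul_apply, h]
  have hpos : 0 < (orb f v).card := Finset.card_pos.2 ⟨v, self_mem_orb f v⟩
  set m : ℕ := (orb f v).card with hm
  have heven : Even m := by
    by_contra ho
    rw [Nat.not_even_iff_odd] at ho
    obtain ⟨r, hr⟩ := ho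
    apply hτ' ((f ^ (r : ℤ)) v)
    rw [hτz, heqz, hr]
    refine ⟨-1, ?_⟩
    push_cast
    ring
  obtain ⟨r, hr⟩ := heven
  refine ⟨?_, ?_, (f ^ (r : ℤ)) v, hmem _, ?_, ?_, ?_⟩
  · intro w hw
    obtain ⟨j, rfl⟩ := hex w hw
    rw [hτz]
    exact hmem _
  · intro w hw
    obtain ⟨j, rfl⟩ := hex w hw
    rw [hρz]
    exact hmem _
  · intro h
    rw [hper, hr] at h
    have h2 := Int.le_of_dvd (by omega) h
    push_cast at h2
    omega
  · rw [hρz, heqz, hr]
    refine ⟨-1, ?_⟩
    push_cast
    ring
  · intro w' hw' hw2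
    obtain ⟨j, rfl⟩ := hex w' hw'
    rw [hρz, heqz, hr] at hw2
    obtain ⟨t, ht⟩ := hw2
    push_cast at ht
    have h3 : j = - (r * t : ℤ) := by linarith
    rcases Int.even_or_odd' t with ⟨s, hs | hs⟩
    · left
      rw [hper, hr]
      refine ⟨-s, ?_⟩
      rw [h3, hs]
      push_cast
      ring
    · right
      rw [heqz, hr]
      refine ⟨-s - 1, ?_⟩
      rw [h3, hs]
      push_cast
      ring

theorem reduce_aux (H : SimpleGraph V) (τ₀ : Equiv.Perm V) (h₀ : τ₀ ∈ PMs H) (n : ℕ) :
    ∀ (σ : Equiv.Perm V) (X : Finset V), (Finset.univ.filter fun v => σ (σ v) ≠ v).card = n →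
      (∀ v, H.Adj v (σ v)) → Odd X.card → (∀ v, σ v ∈ X ↔ v ∈ X) → TwoOdd H := by
  classical
  induction n using Nat.strong_induction_on with
  | _ n ih =>
    intro σ X hn hσ hX hinv
    -- one step: replace σ on S
    have step : ∀ (S : Finset V) (μ : V → V), (∀ v ∈ S, σ v ∈ S) →
        (∀ v ∈ S, μ v ∈ S ∧ μ (μ v) = v) → (∀ v ∈ S, H.Adj v (μ v)) →
        (∃ v ∈ S, σ (σ v) ≠ v) → (∃ a, Odd (orb σ a).card ∧ Disjoint S (orb σ a)) →
        TwoOdd H := by
      intro S μ hS hμ hμa ⟨v, hv, hv2⟩ ⟨a, ha, haS⟩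
      obtain ⟨g, hg1, hg2, hiff⟩ := surgery σ S hS μ hμ
      have hgg : ∀ w, g (g w) ≠ w → w ∉ S ∧ σ (σ w) ≠ w := by
        intro w hw
        by_cases hwS : w ∈ S
        · exfalso
          apply hw
          rw [hg1 w hwS, hg1 _ (hμ w hwS).1, (hμ w hwS).2]
        · refine ⟨hwS, ?_⟩
          rwa [hg2 w hwS, hg2 _ (fun h => hwS ((hiff w).1 h))] at hw
      have hlt : (Finset.univ.filter fun w => g (g w) ≠ w).card < n := by
        rw [← hn]
        apply Finset.card_lt_card
        rw [Finset.ssubset_iff_of_subset]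
        · refine ⟨v, ?_, ?_⟩
          · rw [Finset.mem_filter]
            exact ⟨Finset.mem_univ _, hv2⟩
          · rw [Finset.mem_filter]
            intro h
            exact (hgg v h.2).1 hv
        · intro w hw
          rw [Finset.mem_filter] at hw ⊢
          exact ⟨Finset.mem_univ _, (hgg w hw.2).2⟩
      apply ih _ hlt g (orb σ a) rfl
      · intro w
        by_cases hwS : w ∈ S
        · rw [hg1 w hwS]
          exact hμa w hwS
        · rw [hg2 w hwS]
          exact hσ w
      · exact ha
      · intro w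
        by_cases hwS : w ∈ S
        · rw [hg1 w hwS]
          constructor
          · intro h
            exact absurd h (Finset.disjoint_left.1 haS (hμ w hwS).1)
          · intro h
            exact absurd h (Finset.disjoint_left.1 haS hwS)
        · rw [hg2 w hwS]
          exact apply_mem_orb
    -- the first odd cycle
    obtain ⟨a, haX, ha⟩ := exists_odd_orb X.card X rfl hX hinv
    by_cases hE : ∃ v, Even (orb σ v).card ∧ σ (σ v) ≠ v
    · obtain ⟨v, hv, hv2⟩ := hE
      obtain ⟨μ, hμ⟩ := match_even hσ v hv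
      apply step (orb σ v) μ (fun w hw => apply_mem_orb.2 hw)
        (fun w hw => ⟨(hμ w hw).1, (hμ w hw).2.1⟩) (fun w hw => (hμ w hw).2.2)
        ⟨v, self_mem_orb σ v, hv2⟩
      refine ⟨a, ha, ?_⟩
      apply orb_disjoint
      intro h
      have h2 : orb σ a = orb σ v := by
        ext w
        rw [mem_orb, mem_orb]
        exact ⟨fun h3 => (mem_orb.1 h).trans h3, fun h3 => (mem_orb.1 h).symm.trans h3⟩
      rw [h2] at ha
      exact absurd hv (Nat.not_even_iff_odd.2 ha)
    · push Not at hE
      have hVeven : Even (Fintype.card V) := by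
        rw [← Finset.card_univ]
        apply even_of_invol (fun v => τ₀ v)
        intro v _
        exact ⟨Finset.mem_univ _, fun h => (h₀.2 v).ne h.symm, h₀.1 v⟩
      -- second odd cycle
      have hcompl : ∀ S : Finset V, (∀ v, σ v ∈ S ↔ v ∈ S) → Odd S.card →
          ∃ b, b ∉ S ∧ Odd (orb σ b).card := by
        intro S hS hSo
        obtain ⟨b, hb, hb2⟩ := exists_odd_orb (f := σ) Sᶜ.card Sᶜ rfl
          (by
            rw [Finset.card_compl]
            exact Nat.Even.sub_odd (Finset.card_le_univ S) hVeven hSo)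
          (fun v => by rw [Finset.mem_compl, Finset.mem_compl, hS v])
        exact ⟨b, Finset.mem_compl.1 hb, hb2⟩
      obtain ⟨b, hbC, hb⟩ := hcompl (orb σ a) (fun v => apply_mem_orb) ha
      by_cases hrest : ∀ v, v ∉ orb σ a → v ∉ orb σ b → σ (σ v) = v
      · exact ⟨σ, orb σ a, orb σ b, hσ, orb_disjoint hbC, ha, hb, isCycleOn_orb σ a,
          isCycleOn_orb σ b, hrest⟩
      · push Not at hrest
        obtain ⟨c, hca, hcb, hc2⟩ := hrest
        have hodd : ∀ v, σ (σ v) ≠ v → Odd (orb σ v).card := by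
          intro v hv
          by_contra h
          rw [Nat.not_odd_iff_even] at h
          exact hv (hE v h)
        have hc : Odd (orb σ c).card := hodd c hc2
        -- points of odd cycles are bad
        have hbad : ∀ v, Odd (orb σ v).card → σ (σ v) ≠ v := by
          intro v hv h
          have h1 : Even (orb σ v).card := by
            apply even_of_invol (fun w => σ w)
            intro w hw
            refine ⟨apply_mem_orb.2 hw, fun h => (hσ w).ne h.symm, ?_⟩
            obtain ⟨j, hj⟩ := mem_orb.1 hw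
            rw [← hj]
            have h2 : ((σ * σ) * σ ^ j) v = (σ ^ j * (σ * σ)) v := by
              congr 1
              rw [mul_assoc, (Commute.refl σ).zpow_right j |>.eq, ← mul_assoc,
                (Commute.refl σ).zpow_right j |>.eq, mul_assoc]
            rw [Equiv.Perm.mul_apply, Equiv.Perm.mul_apply, Equiv.Perm.mul_apply,
              Equiv.Perm.mul_apply, h] at h2
            exact h2
          exact absurd h1 (Nat.not_even_iff_odd.2 hv)
        -- the involution ρ
        let r : V → V := fun w => if σ (σ w) = w then σ w else w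
        have hr1 : ∀ w, σ (σ w) = w → r w = σ w := by
          intro w hw
          simp only [r]
          rw [if_pos hw]
        have hr2 : ∀ w, σ (σ w) ≠ w → r w = w := by
          intro w hw
          simp only [r]
          rw [if_neg hw]
        have hr : Function.Involutive r := by
          intro w
          by_cases hw : σ (σ w) = w
          · rw [hr1 w hw, hr1 (σ w) (by rw [hw]), hw]
          · rw [hr2 w hw, hr2 w hw]
        let ρ : Equiv.Perm V := hr.toPerm
        have hρ : ∀ w, ρ w = r w := fun w => rfl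
        have hfix : ∀ w, ρ w = w ↔ σ (σ w) ≠ w := by
          intro w
          rw [hρ]
          constructor
          · intro h h2
            rw [hr1 w h2] at h
            exact (hσ w).ne h.symm
          · exact hr2 w
        have hpath := fun v (hv : σ (σ v) ≠ v) =>
          alt_path τ₀ ρ h₀.1 (fun v h => (h₀.2 v).ne h.symm) (fun w => hr w) v ((hfix v).2 hv)
        -- some v in the first cycle has its partner outside
        have hex : ∃ v ∈ orb σ a, ∃ w ∈ orb (ρ * τ₀) v, w ≠ v ∧ ρ w = w ∧
            (∀ w' ∈ orb (ρ * τ₀) v, ρ w' = w' → w' = v ∨ w' = w) ∧ w ∉ orb σ a := by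
          by_contra hcon
          push Not at hcon
          have hbada : ∀ v ∈ orb σ a, σ (σ v) ≠ v := by
            intro v hv
            apply hbad
            have h2 : orb σ v = orb σ a := by
              ext w
              rw [mem_orb, mem_orb]
              exact ⟨fun h3 => (mem_orb.1 hv).trans h3, fun h3 => (mem_orb.1 hv).symm.trans h3⟩
            rw [h2]
            exact ha
          have h1 : ∀ v, ∃ w, v ∈ orb σ a → w ∈ orb (ρ * τ₀) v ∧ w ≠ v ∧ ρ w = w ∧
              (∀ w' ∈ orb (ρ * τ₀) v, ρ w' = w' → w' = v ∨ w' = w) ∧ w ∈ orb σ a := by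
            intro v
            by_cases hv : v ∈ orb σ a
            · obtain ⟨_, _, w, hw1, hw2, hw3, hw4⟩ := hpath v (hbada v hv)
              exact ⟨w, fun _ => ⟨hw1, hw2, hw3, hw4, hcon v hv w hw1 hw2 hw3 hw4⟩⟩
            · exact ⟨v, fun h => absurd h hv⟩
          choose p hp using h1
          apply absurd ha
          rw [Nat.not_odd_iff_even]
          apply even_of_invol p
          intro v hv
          obtain ⟨q1, q2, q3, q4, q5⟩ := hp v hv
          obtain ⟨s1, s2, s3, s4, s5⟩ := hp (p v) q5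
          refine ⟨q5, q2, ?_⟩
          have hvmem : v ∈ orb (ρ * τ₀) (p v) := mem_orb.2 (mem_orb.1 q1).symm
          rcases s4 v hvmem ((hfix v).2 (hbada v hv)) with h | h
          · exact absurd h.symm q2
          · exact h.symm
        obtain ⟨v, hv, w, hw1, hw2, hw3, hw4, hw5⟩ := hex
        have hva : orb σ v = orb σ a := by
          ext x
          rw [mem_orb, mem_orb]
          exact ⟨fun h3 => (mem_orb.1 hv).trans h3, fun h3 => (mem_orb.1 hv).symm.trans h3⟩
        have hvo : Odd (orb σ v).card := by rw [hva]; exact ha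
        have hwbad : σ (σ w) ≠ w := (hfix w).1 hw3
        have hwo : Odd (orb σ w).card := hodd w hwbad
        obtain ⟨hP1, hP2, _⟩ := hpath v (hbad v hvo)
        have hdisj : Disjoint (orb σ v) (orb σ w) := by
          apply orb_disjoint
          rw [hva]
          exact hw5
        obtain ⟨μC, hμC⟩ := match_odd hσ v hvo
        obtain ⟨μD, hμD⟩ := match_odd hσ w hwo
        have hbadC : ∀ x ∈ orb σ v, σ (σ x) ≠ x := by
          intro x hx
          apply hbad
          have h2 : orb σ x = orb σ v := by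
            ext y
            rw [mem_orb, mem_orb]
            exact ⟨fun h3 => (mem_orb.1 hx).trans h3, fun h3 => (mem_orb.1 hx).symm.trans h3⟩
          rw [h2]
          exact hvo
        have hbadD : ∀ x ∈ orb σ w, σ (σ x) ≠ x := by
          intro x hx
          apply hbad
          have h2 : orb σ x = orb σ w := by
            ext y
            rw [mem_orb, mem_orb]
            exact ⟨fun h3 => (mem_orb.1 hx).trans h3, fun h3 => (mem_orb.1 hx).symm.trans h3⟩
          rw [h2]
          exact hwo
        set P : Finset V := orb (ρ * τ₀) v with hP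
        have hPO : ∀ x ∈ P, σ (σ x) ≠ x → x = v ∨ x = w := fun x hx hx2 =>
          hw4 x hx ((hfix x).2 hx2)
        let μ : V → V := fun x =>
          if x ∈ P then τ₀ x else if x ∈ orb σ v then μC x else μD x
        have hμ1 : ∀ x, x ∈ P → μ x = τ₀ x := by
          intro x hx
          simp only [μ]
          rw [if_pos hx]
        have hμ2 : ∀ x, x ∉ P → x ∈ orb σ v → μ x = μC x := by
          intro x hx hx2
          simp only [μ]
          rw [if_neg hx, if_pos hx2]
        have hμ3 : ∀ x, x ∉ P → x ∉ orb σ v → μ x = μD x := by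
          intro x hx hx2
          simp only [μ]
          rw [if_neg hx, if_neg hx2]
        have hvP : v ∈ P := self_mem_orb _ _
        have hvnw : v ∉ orb σ w := Finset.disjoint_left.1 hdisj (self_mem_orb σ v)
        have hwnv : w ∉ orb σ v := by rw [hva]; exact hw5
        -- facts about μ on the three parts
        have hfC : ∀ x, x ∉ P → x ∈ orb σ v → μC x ∈ orb σ v ∧ μC x ∉ P ∧ μC (μC x) = x ∧
            H.Adj x (μC x) := by
          intro x hx hx2
          obtain ⟨e1, e2, e3, e4⟩ := hμC x hx2 (fun h => hx (h ▸ hvP))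
          refine ⟨e1, ?_, e3, e4⟩
          intro h
          rcases hPO _ h (hbadC _ e1) with h2 | h2
          · exact e2 h2
          · exact hwnv (h2 ▸ e1)
        have hfD : ∀ x, x ∉ P → x ∈ orb σ w → μD x ∈ orb σ w ∧ μD x ∉ P ∧ μD (μD x) = x ∧
            H.Adj x (μD x) := by
          intro x hx hx2
          obtain ⟨e1, e2, e3, e4⟩ := hμD x hx2 (fun h => hx (h ▸ hw1))
          refine ⟨e1, ?_, e3, e4⟩
          intro h
          rcases hPO _ h (hbadD _ e1) with h2 | h2
          · exact hvnw (h2 ▸ e1)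
          · exact e2 h2
        -- third odd cycle, disjoint from all
        have hthird : ∃ e, Odd (orb σ e).card ∧ e ∉ orb σ v ∧ e ∉ orb σ w := by
          by_cases hbw : b ∈ orb σ w
          · refine ⟨c, hc, by rw [hva]; exact hca, ?_⟩
            intro h
            exact hcb (mem_orb.2 ((mem_orb.1 hbw).symm.trans (mem_orb.1 h)))
          · exact ⟨b, hb, by rw [hva]; exact hbC, hbw⟩
        obtain ⟨e, he, hev, hew⟩ := hthird
        apply step (P ∪ (orb σ v ∪ orb σ w)) μ
        · intro x hx
          rw [Finset.mem_union, Finset.mem_union] at hx ⊢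
          rcases hx with hx | hx | hx
          · by_cases hx2 : σ (σ x) = x
            · left
              have := hP2 x hx
              rwa [hρ, hr1 x hx2] at this
            · right
              rcases hPO x hx hx2 with h | h
              · left
                rw [h]
                exact apply_mem_orb.2 (self_mem_orb σ v)
              · right
                rw [h]
                exact apply_mem_orb.2 (self_mem_orb σ w)
          · exact Or.inr (Or.inl (apply_mem_orb.2 hx))
          · exact Or.inr (Or.inr (apply_mem_orb.2 hx))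
        · intro x hx
          rw [Finset.mem_union, Finset.mem_union] at hx
          by_cases hxP : x ∈ P
          · rw [hμ1 x hxP, hμ1 _ (hP1 x hxP)]
            exact ⟨Finset.mem_union_left _ (hP1 x hxP), h₀.1 x⟩
          · by_cases hxv : x ∈ orb σ v
            · obtain ⟨e1, e2, e3, e4⟩ := hfC x hxP hxv
              rw [hμ2 x hxP hxv, hμ2 _ e2 e1]
              exact ⟨Finset.mem_union_right _ (Finset.mem_union_left _ e1), e3⟩
            · have hxw : x ∈ orb σ w := by tauto
              obtain ⟨e1, e2, e3, e4⟩ := hfD x hxP hxw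
              rw [hμ3 x hxP hxv, hμ3 _ e2 (fun h => Finset.disjoint_left.1 hdisj h e1)]
              exact ⟨Finset.mem_union_right _ (Finset.mem_union_right _ e1), e3⟩
        · intro x hx
          rw [Finset.mem_union, Finset.mem_union] at hx
          by_cases hxP : x ∈ P
          · rw [hμ1 x hxP]
            exact h₀.2 x
          · by_cases hxv : x ∈ orb σ v
            · obtain ⟨e1, e2, e3, e4⟩ := hfC x hxP hxv
              rw [hμ2 x hxP hxv]
              exact e4
            · have hxw : x ∈ orb σ w := by tauto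
              obtain ⟨e1, e2, e3, e4⟩ := hfD x hxP hxw
              rw [hμ3 x hxP hxv]
              exact e4
        · exact ⟨v, Finset.mem_union_left _ hvP, hbad v hvo⟩
        · refine ⟨e, he, ?_⟩
          rw [Finset.disjoint_left]
          intro x hx hxe
          have hxbad : σ (σ x) ≠ x := by
            apply hbad
            have h2 : orb σ x = orb σ e := by
              ext y
              rw [mem_orb, mem_orb]
              exact ⟨fun h3 => (mem_orb.1 hxe).trans h3, fun h3 => (mem_orb.1 hxe).symm.trans h3⟩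
            rw [h2]
            exact he
          have h5 : ∀ y, y ∈ orb σ e → y ∉ orb σ v ∧ y ∉ orb σ w := by
            intro y hy
            exact ⟨fun h => hev (mem_orb.2 ((mem_orb.1 h).trans (mem_orb.1 hy).symm)),
              fun h => hew (mem_orb.2 ((mem_orb.1 h).trans (mem_orb.1 hy).symm))⟩
          rw [Finset.mem_union, Finset.mem_union] at hx
          rcases hx with hx | hx | hx
          · rcases hPO x hx hxbad with h | h
            · exact (h5 x hxe).1 (h ▸ self_mem_orb σ v)
            · exact (h5 x hxe).2 (h ▸ self_mem_orb σ w)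
          · exact (h5 x hxe).1 hx
          · exact (h5 x hxe).2 hx

theorem twoOdd_of_perm (H : SimpleGraph V) (σ : Equiv.Perm V) (hσ : ∀ v, H.Adj v (σ v))
    (X : Finset V) (hX : Odd X.card) (hinv : ∀ v, σ v ∈ X ↔ v ∈ X) (τ₀ : Equiv.Perm V)
    (h₀ : τ₀ ∈ PMs H) : TwoOdd H :=
  reduce_aux H τ₀ h₀ _ σ X rfl hσ hX hinv

end reduce

end Pool.Agent.Work.MP_0f7328_co
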