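import Pool.Agent.Work.MP_0f7328_co.Bridge1
import Pool.Agent.Work.MP_0f7328_co.Bridge2
import Pool.Agent.Work.MP_0f7328_co.Fwd
import Pool.Agent.Work.MP_0f7328_co.Reduce
import Pool.Agent.Work.MP_0f7328_co.Bwd

/-!
The theorem of Reed and Wakabayashi: a brick is solid if and only if there are no two disjoint odd
cycles with a perfect matching of the remaining vertices.
-/

set_option autoImplicit false

namespace Pool.Agent.Work.MP_0f7328_co

variable {V E : Type} [Fintype V] [DecidableEq V]

theorem even_card_of_PMs {H : SimpleGraph V} {τ : Equiv.Perm V} (h : τ ∈ PMs H) :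
    Even (Fintype.card V) := by
  have h1 : τ ^ 2 = 1 := by
    ext v; rw [pow_two]; exact h.1 v
  have h2 : τ.support = Finset.univ := by
    ext v
    simp only [Equiv.Perm.mem_support, Finset.mem_univ, iff_true]
    exact (h.2 v).ne'
  have h3 := Equiv.Perm.two_dvd_card_support h1
  rw [h2, Finset.card_univ] at h3
  exact even_iff_two_dvd.2 h3

theorem exists_pm_of_adj {G : MGraph V E} (hG : G.MatchingCovered) (u v : V)
    (h : G.simple.Adj u v) : ∃ τ ∈ PMs G.simple, τ u = v := by
  obtain ⟨e, he⟩ := h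
  obtain ⟨M, hM, heM⟩ := hG.2.2 e
  obtain ⟨τ, hτ, h1⟩ := G.pm_to M hM
  refine ⟨τ, hτ, ?_⟩
  have h2 := h1 u e heM (by rw [he]; exact Sym2.mem_mk_left u v)
  rw [he] at h2
  exact (Sym2.congr_right.1 h2).symm

theorem exists_pm {G : MGraph V E} (hG : G.MatchingCovered) : ∃ τ, τ ∈ PMs G.simple := by
  obtain ⟨h1, h2, -⟩ := id hG
  obtain ⟨a, b, hab⟩ := h2.exists_pair_ne
  obtain ⟨w⟩ := h1.preconnected a b
  cases w with
  | nil => exact absurd rfl hab
  | cons h _ =>
    obtain ⟨τ, hτ, -⟩ := exists_pm_of_adj hG _ _ h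
    exact ⟨τ, hτ⟩

theorem even_card_of_brick {G : MGraph V E} (hG : G.IsBrick) : Even (Fintype.card V) := by
  obtain ⟨τ, hτ⟩ := exists_pm hG.1
  exact even_card_of_PMs hτ

theorem solid_iff (G : MGraph V E) (hG : G.IsBrick) : G.Solid ↔ ¬ TwoOdd G.simple := by
  classical
  have hcov := exists_pm_of_adj hG.1
  obtain ⟨τ₁, hτ₁⟩ := exists_pm hG.1
  have hev := even_card_of_brick hG
  have hne : Nonempty V := hG.1.1.nonempty
  have hcards : ∀ X : Finset V, ((X : Set V)ᶜ).ncard = Xᶜ.card := by
    intro X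
    rw [← Finset.coe_compl, Set.ncard_coe_finset]
  constructor
  · intro hs ht
    have hnt : ∀ X : Finset V, Odd X.card → 3 ≤ X.card → 3 ≤ Xᶜ.card →
        ∃ τ ∈ PMs G.simple, crosses τ X ≠ 1 := by
      intro X h1 h2 h3
      by_contra hcon
      push Not at hcon
      have h4 : G.Tight (X : Set V) := (G.tight_iff hne X).2 hcon
      rcases hG.2.2 (X : Set V) (by rw [Set.ncard_coe_finset]; exact h1) h4 with h5 | h5
      · rw [Set.ncard_coe_finset] at h5; omega
      · rw [hcards] at h5; omega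
    obtain ⟨X, h1, h2, h3, h4⟩ := exists_separating G.simple hcov hnt ht
    have h5 : G.Separating (X : Set V) := (G.separating_iff hG.1.1 X
      (Finset.card_pos.1 (by omega)) (Finset.card_pos.1 (by omega))).2 h4
    have h6 := hs (X : Set V) (by rw [Set.ncard_coe_finset]; exact h1) h5
    rcases hG.2.2 (X : Set V) (by rw [Set.ncard_coe_finset]; exact h1) h6 with h7 | h7
    · rw [Set.ncard_coe_finset] at h7; omega
    · rw [hcards] at h7; omega
  · intro ht X' hX' hsep
    obtain ⟨X, rfl⟩ : ∃ X : Finset V, X' = (X : Set V) := ⟨X'.toFinset, by simp⟩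
    rw [Set.ncard_coe_finset] at hX'
    by_contra hnt
    rw [G.tight_iff hne X] at hnt
    push Not at hnt
    obtain ⟨τ₀, h0, hc⟩ := hnt
    have hXn : X.Nonempty := Finset.card_pos.1 hX'.pos
    have hXc : Xᶜ.Nonempty := by
      rw [Finset.nonempty_iff_ne_empty]
      intro h
      have h1 : X = Finset.univ := by rwa [Finset.compl_eq_empty_iff] at h
      rw [h1, Finset.card_univ] at hX'
      exact (Nat.not_odd_iff_even.2 hev) hX'
    have h2 := (G.separating_iff hG.1.1 X hXn hXc).1 hsep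
    obtain ⟨σ, h3, h4⟩ := exists_perm_of_separating G.simple X hX' h2 τ₀ h0 hc
    exact ht (twoOdd_of_perm G.simple σ h3 X hX' h4 τ₀ h0)

end Pool.Agent.Work.MP_0f7328_co
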