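import Pool.Agent.Work.MP_0f7328_co.Defs
import Pool.Agent.Work.PolyTime.Sim
import Pool.Agent.Work.PolyTime.More

/-!
Polynomial time for the operations of the Galois ring on lists of coefficients.
-/

set_option autoImplicit false
set_option linter.unusedSimpArgs false

namespace Pool.Agent.Work.MP_0f7328_co

section time
open Pool.Agent.Work.PolyTime

variable {α β : Type} [Code α] [Code β]

theorem foldl_mod (k : ℕ) (hk : 0 < k) (n : ℕ) :
    (List.range n).foldl (fun s _ => if s + 1 = k then 0 else s + 1) 0 = n % k := by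
  induction n with
  | zero => simp
  | succ n ih =>
    rw [List.range_succ, List.foldl_append, ih]
    simp only [List.foldl_cons, List.foldl_nil]
    have h1 : n % k < k := Nat.mod_lt n hk
    by_cases h : n % k + 1 = k
    · rw [if_pos h]
      have h2 : n + 1 = k * (n / k + 1) := by
        have := Nat.div_add_mod n k
        rw [mul_add, mul_one]
        omega
      rw [h2, Nat.mul_mod_right]
    · rw [if_neg h]
      have h2 : n + 1 = (n % k + 1) + k * (n / k) := by
        have := Nat.div_add_mod n k
        omega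
      rw [h2, Nat.add_mul_mod_self_left, Nat.mod_eq_of_lt (show n % k + 1 < k by omega)]

theorem foldl_mod_lt (k : ℕ) (hk : 0 < k) (l : List ℕ) : ∀ s, s < k →
    l.foldl (fun s _ => if s + 1 = k then 0 else s + 1) s < k := by
  induction l with
  | nil => intro s hs; exact hs
  | cons a l ih =>
    intro s hs
    rw [List.foldl_cons]
    apply ih
    split_ifs <;> omega

theorem ptime_mod {f : α → ℕ} (hf : PTime f) (k : ℕ) (hk : 0 < k) : PTime (fun x => f x % k) := by
  have hstep : PTime (fun y : α × ℕ × ℕ => if y.2.1 + 1 = k then 0 else y.2.1 + 1) := by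
    apply PTime.ite
    · exact PTime.eq (PTime.succ (by fun_prop)) (PTime.const k)
    · exact PTime.const 0
    · fun_prop
  have h : PTime (fun x => (List.range (f x)).foldl (fun s b =>
      (fun y : α × ℕ × ℕ => if y.2.1 + 1 = k then 0 else y.2.1 + 1) (x, s, b)) 0) := by
    refine PTime.foldl (f := fun y : α × ℕ × ℕ => if y.2.1 + 1 = k then 0 else y.2.1 + 1)
      (PTime.range hf) (PTime.const 0) hstep (B := fun _ => 2 * k + 1) (PB.const _) ?_
    intro x l' _
    have h1 := foldl_mod_lt k hk l' 0 hk
    change sz (l'.foldl (fun s _ => if s + 1 = k then 0 else s + 1) 0) ≤ _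
    rw [sz_nat]
    omega
  exact h.code_congr (fun x => foldl_mod k hk (f x))

omit [Code β] in
/-- erasing by a fold -/
theorem foldl_erase [DecidableEq β] (a : β) (l : List β) : ∀ acc : List β,
    (l.foldl (fun (s : Bool × List β) b => bif s.1 then (true, b :: s.2) else
      bif decide (b = a) then (true, s.2) else (false, b :: s.2)) (true, acc)).2 =
        l.reverse ++ acc ∧
    (l.foldl (fun (s : Bool × List β) b => bif s.1 then (true, b :: s.2) else
      bif decide (b = a) then (true, s.2) else (false, b :: s.2)) (false, acc)).2 =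
        (l.erase a).reverse ++ acc := by
  induction l with
  | nil => intro acc; simp
  | cons b l ih =>
    intro acc
    refine ⟨?_, ?_⟩
    · rw [List.foldl_cons]
      simp only [cond_true]
      rw [(ih _).1]
      simp
    · rw [List.foldl_cons]
      simp only [cond_false]
      by_cases hb : b = a
      · subst hb
        simp only [decide_true, cond_true]
        rw [(ih _).1]
        simp
      · rw [decide_eq_false hb]
        simp only [cond_false]
        rw [(ih _).2, List.erase_cons_tail (by simpa using hb)]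
        simp

theorem ptime_erase [DecidableEq β] [LawfulCode β] {l : α → List β} {f : α → β} (hl : PTime l)
    (hf : PTime f) : PTime (fun x => (l x).erase (f x)) := by
  have hfy : PTime (fun y : α × (Bool × List β) × β => f y.1) := hf.comp PTime.fst
  have hstep : PTime (fun y : α × (Bool × List β) × β =>
      bif y.2.1.1 then (true, y.2.2 :: y.2.1.2) else
        bif decide (y.2.2 = f y.1) then (true, y.2.1.2) else (false, y.2.2 :: y.2.1.2)) := by
    apply PTime.cond (by fun_prop) (by fun_prop)
    apply PTime.cond (PTime.eq (by fun_prop) hfy) (by fun_prop) (by fun_prop)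
  have h : PTime (fun x => ((l x).foldl (fun s b =>
      (fun y : α × (Bool × List β) × β => bif y.2.1.1 then (true, y.2.2 :: y.2.1.2) else
        bif decide (y.2.2 = f y.1) then (true, y.2.1.2) else (false, y.2.2 :: y.2.1.2))
          (x, s, b)) (false, [])).2.reverse) := by
    refine PTime.reverse (PTime.snd.comp (PTime.foldlGrow
      (f := fun y : α × (Bool × List β) × β => bif y.2.1.1 then (true, y.2.2 :: y.2.1.2) else
        bif decide (y.2.2 = f y.1) then (true, y.2.1.2) else (false, y.2.2 :: y.2.1.2))
      hl (PTime.const _) hstep (G := fun x => 3 + sz (l x)) ((PB.const 3).add hl.sz_le) ?_))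
    rintro x b hb ⟨c, acc⟩
    have h1 := sz_mem hb
    cases c
    · simp only [cond_false]
      by_cases hbx : b = f x
      · rw [decide_eq_true hbx]
        simp only [cond_true, sz_pair, sz_true, sz_false]
        omega
      · rw [decide_eq_false hbx]
        simp only [cond_false, sz_pair, sz_cons, sz_false]
        omega
    · simp only [cond_true, sz_pair, sz_cons, sz_true]
      omega
  refine h.code_congr (fun x => ?_)
  have h2 := (foldl_erase (f x) (l x) []).2
  simp only
  rw [h2, List.append_nil, List.reverse_reverse]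

theorem ptime_find {l : α → List β} {p : α → β → Bool} (hl : PTime l)
    (hp : PTime (fun x : α × β => p x.1 x.2)) : PTime (fun x => (l x).find? (p x)) := by
  have h : PTime (fun x => ((l x).filter (p x)).head?) := PTime.headOpt (PTime.filter hl hp)
  exact h.code_congr (fun x => List.head?_filter)

theorem ptime_gadd {N : α → ℕ} {a b : α → List ℕ} (hN : PTime N) (ha : PTime a) (hb : PTime b) :
    PTime (fun x => gadd (N x) (a x) (b x)) := by
  have hay : PTime (fun y : α × ℕ => a y.1) := ha.comp PTime.fst
  have hby : PTime (fun y : α × ℕ => b y.1) := hb.comp PTime.fst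
  unfold gadd
  refine PTime.map (f := fun x i => ((a x).getD i 0 + (b x).getD i 0) % 8)
    (PTime.range (PTime.natMul (PTime.const 2) hN)) ?_
  exact ptime_mod (PTime.natAdd (PTime.nth hay PTime.snd (PTime.const 0))
    (PTime.nth hby PTime.snd (PTime.const 0))) 8 (by norm_num)

theorem ptime_gsmul {N c : α → ℕ} {a : α → List ℕ} (hN : PTime N) (hc : PTime c) (ha : PTime a) :
    PTime (fun x => gsmul (N x) (c x) (a x)) := by
  have hay : PTime (fun y : α × ℕ => a y.1) := ha.comp PTime.fst
  have hcy : PTime (fun y : α × ℕ => c y.1) := hc.comp PTime.fst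
  unfold gsmul
  refine PTime.map (f := fun x i => (c x * (a x).getD i 0) % 8)
    (PTime.range (PTime.natMul (PTime.const 2) hN)) ?_
  exact ptime_mod (PTime.natMul hcy (PTime.nth hay PTime.snd (PTime.const 0))) 8 (by norm_num)

theorem ptime_gx {N : α → ℕ} {a : α → List ℕ} (hN : PTime N) (ha : PTime a) :
    PTime (fun x => gx (N x) (a x)) := by
  have hay : PTime (fun y : α × ℕ => a y.1) := ha.comp PTime.fst
  have hNy : PTime (fun y : α × ℕ => N y.1) := hN.comp PTime.fst
  have hz : PTime (fun y : α × ℕ => decide (y.2 = 0)) := PTime.eq PTime.snd (PTime.const 0)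
  have hor : PTime (fun y : α × ℕ => decide (y.2 = 0 ∨ y.2 = N y.1)) := by
    refine (PTime.or hz (PTime.eq (f := fun y : α × ℕ => y.2) PTime.snd hNy)).code_congr
      (fun y => ?_)
    rw [Bool.decide_or]
  unfold gx
  refine PTime.map (f := fun x i => ((if i = 0 then 0 else (a x).getD (i - 1) 0) +
      (if i = 0 ∨ i = N x then 7 * (a x).getD (2 * N x - 1) 0 else 0)) % 8)
    (PTime.range (PTime.natMul (PTime.const 2) hN)) ?_
  refine ptime_mod (PTime.natAdd ?_ ?_) 8 (by norm_num)
  · exact PTime.ite hz (PTime.const 0) (PTime.nth hay (PTime.natPred PTime.snd) (PTime.const 0))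
  · refine PTime.ite hor ?_ (PTime.const 0)
    exact PTime.natMul (PTime.const 7) (PTime.nth hay
      (PTime.natPred (PTime.natMul (PTime.const 2) hNy)) (PTime.const 0))

theorem sz_map_mod (N : ℕ) (g : ℕ → ℕ) :
    sz ((List.range (2 * N)).map fun i => g i % 8) ≤ 60 * N + 60 := by
  have h := sz_list_le ((List.range (2 * N)).map fun i => g i % 8) 15 (by
    intro a ha
    obtain ⟨i, _, rfl⟩ := List.mem_map.1 ha
    rw [sz_nat]
    have := Nat.mod_lt (g i) (show 0 < 8 by norm_num)
    omega)
  rw [List.length_map, List.length_range] at h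
  omega

/-- bound for the size of a sum -/
theorem sz_gadd (N : ℕ) (a b : List ℕ) : sz (gadd N a b) ≤ 60 * N + 60 :=
  sz_map_mod N _

/-- bound for the size of a multiple -/
theorem sz_gsmul (N c : ℕ) (a : List ℕ) : sz (gsmul N c a) ≤ 60 * N + 60 :=
  sz_map_mod N _

theorem foldl_inv {X Y : Type} (P : X → Prop) (g : X → Y → X) (hg : ∀ s y, P s → P (g s y))
    (l : List Y) : ∀ s, P s → P (l.foldl g s) := by
  induction l with
  | nil => intro s hs; exact hs
  | cons a l ih => intro s hs; exact ih _ (hg s a hs)

/-- bound for the size of a product -/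
theorem sz_gmul (N : ℕ) (a b : List ℕ) : sz (gmul N a b) ≤ 60 * N + 60 := by
  unfold gmul
  apply foldl_inv (fun s : List ℕ => sz s ≤ 60 * N + 60)
  · intro s i _
    exact sz_gadd N _ _
  · rw [sz_nil]
    omega

theorem ptime_gmul {N : α → ℕ} {a b : α → List ℕ} (hN : PTime N) (ha : PTime a) (hb : PTime b) :
    PTime (fun x => gmul (N x) (a x) (b x)) := by
  have hay : PTime (fun y : α × List ℕ × ℕ => a y.1) := ha.comp PTime.fst
  have hby : PTime (fun y : α × List ℕ × ℕ => b y.1) := hb.comp PTime.fst
  have hNy : PTime (fun y : α × List ℕ × ℕ => N y.1) := hN.comp PTime.fst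
  have h1 : PTime (fun y : α × List ℕ × ℕ => y.2.1) := by fun_prop
  have h2 : PTime (fun y : α × List ℕ × ℕ => y.2.2) := by fun_prop
  unfold gmul
  refine PTime.foldl (f := fun y : α × List ℕ × ℕ => gadd (N y.1) (gx (N y.1) y.2.1)
    (gsmul (N y.1) ((b y.1).getD y.2.2 0) (a y.1)))
    (PTime.reverse (PTime.range (PTime.natMul (PTime.const 2) hN))) (PTime.const []) ?_
    (B := fun x => 60 * N x + 60) ?_ ?_
  · exact ptime_gadd hNy (ptime_gx hNy h1)
      (ptime_gsmul hNy (PTime.nth hby h2 (PTime.const 0)) hay)
  · have h3 : PB (fun x => 60 * sz (N x) + 60) :=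
      ((PB.const 60).mul hN.sz_le).add (PB.const 60)
    apply h3.mono
    intro x
    rw [sz_nat]
    omega
  · intro x l' _
    apply foldl_inv (fun s : List ℕ => sz s ≤ 60 * N x + 60)
    · intro s i _
      exact sz_gadd (N x) _ _
    · rw [sz_nil]
      omega

theorem ptime_ginv {N : α → ℕ} {a : α → List ℕ} (hN : PTime N) (ha : PTime a) :
    PTime (fun x => ginv (N x) (a x)) := by
  have hNy : PTime (fun y : α × (List ℕ × List ℕ) × ℕ => N y.1) := hN.comp PTime.fst
  have h1 : PTime (fun y : α × (List ℕ × List ℕ) × ℕ => y.2.1.1) := by fun_prop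
  have h2 : PTime (fun y : α × (List ℕ × List ℕ) × ℕ => y.2.1.2) := by fun_prop
  have h3 : PTime (fun y : α × (List ℕ × List ℕ) × ℕ => y.2.2) := by fun_prop
  unfold ginv
  apply PTime.snd.comp
  refine PTime.foldl (f := fun y : α × (List ℕ × List ℕ) × ℕ =>
      (gmul (N y.1) y.2.1.1 y.2.1.1, if y.2.2 = 2 then y.2.1.2 else gmul (N y.1) y.2.1.2 y.2.1.1))
    (PTime.range (PTime.natAdd (PTime.natMul (PTime.const 2) hN) (PTime.const 2)))
    (PTime.prodMk ha (PTime.const [1])) ?_
    (B := fun x => 1 + (sz (a x) + (60 * N x + 60)) + (60 * N x + 60)) ?_ ?_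
  · apply PTime.prodMk (ptime_gmul hNy h1 h1)
    apply PTime.ite (PTime.eq h3 (PTime.const 2)) h2 (ptime_gmul hNy h2 h1)
  · have h3 : PB (fun x => 1 + (sz (a x) + (60 * sz (N x) + 60)) + (60 * sz (N x) + 60)) :=
      ((PB.const 1).add (ha.sz_le.add (((PB.const 60).mul hN.sz_le).add (PB.const 60)))).add
        (((PB.const 60).mul hN.sz_le).add (PB.const 60))
    apply h3.mono
    intro x
    rw [sz_nat]
    omega
  · intro x l' _
    have key := foldl_inv (fun s : List ℕ × List ℕ => sz s.1 ≤ sz (a x) + (60 * N x + 60) ∧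
      sz s.2 ≤ 60 * N x + 60)
      (fun s j => (gmul (N x) s.1 s.1, if j = 2 then s.2 else gmul (N x) s.2 s.1))
      (fun s j hs => by
        refine ⟨?_, ?_⟩
        · have := sz_gmul (N x) s.1 s.1
          simp only
          omega
        · simp only
          split_ifs
          · exact hs.2
          · exact sz_gmul (N x) _ _) l' (a x, [1]) (by
        refine ⟨by simp only; omega, ?_⟩
        simp only [sz_cons, sz_nat, sz_nil]
        omega)
    obtain ⟨k1, k2⟩ := key
    change sz (l'.foldl (fun (s : List ℕ × List ℕ) j =>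
      (gmul (N x) s.1 s.1, if j = 2 then s.2 else gmul (N x) s.2 s.1)) (a x, [1])) ≤ _
    set r := l'.foldl (fun (s : List ℕ × List ℕ) j =>
      (gmul (N x) s.1 s.1, if j = 2 then s.2 else gmul (N x) s.2 s.1)) (a x, [1]) with hr
    have h4 : sz r = 1 + sz r.1 + sz r.2 := sz_pair r.1 r.2
    rw [h4]
    omega

theorem ptime_gunit {N : α → ℕ} {a : α → List ℕ} (hN : PTime N) (ha : PTime a) :
    PTime (fun x => gunit (N x) (a x)) := by
  have hay : PTime (fun y : α × ℕ => a y.1) := ha.comp PTime.fst
  unfold gunit
  refine PTime.any (p := fun x i => decide ((a x).getD i 0 % 2 = 1))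
    (PTime.range (PTime.natMul (PTime.const 2) hN)) ?_
  exact PTime.eq (ptime_mod (PTime.nth hay PTime.snd (PTime.const 0)) 2 (by norm_num))
    (PTime.const 1)

theorem ptime_gzero {N : α → ℕ} {a : α → List ℕ} (hN : PTime N) (ha : PTime a) :
    PTime (fun x => gzero (N x) (a x)) := by
  have hay : PTime (fun y : α × ℕ => a y.1) := ha.comp PTime.fst
  unfold gzero
  refine PTime.all (p := fun x i => decide ((a x).getD i 0 % 8 = 0))
    (PTime.range (PTime.natMul (PTime.const 2) hN)) ?_
  exact PTime.eq (ptime_mod (PTime.nth hay PTime.snd (PTime.const 0)) 8 (by norm_num))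
    (PTime.const 0)

end time

end Pool.Agent.Work.MP_0f7328_co
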