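import Pool.Agent.Work.MP_0f7328_co.TimeA

/-!
The main algorithm runs in polynomial time.
-/

set_option autoImplicit false

namespace Pool.Agent.Work.MP_0f7328_co

open Pool.Agent.Work.PolyTime

section

variable {α β : Type} [Code α] [Code β]

abbrev Mat : Type := List (List (List ℕ))

theorem ptime_mget {N : α → ℕ} {M : α → Mat} {p q : α → ℕ} (hM : PTime M) (hp : PTime p)
    (hq : PTime q) : PTime (fun x => mget (gops (N x)) (M x) (p x) (q x)) := by
  have h : PTime (fun x => ((M x).getD (p x) []).getD (q x) []) :=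
    PTime.nth (PTime.nth hM hp (PTime.const [])) hq (PTime.const [])
  exact h

theorem ptime_upd {N : α → ℕ} {M : α → Mat} {i j : α → ℕ} {c : α → List ℕ} (hN : PTime N)
    (hM : PTime M) (hi : PTime i) (hj : PTime j) (hc : PTime c) :
    PTime (fun x => upd (gops (N x)) (M x) (i x) (j x) (c x)) := by
  have hr : PTime (fun x => List.range (M x).length) := PTime.range (PTime.length hM)
  refine PTime.map hr ?_
  refine PTime.map (hr.comp PTime.fst) ?_
  set γ := (α × ℕ) × ℕ
  have x1 : PTime (fun y : γ => y.1.1) := PTime.fst.comp PTime.fst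
  have p1 : PTime (fun y : γ => y.1.2) := PTime.snd.comp PTime.fst
  have q1 : PTime (fun y : γ => y.2) := PTime.snd
  have N1 := hN.comp x1
  have M1 := hM.comp x1
  have i1 := hi.comp x1
  have j1 := hj.comp x1
  have c1 := hc.comp x1
  have hpq := ptime_mget (N := fun y : γ => N y.1.1) M1 p1 q1
  have hjq := ptime_mget (N := fun y : γ => N y.1.1) M1 j1 q1
  have hpj := ptime_mget (N := fun y : γ => N y.1.1) M1 p1 j1
  have h1 := ptime_gadd N1 hpq (ptime_gmul N1 c1 hjq)
  have h2 := ptime_gadd N1 hpq (ptime_gmul N1 c1 hpj)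
  have h3 := ptime_gadd N1 hpq (PTime.const ([] : List ℕ))
  have epi : PTime (fun y : γ => decide (y.1.2 = i y.1.1)) := PTime.eq p1 i1
  have eqi : PTime (fun y : γ => decide (y.2 = i y.1.1)) := PTime.eq q1 i1
  have d1 : PTime (fun y : γ => decide (y.1.2 = i y.1.1 ∧ y.2 ≠ i y.1.1)) :=
    (PTime.and epi (PTime.not eqi)).code_congr (fun y => by simp)
  have d2 : PTime (fun y : γ => decide (y.2 = i y.1.1 ∧ y.1.2 ≠ i y.1.1)) :=
    (PTime.and eqi (PTime.not epi)).code_congr (fun y => by simp)
  exact PTime.ite d1 h1 (PTime.ite d2 h2 h3)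

theorem foldl_gadd_eq (N : ℕ) (l : List (List ℕ)) :
    sz (l.foldl (gadd N) []) ≤ 60 * N + 60 := by
  induction l using List.reverseRecOn with
  | nil => simp
  | append_singleton l a ih =>
    rw [List.foldl_append]
    exact sz_gadd _ _ _

theorem ptime_osum {N : α → ℕ} {l : α → List (List ℕ)} (hN : PTime N) (hl : PTime l) :
    PTime (fun x => osum (gops (N x)) (l x)) := by
  refine PTime.foldl (f := fun y : α × List ℕ × List ℕ => gadd (N y.1) y.2.1 y.2.2) hl
    (PTime.const []) ?_ (B := fun x => 60 * N x + 60) ?_ ?_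
  · exact ptime_gadd (hN.comp PTime.fst) (by fun_prop) (by fun_prop)
  · refine PB.add (PB.mul (PB.const _) ?_) (PB.const _)
    exact hN.sz_le.mono (fun x => by simp only [sz_nat]; omega)
  · intro x l' _
    exact foldl_gadd_eq (N x) l'

variable {low : ℕ → Mat → List ℕ → List ℕ}

theorem ptime_corr (hlow : PTime (fun y : ℕ × Mat × List ℕ => low y.1 y.2.1 y.2.2))
    {N : α → ℕ} {M : α → Mat} {j : α → ℕ} {c : α → List ℕ} {L : α → List ℕ} (hN : PTime N)
    (hM : PTime M) (hj : PTime j) (hc : PTime c) (hL : PTime L) :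
    PTime (fun x => corr (gops (N x)) (low (N x)) (M x) (j x) (c x) (L x)) := by
  have hs : PTime (fun x => osum (gops (N x)) ((L x).flatMap fun p =>
      ((L x).filter fun q => decide (p < q)).map fun q =>
        (gops (N x)).mul ((gops (N x)).mul (mget (gops (N x)) (M x) (j x) p)
          (mget (gops (N x)) (M x) (j x) q)) (low (N x) (M x) (((L x).erase p).erase q)))) := by
    refine ptime_osum hN ?_
    refine PTime.flatMap hL ?_
    refine PTime.map (PTime.filter (hL.comp PTime.fst) ?_) ?_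
    · exact PTime.natLt (PTime.snd.comp PTime.fst) PTime.snd
    · set γ := (α × ℕ) × ℕ
      have x1 : PTime (fun y : γ => y.1.1) := PTime.fst.comp PTime.fst
      have p1 : PTime (fun y : γ => y.1.2) := PTime.snd.comp PTime.fst
      have q1 : PTime (fun y : γ => y.2) := PTime.snd
      have N1 := hN.comp x1
      have M1 := hM.comp x1
      have j1 := hj.comp x1
      have L1 := hL.comp x1
      have e1 : PTime (fun y : γ => ((L y.1.1).erase y.1.2).erase y.2) :=
        ptime_erase (ptime_erase L1 p1) q1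
      have l1 : PTime (fun y : γ => low (N y.1.1) (M y.1.1) (((L y.1.1).erase y.1.2).erase y.2)) :=
        hlow.comp (PTime.prodMk N1 (PTime.prodMk M1 e1))
      exact ptime_gmul N1 (ptime_gmul N1 (ptime_mget (N := fun y : γ => N y.1.1) M1 j1 p1)
        (ptime_mget (N := fun y : γ => N y.1.1) M1 j1 q1)) l1
  exact ptime_gmul hN hc (ptime_gadd hN hs hs)

theorem ptime_elim1 (hlow : PTime (fun y : ℕ × Mat × List ℕ => low y.1 y.2.1 y.2.2))
    {N : α → ℕ} {i₀ j i : α → ℕ} {S : α → List ℕ} {s : α → Mat × List ℕ} (hN : PTime N)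
    (h0 : PTime i₀) (hj : PTime j) (hi : PTime i) (hS : PTime S) (hs : PTime s) :
    PTime (fun x => elim1 (gops (N x)) (low (N x)) (i₀ x) (j x) (S x) (s x) (i x)) := by
  have hM : PTime (fun x => (s x).1) := PTime.fst.comp hs
  have ha : PTime (fun x => (s x).2) := PTime.snd.comp hs
  have h7 : PTime (fun _ : α => 7) := PTime.const 7
  have hc : PTime (fun x => gsmul (N x) 7 (gmul (N x) (mget (gops (N x)) (s x).1 (i₀ x) (i x))
      (ginv (N x) (mget (gops (N x)) (s x).1 (i₀ x) (j x))))) :=
    ptime_gsmul hN h7 (ptime_gmul hN (ptime_mget (N := N) hM h0 hi)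
      (ptime_ginv hN (ptime_mget (N := N) hM h0 hj)))
  exact PTime.prodMk (ptime_upd hN hM hi hj hc) (ptime_gadd hN ha (ptime_gsmul hN h7
    (ptime_corr hlow hN hM hj hc (ptime_erase (ptime_erase hS hi) hj))))

/-- bound for the matrices that occur -/
def matB (N m : ℕ) : ℕ := 1 + m * (1 + (1 + m * (1 + (60 * N + 60))))

theorem length_upd (o : Ops (List ℕ)) (M : Mat) (i j : ℕ) (c : List ℕ) :
    (upd o M i j c).length = M.length := by simp [upd]

theorem sz_upd (N : ℕ) (M : Mat) (i j : ℕ) (c : List ℕ) :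
    sz (upd (gops N) M i j c) ≤ matB N M.length := by
  unfold upd matB
  refine (sz_list_le _ (1 + M.length * (1 + (60 * N + 60))) ?_).trans ?_
  · intro row hrow
    obtain ⟨p, hp, rfl⟩ := List.mem_map.1 hrow
    refine (sz_list_le _ (60 * N + 60) ?_).trans ?_
    · intro a ha
      obtain ⟨q, hq, rfl⟩ := List.mem_map.1 ha
      split_ifs <;> exact sz_gadd _ _ _
    · simp
  · simp

/-- what is known of the state of the elimination -/
def EInv (N m B : ℕ) (s : Mat × List ℕ) : Prop :=
  s.1.length = m ∧ sz s.1 ≤ B + matB N m ∧ sz s.2 ≤ 60 * N + 60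

theorem einv_elim1 (low' : Mat → List ℕ → List ℕ) (N m B i₀ j : ℕ) (S : List ℕ) (s : Mat × List ℕ)
    (i : ℕ) (h : EInv N m B s) : EInv N m B (elim1 (gops N) low' i₀ j S s i) := by
  obtain ⟨h1, h2, h3⟩ := h
  refine ⟨?_, ?_, ?_⟩
  · simp only [elim1, length_upd]; exact h1
  · refine (sz_upd N s.1 i j _).trans ?_
    rw [h1]; omega
  · exact sz_gadd _ _ _

theorem einv_fold (low' : Mat → List ℕ → List ℕ) (N m B i₀ j : ℕ) (S : List ℕ) (l : List ℕ)
    (s : Mat × List ℕ) (h : EInv N m B s) :
    EInv N m B (l.foldl (elim1 (gops N) low' i₀ j S) s) := by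
  induction l generalizing s with
  | nil => exact h
  | cons i l ih => exact ih _ (einv_elim1 low' N m B i₀ j S s i h)

theorem pb_matB {N m : α → ℕ} (hN : PB N) (hm : PB m) : PB (fun x => matB (N x) (m x)) := by
  unfold matB
  exact PB.add (PB.const _) (PB.mul hm (PB.add (PB.const _) (PB.add (PB.const _) (PB.mul hm
    (PB.add (PB.const _) (PB.add (PB.mul (PB.const _) hN) (PB.const _)))))))

theorem pb_nat {N : α → ℕ} (hN : PTime N) : PB N :=
  hN.sz_le.mono (fun x => by simp only [sz_nat]; omega)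

theorem pb_length {l : α → List β} (hl : PTime l) : PB (fun x => (l x).length) :=
  hl.sz_le.mono (fun x => (length_lt_sz _).le)

theorem ptime_efold (hlow : PTime (fun y : ℕ × Mat × List ℕ => low y.1 y.2.1 y.2.2))
    {N : α → ℕ} {i₀ j : α → ℕ} {S l : α → List ℕ} {M : α → Mat} (hN : PTime N)
    (h0 : PTime i₀) (hj : PTime j) (hS : PTime S) (hl : PTime l) (hM : PTime M) :
    PTime (fun x => (l x).foldl (elim1 (gops (N x)) (low (N x)) (i₀ x) (j x) (S x)) (M x, [])) := by
  refine PTime.foldl (f := fun y : α × (Mat × List ℕ) × ℕ =>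
    elim1 (gops (N y.1)) (low (N y.1)) (i₀ y.1) (j y.1) (S y.1) y.2.1 y.2.2) hl
    (PTime.prodMk hM (PTime.const [])) ?_
    (B := fun x => 1 + (sz (M x) + matB (N x) (M x).length) + (60 * N x + 60)) ?_ ?_
  · exact ptime_elim1 hlow (hN.comp PTime.fst) (h0.comp PTime.fst) (hj.comp PTime.fst)
      (PTime.snd.comp PTime.snd) (hS.comp PTime.fst) (PTime.fst.comp PTime.snd)
  · exact PB.add (PB.add (PB.const _) (PB.add hM.sz_le (pb_matB (pb_nat hN) (pb_length hM))))
      (PB.add (PB.mul (PB.const _) (pb_nat hN)) (PB.const _))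
  · intro x l' _
    have h := einv_fold (low (N x)) (N x) (M x).length (sz (M x)) (i₀ x) (j x) (S x) l' (M x, [])
      ⟨rfl, by simp only; omega, by simp⟩
    obtain ⟨h1, h2, h3⟩ := h
    rw [sz_pair]
    exact Nat.add_le_add (Nat.add_le_add le_rfl h2) h3

abbrev St : Type := Mat × List ℕ × List ℕ × List ℕ

theorem ptime_step (hlow : PTime (fun y : ℕ × Mat × List ℕ => low y.1 y.2.1 y.2.2))
    {N : α → ℕ} {s : α → St} (hN : PTime N) (hs : PTime s) :
    PTime (fun x => step (gops (N x)) (low (N x)) (s x)) := by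
  have hM : PTime (fun x => (s x).1) := PTime.fst.comp hs
  have hS : PTime (fun x => (s x).2.1) := PTime.fst.comp (PTime.snd.comp hs)
  have hm : PTime (fun x => (s x).2.2.1) := PTime.fst.comp (PTime.snd.comp (PTime.snd.comp hs))
  have ha : PTime (fun x => (s x).2.2.2) := PTime.snd.comp (PTime.snd.comp (PTime.snd.comp hs))
  -- inner function on (x, i₀, t)
  have key : PTime (fun z : α × ℕ × List ℕ =>
      match z.2.2.find? (fun j => gunit (N z.1) (mget (gops (N z.1)) (s z.1).1 z.2.1 j)) with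
      | none => ((s z.1).1, ([] : List ℕ), ([] : List ℕ), gadd (N z.1) (s z.1).2.2.2
          (gmul (N z.1) (s z.1).2.2.1 (osum (gops (N z.1)) (z.2.2.map fun j =>
            gmul (N z.1) (mget (gops (N z.1)) (s z.1).1 z.2.1 j)
              (low (N z.1) (s z.1).1 (z.2.2.erase j))))))
      | some j =>
        let r := (z.2.2.erase j).foldl (elim1 (gops (N z.1)) (low (N z.1)) z.2.1 j (s z.1).2.1)
          ((s z.1).1, [])
        (r.1, z.2.2.erase j, gmul (N z.1) (s z.1).2.2.1 (mget (gops (N z.1)) (s z.1).1 z.2.1 j),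
          gadd (N z.1) (s z.1).2.2.2 (gmul (N z.1) (s z.1).2.2.1 r.2))) := by
    have z1 : PTime (fun z : α × ℕ × List ℕ => z.1) := PTime.fst
    have N1 := hN.comp z1
    have M1 := hM.comp z1
    have S1 := hS.comp z1
    have m1 := hm.comp z1
    have a1 := ha.comp z1
    have i1 : PTime (fun z : α × ℕ × List ℕ => z.2.1) := PTime.fst.comp PTime.snd
    have t1 : PTime (fun z : α × ℕ × List ℕ => z.2.2) := PTime.snd.comp PTime.snd
    have hf : PTime (fun z : α × ℕ × List ℕ => z.2.2.find? (fun j => gunit (N z.1)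
        (mget (gops (N z.1)) (s z.1).1 z.2.1 j))) := by
      refine ptime_find t1 ?_
      exact ptime_gunit (N1.comp PTime.fst) (ptime_mget (N := fun y : (α × ℕ × List ℕ) × ℕ => N y.1.1)
        (M1.comp PTime.fst) (i1.comp PTime.fst) PTime.snd)
    refine PTime.optionCases (o := fun z : α × ℕ × List ℕ => z.2.2.find? (fun j => gunit (N z.1)
        (mget (gops (N z.1)) (s z.1).1 z.2.1 j))) hf
      (g := fun z => ((s z.1).1, ([] : List ℕ), ([] : List ℕ), gadd (N z.1) (s z.1).2.2.2
          (gmul (N z.1) (s z.1).2.2.1 (osum (gops (N z.1)) (z.2.2.map fun j =>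
            gmul (N z.1) (mget (gops (N z.1)) (s z.1).1 z.2.1 j)
              (low (N z.1) (s z.1).1 (z.2.2.erase j)))))))
      (h := fun y : (α × ℕ × List ℕ) × ℕ =>
        let r := (y.1.2.2.erase y.2).foldl (elim1 (gops (N y.1.1)) (low (N y.1.1)) y.1.2.1 y.2
          (s y.1.1).2.1) ((s y.1.1).1, [])
        (r.1, y.1.2.2.erase y.2, gmul (N y.1.1) (s y.1.1).2.2.1
          (mget (gops (N y.1.1)) (s y.1.1).1 y.1.2.1 y.2),
          gadd (N y.1.1) (s y.1.1).2.2.2 (gmul (N y.1.1) (s y.1.1).2.2.1 r.2))) ?_ ?_ ?_ ?_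
    · refine PTime.prodMk M1 (PTime.prodMk (PTime.const _) (PTime.prodMk (PTime.const _)
        (ptime_gadd N1 a1 (ptime_gmul N1 m1 (ptime_osum N1 ?_)))))
      refine PTime.map t1 ?_
      refine ptime_gmul (N1.comp PTime.fst) (ptime_mget (N := fun y : (α × ℕ × List ℕ) × ℕ => N y.1.1)
        (M1.comp PTime.fst) (i1.comp PTime.fst) PTime.snd) ?_
      exact hlow.comp (PTime.prodMk (N1.comp PTime.fst) (PTime.prodMk (M1.comp PTime.fst)
        (ptime_erase (t1.comp PTime.fst) PTime.snd)))
    · have y1 : PTime (fun y : (α × ℕ × List ℕ) × ℕ => y.1) := PTime.fst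
      have j2 : PTime (fun y : (α × ℕ × List ℕ) × ℕ => y.2) := PTime.snd
      have N2 := N1.comp y1
      have M2 := M1.comp y1
      have S2 := S1.comp y1
      have m2 := m1.comp y1
      have a2 := a1.comp y1
      have i2 := i1.comp y1
      have t2 := t1.comp y1
      have e2 := ptime_erase t2 j2
      have r2 := ptime_efold hlow N2 i2 j2 S2 e2 M2
      exact PTime.prodMk (PTime.fst.comp r2) (PTime.prodMk e2 (PTime.prodMk
        (ptime_gmul N2 m2 (ptime_mget (N := fun y : (α × ℕ × List ℕ) × ℕ => N y.1.1) M2 i2 j2))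
        (ptime_gadd N2 a2 (ptime_gmul N2 m2 (PTime.snd.comp r2)))))
    · intro z hz
      simp only [hz]
    · intro z b hz
      simp only [hz]
  refine PTime.listCases (l := fun x => (s x).2.1) hS (g := s)
    (h := fun z : α × ℕ × List ℕ =>
      match z.2.2.find? (fun j => gunit (N z.1) (mget (gops (N z.1)) (s z.1).1 z.2.1 j)) with
      | none => ((s z.1).1, ([] : List ℕ), ([] : List ℕ), gadd (N z.1) (s z.1).2.2.2
          (gmul (N z.1) (s z.1).2.2.1 (osum (gops (N z.1)) (z.2.2.map fun j =>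
            gmul (N z.1) (mget (gops (N z.1)) (s z.1).1 z.2.1 j)
              (low (N z.1) (s z.1).1 (z.2.2.erase j))))))
      | some j =>
        let r := (z.2.2.erase j).foldl (elim1 (gops (N z.1)) (low (N z.1)) z.2.1 j (s z.1).2.1)
          ((s z.1).1, [])
        (r.1, z.2.2.erase j, gmul (N z.1) (s z.1).2.2.1 (mget (gops (N z.1)) (s z.1).1 z.2.1 j),
          gadd (N z.1) (s z.1).2.2.2 (gmul (N z.1) (s z.1).2.2.1 r.2))) hs key ?_ ?_
  · intro x hx
    unfold step
    rw [hx]
  · intro x i₀ t hx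
    unfold step
    rw [hx]
    rfl

theorem sz_sublist {l m : List β} (h : l.Sublist m) : sz l ≤ sz m := by
  induction h with
  | slnil => exact le_rfl
  | cons a _ ih => simp only [sz_cons]; omega
  | cons_cons a _ ih => simp only [sz_cons]; omega

/-- what is known of the state of the main loop -/
def SInv (N m B b : ℕ) (s : St) : Prop :=
  s.1.length = m ∧ sz s.1 ≤ B + matB N m ∧ sz s.2.1 ≤ b ∧ sz s.2.2.1 ≤ 60 * N + 60 ∧
    sz s.2.2.2 ≤ 60 * N + 60

theorem sinv_step (low' : Mat → List ℕ → List ℕ) (N m B b : ℕ) (s : St)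
    (h : SInv N m B b s) : SInv N m B b (step (gops N) low' s) := by
  obtain ⟨h1, h2, h3, h4, h5⟩ := h
  unfold step
  split
  · exact ⟨h1, h2, h3, h4, h5⟩
  · next i₀ t ht =>
    split
    · refine ⟨h1, h2, ?_, ?_, sz_gadd _ _ _⟩
      · simp only [sz_nil]; exact (sz_pos _).trans h3
      · simp [gops]
    · next j hj =>
      have hE := einv_fold low' N m B i₀ j s.2.1 (t.erase j) (s.1, []) ⟨h1, h2, by simp⟩
      refine ⟨hE.1, hE.2.1, ?_, sz_gmul _ _ _, sz_gadd _ _ _⟩
      have h6 : sz (t.erase j) ≤ sz t := sz_sublist List.erase_sublist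
      rw [ht, sz_cons] at h3
      simp only
      omega

theorem ptime_hk (k : ℕ) : PTime (fun y : ℕ × Mat × List ℕ => hk (gops y.1) k y.2.1 y.2.2) := by
  induction k with
  | zero => exact PTime.const _
  | succ k ih =>
    have hN : PTime (fun y : ℕ × Mat × List ℕ => y.1) := PTime.fst
    have hM : PTime (fun y : ℕ × Mat × List ℕ => y.2.1) := PTime.fst.comp PTime.snd
    have hS : PTime (fun y : ℕ × Mat × List ℕ => y.2.2) := PTime.snd.comp PTime.snd
    have hf : PTime (fun y : ℕ × Mat × List ℕ => y.2.2.foldl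
        (fun s _ => step (gops y.1) (hk (gops y.1) k) s) (y.2.1, y.2.2, [1], [])) := by
      refine PTime.foldl (f := fun z : (ℕ × Mat × List ℕ) × St × ℕ =>
        step (gops z.1.1) (hk (gops z.1.1) k) z.2.1) hS
        (PTime.prodMk hM (PTime.prodMk hS (PTime.const _))) ?_
        (B := fun y => 1 + (sz y.2.1 + matB y.1 y.2.1.length) + (1 + sz y.2.2 +
          (1 + (60 * y.1 + 60) + (60 * y.1 + 60)))) ?_ ?_
      · exact ptime_step (low := fun N => hk (gops N) k) ih (hN.comp PTime.fst)
          (PTime.fst.comp PTime.snd)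
      · have hB := PB.add (PB.mul (PB.const 60) (pb_nat hN)) (PB.const 60)
        exact PB.add (PB.add (PB.const _) (PB.add hM.sz_le (pb_matB (pb_nat hN) (pb_length hM))))
          (PB.add (PB.add (PB.const _) hS.sz_le) (PB.add (PB.add (PB.const _) hB) hB))
      · intro y l' _
        have key : ∀ (l' : List ℕ) (s : St), SInv y.1 y.2.1.length (sz y.2.1) (sz y.2.2) s →
            SInv y.1 y.2.1.length (sz y.2.1) (sz y.2.2)
              (l'.foldl (fun s _ => step (gops y.1) (hk (gops y.1) k) s) s) := by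
          intro l'
          induction l' with
          | nil => intro s h; exact h
          | cons a l' ih => intro s h; exact ih _ (sinv_step _ _ _ _ _ _ h)
        obtain ⟨-, h2, h3, h4, h5⟩ := key l' (y.2.1, y.2.2, [1], [])
          ⟨rfl, by simp only; omega, le_rfl, by simp only [sz_cons, sz_nil, sz_nat]; omega,
            by simp only [sz_nil]; omega⟩
        rw [sz_pair, sz_pair, sz_pair]
        exact Nat.add_le_add (Nat.add_le_add le_rfl h2) (Nat.add_le_add (Nat.add_le_add le_rfl h3)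
          (Nat.add_le_add (Nat.add_le_add le_rfl h4) h5))
    exact ptime_gadd hN (PTime.snd.comp (PTime.snd.comp (PTime.snd.comp hf)))
      (PTime.fst.comp (PTime.snd.comp (PTime.snd.comp hf)))

end

end Pool.Agent.Work.MP_0f7328_co
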